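import Mathlib

namespace Pool.Agent.Work.MP_418764_co

/-- The lexicographic product `C[K_m]`: `(u,i)` is adjacent to `(v,j)` iff `uv` is an edge of `C`,
or `u = v` and `i ≠ j`. -/
def lexK {α : Type} (C : SimpleGraph α) (m : ℕ) : SimpleGraph (α × Fin m) where
  Adj x y := C.Adj x.1 y.1 ∨ (x.1 = y.1 ∧ x.2 ≠ y.2)
  symm := ⟨fun _ _ h => h.elim (fun h => Or.inl h.symm) (fun h => Or.inr ⟨h.1.symm, h.2.symm⟩)⟩
  loopless := ⟨fun _ h => h.elim (fun h => C.irrefl h) (fun h => h.2 rfl)⟩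

/-- The exponential graph `K_n^G` (loops removed): the vertices are all maps `V(G) → [n]`, and
distinct `f`, `g` are adjacent iff `f x ≠ g y` for every edge `xy` of `G`. -/
def expGraph {β : Type} (G : SimpleGraph β) (n : ℕ) : SimpleGraph (β → Fin n) where
  Adj f g := f ≠ g ∧ ∀ x y, G.Adj x y → f x ≠ g y
  symm := ⟨fun _ _ h => ⟨h.1.symm, fun x y hxy => (h.2 y x hxy.symm).symm⟩⟩
  loopless := ⟨fun _ h => h.1 rfl⟩

end Pool.Agent.Work.MP_418764_co
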