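import Pool.Agent.Work.MP_418764_co.ASide
import Pool.Agent.Work.MP_418764_co.Defs
import Mathlib

-- merged part: Pool.Agent.Work.MP_418764_co.ASt
section
namespace Pool.Agent.Work.MP_418764_co.All
open Finset Function Classical

variable {V C Λ ι : Type} [Fintype V] [Fintype C] [Fintype Λ]

/-- The part of the state that concerns the tokens only. -/
structure StT (G : SimpleGraph V) (c : ℝ) (Tk : ι → (V → C) → C → Λ → Prop) (DT NT : ι → Set V)
    (ok fa : ι → ι → Prop) (lab : ι → Λ → Prop) (K : ℕ) (ε : ℝ) : Prop where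
  tt : ∀ τ τ', ok τ τ' → ∀ l, Cross G K (DT τ) (DT τ') (DT τ ∩ NT τ') (DT τ' ∩ NT τ)
    (fun μ x => Tk τ μ x l) fun μ x => Tk τ' μ x l
  far : ∀ τ τ', fa τ τ' → ∀ κ x l, Proper G κ → Tk τ κ x l → Tk τ' κ x l → False
  un : ∀ τ κ x l, Tk τ κ x l → x ∈ Un κ
  tg : ∀ τ κ x l, Tk τ κ x l → lab τ l
  aty : (atyp G C c : ℝ) ≤ ε * (Om G C).card
  tv : ∀ τ, (npairs G (fun κ x => x ∈ Un κ ∧ ¬ ∃ l, Tk τ κ x l) : ℝ) ≤
    ε * (Om G C).card * Fintype.card C

/-- The part of the state that concerns the label system. -/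
structure StR (G : SimpleGraph V) (ρ : (V → C) → C → Λ → Prop) (Dep : Λ → Set V)
    (Tk : ι → (V → C) → C → Λ → Prop) (DT NT : ι → Set V) (E K : ℕ) (ε : ℝ) : Prop where
  rr : ∀ l, Cross G K (Dep l) (Dep l) (Dep l) (Dep l) (fun μ x => ρ μ x l) fun μ x => ρ μ x l
  rt : ∀ τ l, Cross G K (Dep l) (DT τ) (Dep l ∩ NT τ) (DT τ) (fun μ x => ρ μ x l)
    fun μ x => Tk τ μ x l
  inv : (npairs G (fun κ x => x ∈ Un κ ∧ cnt (ρ κ x) < E) : ℝ) ≤
    ε * (Om G C).card * Fintype.card C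

/-- Output of the step lemma. -/
structure StS (G : SimpleGraph V) (fib : V → ℤ) (S : ℤ → (V → C) → C → Λ → Prop)
    (Dep : Λ → Set V) (Tp : ι → (V → C) → C → Λ → Prop) (DT NT : ι → Set V) (E K : ℕ) (η : ℝ) :
    Prop where
  ss : ∀ F F' l, Cross G K (Dep l) (Dep l) (Dep l) (Dep l) (fun μ x => S F μ x l)
    fun μ x => S F' μ x l
  st : ∀ F τ l, Cross G K (Dep l) (DT τ) (Dep l ∩ NT τ) (DT τ) (fun μ x => S F μ x l)
    fun μ x => Tp τ μ x l
  b1 : ∀ F F' κ z l, S F κ z l → S F' κ z l → F ≤ F' + 1 ∧ ∃ q ∈ Dep l, fib q = F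
  b3 : ∀ F τ κ z l, S F κ z l → Tp τ κ z l → ∃ q ∈ NT τ, fib q = F
  big : (npairs G (fun κ z => z ∈ Un κ ∧ ¬ ((∀ τ, ∃ l, Tp τ κ z l) ∧
    2 * E ≤ ∑ F ∈ univ.image fib, cnt (S F κ z) + 1)) : ℝ) ≤ η * (Om G C).card * Fintype.card C

theorem PathCl.fibre_le {G : SimpleGraph V} {fib : V → ℤ} {N m : ℕ} (h : PathCl G fib N m)
    (F : ℤ) : (univ.filter fun q => fib q = F).card ≤ m := by
  by_cases e : 0 ≤ F ∧ F < N
  · exact (h.size F e.1 e.2).le
  · rw [filter_false_of_mem fun q _ (hq : fib q = F) => e (hq ▸ h.rng q)]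
    simp

theorem PathCl.image_le {G : SimpleGraph V} {fib : V → ℤ} {N m : ℕ} (h : PathCl G fib N m) :
    (univ.image fib).card ≤ N := by
  refine (card_le_card (t := Ico (0 : ℤ) N) fun F hF => ?_).trans (by simp)
  obtain ⟨q, -, rfl⟩ := mem_image.1 hF
  exact mem_Ico.2 (h.rng q)

theorem step_st (N E T K' : ℕ) (c lam γ η : ℝ) (hc : 0 < c) (hcN : c ≤ N) (hlam : 0 < lam)
    (hγ : 0 < γ) (hη : 0 < η) :
    ∃ ε : ℝ, 0 < ε ∧ ∃ K ν0 : ℕ, ∀ (V C Λ ι : Type) [Fintype V] [Fintype C]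
      [Fintype Λ] [Fintype ι] (G : SimpleGraph V) (fib : V → ℤ) (m : ℕ)
      (ρ : (V → C) → C → Λ → Prop) (Dep : Λ → Set V) (Tk : ι → (V → C) → C → Λ → Prop)
      (DT NT : ι → Set V) (ok fa : ι → ι → Prop) (lab : ι → Λ → Prop), ν0 ≤ Fintype.card C →
      m ≤ Fintype.card C → (Fintype.card Λ : ℝ) ≤ lam * Fintype.card C → Fintype.card ι ≤ T →
      PathCl G fib N m → (∀ τ, ok τ τ) →
      (2 * (E : ℝ) - 2) * m < E * Fintype.card C - Fintype.card Λ - γ * Fintype.card C →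
      StT G c Tk DT NT ok fa lab K ε → StR G ρ Dep Tk DT NT E K ε →
      ∃ (S : ℤ → (V → C) → C → Λ → Prop) (Tp : ι → (V → C) → C → Λ → Prop),
        StT G c Tp DT NT ok fa lab K' η ∧ StS G fib S Dep Tp DT NT E K' η := by
  obtain ⟨ε, εp, εη, K, ν0, hK, H⟩ := step N E T K' c lam γ η hc hcN hlam hγ hη
  refine ⟨ε, εp, K, ν0, ?_⟩
  intro V C Λ ι _ _ _ _ G fib m ρ Dep Tk DT NT ok fa lab hν hm hΛ hT hG hok hnum sT sR
  obtain ⟨S, Tp, h1, h2, h3, h4, h5, h6⟩ := H V C Λ ι G fib m ρ Dep Tk DT NT hν hm hΛ hT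
    hG.fibre_le hG.image_le (fun p p' e hne => (hG.adj p p').2 ⟨hne, by omega, by omega⟩) sR.rr
    sR.rt (fun τ l => (sT.tt τ τ (hok τ) l).mono le_rfl (Set.subset_univ _) (Set.subset_univ _)
      (Set.subset_univ _) (Set.subset_univ _) (fun _ _ h => h) fun _ _ h => h) sT.un sT.aty sR.inv
    sT.tv
  refine ⟨S, Tp, ⟨fun τ τ' h l => (sT.tt τ τ' h l).mono hK le_rfl le_rfl le_rfl le_rfl
    (fun _ _ => h1 τ _ _ l) fun _ _ => h1 τ' _ _ l,
    fun τ τ' h κ x l hκ a b => sT.far τ τ' h κ x l hκ (h1 _ _ _ _ a) (h1 _ _ _ _ b),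
    fun τ κ x l h => sT.un τ κ x l (h1 _ _ _ _ h), fun τ κ x l h => sT.tg τ κ x l (h1 _ _ _ _ h),
    sT.aty.trans (by gcongr), fun τ => le_trans (Nat.cast_le.2 (npairs_mono fun κ x _ hx =>
      ⟨hx.1, fun h => hx.2 (h.1 τ)⟩)) h6⟩, h2, h3, fun F F' κ z l a b => ?_, h5,
    le_trans (Nat.cast_le.2 (npairs_mono fun κ x _ hx => ⟨hx.1, fun h => hx.2 ⟨h.1, ?_⟩⟩)) h6⟩
  · obtain ⟨q, q', a1, -, a3, a4, a5⟩ := h4 F F' κ z l a b
    exact ⟨a3 ▸ a4 ▸ ((hG.adj q q').1 a5).2.1, q, a1, a3⟩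
  · have a1 := hnum.trans_le h.2
    generalize ∑ F ∈ univ.image fib, cnt (S F κ x) = s at a1 ⊢
    rw [mul_comm] at a1
    have a2 := lt_of_mul_lt_mul_left a1 (Nat.cast_nonneg m)
    have a3 : ((2 * E : ℕ) : ℝ) < (s + 2 : ℕ) := by push_cast; linarith only [a2]
    have := Nat.cast_lt.1 a3
    omega

/-- Adjoining some tokens to the borrowed labels gives a new disjoint system. -/
theorem adjoin {G : SimpleGraph V} {fib : V → ℤ} {c η : ℝ} {S : ℤ → (V → C) → C → Λ → Prop}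
    {Dep Dep' : Λ → Set V} {Tp : ι → (V → C) → C → Λ → Prop} {DT NT : ι → Set V}
    {ok fa : ι → ι → Prop} {lab : ι → Λ → Prop} {E K : ℕ} (sT : StT G c Tp DT NT ok fa lab K η)
    (sS : StS G fib S Dep Tp DT NT E K η) (A : ι → Prop) (l : Λ) (h1 : Dep l ⊆ Dep' l)
    (h2 : ∀ τ, A τ → lab τ l → DT τ ⊆ Dep' l) :
    ((∀ τ τ', A τ → A τ' → ok τ τ') → Cross G K (Dep' l) (Dep' l) (Dep' l) (Dep' l)
      (fun μ x => (∃ F, S F μ x l) ∨ ∃ τ, A τ ∧ Tp τ μ x l)
      fun μ x => (∃ F, S F μ x l) ∨ ∃ τ, A τ ∧ Tp τ μ x l) ∧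
    ∀ τ', (∀ τ, A τ → ok τ τ') → Cross G K (Dep' l) (DT τ') (Dep' l ∩ NT τ') (DT τ')
      (fun μ x => (∃ F, S F μ x l) ∨ ∃ τ, A τ ∧ Tp τ μ x l) fun μ x => Tp τ' μ x l := by
  have k2 : ∀ τ', (∀ τ, A τ → ok τ τ') → Cross G K (Dep' l) (DT τ') (Dep' l ∩ NT τ') (DT τ')
      (fun μ x => (∃ F, S F μ x l) ∨ ∃ τ, A τ ∧ Tp τ μ x l) fun μ x => Tp τ' μ x l := by
    rintro τ' hok κ κ' x x' (⟨F, a⟩ | ⟨τ, hτ, a⟩) b
    · exact (sS.st F τ' l).mono le_rfl h1 le_rfl (Set.inter_subset_inter_left _ h1) le_rfl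
        (fun _ _ h => h) (fun _ _ h => h) κ κ' x x' a b
    · have h3 := h2 τ hτ (sT.tg τ _ _ l a)
      exact (sT.tt τ τ' (hok τ hτ) l).mono le_rfl h3 le_rfl (Set.inter_subset_inter_left _ h3)
        Set.inter_subset_left (fun _ _ h => h) (fun _ _ h => h) κ κ' x x' a b
  refine ⟨fun hok => ?_, k2⟩
  rintro κ κ' x x' a (⟨F', b⟩ | ⟨τ', hτ', b⟩)
  · rcases a with ⟨F, a⟩ | ⟨τ, hτ, a⟩
    · exact (sS.ss F F' l).mono le_rfl h1 h1 h1 h1 (fun _ _ h => h) (fun _ _ h => h) κ κ' x x' a b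
    · have h3 := h2 τ hτ (sT.tg τ _ _ l a)
      exact (sS.st F' τ l).symm.mono le_rfl h3 h1 h3 (Set.inter_subset_left.trans h1)
        (fun _ _ h => h) (fun _ _ h => h) κ κ' x x' a b
  · have h3 := h2 τ' hτ' (sT.tg τ' _ _ l b)
    exact (k2 τ' fun τ hτ => hok τ τ' hτ hτ').mono le_rfl le_rfl h3 Set.inter_subset_left h3
      (fun _ _ h => h) (fun _ _ h => h) κ κ' x x' a b

theorem deg_le_two (Fs : Finset ℤ) {P : ℤ → Prop} (h : ∀ F F', P F → P F' → F ≤ F' + 1) :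
    (Fs.filter P).card ≤ 2 := by
  rcases (Fs.filter P).eq_empty_or_nonempty with e | e
  · simp [e]
  · refine (card_le_card (t := {(Fs.filter P).min' e, (Fs.filter P).min' e + 1}) fun F hF => ?_).trans
      card_le_two
    have h1 := min'_le _ F hF
    have h2 := h F _ (mem_filter.1 hF).2 (mem_filter.1 (min'_mem _ e)).2
    simp only [mem_insert, mem_singleton]
    omega

theorem deg_le_one (Fs : Finset ℤ) {P : ℤ → Prop} (h : ∀ F F', P F → P F' → F = F') :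
    (Fs.filter P).card ≤ 1 :=
  card_le_one.2 fun F hF F' hF' => h F F' (mem_filter.1 hF).2 (mem_filter.1 hF').2

/-- Degree count. -/
theorem deg_sum (Fs : Finset ℤ) {S : ℤ → Λ → Prop} {R : Λ → Prop}
    (h : ∀ F F' l, S F l → S F' l → F ≤ F' + 1) (hR : ∀ F l, S F l → R l) (X : Finset Λ)
    (hX : ∀ l ∈ X, R l) :
    ∑ F ∈ Fs, cnt (S F) + 2 * X.card ≤
      2 * cnt R + ∑ l ∈ X, (Fs.filter fun F => S F l).card := by
  have h1 : ∑ F ∈ Fs, cnt (S F) = ∑ l ∈ univ.filter R, (Fs.filter fun F => S F l).card := by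
    simp only [cnt, card_filter]
    rw [sum_comm, sum_filter]
    refine sum_congr rfl fun l _ => ?_
    split_ifs with e
    · rfl
    · exact sum_eq_zero fun F _ => if_neg fun e' => e (hR F l e')
  have h2 : X ⊆ univ.filter R := fun l hl => mem_filter.2 ⟨mem_univ _, hX l hl⟩
  have h3 := sum_le_card_nsmul (univ.filter R \ X) (fun l => (Fs.filter fun F => S F l).card) 2
    fun l _ => deg_le_two Fs fun F F' => h F F' l
  have h4 := card_sdiff_add_card_eq_card h2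
  rw [h1, ← sum_sdiff h2, cnt]
  rw [smul_eq_mul] at h3
  omega

theorem deg_one (Fs : Finset ℤ) {S : ℤ → Λ → Prop} {R : Λ → Prop}
    (h : ∀ F F' l, S F l → S F' l → F ≤ F' + 1) (hR : ∀ F l, S F l → R l) {l1 : Λ} (r1 : R l1)
    (d1 : ∀ F F', S F l1 → S F' l1 → F = F') : ∑ F ∈ Fs, cnt (S F) + 1 ≤ 2 * cnt R := by
  have h1 := deg_sum Fs h hR {l1} (by simpa using r1)
  have h2 := deg_le_one Fs d1
  rw [card_singleton, sum_singleton] at h1
  omega

theorem deg_two (Fs : Finset ℤ) {S : ℤ → Λ → Prop} {R : Λ → Prop}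
    (h : ∀ F F' l, S F l → S F' l → F ≤ F' + 1) (hR : ∀ F l, S F l → R l) {l1 l2 : Λ}
    (r1 : R l1) (r2 : R l2) (d1 : ∀ F F', S F l1 → S F' l1 → F = F')
    (d2 : ∀ F F', S F l2 → S F' l2 → F = F') (d0 : l1 = l2 → ∀ F, ¬ S F l1) :
    ∑ F ∈ Fs, cnt (S F) + 2 ≤ 2 * cnt R := by
  by_cases e : l1 = l2
  · have h1 := deg_sum Fs h hR {l1} (by simpa using r1)
    rw [card_singleton, sum_singleton, filter_false_of_mem fun F _ => d0 e F, card_empty] at h1
    omega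
  · have h1 := deg_sum Fs h hR {l1, l2} (by simp [r1, r2])
    have h2 := deg_le_one Fs d1
    have h3 := deg_le_one Fs d2
    rw [card_pair e, sum_pair e] at h1
    omega

/-- A system with many labels at most keys needs many labels. -/
theorem final_count {G : SimpleGraph V} {ρ : (V → C) → C → Λ → Prop} {Dep : Λ → Set V}
    {E K : ℕ} {c lam : ℝ} (hc : 0 < c) (hO : (Om G C).Nonempty) (hν : 0 < Fintype.card C)
    (hΛ : (Fintype.card Λ : ℝ) ≤ lam * Fintype.card C) (hE : 2 * lam < c * E)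
    (rr : ∀ l, Cross G K (Dep l) (Dep l) (Dep l) (Dep l) (fun μ x => ρ μ x l) fun μ x => ρ μ x l)
    (aty : (atyp G C c : ℝ) ≤ 1 / 4 * (Om G C).card)
    (inv : (npairs G (fun κ x => x ∈ Un κ ∧ cnt (ρ κ x) < E) : ℝ) ≤
      c / 8 * (Om G C).card * Fintype.card C) : False := by
  set ν := Fintype.card C
  have hν0 : (0 : ℝ) < ν := by exact_mod_cast hν
  have hO0 : (0 : ℝ) < (Om G C).card := by exact_mod_cast hO.card_pos
  have h1 := markov_real (Om G C) (fun κ => ((Un κ).filter fun x => cnt (ρ κ x) < E).card)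
    (r := c / 2 * ν)
  have h2 : ∑ κ ∈ Om G C, ((Un κ).filter fun x => cnt (ρ κ x) < E).card =
      npairs G fun κ x => x ∈ Un κ ∧ cnt (ρ κ x) < E := by
    rw [npairs_eq]
    exact sum_congr rfl fun κ _ => congrArg card (by ext; simp)
  rw [h2] at h1
  have h3 : (((Om G C).filter fun κ =>
      c / 2 * ν < ((Un κ).filter fun x => cnt (ρ κ x) < E).card).card : ℝ) ≤
      1 / 4 * (Om G C).card :=
    le_of_mul_le_mul_right ((h1.trans inv).trans (le_of_eq (by ring))) (by positivity)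
  obtain ⟨κ, hκ, h4⟩ := exists_mem_notMem_of_card_lt_card (t := Om G C)
    (s := ((Om G C).filter fun κ => ((Un κ).card : ℝ) < c * ν) ∪ (Om G C).filter fun κ =>
      c / 2 * ν < ((Un κ).filter fun x => cnt (ρ κ x) < E).card) (by
      clear * - V C c ν G Λ ρ E aty hO0 h3
      refine (card_union_le _ _).trans_lt ((Nat.cast_lt (α := ℝ)).1 ?_)
      rw [Nat.cast_add]
      have : (((Om G C).filter fun κ => ((Un κ).card : ℝ) < c * ν).card : ℝ) ≤
        1 / 4 * (Om G C).card := aty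
      linarith only [hO0, h3, this])
  simp only [mem_union, mem_filter, hκ, true_and, not_or, not_lt] at h4
  have h5 := card_filter_add_card_filter_not (s := Un κ) fun x => cnt (ρ κ x) < E
  have h6 : ((Un κ).filter fun x => ¬ cnt (ρ κ x) < E).card * E ≤ Fintype.card Λ := by
    refine (card_nsmul_le_sum _ (fun x => cnt (ρ κ x)) E fun x hx =>
      not_lt.1 (mem_filter.1 hx).2).trans ?_
    refine (card_biUnion fun x hx x' hx' hne => ?_).symm.trans_le (card_le_univ _)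
    refine disjoint_left.2 fun l a b => ?_
    exact rr l κ κ x x' (mem_filter.1 a).2 (mem_filter.1 b).2 (by simp [dif_self])
      (fun p _ p' _ h => mem_Om.1 hκ p p' h) hne
      (fun p _ => mem_Un.1 (mem_filter.1 hx).1 p) fun p _ => mem_Un.1 (mem_filter.1 hx').1 p
  generalize ((Un κ).filter fun x => ¬ cnt (ρ κ x) < E).card = s at h5 h6
  have h7 : c / 2 * ν ≤ s := by
    clear * - C Λ ρ κ E V s h5 c ν h4
    have := congrArg (Nat.cast (R := ℝ)) h5
    push_cast at this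
    linarith only [h4, this, h4.1, h4.2]
  have h8 : (s : ℝ) * E ≤ Fintype.card Λ := by exact_mod_cast h6
  have h9 : c / 2 * ν * E ≤ s * E := by gcongr
  have h10 : 2 * lam * ν < c * E * ν := by gcongr
  clear * - Λ lam ν s E c hΛ h8 h9 h10
  linarith only [hΛ, h8, h9, h10]

end Pool.Agent.Work.MP_418764_co.All
end

-- merged part: Pool.Agent.Work.MP_418764_co.AInd
section
namespace Pool.Agent.Work.MP_418764_co.All
open Finset Function Classical

/-- Standing hypotheses on an instance. -/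
structure Env {V : Type} [Fintype V] (C Λ : Type) [Fintype C] [Fintype Λ] (G : SimpleGraph V)
    (fib : V → ℤ) (d m : ℕ) (a : ℕ → ℤ) (γ : ℝ) : Prop where
  hG : PathCl G fib (2 * d + 1) m
  ch : Chain d a
  hm : m ≤ Fintype.card C
  hΛ : Fintype.card Λ ≤ 2 * Fintype.card C
  hA : ∀ E : ℕ, 2 ≤ E → E + 1 ≤ 2 * d →
    (2 * (E : ℝ) - 2) * m < E * Fintype.card C - Fintype.card Λ - γ * Fintype.card C
  hB : ∀ E : ℕ, 4 * d ≤ E + 1 →
    (2 * (E : ℝ) - 2) * m < E * Fintype.card C - 2 * Fintype.card Λ - γ * Fintype.card C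
  hO : (Om G C).Nonempty

/-- Pairs of tokens that can be compared. -/
def okA (d : ℕ) (τ τ' : Fin (2 * d + 2)) : Prop :=
  ¬ (τ.1 = 2 * d ∧ τ'.1 = 2 * d + 1) ∧ ¬ (τ.1 = 2 * d + 1 ∧ τ'.1 = 2 * d)

/-- Pairs of tokens with far keys. -/
def faA (d : ℕ) (a : ℕ → ℤ) (τ τ' : Fin (2 * d + 2)) : Prop :=
  τ.1 + 2 ≤ 2 * d ∧ τ'.1 + 2 ≤ 2 * d ∧ pp a τ.1 + 2 ≤ pp a τ'.1

/-- The first stage at level `t` is contradictory. -/
def RefA (d t : ℕ) (c γ : ℝ) : Prop :=
  ∃ ε : ℝ, 0 < ε ∧ ∃ K ν0 : ℕ, ∀ (V C Λ : Type) [Fintype V] [Fintype C] [Fintype Λ]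
    (G : SimpleGraph V) (fib : V → ℤ) (m : ℕ) (a : ℕ → ℤ) (ρ : (V → C) → C → Λ → Prop)
    (Tk : Fin (2 * d + 2) → (V → C) → C → Λ → Prop), ν0 ≤ Fintype.card C →
    Env C Λ G fib d m a γ →
    StT G c Tk (fun τ => fib ⁻¹' DZ d a τ.1) (fun τ => fib ⁻¹' NZ d a τ.1) (okA d) (faA d a)
      (fun _ _ => True) K ε →
    StR G ρ (fun _ => fib ⁻¹' II a t) Tk (fun τ => fib ⁻¹' DZ d a τ.1)
      (fun τ => fib ⁻¹' NZ d a τ.1) t K ε → False

/-- Index of the two last tokens. -/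
def tB (d : ℕ) (b : Bool) : ℕ := if b then 2 * d else 2 * d + 1

/-- The second stage with `E` labels is contradictory. -/
def RefB (d E : ℕ) (c γ : ℝ) : Prop :=
  ∃ ε : ℝ, 0 < ε ∧ ∃ K ν0 : ℕ, ∀ (V C Λ : Type) [Fintype V] [Fintype C] [Fintype Λ]
    (G : SimpleGraph V) (fib : V → ℤ) (m : ℕ) (a : ℕ → ℤ) (ρ : (V → C) → C → Bool × Λ → Prop)
    (Tk : Bool → (V → C) → C → Bool × Λ → Prop), ν0 ≤ Fintype.card C →
    Env C Λ G fib d m a γ →
    StT G c Tk (fun b => fib ⁻¹' DZ d a (tB d b)) (fun b => fib ⁻¹' NZ d a (tB d b))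
      (fun _ _ => True) (fun _ _ => False) (fun b l => l.1 = b) K ε →
    StR G ρ (fun l => fib ⁻¹' DZ d a (tB d l.1)) Tk (fun b => fib ⁻¹' DZ d a (tB d b))
      (fun b => fib ⁻¹' NZ d a (tB d b)) E K ε → False

theorem mem_DZ {d t : ℕ} {a : ℕ → ℤ} {z : ℤ} : z ∈ DZ d a t ↔
    (t + 1 ≤ 2 * d ∧ a t ≤ z ∧ z < a t + t) ∨ (t = 2 * d ∧ 0 ≤ z ∧ z < 2 * d) ∨
      (2 * d < t ∧ 1 ≤ z ∧ z ≤ 2 * d) := by
  unfold DZ II
  split_ifs <;> simp only [Set.mem_setOf_eq] <;> omega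

theorem mem_KZ {d t : ℕ} {a : ℕ → ℤ} {z : ℤ} : z ∈ KZ d a t ↔
    (t + 2 ≤ 2 * d ∧ z = pp a t) ∨ (t + 1 = 2 * d ∧ (z = 0 ∨ z = 2 * d)) ∨
      (t = 2 * d ∧ z = 2 * d) ∨ (2 * d < t ∧ z = 0) := by
  unfold KZ
  split_ifs <;> simp only [Set.mem_setOf_eq, Set.mem_singleton_iff] <;> omega

theorem pp_cases (a : ℕ → ℤ) (t : ℕ) :
    (a (t + 1) = a t ∧ pp a t = a t + t) ∨ (a (t + 1) ≠ a t ∧ pp a t = a t - 1) := by
  unfold pp
  split_ifs with h <;> simp [h]

theorem refB_top (d : ℕ) {c : ℝ} (γ : ℝ) (hc : 0 < c) : ∃ E, 4 * d ≤ E + 1 ∧ RefB d E c γ := by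
  obtain ⟨E, hE⟩ := exists_large 9 c hc
  refine ⟨E + 4 * d, by omega, min (1 / 4) (c / 8), by positivity, 0, 1, ?_⟩
  intro V C Λ _ _ _ G fib m a ρ Tk hν env sT sR
  refine final_count (lam := 4) (E := E + 4 * d) hc env.hO hν ?_
    (by linarith only [hE, hE (E + 4 * d) (by omega)]) sR.rr (sT.aty.trans (by gcongr; exact min_le_left _ _))
    (sR.inv.trans (by gcongr; exact min_le_right _ _))
  have := env.hΛ
  rw [Fintype.card_prod, Fintype.card_bool]
  exact_mod_cast (by omega : 2 * Fintype.card Λ ≤ 4 * Fintype.card C)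

theorem refB_step {d E : ℕ} {c γ : ℝ} (hd : 2 ≤ d) (hc : 0 < c) (hc1 : c ≤ 1) (hγ : 0 < γ)
    (hE : 4 * d ≤ E + 1) (h : RefB d (E + 1) c γ) : RefB d E c γ := by
  obtain ⟨η, hη, K', ν1, H⟩ := h
  obtain ⟨ε, hε, K, ν0, hs⟩ := step_st (2 * d + 1) E 2 K' c 4 γ η hc
    (hc1.trans (by exact_mod_cast (by omega : 1 ≤ 2 * d + 1))) (by norm_num) hγ hη
  refine ⟨ε, hε, K, ν0 + ν1, ?_⟩
  intro V C Λ _ _ _ G fib m a ρ Tk hν env sT sR
  obtain ⟨S, Tp, tT, tS⟩ := hs V C (Bool × Λ) Bool G fib m ρ _ Tk _ _ _ _ _ (by omega) env.hm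
    (by
      have := env.hΛ
      rw [Fintype.card_prod, Fintype.card_bool]
      exact_mod_cast (by omega : 2 * Fintype.card Λ ≤ 4 * Fintype.card C))
    (by simp) env.hG (fun _ => trivial)
    (by rw [Fintype.card_prod, Fintype.card_bool]; push_cast; exact env.hB E hE) sT sR
  have ad := fun l : Bool × Λ => adjoin (Dep' := fun l => fib ⁻¹' DZ d a (tB d l.1)) tT tS
    (fun _ => True) l le_rfl fun τ _ h => by rw [show l.1 = τ from h]
  refine H V C Λ G fib m a (fun μ x l => (∃ F, S F μ x l) ∨ ∃ τ, True ∧ Tp τ μ x l) Tp (by omega)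
    env tT ⟨fun l => (ad l).1 fun _ _ _ _ => trivial, fun τ l => (ad l).2 τ fun _ _ => trivial,
      le_trans (Nat.cast_le.2 (npairs_mono fun κ z _ hz => ⟨hz.1, fun h => ?_⟩)) tS.big⟩
  obtain ⟨l1, h1⟩ := h.1 true
  obtain ⟨l2, h2⟩ := h.1 false
  have g1 : l1.1 = true := tT.tg _ _ _ _ h1
  have g2 : l2.1 = false := tT.tg _ _ _ _ h2
  have key : ∀ b l, l.1 = b → Tp b κ z l → ∀ F F', S F κ z l → S F' κ z l → F = F' := by
    clear * - Λ Tp κ z S V fib d a C G E K' η tS hd ν1 ν0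
    intro b l e t F F' s s'
    obtain ⟨a1, q1, a2, rfl⟩ := tS.b1 F F' κ z l s s'
    obtain ⟨a3, q2, a4, rfl⟩ := tS.b1 F' _ κ z l s' s
    obtain ⟨q3, ⟨k1, a5, a6⟩, e3⟩ := tS.b3 _ b κ z l s t
    obtain ⟨q4, ⟨k2, a7, a8⟩, e4⟩ := tS.b3 _ b κ z l s' t
    rw [Set.mem_preimage, mem_DZ, e] at a2 a4
    rw [mem_KZ] at a5 a7
    cases b <;> simp only [tB, if_true, if_false, Bool.false_eq_true] at a2 a4 a5 a7 <;> omega
  have := deg_two (univ.image fib) (S := fun F => S F κ z)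
    (R := fun l => (∃ F, S F κ z l) ∨ ∃ τ, True ∧ Tp τ κ z l)
    (fun F F' l s s' => (tS.b1 F F' κ z l s s').1) (fun F l s => Or.inl ⟨F, s⟩)
    (Or.inr ⟨true, trivial, h1⟩) (Or.inr ⟨false, trivial, h2⟩) (key _ _ g1 h1) (key _ _ g2 h2)
    fun e => by simp [e, g2] at g1
  have h3 := h.2
  have h4 := hz.2
  beta_reduce at this h4
  omega

theorem refB_base {d : ℕ} {c γ : ℝ} (hd : 2 ≤ d) (hc : 0 < c) (hc1 : c ≤ 1) (hγ : 0 < γ) :
    RefB d (4 * d - 1) c γ := by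
  obtain ⟨E, hE, h⟩ := refB_top d γ hc
  obtain ⟨i, rfl⟩ : ∃ i, E = 4 * d - 1 + i := ⟨E - (4 * d - 1), by omega⟩
  clear hE
  induction i with
  | zero => exact h
  | succ i ih => exact ih (refB_step hd hc hc1 hγ (by omega) h)

theorem cnt_bool {Λ : Type} [Fintype Λ] (R : Bool × Λ → Prop) :
    cnt R = cnt (fun l => R (true, l)) + cnt fun l => R (false, l) := by
  simp only [cnt, card_filter]
  rw [Fintype.sum_prod_type, Fintype.sum_bool]

theorem cnt_mono {Λ : Type} [Fintype Λ] {R R' : Λ → Prop} (h : ∀ l, R l → R' l) :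
    cnt R ≤ cnt R' :=
  le_cnt fun l hl => h l (mem_filter.1 hl).2

theorem cnt_succ {Λ : Type} [Fintype Λ] {R R' : Λ → Prop} (h : ∀ l, R l → R' l) {l0 : Λ}
    (h1 : R' l0) (h2 : ¬ R l0) : cnt R + 1 ≤ cnt R' := by
  rw [cnt, ← card_insert_of_notMem (a := l0) fun e => h2 (mem_filter.1 e).2]
  refine le_cnt fun l hl => ?_
  rcases mem_insert.1 hl with rfl | hl
  · exact h1
  · exact h l (mem_filter.1 hl).2

theorem refA_last {d : ℕ} {c γ : ℝ} (hd : 2 ≤ d) (hc : 0 < c) (hc1 : c ≤ 1) (hγ : 0 < γ) :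
    RefA d (2 * d - 1) c γ := by
  obtain ⟨η, hη, K', ν1, H⟩ := refB_base hd hc hc1 hγ
  obtain ⟨ε, hε, K, ν0, hs⟩ := step_st (2 * d + 1) (2 * d - 1) (2 * d + 2) K' c 2 γ η hc
    (hc1.trans (by exact_mod_cast (by omega : 1 ≤ 2 * d + 1))) (by norm_num) hγ hη
  refine ⟨ε, hε, K, ν0 + ν1, ?_⟩
  intro V C Λ _ _ _ G fib m a ρ Tk hν env sT sR
  obtain ⟨S, Tp, tT, tS⟩ := hs V C Λ _ G fib m ρ _ Tk _ _ _ _ _ (by omega) env.hm
    (by exact_mod_cast env.hΛ) (by simp) env.hG (fun τ => ⟨by omega, by omega⟩)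
    (env.hA _ (by omega) (by omega)) sT sR
  have hl := env.ch.last
  have tb : ∀ b, tB d b < 2 * d + 2 ∧ 2 * d ≤ tB d b := fun b => by
    cases b <;> simp [tB]
  let τ : Bool → Fin (2 * d + 2) := fun b => ⟨tB d b, (tb b).1⟩
  let τ0 : Fin (2 * d + 2) := ⟨2 * d - 1, by omega⟩
  have hsub : ∀ b, fib ⁻¹' II a (2 * d - 1) ⊆ fib ⁻¹' DZ d a (tB d b) := fun b q hq => by
    rw [Set.mem_preimage, mem_DZ]
    have h1 : a (2 * d - 1) ≤ fib q ∧ fib q < a (2 * d - 1) + (2 * d - 1 : ℕ) := hq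
    have := tb b
    omega
  have ad := fun (b : Bool) (l : Λ) => adjoin (Dep' := fun _ => fib ⁻¹' DZ d a (tB d b)) tT tS
    (fun s => s = τ0 ∨ s = τ b) l (hsub b) fun s hs _ => by
      rcases hs with rfl | rfl
      · refine subset_trans (fun q hq => ?_) (hsub b)
        rw [Set.mem_preimage, mem_DZ] at hq
        change a (2 * d - 1) ≤ fib q ∧ fib q < a (2 * d - 1) + (2 * d - 1 : ℕ)
        simp only [τ0] at hq
        omega
      · exact le_rfl
  have ok : ∀ b s s', s = τ0 ∨ s = τ b → s' = τ0 ∨ s' = τ b → okA d s s' := by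
    rintro b s s' (rfl | rfl) (rfl | rfl) <;> simp only [okA, τ0, τ] <;> omega
  refine H V C Λ G fib m a
    (fun μ x l => (∃ F, S F μ x l.2) ∨ ∃ s, (s = τ0 ∨ s = τ l.1) ∧ Tp s μ x l.2)
    (fun b μ x l => l.1 = b ∧ Tp (τ b) μ x l.2) (by omega) env
    ⟨fun b b' _ l => ?_, fun _ _ h => h.elim, fun b κ x l h => tT.un _ _ _ _ h.2,
      fun b κ x l h => h.1, tT.aty, fun b => le_trans (Nat.cast_le.2 (npairs_mono fun κ z _ hz =>
        ⟨hz.1, fun ⟨l, h⟩ => hz.2 ⟨(b, l), rfl, h⟩⟩)) (tT.tv (τ b))⟩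
    ⟨fun l => (ad l.1 l.2).1 (ok l.1), fun b l => ?_,
      le_trans (Nat.cast_le.2 (npairs_mono fun κ z _ hz => ⟨hz.1, fun h => ?_⟩)) tS.big⟩
  · rintro κ κ' x x' ⟨rfl, h1⟩ ⟨rfl, h2⟩
    exact tT.tt _ _ (ok l.1 _ _ (Or.inr rfl) (Or.inr rfl)) l.2 κ κ' x x' h1 h2
  · rintro κ κ' x x' h1 ⟨rfl, h2⟩
    exact (ad l.1 l.2).2 (τ l.1) (fun s hs => ok l.1 _ _ hs (Or.inr rfl)) κ κ' x x' h1 h2
  obtain ⟨l0, h0⟩ := h.1 τ0
  obtain ⟨l1, h1⟩ := h.1 (τ true)
  obtain ⟨l2, h2⟩ := h.1 (τ false)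
  have pos : ∀ s l F, Tp s κ z l → S F κ z l → (1 ≤ F ∧ F < 2 * d) ∧ ∃ k ∈ KZ d a s.1,
      (F ≤ k + 1 ∧ k ≤ F + 1) ∨ (F = 0 ∧ k = 2 * d) ∨ (F = 2 * d ∧ k = 0) := by
    intro s l F t s1
    obtain ⟨-, q1, a2, rfl⟩ := tS.b1 F F κ z l s1 s1
    obtain ⟨q3, a5, e3⟩ := tS.b3 _ s κ z l s1 t
    have h1 : a (2 * d - 1) ≤ fib q1 ∧ fib q1 < a (2 * d - 1) + (2 * d - 1 : ℕ) := a2
    exact ⟨by omega, e3 ▸ a5⟩
  have p1 : ∀ F, S F κ z l1 → F = 2 * d - 1 := fun F s => by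
    obtain ⟨a1, k, a2, a3⟩ := pos _ _ F h1 s
    simp only [mem_KZ, τ, tB, if_true] at a2
    omega
  have p2 : ∀ F, S F κ z l2 → F = 1 := fun F s => by
    obtain ⟨a1, k, a2, a3⟩ := pos _ _ F h2 s
    simp only [mem_KZ, τ, tB, if_false, Bool.false_eq_true] at a2
    omega
  have b1 := fun F F' l s s' => (tS.b1 F F' κ z l s s').1
  have c0 := deg_one (univ.image fib) (S := fun F => S F κ z)
    (R := fun l => (∃ F, S F κ z l) ∨ Tp τ0 κ z l) b1 (fun F l s => Or.inl ⟨F, s⟩) (Or.inr h0)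
    fun F F' s s' => by
      clear * - F d a τ0 F' pos l0 h0 s s' b1 hd ν1 ν0 V C Λ fib S Tp tb κ z
      obtain ⟨a1, k, a2, a3⟩ := pos _ _ F h0 s
      obtain ⟨a4, k', a5, a6⟩ := pos _ _ F' h0 s'
      have := b1 _ _ _ s s'
      have := b1 _ _ _ s' s
      simp only [mem_KZ, τ0] at a2 a5
      omega
  have mo : ∀ b l, (∃ F, S F κ z l) ∨ Tp τ0 κ z l →
      (∃ F, S F κ z l) ∨ ∃ s, (s = τ0 ∨ s = τ b) ∧ Tp s κ z l := fun b l h =>
    h.imp id fun h => ⟨τ0, Or.inl rfl, h⟩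
  have c1 := cnt_mono (mo true)
  have c2 := cnt_mono (mo false)
  have h3 := h.2
  have h4 := hz.2
  rw [cnt_bool] at h4
  dsimp only at c0 h4
  by_cases e1 : (∃ F, S F κ z l1) ∨ Tp τ0 κ z l1
  · by_cases e2 : (∃ F, S F κ z l2) ∨ Tp τ0 κ z l2
    · have c3 := deg_two (univ.image fib) (S := fun F => S F κ z)
        (R := fun l => (∃ F, S F κ z l) ∨ Tp τ0 κ z l) b1 (fun F l s => Or.inl ⟨F, s⟩) e1 e2
        (fun F F' s s' => (p1 F s).trans (p1 F' s').symm)
        (fun F F' s s' => (p2 F s).trans (p2 F' s').symm)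
        fun e F s => by
          have := p1 F s
          have := p2 F (e ▸ s)
          omega
      beta_reduce at c3
      omega
    · have := cnt_succ (mo false) (Or.inr ⟨_, Or.inr rfl, h2⟩) e2
      omega
  · have := cnt_succ (mo true) (Or.inr ⟨_, Or.inr rfl, h1⟩) e1
    omega

theorem refA_step {d t : ℕ} {c γ : ℝ} (hc : 0 < c) (hc1 : c ≤ 1) (hγ : 0 < γ) (ht : 2 ≤ t)
    (ht' : t + 2 ≤ 2 * d) (h : RefA d (t + 1) c γ) : RefA d t c γ := by
  obtain ⟨η, hη, K', ν1, H⟩ := h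
  obtain ⟨ε, hε, K, ν0, hs⟩ := step_st (2 * d + 1) t (2 * d + 2) K' c 2 γ η hc
    (hc1.trans (by exact_mod_cast (by omega : 1 ≤ 2 * d + 1))) (by norm_num) hγ hη
  refine ⟨ε, hε, K, ν0 + ν1, ?_⟩
  intro V C Λ _ _ _ G fib m a ρ Tk hν env sT sR
  obtain ⟨S, Tp, tT, tS⟩ := hs V C Λ _ G fib m ρ _ Tk _ _ _ _ _ (by omega) env.hm
    (by exact_mod_cast env.hΛ) (by simp) env.hG (fun τ => ⟨by omega, by omega⟩)
    (env.hA _ ht (by omega)) sT sR
  have s1 := env.ch.step t ht'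
  have bd := env.ch.bounds t (by omega)
  have bd' := env.ch.bounds (t + 1) (by omega)
  let τ1 : Fin (2 * d + 2) := ⟨t, by omega⟩
  let τ2 : Fin (2 * d + 2) := ⟨t + 1, by omega⟩
  have hsub : fib ⁻¹' II a t ⊆ fib ⁻¹' II a (t + 1) := fun q hq => by
    have h1 : a t ≤ fib q ∧ fib q < a t + t := hq
    change a (t + 1) ≤ fib q ∧ fib q < a (t + 1) + (t + 1 : ℕ)
    omega
  have ad := fun l : Λ => adjoin (Dep' := fun _ => fib ⁻¹' II a (t + 1)) tT tS
    (fun s => s = τ1 ∨ s = τ2) l hsub fun s hs _ q hq => by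
      change a (t + 1) ≤ fib q ∧ fib q < a (t + 1) + (t + 1 : ℕ)
      rw [Set.mem_preimage, mem_DZ] at hq
      rcases hs with rfl | rfl <;> simp only [τ1, τ2] at hq <;> omega
  have ok : ∀ s s', s = τ1 ∨ s = τ2 → okA d s s' := by
    rintro s s' (rfl | rfl) <;> simp only [okA, τ1, τ2] <;> omega
  refine H V C Λ G fib m a
    (fun μ x l => (∃ F, S F μ x l) ∨ ∃ s, (s = τ1 ∨ s = τ2) ∧ Tp s μ x l) Tp (by omega) env tT
    ⟨fun l => (ad l).1 fun s s' hs _ => ok s s' hs, fun s l => (ad l).2 s fun s' => ok s' s,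
      le_trans (Nat.cast_le.2 (npairs_mono fun κ z hκ hz => ⟨hz.1, fun h => ?_⟩)) tS.big⟩
  obtain ⟨l1, h1⟩ := h.1 τ1
  obtain ⟨l2, h2⟩ := h.1 τ2
  have pos : ∀ s l F, Tp s κ z l → S F κ z l → (a t ≤ F ∧ F < a t + t) ∧ ∃ k ∈ KZ d a s.1,
      (F ≤ k + 1 ∧ k ≤ F + 1) ∨ (F = 0 ∧ k = 2 * d) ∨ (F = 2 * d ∧ k = 0) := by
    intro s l F t s1
    obtain ⟨-, q1, a2, rfl⟩ := tS.b1 F F κ z l s1 s1
    obtain ⟨q3, a5, e3⟩ := tS.b3 _ s κ z l s1 t
    exact ⟨a2, e3 ▸ a5⟩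
  have b1 := fun F F' l s s' => (tS.b1 F F' κ z l s s').1
  have c1 := pp_cases a t
  have c2 := pp_cases a (t + 1)
  have := deg_two (univ.image fib) (S := fun F => S F κ z)
    (R := fun l => (∃ F, S F κ z l) ∨ ∃ s, (s = τ1 ∨ s = τ2) ∧ Tp s κ z l) b1
    (fun F l s => Or.inl ⟨F, s⟩) (Or.inr ⟨_, Or.inl rfl, h1⟩) (Or.inr ⟨_, Or.inr rfl, h2⟩)
    (fun F F' s s' => by
      clear * - a t F d τ1 F' pos l1 h1 s s' ht' ν1 ν0 V C Λ fib S Tp bd κ z c1 c2
      obtain ⟨a1, k, a2, a3⟩ := pos _ _ F h1 s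
      obtain ⟨a4, k', a5, a6⟩ := pos _ _ F' h1 s'
      simp only [mem_KZ, τ1] at a2 a5
      omega)
    (fun F F' s s' => by
      clear * - a t F d τ2 F' pos l2 h2 s s' b1 ht ht' ν1 ν0 V C Λ fib S Tp s1 bd κ z c1 c2
      obtain ⟨a1, k, a2, a3⟩ := pos _ _ F h2 s
      obtain ⟨a4, k', a5, a6⟩ := pos _ _ F' h2 s'
      have := b1 _ _ _ s s'
      have := b1 _ _ _ s' s
      simp only [mem_KZ, τ2] at a2 a5
      omega)
    fun e F s => by
      clear * - Λ l1 Tp τ2 κ z a t F d τ1 pos h1 s V C G c fib K' η tT hκ ht ht' ν1 ν0 S s1 bd bd'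
        c1 c2 l2 e h2 h
      subst e
      obtain ⟨a1, k, a2, a3⟩ := pos _ _ F h1 s
      obtain ⟨a4, k', a5, a6⟩ := pos _ _ F h2 s
      simp only [mem_KZ, τ1, τ2] at a2 a5
      have f1 := fun h => tT.far τ1 τ2 h κ z l1 hκ h1 h2
      have f2 := fun h => tT.far τ2 τ1 h κ z l1 hκ h2 h1
      simp only [faA, τ1, τ2, imp_false] at f1 f2
      omega
  have h3 := h.2
  have h4 := hz.2
  beta_reduce at this h4
  omega

theorem refA_two {d : ℕ} {c γ : ℝ} (hd : 2 ≤ d) (hc : 0 < c) (hc1 : c ≤ 1) (hγ : 0 < γ) :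
    RefA d 2 c γ := by
  have key : ∀ i t, 2 ≤ t → t + i + 1 = 2 * d → RefA d t c γ := by
    intro i
    induction i with
    | zero => exact fun t _ h => (show 2 * d - 1 = t by omega) ▸ refA_last hd hc hc1 hγ
    | succ i ih =>
      exact fun t h1 h2 => refA_step hc hc1 hγ h1 (by omega) (ih (t + 1) (by omega) (by omega))
  exact key (2 * d - 3) 2 le_rfl (by omega)

/-- No token system exists. -/
theorem main_abs {d : ℕ} {c γ : ℝ} (hd : 2 ≤ d) (hc : 0 < c) (hc1 : c ≤ 1) (hγ : 0 < γ) :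
    ∃ ε : ℝ, 0 < ε ∧ ∃ K ν0 : ℕ, ∀ (V C Λ : Type) [Fintype V] [Fintype C] [Fintype Λ]
      (G : SimpleGraph V) (fib : V → ℤ) (m : ℕ) (a : ℕ → ℤ) (Tk : ℕ → (V → C) → C → Λ → Prop),
      ν0 ≤ Fintype.card C → Env C Λ G fib d m a γ → TokSys G fib d a Tk K ε →
      (atyp G C c : ℝ) ≤ ε * (Om G C).card → False := by
  obtain ⟨ε, hε, K, ν0, H⟩ := refA_two hd hc hc1 hγ
  refine ⟨ε / 3, by positivity, K, ν0, ?_⟩
  intro V C Λ _ _ _ G fib m a Tk hν env ts hat
  have z0 := env.ch.zero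
  have s1 : a 2 = a 1 ∨ a 2 = a 1 - 1 := env.ch.step 1 (by omega)
  have hsub : ∀ s, s ≤ 2 → fib ⁻¹' DZ d a s ⊆ fib ⁻¹' II a 2 := fun s hs q hq => by
    rw [Set.mem_preimage, mem_DZ] at hq
    change a 2 ≤ fib q ∧ fib q < a 2 + (2 : ℕ)
    have := env.ch.mono hs (by omega)
    omega
  have hO : (0 : ℝ) ≤ ε * (Om G C).card := by positivity
  have hO' : (0 : ℝ) ≤ ε * (Om G C).card * Fintype.card C := by positivity
  refine H V C Λ G fib m a (fun μ x l => ∃ s, s ≤ 2 ∧ Tk s μ x l) (fun τ => Tk τ.1) hν env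
    ⟨fun τ τ' h => ts.cross _ _ τ.2 τ'.2 h.1 h.2, fun τ τ' h => ts.far _ _ h.1 h.2.1 h.2.2,
      fun τ => ts.un _, fun _ _ _ _ _ => trivial, by linarith only [hat],
      fun τ => by linarith only [hO', ts, ts.valid _ τ.2]⟩ ⟨fun l => ?_, fun τ l => ?_, ?_⟩
  · rintro κ κ' x x' ⟨s, hs, h⟩ ⟨s', hs', h'⟩
    exact (ts.cross s s' (by omega) (by omega) (by omega) (by omega) l).mono le_rfl (hsub s hs)
      (hsub s' hs') (Set.inter_subset_left.trans (hsub s hs))
      (Set.inter_subset_left.trans (hsub s' hs')) (fun _ _ h => h) (fun _ _ h => h) κ κ' x x' h h'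
  · rintro κ κ' x x' ⟨s, hs, h⟩ h'
    exact (ts.cross s τ.1 (by omega) τ.2 (by omega) (by omega) l).mono le_rfl (hsub s hs) le_rfl
      (Set.inter_subset_inter_left _ (hsub s hs)) Set.inter_subset_left (fun _ _ h => h)
      (fun _ _ h => h) κ κ' x x' h h'
  · have h1 := npairs_mono (G := G)
      (P := fun κ x => x ∈ Un κ ∧ cnt (fun l => ∃ s, s ≤ 2 ∧ Tk s κ x l) < 2)
      (P' := fun κ x => (x ∈ Un κ ∧ ¬ ∃ l, Tk 0 κ x l) ∨ (x ∈ Un κ ∧ ¬ ∃ l, Tk 1 κ x l) ∨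
        (x ∈ Un κ ∧ ¬ ∃ l, Tk 2 κ x l)) fun κ x hκ hx => by
        clear * - C V κ x Λ Tk hx a G fib d K ε ts hd ν0 hκ z0 s1
        by_contra hn
        simp only [not_or, not_and, not_not] at hn
        obtain ⟨l0, h0⟩ := hn.1 hx.1
        obtain ⟨l1, h1⟩ := hn.2.1 hx.1
        obtain ⟨l2, h2⟩ := hn.2.2 hx.1
        have key : ∀ s s' l l', s ≤ 2 → s' ≤ 2 → Tk s κ x l → Tk s' κ x l' →
            ¬ pp a s + 2 ≤ pp a s' := fun s s' l l' hs hs' h h' hp => by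
          have hne : l ≠ l' := fun e =>
            ts.far s s' (by omega) (by omega) hp κ x l hκ h (e ▸ h')
          have := le_cnt (P := fun l => ∃ s, s ≤ 2 ∧ Tk s κ x l) (s := {l, l'}) (by
            simp only [mem_insert, mem_singleton]
            rintro _ (rfl | rfl)
            · exact ⟨s, hs, h⟩
            · exact ⟨s', hs', h'⟩)
          rw [card_pair hne] at this
          exact absurd hx.2 (by omega)
        have c0 := pp_cases a 0
        have c1 := pp_cases a 1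
        have c2 := pp_cases a 2
        have k1 := key 0 2 _ _ (by omega) le_rfl h0 h2
        have k2 := key 2 0 _ _ le_rfl (by omega) h2 h0
        have k3 := key 1 2 _ _ (by omega) le_rfl h1 h2
        have k4 := key 2 1 _ _ le_rfl (by omega) h2 h1
        norm_num at c0 c1 c2
        omega
    have h2 := (Nat.cast_le (α := ℝ)).2
      (h1.trans ((npairs_or _ _ _).trans (Nat.add_le_add_left (npairs_or _ _ _) _)))
    rw [Nat.cast_add, Nat.cast_add] at h2
    clear * - V C G Λ Tk ε h2 fib d a K ts hd ν0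
    linarith only [h2, ts, hd, ts.valid 0 (by omega), ts.valid 1 (by omega), ts.valid 2 (by omega)]

end Pool.Agent.Work.MP_418764_co.All
end

-- merged part: Pool.Agent.Work.MP_418764_co.ASV
section
namespace Pool.Agent.Work.MP_418764_co.All
open Finset Function Classical

variable {V C S I : Type} [Fintype V] [Fintype C] [Fintype S]

/-- Injective recolourings of `F` by colours of `W`. -/
noncomputable def ASV.Ext (κ : V → C) (F : Finset V) (W : Finset C) : Finset (V → C) :=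
  univ.filter fun μ => (∀ p ∉ F, μ p = κ p) ∧ Set.InjOn μ F ∧ ∀ p ∈ F, μ p ∈ W

theorem ASV.mem_Ext {κ μ : V → C} {F : Finset V} {W : Finset C} :
    μ ∈ ASV.Ext κ F W ↔ (∀ p ∉ F, μ p = κ p) ∧ Set.InjOn μ F ∧ ∀ p ∈ F, μ p ∈ W := by
  simp [ASV.Ext]

theorem ASV.card_Ext (κ : V → C) (F : Finset V) (W : Finset C) :
    (ASV.Ext κ F W).card = W.card.descFactorial F.card := by
  have e : {μ // μ ∈ ASV.Ext κ F W} ≃ (F ↪ W) :=
    { toFun := fun μ => ⟨fun p => ⟨μ.1 p, (ASV.mem_Ext.1 μ.2).2.2 p p.2⟩, fun p p' h =>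
        Subtype.ext ((ASV.mem_Ext.1 μ.2).2.1 p.2 p'.2 (congrArg Subtype.val h))⟩
      invFun := fun f => ⟨fun p => if h : p ∈ F then (f ⟨p, h⟩ : C) else κ p, by
        refine ASV.mem_Ext.2 ⟨fun p hp => dif_neg hp, fun p hp p' hp' h => ?_, fun p hp => ?_⟩
        · have hp1 : p ∈ F := hp
          have hp2 : p' ∈ F := hp'
          simp only [dif_pos hp1, dif_pos hp2] at h
          exact congrArg Subtype.val (f.injective (Subtype.ext h))
        · simp only [dif_pos hp]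
          exact (f ⟨p, hp⟩).2⟩
      left_inv := fun μ => by
        refine Subtype.ext (funext fun p => ?_)
        by_cases h : p ∈ F
        · simp [h]
        · simp only [dif_neg h]
          exact ((ASV.mem_Ext.1 μ.2).1 p h).symm
      right_inv := fun f => by
        ext p
        simp [p.2] }
  rw [← Fintype.card_coe, Fintype.card_congr e, Fintype.card_embedding_eq, Fintype.card_coe,
    Fintype.card_coe]

theorem ASV.desc_lower {q : ℝ} (hq : 0 < q) {w m R : ℕ} (h : q * w + m + R ≤ w) :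
    ∀ a ≤ R, q ^ a * (w.descFactorial m : ℝ) ≤ ((w - a).descFactorial m : ℝ) := by
  have hw : (0 : ℝ) ≤ q * w := by positivity
  have hmR : m + R ≤ w := by
    have : ((m + R : ℕ) : ℝ) ≤ w := by push_cast; linarith
    exact_mod_cast this
  intro a
  induction a with
  | zero => simp
  | succ a ih =>
    intro ha
    have h1 := ih (by omega)
    obtain ⟨n, hn⟩ : ∃ n, w - a = n + 1 := ⟨w - a - 1, by omega⟩
    have h2 := Nat.succ_descFactorial n m
    rw [show w - (a + 1) = n by omega]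
    rw [hn] at h1
    have h3 : ((n + 1 - m : ℕ) : ℝ) = n + 1 - m := by
      rw [Nat.cast_sub (by omega)]; push_cast; ring
    have h4 : ((n : ℝ) + 1 - m) * ((n + 1).descFactorial m : ℝ) =
        (n + 1) * (n.descFactorial m : ℝ) := by
      rw [← h3]; exact_mod_cast h2
    have h5 : (n : ℝ) + 1 + a = w := by
      have : n + 1 + a = w := by omega
      exact_mod_cast this
    have h6 : (a : ℝ) + 1 ≤ R := by exact_mod_cast ha
    have h7 : q * (n + 1) ≤ n + 1 - m := by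
      clear * - q n w a h5 hq m R h h6
      have : q * (n + 1) ≤ q * w := by
        apply mul_le_mul_of_nonneg_left _ hq.le
        have : (0 : ℝ) ≤ a := Nat.cast_nonneg a
        linarith
      linarith
    have h8 : (0 : ℝ) < n + 1 := by positivity
    have h9 : (0 : ℝ) ≤ ((n + 1).descFactorial m : ℝ) := Nat.cast_nonneg _
    refine le_of_mul_le_mul_left ?_ h8
    rw [← h4]
    calc ((n : ℝ) + 1) * (q ^ (a + 1) * (w.descFactorial m : ℝ))
        = q * (n + 1) * (q ^ a * (w.descFactorial m : ℝ)) := by ring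
      _ ≤ q * (n + 1) * ((n + 1).descFactorial m : ℝ) :=
          mul_le_mul_of_nonneg_left h1 (by positivity)
      _ ≤ _ := mul_le_mul_of_nonneg_right h7 h9

theorem ASV.desc_neg (w a b m : ℕ) :
    (w - a - b).descFactorial m * w.descFactorial m ≤
      (w - a).descFactorial m * (w - b).descFactorial m := by
  induction m with
  | zero => simp
  | succ m ih =>
    simp only [Nat.descFactorial_succ]
    have key : (w - a - b - m) * (w - m) ≤ (w - a - m) * (w - b - m) := by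
      rcases le_or_gt w (a + b + m) with h | h
      · rw [show w - a - b - m = 0 by omega]
        simp
      · obtain ⟨t, rfl⟩ : ∃ t, w = a + b + m + t := ⟨w - (a + b + m), by omega⟩
        rw [show a + b + m + t - a - b - m = t by omega, show a + b + m + t - m = a + b + t by omega,
          show a + b + m + t - a - m = b + t by omega, show a + b + m + t - b - m = a + t by omega]
        linarith only [Nat.zero_le (a * b)]
    calc _ = ((w - a - b - m) * (w - m)) *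
          ((w - a - b).descFactorial m * w.descFactorial m) := by ring
      _ ≤ ((w - a - m) * (w - b - m)) *
          ((w - a).descFactorial m * (w - b).descFactorial m) := Nat.mul_le_mul key ih
      _ = _ := by ring

/-- Chebyshev bound for negatively correlated events. -/
theorem ASV.cheb {α : Type} (X : Finset α) (M : Finset I) (B : I → α → Prop) {r y : ℝ}
    (hr : 0 < r) (hy : 0 < y) (hM : y ≤ M.card)
    (h1 : ∀ i ∈ M, r * X.card ≤ (X.filter (B i)).card)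
    (h2 : ∀ i ∈ M, ∀ j ∈ M, i ≠ j → (X.filter fun f => B i f ∧ B j f).card * X.card ≤
      (X.filter (B i)).card * (X.filter (B j)).card) :
    ((X.filter fun f => ((M.filter fun i => B i f).card : ℝ) < y * (r / 2)).card : ℝ) ≤
      4 / (r * y) * X.card := by
  rcases X.eq_empty_or_nonempty with rfl | hX
  · simp
  have hD : (0 : ℝ) < X.card := by exact_mod_cast hX.card_pos
  set D : ℝ := (X.card : ℝ) with hDdef
  set T : ℝ := ∑ i ∈ M, ((X.filter (B i)).card : ℝ) with hT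
  set Y : α → ℝ := fun f => ((M.filter fun i => B i f).card : ℝ) with hY
  have hYs : ∀ f, Y f = ∑ i ∈ M, if B i f then (1 : ℝ) else 0 := fun f => by
    simp only [hY]
    rw [card_filter]
    push_cast
    rfl
  have hc : ∀ P : α → Prop, ((X.filter P).card : ℝ) = ∑ f ∈ X, if P f then (1 : ℝ) else 0 :=
    fun P => by
      rw [card_filter]
      push_cast
      rfl
  have s1 : ∑ f ∈ X, Y f = T := by
    simp only [hYs, hT, hc]
    exact sum_comm
  have s2 : ∑ f ∈ X, Y f ^ 2 =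
      ∑ i ∈ M, ∑ j ∈ M, ((X.filter fun f => B i f ∧ B j f).card : ℝ) := by
    have e1 : ∀ f, Y f ^ 2 = ∑ i ∈ M, ∑ j ∈ M, if B i f ∧ B j f then (1 : ℝ) else 0 := fun f => by
      rw [hYs, sq, sum_mul_sum]
      refine sum_congr rfl fun i _ => sum_congr rfl fun j _ => ?_
      by_cases hi : B i f <;> by_cases hj : B j f <;> simp [hi, hj]
    simp only [e1]
    rw [sum_comm]
    refine sum_congr rfl fun i _ => ?_
    rw [sum_comm]
    refine sum_congr rfl fun j _ => ?_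
    rw [card_filter]
    push_cast
    rfl
  have s3 : D * ∑ f ∈ X, Y f ^ 2 ≤ D * T + T ^ 2 := by
    clear * - D α X Y T I M B s2 hT h2 hDdef
    rw [s2, hT, sq, sum_mul_sum, mul_sum, mul_sum, ← sum_add_distrib]
    refine sum_le_sum fun i hi => ?_
    rw [mul_sum]
    calc ∑ j ∈ M, D * ((X.filter fun f => B i f ∧ B j f).card : ℝ)
        ≤ ∑ j ∈ M, ((if j = i then D * ((X.filter (B i)).card : ℝ) else 0) +
            ((X.filter (B i)).card : ℝ) * (X.filter (B j)).card) := by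
          refine sum_le_sum fun j hj => ?_
          by_cases e : j = i
          · rw [if_pos e]
            have : ((X.filter fun f => B i f ∧ B j f).card : ℝ) ≤ (X.filter (B i)).card := by
              refine Nat.cast_le.2 (card_le_card fun f hf => ?_)
              obtain ⟨f1, f2, -⟩ := mem_filter.1 hf
              exact mem_filter.2 ⟨f1, f2⟩
            have h0 : (0 : ℝ) ≤ ((X.filter (B i)).card : ℝ) * (X.filter (B j)).card := by
              positivity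
            linarith only [h0, this, mul_nonneg_of_nonpos_of_nonpos (Mathlib.Tactic.Linarith.sub_nonpos_of_le (Mathlib.Tactic.Linarith.natCast_nonneg ℝ #X)) (Mathlib.Tactic.Linarith.sub_nonpos_of_le this)]
          · rw [if_neg e, zero_add, mul_comm]
            have := h2 i hi j hj (Ne.symm e)
            rw [hDdef]
            exact_mod_cast this
      _ = _ := by rw [sum_add_distrib, sum_ite_eq' M i, if_pos hi]
  have s4 : r * y * D ≤ T := by
    clear * - r y D I M T hM hr α X hX B h1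
    calc r * y * D ≤ r * M.card * D := by gcongr
      _ = ∑ _i ∈ M, r * D := by rw [sum_const, nsmul_eq_mul]; ring
      _ ≤ T := sum_le_sum h1
  set μ : ℝ := T / D with hμ
  have hTμ : T = μ * D := by rw [hμ]; field_simp
  have hμ1 : r * y ≤ μ := by rw [hμ, le_div_iff₀ hD]; exact s4
  have hry : 0 < r * y := mul_pos hr hy
  have hμ0 : 0 < μ := hry.trans_le hμ1
  have s5 : ∑ f ∈ X, (Y f - μ) ^ 2 ≤ μ * D := by
    clear * - α X Y μ T D s1 hDdef s3 hTμ hD
    have e : ∑ f ∈ X, (Y f - μ) ^ 2 = ∑ f ∈ X, Y f ^ 2 - 2 * μ * T + μ ^ 2 * D := by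
      rw [← s1, mul_sum, ← sum_sub_distrib, hDdef, mul_comm (μ ^ 2), ← nsmul_eq_mul,
        ← sum_const, ← sum_add_distrib]
      exact sum_congr rfl fun f _ => by ring
    have : ∑ f ∈ X, Y f ^ 2 ≤ μ * D + μ ^ 2 * D := by
      refine le_of_mul_le_mul_left (s3.trans_eq ?_) hD
      rw [hTμ]; ring
    rw [e, hTμ]
    linarith only [this]
  set Z := X.filter fun f => Y f < y * (r / 2) with hZ
  have s6 : (Z.card : ℝ) * (μ / 2) ^ 2 ≤ μ * D := by
    clear * - α Z μ X Y D y r T hμ1 hry s5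
    calc (Z.card : ℝ) * (μ / 2) ^ 2 = ∑ _f ∈ Z, (μ / 2) ^ 2 := by rw [sum_const, nsmul_eq_mul]
      _ ≤ ∑ f ∈ Z, (Y f - μ) ^ 2 := by
          refine sum_le_sum fun f hf => ?_
          have := (mem_filter.1 hf).2
          linarith only [hμ1, hry, this, mul_nonneg_of_nonpos_of_nonpos (Mathlib.Tactic.Linarith.sub_nonpos_of_le hμ1) (Mathlib.Tactic.Linarith.sub_nonpos_of_le hμ1), mul_nonneg_of_nonpos_of_nonpos (Mathlib.Tactic.Linarith.sub_nonpos_of_le hμ1) (le_of_lt (Mathlib.Tactic.Linarith.sub_neg_of_lt hry)), mul_nonneg_of_nonpos_of_nonpos (Mathlib.Tactic.Linarith.sub_nonpos_of_le hμ1) (le_of_lt (Mathlib.Tactic.Linarith.sub_neg_of_lt this)), mul_pos_of_neg_of_neg (Mathlib.Tactic.Linarith.sub_neg_of_lt hry) (Mathlib.Tactic.Linarith.sub_neg_of_lt this), mul_pos_of_neg_of_neg (Mathlib.Tactic.Linarith.sub_neg_of_lt this) (Mathlib.Tactic.Linarith.sub_neg_of_lt this)]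
      _ ≤ ∑ f ∈ X, (Y f - μ) ^ 2 :=
          sum_le_sum_of_subset_of_nonneg (filter_subset _ _) fun _ _ _ => sq_nonneg _
      _ ≤ _ := s5
  have s7 : (Z.card : ℝ) * μ ≤ 4 * D := by
    clear * - μ α Z D T s6 hμ0
    refine le_of_mul_le_mul_left ?_ hμ0
    linarith only [s6]
  have hZ0 : (0 : ℝ) ≤ Z.card := Nat.cast_nonneg _
  rw [div_mul_eq_mul_div, le_div_iff₀ hry]
  clear * - α Z r y D μ T s7 hμ1
  nlinarith

/-- Survival inside one set of extensions. -/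
theorem ASV.ext_cheb (κ : V → C) (F : Finset V) (W : Finset C) (M : Finset I) (s : I → Finset C)
    {R : ℕ} (hs : ∀ i, (s i).card ≤ R) (hdis : ∀ i ∈ M, ∀ j ∈ M, i ≠ j → Disjoint (s i) (s j))
    {q y : ℝ} (hq : 0 < q) (hq1 : q ≤ 1) (hy : 0 < y) (hM : y ≤ M.card)
    (hW : q * W.card + F.card + R ≤ W.card) :
    (((ASV.Ext κ F W).filter fun μ =>
      ((M.filter fun i => ∀ p ∈ F, μ p ∉ s i).card : ℝ) < y * (q ^ R / 2)).card : ℝ) ≤
      4 / (q ^ R * y) * (ASV.Ext κ F W).card := by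
  have e1 : ∀ t : Finset C, ((ASV.Ext κ F W).filter fun μ => ∀ p ∈ F, μ p ∉ t).card =
      (W.card - (t ∩ W).card).descFactorial F.card := fun t => by
    rw [← card_sdiff, ← ASV.card_Ext κ]
    congr 1
    ext μ
    simp only [mem_filter, ASV.mem_Ext, mem_sdiff]
    exact ⟨fun h => ⟨h.1.1, h.1.2.1, fun p hp => ⟨h.1.2.2 p hp, h.2 p hp⟩⟩,
      fun h => ⟨⟨h.1, h.2.1, fun p hp => (h.2.2 p hp).1⟩, fun p hp => (h.2.2 p hp).2⟩⟩
  have key := ASV.cheb (ASV.Ext κ F W) M (fun i μ => ∀ p ∈ F, μ p ∉ s i) (pow_pos hq R) hy hM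
    (fun i _ => ?_) (fun i hi j hj hij => ?_)
  · convert key
  · have ha : (s i ∩ W).card ≤ R := (card_le_card inter_subset_left).trans (hs i)
    have h1 := ASV.desc_lower hq hW _ ha
    have h2 := e1 (s i)
    rw [ASV.card_Ext]
    calc q ^ R * (W.card.descFactorial F.card : ℝ)
        ≤ q ^ (s i ∩ W).card * (W.card.descFactorial F.card : ℝ) :=
          mul_le_mul_of_nonneg_right (pow_le_pow_of_le_one hq.le hq1 ha) (Nat.cast_nonneg _)
      _ ≤ _ := h1
      _ = _ := by rw [← h2]; congr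
  · have h1 := e1 (s i)
    have h2 := e1 (s j)
    have h3 := e1 (s i ∪ s j)
    rw [union_inter_distrib_right, card_union_of_disjoint
      ((hdis i hi j hj hij).mono inter_subset_left inter_subset_left), ← Nat.sub_sub] at h3
    have h4 := ASV.desc_neg W.card (s i ∩ W).card (s j ∩ W).card F.card
    rw [← h1, ← h2, ← h3, ← ASV.card_Ext κ] at h4
    convert h4 using 3
    · ext μ
      simp only [mem_filter, mem_union, not_or]
      exact and_congr_right fun _ => ⟨fun h p hp => ⟨h.1 p hp, h.2 p hp⟩,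
        fun h => ⟨fun p hp => (h p hp).1, fun p hp => (h p hp).2⟩⟩
    · congr
    · congr

theorem ASV.card_agree (μ : V → C) (F : Finset V) :
    (univ.filter fun κ : V → C => ∀ p ∉ F, μ p = κ p).card = Fintype.card C ^ F.card := by
  have : (univ.filter fun κ : V → C => ∀ p ∉ F, μ p = κ p) =
      Fintype.piFinset fun p => if p ∈ F then univ else {μ p} := by
    ext κ
    simp only [mem_filter, mem_univ, true_and, Fintype.mem_piFinset]
    constructor
    · intro h p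
      split_ifs with hp
      · exact mem_univ _
      · simp [h p hp]
    · intro h p hp
      have := h p
      rw [if_neg hp, mem_singleton] at this
      exact this.symm
  rw [this, Fintype.card_piFinset]
  simp only [apply_ite Finset.card, card_singleton, card_univ]
  rw [prod_ite_mem, univ_inter, prod_const]

/-- Double counting of one extension step. -/
theorem ASV.step_count {G : SimpleGraph V} {J F : Finset V} (hJF : Disjoint J F)
    (W : (V → C) → Finset C)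
    (hW : ∀ κ, PrOn G J κ → ∀ μ : V → C, (∀ p ∉ F, μ p = κ p) →
      (PrOn G (J ∪ F) μ ↔ Set.InjOn μ F ∧ ∀ p ∈ F, μ p ∈ W κ)) (P : (V → C) → Prop)
    [DecidablePred P] :
    ∑ κ ∈ univ.filter (fun κ : V → C => PrOn G J κ), ((ASV.Ext κ F (W κ)).filter P).card =
      Fintype.card C ^ F.card * (univ.filter fun μ : V → C => PrOn G (J ∪ F) μ ∧ P μ).card := by
  have e1 : ∀ κ ∈ univ.filter (fun κ : V → C => PrOn G J κ), ((ASV.Ext κ F (W κ)).filter P).card =
      ∑ μ ∈ univ.filter (fun μ : V → C => PrOn G (J ∪ F) μ ∧ P μ),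
        if ∀ p ∉ F, μ p = κ p then 1 else 0 := fun κ hκ => by
    rw [← card_filter]
    congr 1
    ext μ
    simp only [mem_filter, ASV.mem_Ext, mem_univ, true_and]
    have := hW κ (mem_filter.1 hκ).2 μ
    tauto
  rw [sum_congr rfl e1, sum_comm, mul_comm, ← smul_eq_mul, ← sum_const]
  refine sum_congr rfl fun μ hμ => ?_
  rw [← card_filter, ← ASV.card_agree μ F]
  congr 1
  ext κ
  simp only [mem_filter, mem_univ, true_and]
  refine ⟨fun h => h.2, fun h => ⟨fun p hp p' hp' hpp => ?_, h⟩⟩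
  rw [← h p (disjoint_left.1 hJF hp), ← h p' (disjoint_left.1 hJF hp')]
  exact (mem_filter.1 hμ).2.1 p (mem_union_left _ hp) p' (mem_union_left _ hp') hpp

/-- One extension step of the survival lemma. -/
theorem ASV.step {G : SimpleGraph V} {J0 J F : Finset V} (hJ : J0 ⊆ J) (hJF : Disjoint J F)
    (W : (V → C) → Finset C) {w R : ℕ} (hw : ∀ κ, PrOn G J κ → (W κ).card = w)
    (hW : ∀ κ, PrOn G J κ → ∀ μ : V → C, (∀ p ∉ F, μ p = κ p) →
      (PrOn G (J ∪ F) μ ↔ Set.InjOn μ F ∧ ∀ p ∈ F, μ p ∈ W κ))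
    (Adm : (V → C) → Finset I → Prop) (s : I → Finset C) (G0 : (V → C) → Prop)
    (hs : ∀ i, (s i).card ≤ R)
    (hAdm : ∀ κ κ' M, (∀ p ∈ J0, κ p = κ' p) → Adm κ M → Adm κ' M)
    (hdown : ∀ κ M M', M' ⊆ M → Adm κ M → Adm κ M')
    (hG0 : ∀ κ κ', (∀ p ∈ J0, κ p = κ' p) → G0 κ → G0 κ')
    {q y φ : ℝ} (hq : 0 < q) (hq1 : q ≤ 1) (hy : 0 < y) (hqw : q * w + F.card + R ≤ w)
    (hν : 0 < Fintype.card C ^ F.card)
    (h0 : ((univ.filter fun κ : V → C => PrOn G J κ ∧ G0 κ ∧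
        ¬ Rich Adm s (J \ J0) y κ).card : ℝ) ≤
      φ * (univ.filter fun κ : V → C => PrOn G J κ).card) :
    ((univ.filter fun κ : V → C => PrOn G (J ∪ F) κ ∧ G0 κ ∧
        ¬ Rich Adm s ((J ∪ F) \ J0) (y * (q ^ R / 2)) κ).card : ℝ) ≤
      (φ + 4 / (q ^ R * y)) * (univ.filter fun κ : V → C => PrOn G (J ∪ F) κ).card := by
  set D : ℝ := (w.descFactorial F.card : ℝ) with hD
  have hD0 : 0 ≤ D := Nat.cast_nonneg _
  have hc : 0 ≤ 4 / (q ^ R * y) := by positivity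
  have c1 := ASV.step_count hJF W hW fun μ => G0 μ ∧
    ¬ Rich Adm s ((J ∪ F) \ J0) (y * (q ^ R / 2)) μ
  have c2 := ASV.step_count hJF W hW fun _ => True
  have c3 : D * (univ.filter fun κ : V → C => PrOn G J κ).card =
      (Fintype.card C : ℝ) ^ F.card * (univ.filter fun κ : V → C => PrOn G (J ∪ F) κ).card := by
    simp only [filter_true, and_true] at c2
    rw [sum_congr rfl fun κ hκ => by rw [ASV.card_Ext, hw κ (mem_filter.1 hκ).2], sum_const,
      smul_eq_mul, mul_comm] at c2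
    rw [hD]
    exact_mod_cast c2
  have c4 : ∀ κ ∈ univ.filter (fun κ : V → C => PrOn G J κ),
      (((ASV.Ext κ F (W κ)).filter fun μ => G0 μ ∧
        ¬ Rich Adm s ((J ∪ F) \ J0) (y * (q ^ R / 2)) μ).card : ℝ) ≤
      (if G0 κ ∧ ¬ Rich Adm s (J \ J0) y κ then D else 0) + 4 / (q ^ R * y) * D := by
    intro κ hκ
    have hκ' := (mem_filter.1 hκ).2
    have hE : ((ASV.Ext κ F (W κ)).card : ℝ) = D := by rw [ASV.card_Ext, hw κ hκ']
    have hag : ∀ μ ∈ ASV.Ext κ F (W κ), ∀ p ∈ J, μ p = κ p := fun μ hμ p hp =>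
      (ASV.mem_Ext.1 hμ).1 p (disjoint_left.1 hJF hp)
    split_ifs with hb
    · have : (((ASV.Ext κ F (W κ)).filter fun μ => G0 μ ∧
          ¬ Rich Adm s ((J ∪ F) \ J0) (y * (q ^ R / 2)) μ).card : ℝ) ≤ D := by
        rw [← hE]
        exact_mod_cast card_filter_le _ _
      have := mul_nonneg hc hD0
      linarith
    · rw [zero_add]
      by_cases hg : G0 κ
      · obtain ⟨M, m1, m2, m3, m4⟩ : Rich Adm s (J \ J0) y κ := by
          by_contra hr
          exact hb ⟨hg, hr⟩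
        have key := ASV.ext_cheb κ F (W κ) M s hs m4 hq hq1 hy m2 (by rw [hw κ hκ']; exact hqw)
        rw [hE] at key
        refine le_trans ?_ key
        refine Nat.cast_le.2 (card_le_card fun μ hμ => ?_)
        obtain ⟨hμ1, -, hμ2⟩ := mem_filter.1 hμ
        refine mem_filter.2 ⟨hμ1, ?_⟩
        by_contra hlt
        refine hμ2 ⟨M.filter fun i => ∀ p ∈ F, μ p ∉ s i, hdown _ M _ (filter_subset _ _)
          (hAdm κ μ M (fun p hp => (hag μ hμ1 p (hJ hp)).symm) m1), not_lt.1 hlt,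
          fun i hi p hp => ?_, fun i hi j hj => m4 i (mem_filter.1 hi).1 j (mem_filter.1 hj).1⟩
        obtain ⟨hp1, hp2⟩ := mem_sdiff.1 hp
        rcases mem_union.1 hp1 with hp1 | hp1
        · rw [hag μ hμ1 p hp1]
          exact m3 i (mem_filter.1 hi).1 p (mem_sdiff.2 ⟨hp1, hp2⟩)
        · exact (mem_filter.1 hi).2 p hp1
      · rw [filter_false_of_mem fun μ hμ h => hg (hG0 μ κ (fun p hp => hag μ hμ p (hJ hp)) h.1)]
        simpa using mul_nonneg hc hD0
  have c5 := sum_le_sum c4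
  rw [← Nat.cast_sum, c1, sum_add_distrib, ← sum_filter, sum_const, sum_const, nsmul_eq_mul,
    nsmul_eq_mul, filter_filter] at c5
  have hν' : (0 : ℝ) < (Fintype.card C : ℝ) ^ F.card := by exact_mod_cast hν
  refine le_of_mul_le_mul_left ?_ hν'
  push_cast at c5
  have c6 := mul_le_mul_of_nonneg_right h0 hD0
  calc _ ≤ _ := by convert c5
    _ ≤ φ * (univ.filter fun κ : V → C => PrOn G J κ).card * D +
        (univ.filter fun κ : V → C => PrOn G J κ).card * (4 / (q ^ R * y) * D) := by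
          convert add_le_add_left c6 _
    _ = (φ + 4 / (q ^ R * y)) * (D * (univ.filter fun κ : V → C => PrOn G J κ).card) := by ring
    _ = _ := by rw [c3]; ring

theorem ASV.mem_Jf {fib : V → ℤ} {a b : ℤ} {p : V} : p ∈ Jf fib a b ↔ a ≤ fib p ∧ fib p < b := by
  simp [Jf]

theorem ASV.mem_Ff {fib : V → ℤ} {a : ℤ} {p : V} : p ∈ Ff fib a ↔ fib p = a := by
  simp [Ff]

/-- Adding a fibre next to an interval. -/
theorem ASV.geo {G : SimpleGraph V} {fib : V → ℤ} {N m : ℕ} (hG : PathCl G fib N m)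
    {J : Finset V} {c c' : ℤ} (h1 : ∀ p ∈ J, fib p ≠ c)
    (h2 : ∀ p ∈ J, (fib p ≤ c + 1 ∧ c ≤ fib p + 1) ↔ fib p = c') :
    ∃ e ≤ m, ∃ W : (V → C) → Finset C, (∀ κ, PrOn G J κ → (W κ).card + e = Fintype.card C) ∧
      ∀ κ, PrOn G J κ → ∀ μ : V → C, (∀ p ∉ Ff fib c, μ p = κ p) →
      (PrOn G (J ∪ Ff fib c) μ ↔ Set.InjOn μ (Ff fib c) ∧ ∀ p ∈ Ff fib c, μ p ∈ W κ) := by
  refine ⟨(J.filter fun p => fib p = c').card, ?_,
    fun κ => univ \ (J.filter fun p => fib p = c').image κ, fun κ hκ => ?_, fun κ hκ μ hμ => ?_⟩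
  · rcases (J.filter fun p => fib p = c').eq_empty_or_nonempty with h | ⟨p, hp⟩
    · rw [h]
      simp
    · have hp' := (mem_filter.1 hp).2
      rw [← hG.size c' (hp' ▸ (hG.rng p).1) (hp' ▸ (hG.rng p).2)]
      exact card_le_card fun x hx => mem_filter.2 ⟨mem_univ _, (mem_filter.1 hx).2⟩
  · rw [← card_image_of_injOn (f := κ) fun p hp p' hp' e => ?_, card_sdiff_add_card_eq_card
      (subset_univ _), card_univ]
    obtain ⟨a1, a2⟩ := mem_filter.1 (mem_coe.1 hp)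
    obtain ⟨b1, b2⟩ := mem_filter.1 (mem_coe.1 hp')
    by_contra hne
    exact hκ p a1 p' b1 ((hG.adj p p').2 ⟨hne, by omega, by omega⟩) e
  · have hJ : ∀ p ∈ J, μ p = κ p := fun p hp => hμ p fun h => h1 p hp (ASV.mem_Ff.1 h)
    constructor
    · intro h
      refine ⟨fun p hp p' hp' e => ?_, fun p hp => ?_⟩
      · have a1 := ASV.mem_Ff.1 (mem_coe.1 hp)
        have a2 := ASV.mem_Ff.1 (mem_coe.1 hp')
        by_contra hne
        exact h p (mem_union_right _ hp) p' (mem_union_right _ hp')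
          ((hG.adj p p').2 ⟨hne, by omega, by omega⟩) e
      · refine mem_sdiff.2 ⟨mem_univ _, fun hx => ?_⟩
        obtain ⟨p', hp', e⟩ := mem_image.1 hx
        obtain ⟨b1, b2⟩ := mem_filter.1 hp'
        have a1 := ASV.mem_Ff.1 hp
        have a2 := (h2 p' b1).2 b2
        have a3 := h1 p' b1
        refine h p' (mem_union_left _ b1) p (mem_union_right _ hp)
          ((hG.adj p' p).2 ⟨fun e' => a3 (e' ▸ a1), by omega, by omega⟩) ?_
        rw [hJ p' b1, e]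
    · rintro ⟨hi, hw⟩
      have cr : ∀ p ∈ J, ∀ p' ∈ Ff fib c, G.Adj p p' → μ p ≠ μ p' := fun p hp p' hp' hpp e => by
        have a1 := ASV.mem_Ff.1 hp'
        have a2 := (hG.adj p p').1 hpp
        refine (mem_sdiff.1 (hw p' hp')).2 (mem_image.2 ⟨p, mem_filter.2 ⟨hp,
          (h2 p hp).1 ⟨by omega, by omega⟩⟩, ?_⟩)
        rw [← hJ p hp, e]
      intro p hp p' hp' hpp
      rcases mem_union.1 hp with hp | hp <;> rcases mem_union.1 hp' with hp' | hp'
      · rw [hJ p hp, hJ p' hp']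
        exact hκ p hp p' hp' hpp
      · exact cr p hp p' hp' hpp
      · exact (cr p' hp' p hp hpp.symm).symm
      · exact fun e => hpp.ne (hi hp hp' e)

/-- Every larger interval arises from a smaller one by adding an end fibre. -/
theorem ASV.grow {G : SimpleGraph V} {fib : V → ℤ} {N m : ℕ} (hG : PathCl G fib N m)
    {a b a' b' : ℤ} (hab : a ≤ b) (h0 : 0 ≤ a') (h1 : a' ≤ a) (h2 : b ≤ b') (h3 : b' ≤ N) {k : ℕ}
    (hk : a - a' + (b' - b) = k + 1) :
    ∃ a1 b1 : ℤ, 0 ≤ a1 ∧ a1 ≤ a ∧ b ≤ b1 ∧ b1 ≤ N ∧ a - a1 + (b1 - b) = k ∧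
      ∃ F : Finset V, F.card = m ∧ Disjoint (Jf fib a1 b1) F ∧ Jf fib a' b' = Jf fib a1 b1 ∪ F ∧
      ∃ e ≤ m, ∃ W : (V → C) → Finset C,
        (∀ κ, PrOn G (Jf fib a1 b1) κ → (W κ).card + e = Fintype.card C) ∧
        ∀ κ, PrOn G (Jf fib a1 b1) κ → ∀ μ : V → C, (∀ p ∉ F, μ p = κ p) →
        (PrOn G (Jf fib a1 b1 ∪ F) μ ↔ Set.InjOn μ F ∧ ∀ p ∈ F, μ p ∈ W κ) := by
  rcases lt_or_ge a' a with h | h
  · refine ⟨a' + 1, b', by omega, by omega, h2, h3, by omega, Ff fib a',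
      hG.size a' h0 (by omega), disjoint_left.2 fun p hp hp' => ?_, ?_,
      ASV.geo hG (c' := a' + 1) (fun p hp => ?_) fun p hp => ?_⟩
    · have := ASV.mem_Jf.1 hp
      have := ASV.mem_Ff.1 hp'
      omega
    · ext p
      simp only [mem_union, ASV.mem_Jf, ASV.mem_Ff]
      omega
    · have := ASV.mem_Jf.1 hp
      omega
    · have := ASV.mem_Jf.1 hp
      omega
  · refine ⟨a', b' - 1, h0, h1, by omega, by omega, by omega, Ff fib (b' - 1),
      hG.size _ (by omega) (by omega), disjoint_left.2 fun p hp hp' => ?_, ?_,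
      ASV.geo hG (c' := b' - 2) (fun p hp => ?_) fun p hp => ?_⟩
    · have := ASV.mem_Jf.1 hp
      have := ASV.mem_Ff.1 hp'
      omega
    · ext p
      simp only [mem_union, ASV.mem_Jf, ASV.mem_Ff]
      omega
    · have := ASV.mem_Jf.1 hp
      omega
    · have := ASV.mem_Jf.1 hp
      omega

theorem ASV.Jf_univ {G : SimpleGraph V} {fib : V → ℤ} {N m : ℕ} (hG : PathCl G fib N m) :
    Jf fib 0 N = univ := eq_univ_of_forall fun p => ASV.mem_Jf.2 (hG.rng p)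

theorem ASV.PrOn_univ {G : SimpleGraph V} {κ : V → C} : PrOn G univ κ ↔ Proper G κ :=
  ⟨fun h p p' => h p (mem_univ _) p' (mem_univ _), fun h p _ p' _ => h p p'⟩

/-- Survival lemma: a large family of disjoint colour sets chosen after seeing the colouring of an
interval keeps a positive proportion of untouched members when the colouring is extended. -/
theorem sv_bound {G : SimpleGraph V} {fib : V → ℤ} {N m R : ℕ} (hG : PathCl G fib N m)
    {a b : ℤ} (ha : 0 ≤ a) (hab : a ≤ b) (hb : b ≤ N) (Adm : (V → C) → Finset I → Prop)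
    (s : I → Finset C) (G0 : (V → C) → Prop) (hs : ∀ i, (s i).card ≤ R)
    (hAdm : ∀ κ κ' M, (∀ p ∈ Jf fib a b, κ p = κ' p) → Adm κ M → Adm κ' M)
    (hdown : ∀ κ M M', M' ⊆ M → Adm κ M → Adm κ M')
    (hG0 : ∀ κ κ', (∀ p ∈ Jf fib a b, κ p = κ' p) → G0 κ → G0 κ')
    {q y φ : ℝ} (hq : 0 < q) (hq1 : q ≤ 1) (hy : 0 < y)
    (hqν : q * Fintype.card C + 2 * m + R ≤ Fintype.card C)
    (h0 : ((univ.filter fun κ : V → C => PrOn G (Jf fib a b) κ ∧ G0 κ ∧
        ¬ Rich Adm s ∅ y κ).card : ℝ) ≤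
      φ * (univ.filter fun κ : V → C => PrOn G (Jf fib a b) κ).card) :
    (((Om G C).filter fun κ => G0 κ ∧
        ¬ Rich Adm s (univ \ Jf fib a b) (y * (q ^ R / 2) ^ N) κ).card : ℝ) ≤
      (φ + 4 * N / (q ^ R * (y * (q ^ R / 2) ^ N))) * (Om G C).card := by
  have hr : 0 < q ^ R := pow_pos hq R
  have hr1 : q ^ R / 2 ≤ 1 := by
    have := pow_le_one₀ hq.le hq1 (n := R)
    linarith only [this]
  have hνm : 0 < Fintype.card C ^ m := by
    rcases Nat.eq_zero_or_pos m with rfl | hm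
    · simp
    · have h1 : (0 : ℝ) ≤ q * Fintype.card C := by positivity
      have h2 : (1 : ℝ) ≤ m := by exact_mod_cast hm
      have h3 : (0 : ℝ) ≤ R := Nat.cast_nonneg R
      have h4 : (0 : ℝ) < Fintype.card C := by linarith only [hqν, h1, h2]
      exact pow_pos (by exact_mod_cast h4) m
  set c : ℝ := 4 / (q ^ R * (y * (q ^ R / 2) ^ N)) with hc
  have hc0 : 0 ≤ c := by positivity
  have key : ∀ k : ℕ, ∀ a' b' : ℤ, 0 ≤ a' → a' ≤ a → b ≤ b' → b' ≤ N → a - a' + (b' - b) = k →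
      ((univ.filter fun κ : V → C => PrOn G (Jf fib a' b') κ ∧ G0 κ ∧
        ¬ Rich Adm s (Jf fib a' b' \ Jf fib a b) (y * (q ^ R / 2) ^ k) κ).card : ℝ) ≤
      (φ + k * c) * (univ.filter fun κ : V → C => PrOn G (Jf fib a' b') κ).card := by
    intro k
    induction k with
    | zero =>
      intro a' b' h1 h2 h3 h4 h5
      obtain rfl : a' = a := by omega
      obtain rfl : b' = b := by omega
      simpa using h0
    | succ k ih =>
      intro a' b' h1 h2 h3 h4 h5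
      obtain ⟨a1, b1, g1, g2, g3, g4, g5, F, hF, hd, hu, e, he, W, hw, hW⟩ :=
        ASV.grow (C := C) hG hab h1 h2 h3 h4 (k := k) (by exact_mod_cast h5)
      have hyk : 0 < y * (q ^ R / 2) ^ k := by positivity
      have heν : e ≤ Fintype.card C := by
        have h1 : (0 : ℝ) ≤ q * Fintype.card C := by positivity
        have h3 : (0 : ℝ) ≤ R := Nat.cast_nonneg R
        have h2 : (0 : ℝ) ≤ m := Nat.cast_nonneg m
        have h4 : (m : ℝ) ≤ Fintype.card C := by linarith only [hqν, h1]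
        exact he.trans (by exact_mod_cast h4)
      have st := ASV.step (J0 := Jf fib a b) (w := Fintype.card C - e)
        (fun p hp => by rw [ASV.mem_Jf] at hp ⊢; omega) hd W
        (fun κ hκ => by have := hw κ hκ; omega) hW Adm s G0 hs hAdm hdown hG0 hq hq1 hyk
        (by
          clear * - q C e V F R m hF heν he hq hqν h1 h2
          rw [hF, Nat.cast_sub heν]
          have h1 : (e : ℝ) ≤ m := by exact_mod_cast he
          have h2 : 0 ≤ q * e := by positivity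
          linarith only [hqν, h1, h2])
        (by rw [hF]; exact hνm) (ih a1 b1 g1 g2 g3 g4 g5)
      rw [← hu, mul_assoc, ← pow_succ] at st
      refine st.trans (mul_le_mul_of_nonneg_right ?_ (Nat.cast_nonneg _))
      have : 4 / (q ^ R * (y * (q ^ R / 2) ^ k)) ≤ c := by
        clear * - q R y k c N hc hq hr1 V C m a b hab a' b' h5 a1 b1 g1 g4 g5 F e hy
        rw [hc]
        have : (q ^ R / 2) ^ N ≤ (q ^ R / 2) ^ k :=
          pow_le_pow_of_le_one (by positivity) hr1 (by omega)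
        gcongr
      push_cast
      clear * - φ k c q R y N this
      linarith only [this]
  obtain ⟨k, hk⟩ : ∃ k : ℕ, a - 0 + (N - b) = k := ⟨(a - 0 + (N - b)).toNat, by omega⟩
  have h1 := key k 0 N le_rfl ha hb le_rfl hk
  rw [ASV.Jf_univ hG] at h1
  simp only [ASV.PrOn_univ] at h1
  have hkN : k ≤ N := by omega
  have h2 : (q ^ R / 2) ^ N ≤ (q ^ R / 2) ^ k := pow_le_pow_of_le_one (by positivity) hr1 hkN
  have h3 : φ + k * c ≤ φ + 4 * N / (q ^ R * (y * (q ^ R / 2) ^ N)) := by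
    clear * - k N hkN c hc0 q R y hc φ
    have : (k : ℝ) ≤ N := by exact_mod_cast hkN
    have h4 : (k : ℝ) * c ≤ N * c := mul_le_mul_of_nonneg_right this hc0
    have h5 : (N : ℝ) * c = 4 * N / (q ^ R * (y * (q ^ R / 2) ^ N)) := by rw [hc]; ring
    linarith only [h4, h5]
  refine le_trans (Nat.cast_le.2 (card_le_card fun κ hκ => ?_)) (h1.trans ?_)
  · obtain ⟨a1, a2, a3⟩ := mem_filter.1 hκ
    refine mem_filter.2 ⟨mem_univ _, mem_Om.1 a1, a2, fun ⟨M, m1, m2, m3⟩ => a3 ⟨M, m1, ?_, m3⟩⟩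
    exact (mul_le_mul_of_nonneg_left h2 hy.le).trans m2
  · exact mul_le_mul_of_nonneg_right h3 (Nat.cast_nonneg _)

/-- The survival lemma summed over keys. -/
theorem sv_pairs {G : SimpleGraph V} {fib : V → ℤ} {N m R : ℕ} (hG : PathCl G fib N m)
    {a b : ℤ} (ha : 0 ≤ a) (hab : a ≤ b) (hb : b ≤ N) (Adm : C → (V → C) → Finset I → Prop)
    (s : I → Finset C) (G0 : C → (V → C) → Prop) (hs : ∀ i, (s i).card ≤ R)
    (hAdm : ∀ x κ κ' M, (∀ p ∈ Jf fib a b, κ p = κ' p) → Adm x κ M → Adm x κ' M)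
    (hdown : ∀ x κ M M', M' ⊆ M → Adm x κ M → Adm x κ M')
    (hG0 : ∀ x κ κ', (∀ p ∈ Jf fib a b, κ p = κ' p) → G0 x κ → G0 x κ')
    {q y : ℝ} {A : ℕ} (hq : 0 < q) (hq1 : q ≤ 1) (hy : 0 < y)
    (hqν : q * Fintype.card C + 2 * m + R ≤ Fintype.card C)
    (h0 : ∀ κ : V → C, PrOn G (Jf fib a b) κ →
      (univ.filter fun x => G0 x κ ∧ ¬ Rich (Adm x) s ∅ y κ).card ≤ A) :
    (npairs G (fun κ x => G0 x κ ∧
        ¬ Rich (Adm x) s (univ \ Jf fib a b) (y * (q ^ R / 2) ^ N) κ) : ℝ) ≤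
      (A + Fintype.card C * (4 * N / (q ^ R * (y * (q ^ R / 2) ^ N)))) * (Om G C).card := by
  set n0 : ℝ := ((univ.filter fun κ : V → C => PrOn G (Jf fib a b) κ).card : ℝ) with hn0
  set ct : C → ℝ := fun x => ((univ.filter fun κ : V → C => PrOn G (Jf fib a b) κ ∧ G0 x κ ∧
    ¬ Rich (Adm x) s ∅ y κ).card : ℝ) with hct
  have hn : 0 ≤ n0 := Nat.cast_nonneg _
  have h1 : ∀ x, ct x ≤ ct x / n0 * n0 := fun x => by
    rcases hn.eq_or_lt with h | h
    · have : ct x ≤ n0 := Nat.cast_le.2 (card_le_card fun κ hκ =>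
        mem_filter.2 ⟨mem_univ _, (mem_filter.1 hκ).2.1⟩)
      rw [← h] at this ⊢
      simpa using this
    · rw [div_mul_cancel₀ _ h.ne']
  have h2 : ∑ x, ct x ≤ A * n0 := by
    clear * - C V G fib a b G0 I Adm s y A h0 ct n0 hct hn0
    have e : ∑ x, (univ.filter fun κ : V → C => PrOn G (Jf fib a b) κ ∧ G0 x κ ∧
        ¬ Rich (Adm x) s ∅ y κ).card = ∑ κ ∈ univ.filter fun κ : V → C => PrOn G (Jf fib a b) κ,
          (univ.filter fun x => G0 x κ ∧ ¬ Rich (Adm x) s ∅ y κ).card := by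
      rw [sum_filter]
      simp only [card_filter]
      rw [sum_comm]
      refine sum_congr rfl fun κ _ => ?_
      by_cases h : PrOn G (Jf fib a b) κ <;> simp [h]
    have := sum_le_card_nsmul _ _ A fun κ (hκ : κ ∈ univ.filter
      fun κ : V → C => PrOn G (Jf fib a b) κ) => h0 κ (mem_filter.1 hκ).2
    rw [← e, smul_eq_mul, mul_comm] at this
    simp only [hct, hn0]
    exact_mod_cast this
  have h3 : ∑ x, ct x / n0 ≤ A := by
    rw [← sum_div]
    exact div_le_of_le_mul₀ hn (Nat.cast_nonneg _) h2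
  have h4 := sum_le_sum fun x (_ : x ∈ univ) => sv_bound hG ha hab hb (Adm x) s (G0 x) hs
    (hAdm x) (hdown x) (hG0 x) hq hq1 hy hqν (φ := ct x / n0) (h1 x)
  rw [← sum_mul, sum_add_distrib, sum_const, card_univ, nsmul_eq_mul] at h4
  refine le_trans (le_of_eq ?_) (h4.trans (mul_le_mul_of_nonneg_right (by linarith only [h3])
    (Nat.cast_nonneg _)))
  rw [← Nat.cast_sum]
  congr 1
  unfold npairs
  simp only [card_filter]
  rw [sum_product, sum_comm]

/-- Most proper colourings leave a positive proportion of the colours unused. -/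
theorem atyp_bound {G : SimpleGraph V} {fib : V → ℤ} {N m : ℕ} (hG : PathCl G fib N m)
    {q : ℝ} (hq : 0 < q) (hq1 : q ≤ 1) (hν : 0 < Fintype.card C)
    (hqν : q * Fintype.card C + 2 * m + 1 ≤ Fintype.card C) :
    (atyp G C ((q / 2) ^ N) : ℝ) ≤
      4 * N / (q * (Fintype.card C * (q / 2) ^ N)) * (Om G C).card := by
  have key := sv_bound (C := C) (R := 1) (φ := 0) (y := Fintype.card C) hG le_rfl le_rfl
    (Int.natCast_nonneg N) (fun _ _ => True) (fun c : C => {c}) (fun _ => True) (fun _ => by simp)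
    (fun _ _ _ _ _ => trivial) (fun _ _ _ _ _ => trivial) (fun _ _ _ _ => trivial) hq hq1
    (by exact_mod_cast hν) (by exact_mod_cast hqν) (by
      rw [zero_mul, Nat.cast_nonpos, card_eq_zero, eq_empty_iff_forall_notMem]
      intro κ h
      simp only [mem_filter] at h
      exact h.2.2.2 ⟨univ, trivial, by simp, by simp,
        fun i _ j _ hij => disjoint_singleton.2 hij⟩)
  rw [pow_one, zero_add] at key
  refine le_trans (Nat.cast_le.2 (card_le_card fun κ hκ => ?_)) key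
  obtain ⟨a1, a2⟩ := mem_filter.1 hκ
  simp only [mem_filter]
  refine ⟨a1, trivial, fun ⟨M, _, m2, m3, _⟩ => a2.not_ge ?_⟩
  rw [mul_comm]
  refine m2.trans (Nat.cast_le.2 (card_le_card fun c hc => mem_Un.2 fun p e => ?_))
  refine m3 c hc p (mem_sdiff.2 ⟨mem_univ _, fun h => ?_⟩) (mem_singleton.2 e)
  have := ASV.mem_Jf.1 h
  omega

theorem Om_nonempty {G : SimpleGraph V} {fib : V → ℤ} {N m : ℕ} (hG : PathCl G fib N m)
    (hν : 2 * m + 1 ≤ Fintype.card C) : (Om G C).Nonempty := by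
  have key : ∀ k : ℕ, ∀ a' b' : ℤ, 0 ≤ a' → a' ≤ 0 → 0 ≤ b' → b' ≤ N → 0 - a' + (b' - 0) = k →
      ∃ κ : V → C, PrOn G (Jf fib a' b') κ := by
    intro k
    induction k with
    | zero =>
      intro a' b' h1 h2 h3 h4 h5
      obtain ⟨c⟩ : Nonempty C := Fintype.card_pos_iff.1 (by omega)
      refine ⟨fun _ => c, fun p hp => ?_⟩
      have := ASV.mem_Jf.1 hp
      omega
    | succ k ih =>
      intro a' b' h1 h2 h3 h4 h5
      obtain ⟨a1, b1, g1, g2, g3, g4, g5, F, hF, hd, hu, e, he, W, hw, hW⟩ :=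
        ASV.grow (C := C) hG le_rfl h1 h2 h3 h4 (k := k) (by exact_mod_cast h5)
      obtain ⟨κ, hκ⟩ := ih a1 b1 g1 g2 g3 g4 g5
      obtain ⟨μ, hμ⟩ : (ASV.Ext κ F (W κ)).Nonempty := by
        rw [← card_pos, ASV.card_Ext, Nat.descFactorial_pos]
        have := hw κ hκ
        omega
      obtain ⟨m1, m2⟩ := ASV.mem_Ext.1 hμ
      exact ⟨μ, hu ▸ (hW κ hκ μ m1).2 m2⟩
  obtain ⟨κ, hκ⟩ := key N 0 N le_rfl le_rfl (Int.natCast_nonneg N) le_rfl (by simp)
  rw [ASV.Jf_univ hG] at hκ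
  exact ⟨κ, mem_Om.2 (ASV.PrOn_univ.1 hκ)⟩

end Pool.Agent.Work.MP_418764_co.All
end

-- merged part: Pool.Agent.Work.MP_418764_co.ATok
section
namespace Pool.Agent.Work.MP_418764_co.All
open Finset Function Classical

variable {V C S I : Type} [Fintype V] [Fintype C] [Fintype S]

omit [Fintype V] [Fintype C] [Fintype S] in
theorem ATok.mf {α : Type} {p : α → Prop} {inst : DecidablePred p} {s : Finset α} {a : α}
    (h : a ∈ ((@Finset.filter α p inst s : Finset α) : Set α)) : p a :=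
  (@mem_filter α p inst s a).1 (mem_coe.1 h) |>.2

omit [Fintype V] [Fintype C] [Fintype S] in
/-- Among more than `K0` pairwise disjoint sets one misses a given set of size `K0`. -/
theorem ATok.miss {J : Type} (M : Finset J) (s : J → Finset S) (Z : Finset S)
    (hd : ∀ i ∈ M, ∀ j ∈ M, i ≠ j → Disjoint (s i) (s j)) (hc : Z.card < M.card) :
    ∃ i ∈ M, ∀ v ∈ s i, v ∉ Z := by
  by_contra h
  push Not at h
  choose f hf using h
  rcases M.eq_empty_or_nonempty with rfl | ⟨i0, hi0⟩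
  · simp at hc
  have hle : M.card ≤ Z.card := by
    refine card_le_card_of_injOn (fun i => if hi : i ∈ M then f i hi else f i0 hi0) ?_ ?_
    · intro i hi
      have hi' : i ∈ M := hi
      simp only [hi', dite_true]
      exact (hf i hi').2
    · intro i hi j hj e
      have hi' : i ∈ M := hi
      have hj' : j ∈ M := hj
      simp only [hi', hj', dite_true] at e
      by_contra hne
      exact disjoint_left.1 (hd i hi' j hj' hne) (hf i hi').1 (e ▸ (hf j hj').1)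
  omega

theorem ATok.npairs_mono (G : SimpleGraph V) {P Q : (V → C) → C → Prop}
    (h : ∀ κ x, P κ x → Q κ x) : npairs G P ≤ npairs G Q := by
  unfold npairs
  refine card_le_card fun p hp => ?_
  rw [mem_filter] at hp ⊢
  exact ⟨hp.1, h _ _ hp.2⟩

omit [Fintype V] [Fintype S] in
theorem ATok.card_pre (ι : C ↪ S) (T : Finset S) :
    (univ.filter fun c => ι c ∈ T).card ≤ T.card :=
  card_le_card_of_injOn ι (fun c hc => by simpa using hc) fun _ _ _ _ e => ι.injective e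

omit [Fintype V] [Fintype S] in
theorem ATok.disj_pre (ι : C ↪ S) {T T' : Finset S} (h : Disjoint T T') :
    Disjoint (univ.filter fun c => ι c ∈ T) (univ.filter fun c => ι c ∈ T') := by
  rw [disjoint_left] at h ⊢
  intro c h1 h2
  exact h (mem_filter.1 h1).2 (mem_filter.1 h2).2

omit [Fintype V] [Fintype C] in
theorem ATok.pair_count (W : Finset (S × S)) (v : S) :
    (W.filter fun i => v ∈ ({i.1, i.2} : Finset S)).card ≤ 2 * Fintype.card S := by
  have h : (W.filter fun i => v ∈ ({i.1, i.2} : Finset S)) ⊆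
      (univ.image fun u : S => (v, u)) ∪ univ.image fun u : S => (u, v) := by
    rintro ⟨b, e⟩ hi
    have := (mem_filter.1 hi).2
    simp only [mem_insert, mem_singleton] at this
    rcases this with rfl | rfl
    · exact mem_union_left _ (mem_image.2 ⟨e, mem_univ _, rfl⟩)
    · exact mem_union_right _ (mem_image.2 ⟨b, mem_univ _, rfl⟩)
  refine (card_le_card h).trans ((card_union_le _ _).trans ?_)
  have h1 := card_image_le (s := (univ : Finset S)) (f := fun u : S => (v, u))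
  have h2 := card_image_le (s := (univ : Finset S)) (f := fun u : S => (u, v))
  rw [card_univ] at h1 h2
  omega

omit [Fintype V] [Fintype C] in
theorem ATok.two_fixed [Fintype I] {i j : I} (hij : i ≠ j) (u v : S) :
    (univ.filter fun w : I → S => w j = u ∧ w i = v).card ≤
      Fintype.card S ^ (Fintype.card I - 2) := by
  have hT : ((univ.erase j).erase i).card = Fintype.card I - 2 := by
    rw [card_erase_of_mem (mem_erase.2 ⟨hij, mem_univ _⟩), card_erase_of_mem (mem_univ _),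
      card_univ]
    omega
  have h : (univ.filter fun w : I → S => w j = u ∧ w i = v).card ≤
      (univ : Finset (((univ.erase j).erase i : Finset I) → S)).card := by
    refine card_le_card_of_injOn (fun w k => w k.1) (fun _ _ => mem_coe.2 (mem_univ _)) ?_
    intro w hw w' hw' e
    have h1 := (mem_filter.1 (mem_coe.1 hw)).2
    have h2 := (mem_filter.1 (mem_coe.1 hw')).2
    funext k
    by_cases hj : k = j
    · rw [hj, h1.1, h2.1]
    by_cases hi : k = i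
    · rw [hi, h1.2, h2.2]
    exact congrFun e ⟨k, by simp [hi, hj]⟩
  rw [card_univ, Fintype.card_fun, Fintype.card_coe, hT] at h
  exact h

omit [Fintype V] [Fintype C] in
theorem ATok.word_count [Fintype I] (j : I) (u : S) (W : Finset (I → S))
    (hW : ∀ w ∈ W, w j = u) (v : S) :
    (W.filter fun w => v ∈ (univ.erase j).image w).card ≤
      Fintype.card I * Fintype.card S ^ (Fintype.card I - 2) := by
  have h : (W.filter fun w => v ∈ (univ.erase j).image w) ⊆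
      (univ.erase j).biUnion fun i => univ.filter fun w : I → S => w j = u ∧ w i = v := by
    intro w hw
    obtain ⟨h1, h2⟩ := mem_filter.1 hw
    obtain ⟨i, hi, e⟩ := mem_image.1 h2
    exact mem_biUnion.2 ⟨i, hi, mem_filter.2 ⟨mem_univ _, hW w h1, e⟩⟩
  refine (card_le_card h).trans (card_biUnion_le.trans ?_)
  refine (sum_le_card_nsmul _ _ (Fintype.card S ^ (Fintype.card I - 2)) fun i hi =>
    ATok.two_fixed (mem_erase.1 hi).1 u v).trans ?_
  rw [smul_eq_mul]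
  exact Nat.mul_le_mul_right _ (card_le_univ _)

/-- Tokens with compatible data carry different labels. -/
theorem tok_cross [Fintype I] {Γ : SimpleGraph V} {Ψ : (V → S) → S}
    (hΨ : ∀ f g, (∀ p p', Γ.Adj p p' → f p ≠ g p') → Ψ f ≠ Ψ g) {ι : C ↪ S} {pos : V → I}
    {K K0 : ℕ} (hK : K + Fintype.card I + 1 ≤ K0) {D Kp D' Kp' : Set V} {κ κ' : V → C}
    {x x' : C} {l : S} (h1 : Tok Γ Ψ ι pos K0 D Kp κ x l) (h2 : Tok Γ Ψ ι pos K0 D' Kp' κ' x' l)
    (hd : (dif κ κ').card ≤ K) (hc : Compat Γ D D' κ κ')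
    (k1 : ∀ p ∈ Kp, ∀ p' ∈ D', Γ.Adj p p' → κ' p' ≠ x)
    (k2 : ∀ p ∈ D, ∀ p' ∈ Kp', Γ.Adj p p' → κ p ≠ x')
    (k3 : x ≠ x' ∨ ∀ p ∈ Kp, ∀ p' ∈ Kp', ¬ Γ.Adj p p') : False := by
  have hi := card_image_le (s := dif κ κ') (f := fun p => ι (κ' p))
  have hi' := card_image_le (s := dif κ κ') (f := fun p => ι (κ p))
  obtain ⟨t1, a1, e1⟩ := h1.2 (insert (ι x') ((dif κ κ').image fun p => ι (κ' p)))
    ((card_insert_le _ _).trans (by omega))
  have hj := card_image_le (s := (univ : Finset I)) (f := t1)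
  rw [card_univ] at hj
  have hu := card_union_le ((dif κ κ').image fun p => ι (κ p)) (univ.image t1)
  obtain ⟨t2, a2, e2⟩ := h2.2
    (insert (ι x) (((dif κ κ').image fun p => ι (κ p)) ∪ univ.image t1))
    ((card_insert_le _ _).trans (by omega))
  refine hΨ _ _ (fun p p' hpp => ?_) (e1.trans e2.symm)
  unfold tokmap
  by_cases c1 : p ∈ D
  · rw [if_pos c1]
    by_cases c2 : p' ∈ D'
    · rw [if_pos c2]
      exact fun e => hc p c1 p' c2 hpp (ι.injective e)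
    rw [if_neg c2]
    by_cases c3 : p' ∈ Kp'
    · rw [if_pos c3]
      exact fun e => k2 p c1 p' c3 hpp (ι.injective e)
    rw [if_neg c3]
    intro e
    by_cases c4 : κ' p = κ p
    · exact (a2 p' c2 c3).2 p hpp.symm (by rw [← e, c4])
    · exact (a2 p' c2 c3).1 (mem_insert_of_mem (mem_union_left _
        (mem_image.2 ⟨p, mem_dif.2 c4, e⟩)))
  rw [if_neg c1]
  by_cases c1' : p ∈ Kp
  · rw [if_pos c1']
    by_cases c2 : p' ∈ D'
    · rw [if_pos c2]
      exact fun e => k1 p c1' p' c2 hpp (ι.injective e).symm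
    rw [if_neg c2]
    by_cases c3 : p' ∈ Kp'
    · rw [if_pos c3]
      intro e
      rcases k3 with k3 | k3
      · exact k3 (ι.injective e)
      · exact k3 p c1' p' c3 hpp
    rw [if_neg c3]
    exact fun e => (a2 p' c2 c3).1 (e ▸ mem_insert_self _ _)
  rw [if_neg c1']
  by_cases c2 : p' ∈ D'
  · rw [if_pos c2]
    intro e
    by_cases c4 : κ' p' = κ p'
    · exact (a1 p c1 c1').2 p' hpp (by rw [e, c4])
    · exact (a1 p c1 c1').1 (mem_insert_of_mem (mem_image.2 ⟨p', mem_dif.2 c4, e.symm⟩))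
  rw [if_neg c2]
  by_cases c3 : p' ∈ Kp'
  · rw [if_pos c3]
    exact fun e => (a1 p c1 c1').1 (e ▸ mem_insert_self _ _)
  rw [if_neg c3]
  exact fun e => (a2 p' c2 c3).1 (mem_insert_of_mem (mem_union_right _
    (mem_image.2 ⟨pos p, mem_univ _, e⟩)))

/-- Validity of the tokens of positive level. -/
theorem valid_level {Γ G : SimpleGraph V} {fib : V → ℤ} {N m : ℕ} (hG : PathCl G fib N m)
    {Ψ : (V → S) → S} {ι : C ↪ S} {pos : V → I} {a b : ℤ} (ha : 0 ≤ a) (hab : a ≤ b)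
    (hb : b ≤ N) {Fu Fv Eu Ev : Finset V} {pool : Finset S} {y A K0 : ℕ}
    (hdom : Dom Γ ι (fun κ x b' e => Ψ (cell ι (Jf fib a b) Fu Fv κ x b' e)) (Jf fib a b) Eu Ev
      pool y A)
    (hEu : Eu ⊆ Jf fib a b) (hEv : Ev ⊆ Jf fib a b) (hι : ∀ c, ι c ∉ pool)
    (g1 : ∀ p ∈ Jf fib a b, ∀ p' ∈ Jf fib a b, Γ.Adj p p' → G.Adj p p')
    (g2 : ∀ p p', pos p = pos p' → p ∈ Fv → p' ∈ Fv)
    (g3 : ∀ p, p ∉ Jf fib a b → p ∉ Fu → ∀ p' ∈ Jf fib a b, Γ.Adj p p' → p ∈ Fv ∧ p' ∈ Ev)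
    {q y0 : ℝ} (hq : 0 < q) (hq1 : q ≤ 1) (hy0 : 0 < y0)
    (hqν : q * Fintype.card C + 2 * m + 2 ≤ Fintype.card C)
    (hy : y0 * (4 * Fintype.card S) ≤ y) (hK : (K0 : ℝ) + 1 ≤ y0 * (q ^ 2 / 2) ^ N) :
    (npairs G (fun κ x => x ∈ Un κ ∧
        ¬ ∃ l, Tok Γ Ψ ι pos K0 (Jf fib a b : Set V) (Fu : Set V) κ x l) : ℝ) ≤
      (A + Fintype.card C * (4 * N / (q ^ 2 * (y0 * (q ^ 2 / 2) ^ N)))) * (Om G C).card := by
  have key := sv_pairs (I := S × S) (R := 2) hG ha hab hb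
    (fun x κ M => (∃ l, ∀ i ∈ M, (∀ p ∈ Ev, ι (κ p) ≠ i.2) ∧
      Ψ (cell ι (Jf fib a b) Fu Fv κ (ι x) i.1 i.2) = l) ∧
      ∀ i ∈ M, ∀ j ∈ M, i ≠ j → Disjoint ({i.1, i.2} : Finset S) {j.1, j.2})
    (fun i => univ.filter fun c => ι c ∈ ({i.1, i.2} : Finset S))
    (fun x κ => ∀ p ∈ Eu, κ p ≠ x)
    (fun i => (ATok.card_pre ι _).trans card_le_two) ?_ ?_ ?_ (A := A) hq hq1 hy0
    (by exact_mod_cast hqν) ?_
  · refine le_trans ?_ key
    refine Nat.cast_le.2 (ATok.npairs_mono G fun κ x h => ⟨fun p _ => mem_Un.1 h.1 p, ?_⟩)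
    rintro ⟨M, ⟨⟨l, hl⟩, hdis⟩, hM, hav, -⟩
    refine h.2 ⟨l, h.1, fun Z hZ => ?_⟩
    have hc : Z.card < M.card := by
      have : (K0 : ℝ) + 1 ≤ M.card := hK.trans hM
      have : K0 + 1 ≤ M.card := by exact_mod_cast this
      omega
    obtain ⟨i, hi, hiZ⟩ := ATok.miss M (fun i => ({i.1, i.2} : Finset S)) Z hdis hc
    have ht : ∀ p, (if ∃ p' ∈ Fv, pos p' = pos p then i.2 else i.1) =
        if p ∈ Fv then i.2 else i.1 := by
      intro p
      by_cases hp : p ∈ Fv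
      · rw [if_pos hp, if_pos ⟨p, hp, rfl⟩]
      · rw [if_neg hp, if_neg fun ⟨p', h1, h2⟩ => hp (g2 p' p h2 h1)]
    refine ⟨fun k => if ∃ p' ∈ Fv, pos p' = k then i.2 else i.1, fun p hp hp' => ?_, ?_⟩
    · simp only [ht]
      have hm : (if p ∈ Fv then i.2 else i.1) ∈ ({i.1, i.2} : Finset S) := by
        split_ifs <;> simp
      refine ⟨hiZ _ hm, fun p' hpp e => ?_⟩
      by_cases hJ : p' ∈ Jf fib a b
      · obtain ⟨h1, h2⟩ := g3 p hp hp' p' hJ hpp
        rw [if_pos h1] at e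
        exact (hl i hi).1 p' h2 e.symm
      · exact hav i hi p' (mem_sdiff.2 ⟨mem_univ _, hJ⟩) (mem_filter.2 ⟨mem_univ _, e ▸ hm⟩)
    · rw [← (hl i hi).2]
      congr 1
      funext p
      simp only [tokmap, cell, ht, mem_coe]
  · rintro x κ κ' M h ⟨⟨l, hl⟩, hdis⟩
    refine ⟨⟨l, fun i hi => ⟨fun p hp => h p (hEv hp) ▸ (hl i hi).1 p hp, ?_⟩⟩, hdis⟩
    rw [← (hl i hi).2]
    congr 1
    funext p
    unfold cell
    by_cases hp : p ∈ Jf fib a b
    · rw [if_pos hp, if_pos hp, h p hp]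
    · rw [if_neg hp, if_neg hp]
  · rintro x κ M M' h ⟨⟨l, hl⟩, hdis⟩
    exact ⟨⟨l, fun i hi => hl i (h hi)⟩, fun i hi j hj => hdis i (h hi) j (h hj)⟩
  · intro x κ κ' h h' p hp
    rw [← h p (hEu hp)]
    exact h' p hp
  · intro κ hκ
    refine le_trans ?_ (hdom κ fun p hp p' hp' hpp => hκ p hp p' hp' (g1 p hp p' hp' hpp))
    refine card_le_card_of_injOn ι (fun x hx => ?_) fun _ _ _ _ e => ι.injective e
    obtain ⟨h1, h2⟩ := ATok.mf hx
    refine mem_coe.2 (mem_filter.2 ⟨mem_univ _, hι x, fun p hp e => h1 p hp (ι.injective e), ?_⟩)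
    rintro ⟨l, hl⟩
    obtain ⟨M, hMW, hdis, hcard⟩ := greedy_disj (R := 2) (Δ := 2 * Fintype.card S)
      (univ.filter fun be : S × S => (∀ p ∈ Ev, ι (κ p) ≠ be.2) ∧
        Ψ (cell ι (Jf fib a b) Fu Fv κ (ι x) be.1 be.2) = l)
      (fun i => ({i.1, i.2} : Finset S)) (fun i _ => insert_nonempty _ _)
      (fun i _ => card_le_two) (fun v => ATok.pair_count _ v)
    refine h2 ⟨M, ⟨⟨l, fun i hi => (mem_filter.1 (hMW hi)).2⟩, hdis⟩, ?_, by simp,
      fun i hi j hj hij => ATok.disj_pre ι (hdis i hi j hj hij)⟩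
    have hn : (0 : ℝ) < Fintype.card S := by
      exact_mod_cast Fintype.card_pos_iff.2 ⟨ι x⟩
    have h3 : (y : ℝ) ≤ M.card * (2 * (2 * Fintype.card S)) := by
      exact_mod_cast hl.trans hcard
    have h4 : y0 * (4 * Fintype.card S) ≤ M.card * (4 * Fintype.card S) := by linarith only [hy, h3]
    exact le_of_mul_le_mul_right h4 (by positivity)

/-- Validity of the token of level zero. -/
theorem valid_zero [Fintype I] {Γ G : SimpleGraph V} {fib : V → ℤ} {N m : ℕ}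
    (hG : PathCl G fib N m) {Ψ : (V → S) → S} {ι : C ↪ S} {pos : V → I} (hI : Fintype.card I = N)
    (hN : 2 ≤ N) {j : I} {y A K0 : ℕ}
    (hdom : (univ.filter fun v : S =>
      (univ.filter fun w : I → S => w j = v ∧ Ψ (fun p => w (pos p)) = v).card < y).card ≤ A)
    {q y0 : ℝ} (hq : 0 < q) (hq1 : q ≤ 1) (hy0 : 0 < y0)
    (hqν : q * Fintype.card C + 2 * m + N ≤ Fintype.card C)
    (hy : y0 * (N * (N * Fintype.card S ^ (N - 2))) ≤ y)
    (hK : (K0 : ℝ) + 1 ≤ y0 * (q ^ N / 2) ^ N) :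
    (npairs G (fun κ x => x ∈ Un κ ∧
        ¬ ∃ l, Tok Γ Ψ ι pos K0 ∅ {p | pos p = j} κ x l) : ℝ) ≤
      (A + Fintype.card C * (4 * N / (q ^ N * (y0 * (q ^ N / 2) ^ N)))) * (Om G C).card := by
  have key := sv_pairs (I := I → S) (R := N) (a := 0) (b := 0) hG le_rfl le_rfl (by positivity)
    (fun (x : C) (_ : V → C) M => (∀ w ∈ M, w j = ι x ∧ Ψ (fun p => w (pos p)) = ι x) ∧
      ∀ w ∈ M, ∀ w' ∈ M, w ≠ w' → Disjoint ((univ.erase j).image w) ((univ.erase j).image w'))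
    (fun w => univ.filter fun c => ι c ∈ (univ.erase j).image w)
    (fun _ _ => True)
    (fun w => (ATok.card_pre ι _).trans (card_image_le.trans (hI ▸ card_le_univ _)))
    (fun _ _ _ _ _ h => h)
    (fun _ _ M M' h h' => ⟨fun w hw => h'.1 w (h hw), fun i hi k hk => h'.2 i (h hi) k (h hk)⟩)
    (fun _ _ _ _ h => h) (A := A) hq hq1 hy0 hqν ?_
  · refine le_trans ?_ key
    refine Nat.cast_le.2 (ATok.npairs_mono G fun κ x h => ⟨trivial, ?_⟩)
    rintro ⟨M, ⟨hl, hdis⟩, hM, hav, -⟩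
    refine h.2 ⟨ι x, h.1, fun Z hZ => ?_⟩
    have hc : Z.card < M.card := by
      have : (K0 : ℝ) + 1 ≤ M.card := hK.trans hM
      have : K0 + 1 ≤ M.card := by exact_mod_cast this
      omega
    obtain ⟨w, hw, hwZ⟩ := ATok.miss M (fun w => (univ.erase j).image w) Z hdis hc
    refine ⟨w, fun p _ hp => ?_, ?_⟩
    · have hm : w (pos p) ∈ (univ.erase j).image w :=
        mem_image_of_mem w (mem_erase.2 ⟨hp, mem_univ _⟩)
      refine ⟨hwZ _ hm, fun p' _ e => ?_⟩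
      refine hav w hw p' (mem_sdiff.2 ⟨mem_univ _, ?_⟩) (mem_filter.2 ⟨mem_univ _, e ▸ hm⟩)
      simp only [Jf, mem_filter]
      omega
    · rw [← (hl w hw).2]
      congr 1
      funext p
      unfold tokmap
      rw [if_neg (Set.notMem_empty p)]
      by_cases hp : pos p = j
      · rw [if_pos (show p ∈ {p | pos p = j} from hp), hp, (hl w hw).1]
      · rw [if_neg (show p ∉ {p | pos p = j} from hp)]
  · intro κ _
    refine le_trans ?_ hdom
    refine card_le_card_of_injOn ι (fun x hx => ?_) fun _ _ _ _ e => ι.injective e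
    obtain ⟨-, h2⟩ := ATok.mf hx
    refine mem_coe.2 (mem_filter.2 ⟨mem_univ _, ?_⟩)
    by_contra hl
    push Not at hl
    have hne : (univ.erase j).Nonempty := by
      rw [← card_pos, card_erase_of_mem (mem_univ _), card_univ]
      omega
    obtain ⟨M, hMW, hdis, hcard⟩ := greedy_disj (R := N) (Δ := N * Fintype.card S ^ (N - 2))
      (univ.filter fun w : I → S => w j = ι x ∧ Ψ (fun p => w (pos p)) = ι x)
      (fun w => (univ.erase j).image w) (fun w _ => hne.image w)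
      (fun w _ => card_image_le.trans (hI ▸ card_le_univ _))
      (fun v => hI ▸ ATok.word_count j (ι x) _ (fun w hw => (mem_filter.1 hw).2.1) v)
    refine h2 ⟨M, ⟨fun w hw => (mem_filter.1 (hMW hw)).2, hdis⟩, ?_, by simp,
      fun i hi k hk hik => ATok.disj_pre ι (hdis i hi k hk hik)⟩
    have hn : (0 : ℝ) < Fintype.card S := by
      exact_mod_cast Fintype.card_pos_iff.2 ⟨ι x⟩
    have hN' : (0 : ℝ) < N := by exact_mod_cast (by omega : 0 < N)
    have h3 : (y : ℝ) ≤ M.card * (N * (N * Fintype.card S ^ (N - 2))) := by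
      exact_mod_cast hl.trans hcard
    exact le_of_mul_le_mul_right (hy.trans h3) (by positivity)

/-- Tokens without tails are always valid. -/
theorem valid_full {Γ G : SimpleGraph V} {Ψ : (V → S) → S} {ι : C ↪ S} {pos : V → I} {K0 : ℕ}
    {D Kp : Set V} (h : ∀ p, p ∈ D ∨ p ∈ Kp) :
    npairs G (fun κ x => x ∈ Un κ ∧ ¬ ∃ l, Tok Γ Ψ ι pos K0 D Kp κ x l) = 0 := by
  unfold npairs
  rw [card_eq_zero, eq_empty_iff_forall_notMem]
  rintro ⟨κ, x⟩ hx
  obtain ⟨h1, h2⟩ := ATok.mf (mem_coe.2 hx)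
  exact h2 ⟨_, h1, fun Z _ => ⟨fun _ => ι x, fun p c1 c2 => ((h p).elim c1 c2).elim, rfl⟩⟩

end Pool.Agent.Work.MP_418764_co.All
end

-- merged part: Pool.Agent.Work.MP_418764_co.AChain
section
namespace Pool.Agent.Work.MP_418764_co.All
open Finset Function Classical

variable {V C S I : Type} [Fintype V] [Fintype C] [Fintype S]

theorem AChain.three {N X : ℤ} (h : N ∣ X) (h1 : -2 * N < X) (h2 : X < 2 * N) :
    X = -N ∨ X = 0 ∨ X = N := by
  obtain ⟨k, rfl⟩ := h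
  have hN : 0 < N := by omega
  have k1 : -2 < k := by
    by_contra hk
    linarith only [h1, hk, h2, mul_nonneg_of_nonpos_of_nonpos (Mathlib.Tactic.Linarith.sub_nonpos_of_le (Int.add_one_le_iff.mpr h1)) (Mathlib.Tactic.Linarith.sub_nonpos_of_le (le_of_not_gt hk)), mul_nonneg_of_nonpos_of_nonpos (Mathlib.Tactic.Linarith.sub_nonpos_of_le (Int.add_one_le_iff.mpr h2)) (Mathlib.Tactic.Linarith.sub_nonpos_of_le (le_of_not_gt hk))]
  have k2 : k < 2 := by
    by_contra hk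
    nlinarith
  interval_cases k <;> simp

theorem AChain.sub_one {N : ℕ} {u v : Fin N} (h : (u - v).val = 1) :
    (N : ℤ) ∣ (u.val : ℤ) - v.val - 1 := by
  have h1 := Fin.intCast_val_sub_eq_sub_add_ite u v
  rw [h] at h1
  split_ifs at h1
  · exact ⟨0, by push_cast at h1; omega⟩
  · exact ⟨-1, by push_cast at h1; omega⟩

theorem AChain.emod_dvd (N x : ℤ) : N ∣ x % N - x :=
  ⟨-(x / N), by rw [Int.emod_def]; ring⟩

theorem AChain.dvd_of_eq {N x y : ℤ} (h : N ∣ x) (e : y = x) : N ∣ y := e ▸ h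

theorem cyc_exists (d m : ℕ) (hd : 1 ≤ d) : ∃ fr : ℤ → Fin (2 * d + 1) × Fin m → ℤ,
    Cyc (lexK (SimpleGraph.cycleGraph (2 * d + 1)) m) fr Prod.fst (2 * d + 1) m := by
  have hN : (0 : ℤ) < ((2 * d + 1 : ℕ) : ℤ) := by positivity
  have rng : ∀ x : ℤ, 0 ≤ x % ((2 * d + 1 : ℕ) : ℤ) ∧
      x % ((2 * d + 1 : ℕ) : ℤ) < ((2 * d + 1 : ℕ) : ℤ) :=
    fun x => ⟨Int.emod_nonneg _ hN.ne', Int.emod_lt_of_pos _ hN⟩
  have dv : ∀ (o : ℤ) (u v : Fin (2 * d + 1)) (e : ℤ),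
      ((2 * d + 1 : ℕ) : ℤ) ∣ (u.val : ℤ) - v.val - e →
      ((2 * d + 1 : ℕ) : ℤ) ∣ ((u.val : ℤ) - o) % ((2 * d + 1 : ℕ) : ℤ) -
        ((v.val : ℤ) - o) % ((2 * d + 1 : ℕ) : ℤ) - e := by
    intro o u v e h
    have h1 := AChain.emod_dvd ((2 * d + 1 : ℕ) : ℤ) ((u.val : ℤ) - o)
    have h2 := AChain.emod_dvd ((2 * d + 1 : ℕ) : ℤ) ((v.val : ℤ) - o)
    exact AChain.dvd_of_eq (Int.dvd_add (Int.dvd_sub h1 h2) h) (by ring)
  have ps : ∀ (o : ℤ) (u v : Fin (2 * d + 1)), u = v ↔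
      ((u.val : ℤ) - o) % ((2 * d + 1 : ℕ) : ℤ) = ((v.val : ℤ) - o) % ((2 * d + 1 : ℕ) : ℤ) := by
    intro o u v
    refine ⟨fun h => by rw [h], fun h => ?_⟩
    have h1 := AChain.emod_dvd ((2 * d + 1 : ℕ) : ℤ) ((u.val : ℤ) - o)
    have h2 := AChain.emod_dvd ((2 * d + 1 : ℕ) : ℤ) ((v.val : ℤ) - o)
    have h3 : ((2 * d + 1 : ℕ) : ℤ) ∣ (u.val : ℤ) - v.val :=
      AChain.dvd_of_eq (Int.dvd_sub h2 h1) (by rw [h]; ring)
    have hu := u.isLt
    have hv := v.isLt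
    have := AChain.three h3 (by omega) (by omega)
    exact Fin.ext (by omega)
  refine ⟨fun o p => ((p.1.val : ℤ) - o) % ((2 * d + 1 : ℕ) : ℤ), fun o p => rng _,
    fun o F h0 h1 => ?_, fun o p p' h => ?_, fun o o' p => ?_, fun o p p' => ps o _ _⟩
  · have r := rng (F + o)
    let i0 : Fin (2 * d + 1) := ⟨((F + o) % ((2 * d + 1 : ℕ) : ℤ)).toNat, by omega⟩
    have hi : ((i0.val : ℤ) - o) % ((2 * d + 1 : ℕ) : ℤ) = F := by
      have e : (i0.val : ℤ) = (F + o) % ((2 * d + 1 : ℕ) : ℤ) := Int.toNat_of_nonneg r.1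
      rw [e, Int.emod_sub_emod, add_sub_cancel_right]
      exact Int.emod_eq_of_lt h0 h1
    have : (univ.filter fun p : Fin (2 * d + 1) × Fin m =>
        ((p.1.val : ℤ) - o) % ((2 * d + 1 : ℕ) : ℤ) = F) = {i0} ×ˢ univ := by
      ext p
      simp only [mem_filter, mem_univ, true_and, mem_product, mem_singleton, and_true]
      rw [ps o p.1 i0, hi]
    rw [this]
    simp
  · have r1 := rng ((p.1.val : ℤ) - o)
    have r2 := rng ((p'.1.val : ℤ) - o)
    rcases h with h | h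
    · rcases SimpleGraph.cycleGraph_adj'.1 h with h | h
      · have := AChain.three (dv o _ _ _ (AChain.sub_one h)) (by omega) (by omega)
        omega
      · have := AChain.three (dv o _ _ _ (AChain.sub_one h)) (by omega) (by omega)
        omega
    · left
      rw [h.1]
      omega
  · have h1 := AChain.emod_dvd ((2 * d + 1 : ℕ) : ℤ) ((p.1.val : ℤ) - o)
    have h2 := AChain.emod_dvd ((2 * d + 1 : ℕ) : ℤ) ((p.1.val : ℤ) - o')
    exact AChain.dvd_of_eq (Int.dvd_sub h1 h2) (by ring)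

theorem AChain.mem_Jf {fib : V → ℤ} {a b : ℤ} {p : V} :
    p ∈ Jf fib a b ↔ a ≤ fib p ∧ fib p < b := by simp [Jf]

theorem AChain.mem_Ff {fib : V → ℤ} {a : ℤ} {p : V} : p ∈ Ff fib a ↔ fib p = a := by simp [Ff]

theorem AChain.fr_eq {Γ : SimpleGraph V} {fr : ℤ → V → ℤ} {pos : V → I} {N m : ℕ}
    (hC : Cyc Γ fr pos N m) (o o' : ℤ) (p : V) (h0 : 0 ≤ fr o p + o - o')
    (h1 : fr o p + o - o' < N) : fr o' p = fr o p + o - o' := by
  have r := hC.rng o' p
  have := AChain.three (hC.tr o o' p) (by omega) (by omega)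
  omega

theorem AChain.Ff_eq {Γ : SimpleGraph V} {fr : ℤ → V → ℤ} {pos : V → I} {N m : ℕ}
    (hC : Cyc Γ fr pos N m) {o o' F F' : ℤ} (h : o + F = o' + F') (h0 : 0 ≤ F) (h1 : F < N)
    (h2 : 0 ≤ F') (h3 : F' < N) : Ff (fr o) F = Ff (fr o') F' := by
  ext p
  simp only [AChain.mem_Ff]
  constructor
  · intro e
    have := AChain.fr_eq hC o o' p (by omega) (by omega)
    omega
  · intro e
    have := AChain.fr_eq hC o' o p (by omega) (by omega)
    omega

theorem AChain.Jf_eq {Γ : SimpleGraph V} {fr : ℤ → V → ℤ} {pos : V → I} {N m : ℕ}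
    (hC : Cyc Γ fr pos N m) {o o' a a' b b' : ℤ} (h : o + a = o' + a') (h' : o + b = o' + b')
    (h0 : 0 ≤ a) (h1 : b ≤ N) (h2 : 0 ≤ a') (h3 : b' ≤ N) :
    Jf (fr o) a b = Jf (fr o') a' b' := by
  ext p
  simp only [AChain.mem_Jf]
  constructor
  · intro e
    have := AChain.fr_eq hC o o' p (by omega) (by omega)
    omega
  · intro e
    have := AChain.fr_eq hC o' o p (by omega) (by omega)
    omega

/-- One level of the chain in a fixed frame. -/
theorem AChain.step {Γ : SimpleGraph V} {fr : ℤ → V → ℤ} {pos : V → I} {d m : ℕ}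
    (hC : Cyc Γ fr pos (2 * d + 1) m) (Ψ : (V → S) → S)
    (hΨ : ∀ f g, (∀ p p', Γ.Adj p p' → f p ≠ g p') → Ψ f ≠ Ψ g) (ι : C ↪ S)
    (pool U0 : Finset S) (p0 : V) (t0 : I → S)
    (hU : ∀ v ∈ U0, Ψ (fun p => update t0 (pos p0) v (pos p)) = v) (ht0 : ∀ i, t0 i ∈ pool)
    (hι : ∀ c, ι c ∉ pool ∧ ι c ∉ U0) (hν : 2 * m + 1 ≤ Fintype.card C) {y A : ℕ}
    (n1 : 7 * Fintype.card S * y ≤ A ^ 3) (n2 : pool.card + A < U0.card)
    (n3 : 2 * m + 2 * pool.card + 2 * A + 2 < Fintype.card S) (n4 : 8 * Fintype.card S < y)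
    (o a : ℤ) (t : ℕ) (ht1 : 1 ≤ t) (ht2 : t + 2 ≤ 2 * d) (ha1 : 1 ≤ a) (ha2 : a + t ≤ 2 * d)
    (hp1 : a ≤ fr o p0) (hp2 : fr o p0 < a + t) :
    Dom Γ ι (fun κ x b e => Ψ (cell ι (Jf (fr o) a (a + t))
        (Ff (fr o) (a + t)) (Ff (fr o) (a - 1)) κ x b e)) (Jf (fr o) a (a + t))
        (Ff (fr o) (a + t - 1)) (Ff (fr o) a) pool y A ∨
      Dom Γ ι (fun κ x b e => Ψ (cell ι (Jf (fr o) a (a + t))
        (Ff (fr o) (a - 1)) (Ff (fr o) (a + t)) κ x b e)) (Jf (fr o) a (a + t))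
        (Ff (fr o) a) (Ff (fr o) (a + t - 1)) pool y A := by
  have sz : ∀ F : ℤ, 0 ≤ F → F ≤ 2 * d → (Ff (fr o) F).card = m := fun F h0 h1 => by
    have := hC.size o F h0 (by push_cast; omega)
    unfold Ff
    convert this
  have adj : ∀ p p', Γ.Adj p p' → (fr o p ≤ fr o p' + 1 ∧ fr o p' ≤ fr o p + 1) ∨
      (fr o p = 0 ∧ fr o p' = 2 * d) ∨ (fr o p = 2 * d ∧ fr o p' = 0) := fun p p' h => by
    clear * - fr o p p' d V I Γ pos m hC h C S pool U0 p0 y A a t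
    have := hC.adj o p p' h
    push_cast at this
    omega
  have key := side_main Γ ι (fun κ x b e => Ψ (cell ι (Jf (fr o) a (a + t))
      (Ff (fr o) (a + t)) (Ff (fr o) (a - 1)) κ x b e)) (Jf (fr o) a (a + t))
      (Ff (fr o) (a + t - 1)) (Ff (fr o) a) pool U0 (m := m) (y := y) (a := A)
      (fun p hp => by rw [AChain.mem_Ff] at hp; rw [AChain.mem_Jf]; omega)
      (fun p hp => by rw [AChain.mem_Ff] at hp; rw [AChain.mem_Jf]; omega)
      (sz _ (by omega) (by omega)).le (sz _ (by omega) (by omega)).le ?_ ?_ ?_ ?_ n1 n2 n3 n4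
  · refine key.imp_right fun h => ?_
    convert h using 6 with κ x b e
    funext p
    simp only [cell, AChain.mem_Ff]
    split_ifs <;> first | rfl | omega
  · intro J' hJ' hne
    obtain ⟨v, hv, hmax⟩ := exists_max_image J' (fr o) hne
    refine ⟨v, hv, ?_⟩
    have hv' := AChain.mem_Jf.1 (hJ' hv)
    have hsub : J'.filter (Γ.Adj v) ⊆
        (Ff (fr o) (fr o v)).erase v ∪ Ff (fr o) (fr o v - 1) := by
      intro p hp
      obtain ⟨h1, h2⟩ := mem_filter.1 hp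
      have h3 := AChain.mem_Jf.1 (hJ' h1)
      have h4 := hmax p h1
      have h5 := adj v p h2
      simp only [mem_union, mem_erase, AChain.mem_Ff]
      by_cases e : fr o p = fr o v
      · exact Or.inl ⟨h2.ne.symm, e⟩
      · right
        omega
    have c1 := (card_le_card hsub).trans (card_union_le _ _)
    have c2 := card_erase_add_one (s := Ff (fr o) (fr o v)) (a := v) (AChain.mem_Ff.2 rfl)
    rw [sz _ (by omega) (by omega)] at c2
    rw [sz (fr o v - 1) (by omega) (by omega)] at c1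
    omega
  · intro κ κ' h
    funext x b e
    congr 1
    funext p
    simp only [cell]
    split_ifs with h1
    · rw [h p h1]
    all_goals rfl
  · intro κ κ' x1 x2 x3 y1 y2 y3 hc a1 a2 a3 a4 b1 b2 b3 b4 b5 b6 b7
    refine hΨ _ _ fun p p' hp => ?_
    have h5 := adj p p' hp
    simp only [cell, AChain.mem_Ff, AChain.mem_Jf] at *
    split_ifs with c1 c2
    · exact fun e => hc p c1 p' c2 hp (ι.injective e)
    · exact a2 p (by omega)
    · exact a4 p (by omega)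
    · omega
    · exact (a1 p' (by omega)).symm
    · exact b1
    · omega
    · exact b2
    · exact (a3 p' (by omega)).symm
    · omega
    · exact b7
    · exact b6
    · omega
    · exact b3
    · exact b5
    · exact b4
  · intro κ x1 x2 x3 h1 h2 h3 hv
    by_contra hn
    push Not at hn
    refine hΨ _ _ (fun p p' hp => ?_) (hU _ hv).symm
    have h5 := adj p p' hp
    by_cases e : pos p' = pos p0
    · have e' := (hC.pos o p' p0).1 e
      rw [e, update_self]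
      simp only [cell, AChain.mem_Ff, AChain.mem_Jf] at *
      split_ifs
      · exact fun e => (hι _).2 (e ▸ hv)
      · exact hn.1.symm
      · exact hn.2.symm
      · omega
    · rw [update_of_ne e]
      have h6 := ht0 (pos p')
      simp only [cell]
      split_ifs
      · exact fun e => (hι _).1 (e ▸ h6)
      · exact fun e => h1 (e ▸ h6)
      · exact fun e => h3 (e ▸ h6)
      · exact fun e => h2 (e ▸ h6)

/-- The chain of intervals along which one outer coordinate dominates. -/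
theorem chain_exists {Γ : SimpleGraph V} {fr : ℤ → V → ℤ} {pos : V → I} {d m : ℕ} (hd : 2 ≤ d)
    (hC : Cyc Γ fr pos (2 * d + 1) m) (Ψ : (V → S) → S)
    (hΨ : ∀ f g, (∀ p p', Γ.Adj p p' → f p ≠ g p') → Ψ f ≠ Ψ g) (ι : C ↪ S)
    (pool U0 : Finset S) (p0 : V) (t0 : I → S)
    (hU : ∀ v ∈ U0, Ψ (fun p => update t0 (pos p0) v (pos p)) = v) (ht0 : ∀ i, t0 i ∈ pool)
    (hι : ∀ c, ι c ∉ pool ∧ ι c ∉ U0) (hν : 2 * m + 1 ≤ Fintype.card C) {y A : ℕ}
    (n1 : 7 * Fintype.card S * y ≤ A ^ 3) (n2 : pool.card + A < U0.card)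
    (n3 : 2 * m + 2 * pool.card + 2 * A + 2 < Fintype.card S) (n4 : 8 * Fintype.card S < y) :
    ∃ (o : ℤ) (a : ℕ → ℤ), Chain d a ∧ fr o p0 = a 0 ∧ ∀ t, 1 ≤ t → t + 2 ≤ 2 * d →
      (a (t + 1) = a t ∧ Dom Γ ι (fun κ x b e => Ψ (cell ι (Jf (fr o) (a t) (a t + t))
        (Ff (fr o) (a t + t)) (Ff (fr o) (a t - 1)) κ x b e)) (Jf (fr o) (a t) (a t + t))
        (Ff (fr o) (a t + t - 1)) (Ff (fr o) (a t)) pool y A) ∨
      (a (t + 1) = a t - 1 ∧ Dom Γ ι (fun κ x b e => Ψ (cell ι (Jf (fr o) (a t) (a t + t))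
        (Ff (fr o) (a t - 1)) (Ff (fr o) (a t + t)) κ x b e)) (Jf (fr o) (a t) (a t + t))
        (Ff (fr o) (a t)) (Ff (fr o) (a t + t - 1)) pool y A) := by
  let R : ℤ → ℤ → ℕ → Prop := fun o a t =>
    Dom Γ ι (fun κ x b e => Ψ (cell ι (Jf (fr o) a (a + t))
      (Ff (fr o) (a + t)) (Ff (fr o) (a - 1)) κ x b e)) (Jf (fr o) a (a + t))
      (Ff (fr o) (a + t - 1)) (Ff (fr o) a) pool y A
  have hR : ∀ (o a : ℤ) (t : ℕ), 1 ≤ t → t + 2 ≤ 2 * d → 1 ≤ a → a + t ≤ 2 * d →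
      (R o a t ↔ R (o + a - 1) 1 t) := by
    clear * - d R V C S Γ ι Ψ fr pool y A I pos m hC U0 hd
    intro o a t h1 h2 h3 h4
    have hN : ((2 * d + 1 : ℕ) : ℤ) = 2 * d + 1 := by push_cast; rfl
    simp only [R]
    rw [AChain.Jf_eq hC (o := o) (o' := o + a - 1) (a := a) (a' := 1) (b := a + t) (b' := 1 + t)
        (by omega) (by omega) (by omega) (by omega) (by omega) (by omega),
      AChain.Ff_eq hC (o := o) (o' := o + a - 1) (F := a + t) (F' := 1 + t)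
        (by omega) (by omega) (by omega) (by omega) (by omega),
      AChain.Ff_eq hC (o := o) (o' := o + a - 1) (F := a - 1) (F' := 1 - 1)
        (by omega) (by omega) (by omega) (by omega) (by omega),
      AChain.Ff_eq hC (o := o) (o' := o + a - 1) (F := a + t - 1) (F' := 1 + t - 1)
        (by omega) (by omega) (by omega) (by omega) (by omega),
      AChain.Ff_eq hC (o := o) (o' := o + a - 1) (F := a) (F' := 1)
        (by omega) (by omega) (by omega) (by omega) (by omega)]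
  let B : ℕ → ℤ := fun n => Nat.rec (fr 0 p0)
    (fun t x => if t = 0 ∨ R (x - 1) 1 t then x else x - 1) n
  have B0 : B 0 = fr 0 p0 := rfl
  have BS : ∀ t, B (t + 1) = if t = 0 ∨ R (B t - 1) 1 t then B t else B t - 1 := fun _ => rfl
  clear_value B
  obtain ⟨o, ho⟩ : ∃ o, o = B (2 * d - 1) - 1 := ⟨_, rfl⟩
  have hch : Chain d fun t => B t - o := by
    refine ⟨?_, fun t _ => ?_, by omega⟩
    · rw [BS 0, if_pos (Or.inl rfl)]
    · rw [BS t]
      split_ifs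
      · exact Or.inl rfl
      · right
        ring
  have b0 := hch.bounds 0 (by omega)
  have hp : fr o p0 = B 0 - o := by
    have := AChain.fr_eq hC 0 o p0 (by omega) (by push_cast; omega)
    omega
  refine ⟨o, fun t => B t - o, hch, hp, fun t h1 h2 => ?_⟩
  have bt := hch.bounds t (by omega)
  have mt := hch.mono h1 (by omega)
  have z := hch.zero
  have hRt := hR o (B t - o) t h1 h2 bt.1 bt.2
  rw [show o + (B t - o) - 1 = B t - 1 by ring] at hRt
  by_cases h : R (B t - 1) 1 t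
  · exact Or.inl ⟨by beta_reduce; rw [BS t, if_pos (Or.inr h)], hRt.2 h⟩
  · have hn : ¬ (t = 0 ∨ R (B t - 1) 1 t) := by
      rintro (e | e)
      · omega
      · exact h e
    refine Or.inr ⟨by beta_reduce; rw [BS t, if_neg hn]; ring, ?_⟩
    refine (AChain.step hC Ψ hΨ ι pool U0 p0 t0 hU ht0 hι hν n1 n2 n3 n4 o (B t - o) t h1 h2
      bt.1 bt.2 ?_ ?_).resolve_left fun h' => h (hRt.1 h')
    · omega
    · push_cast at mt
      omega

end Pool.Agent.Work.MP_418764_co.All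
end

-- merged part: Pool.Agent.Work.MP_418764_co.ASys
section
namespace Pool.Agent.Work.MP_418764_co.All
open Finset Function Classical

variable {V C S I : Type} [Fintype V] [Fintype C] [Fintype S] [Fintype I]

theorem mem_Jf' {fib : V → ℤ} {a b : ℤ} {p : V} : p ∈ Jf fib a b ↔ a ≤ fib p ∧ fib p < b := by
  simp [Jf]

theorem mem_Ff' {fib : V → ℤ} {a : ℤ} {p : V} : p ∈ Ff fib a ↔ fib p = a := by simp [Ff]

theorem tok_system {Γ : SimpleGraph V} {fr : ℤ → V → ℤ} {pos : V → I} {d m : ℕ} (hd : 2 ≤ d)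
    (hC : Cyc Γ fr pos (2 * d + 1) m) (hI : Fintype.card I = 2 * d + 1) {Ψ : (V → S) → S}
    (hΨ : ∀ f g, (∀ p p', Γ.Adj p p' → f p ≠ g p') → Ψ f ≠ Ψ g) (ι : C ↪ S) {o : ℤ} {a : ℕ → ℤ}
    (hch : Chain d a) {p0 : V} (hp0 : fr o p0 = a 0) {pool : Finset S} (hι : ∀ c, ι c ∉ pool)
    {K y A y' A' : ℕ} {ε q y0 y0' : ℝ}
    (hdom : ∀ t, 1 ≤ t → t + 2 ≤ 2 * d →
      (a (t + 1) = a t ∧ Dom Γ ι (fun κ x b e => Ψ (cell ι (Jf (fr o) (a t) (a t + t))
        (Ff (fr o) (a t + t)) (Ff (fr o) (a t - 1)) κ x b e)) (Jf (fr o) (a t) (a t + t))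
        (Ff (fr o) (a t + t - 1)) (Ff (fr o) (a t)) pool y A) ∨
      (a (t + 1) = a t - 1 ∧ Dom Γ ι (fun κ x b e => Ψ (cell ι (Jf (fr o) (a t) (a t + t))
        (Ff (fr o) (a t - 1)) (Ff (fr o) (a t + t)) κ x b e)) (Jf (fr o) (a t) (a t + t))
        (Ff (fr o) (a t)) (Ff (fr o) (a t + t - 1)) pool y A))
    (hdom0 : (univ.filter fun v : S => (univ.filter fun w : I → S =>
      w (pos p0) = v ∧ Ψ (fun p => w (pos p)) = v).card < y').card ≤ A')
    (hε : 0 ≤ ε) (hq : 0 < q) (hq1 : q ≤ 1) (hy0 : 0 < y0) (hy0' : 0 < y0')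
    (hqν : q * Fintype.card C + 2 * m + (2 * d + 1 : ℕ) ≤ Fintype.card C)
    (n1 : y0 * (4 * Fintype.card S) ≤ y)
    (n2 : ((K + 2 * d + 2 : ℕ) : ℝ) + 1 ≤ y0 * (q ^ 2 / 2) ^ (2 * d + 1))
    (n3 : A + Fintype.card C * (4 * (2 * d + 1 : ℕ) / (q ^ 2 * (y0 * (q ^ 2 / 2) ^ (2 * d + 1)))) ≤
      ε * Fintype.card C)
    (n4 : y0' * ((2 * d + 1 : ℕ) * ((2 * d + 1 : ℕ) * Fintype.card S ^ (2 * d + 1 - 2))) ≤ y')
    (n5 : ((K + 2 * d + 2 : ℕ) : ℝ) + 1 ≤ y0' * (q ^ (2 * d + 1) / 2) ^ (2 * d + 1))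
    (n6 : A' + Fintype.card C * (4 * (2 * d + 1 : ℕ) /
      (q ^ (2 * d + 1) * (y0' * (q ^ (2 * d + 1) / 2) ^ (2 * d + 1)))) ≤ ε * Fintype.card C) :
    TokSys (pathG (fr o)) (fr o) d a (fun t => Tok Γ Ψ ι pos (K + 2 * d + 2)
      (fr o ⁻¹' DZ d a t) (fr o ⁻¹' KZ d a t)) K ε := by
  have hG := hC.pathCl o
  have bd := hch.bounds
  have adj : ∀ t t', ¬ (t = 2 * d ∧ 2 * d < t') → ¬ (2 * d < t ∧ t' = 2 * d) → ∀ p p',
      p ∈ fr o ⁻¹' DZ d a t → p' ∈ fr o ⁻¹' DZ d a t' → Γ.Adj p p' → (pathG (fr o)).Adj p p' := by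
    clear * - d V fr o a Γ I pos m hC bd S hI Ψ p0 y' A'
    intro t t' h1 h2 p p' hp hp' h
    rw [Set.mem_preimage, mem_DZ] at hp hp'
    have h3 := hC.adj o p p' h
    have h4 := bd t
    have h5 := bd t'
    push_cast at h3
    exact ⟨h.ne, by omega, by omega⟩
  have near : ∀ t p p', p ∈ fr o ⁻¹' KZ d a t → Γ.Adj p p' → p' ∈ fr o ⁻¹' NZ d a t := by
    clear * - V fr o d a Γ I pos m hC S hI Ψ p0 y' A' adj
    intro t p p' hp h
    have h3 := hC.adj o p p' h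
    push_cast at h3
    exact ⟨fr o p, hp, by omega⟩
  have hO : (0 : ℝ) ≤ (Om (pathG (fr o)) C).card := Nat.cast_nonneg _
  refine ⟨fun t κ x l h => h.1, fun t t' ht ht' h1 h2 l κ κ' x x' c1 c2 c3 c4 c5 c6 c7 => ?_,
    fun t t' ht ht' hp κ x l hκ c1 c2 => ?_, fun t ht => ?_⟩
  · exact tok_cross hΨ (by omega) c1 c2 c3
      (fun p hp p' hp' h => c4 p hp p' hp' (adj t t' (by omega) (by omega) p p' hp hp' h))
      (fun p hp p' hp' h => c6 p' ⟨hp', near t p p' hp h⟩)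
      (fun p hp p' hp' h => c7 p ⟨hp, near t' p' p hp' h.symm⟩) (Or.inl c5)
  · refine tok_cross (K := 0) hΨ (by omega) c1 c2 (by simp [dif_self])
      (fun p hp p' hp' h => hκ p p' (adj t t' (by omega) (by omega) p p' hp hp' h))
      (fun _ _ p' _ _ => mem_Un.1 c1.1 p') (fun p _ _ _ _ => mem_Un.1 c1.1 p)
      (Or.inr fun p h1 p' h2 h => ?_)
    rw [Set.mem_preimage, mem_KZ] at h1 h2
    have h3 := hC.adj o p p' h
    have h4 := bd (t + 1) (by omega)
    have h5 := bd (t' + 1) (by omega)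
    have h6 := pp_cases a t
    have h7 := pp_cases a t'
    have h8 := hch.step t ht
    have h9 := hch.step t' ht'
    push_cast at h3 h4 h5
    clear * - V S I fr pos d Ψ o a p0 y' A' t t' ht ht' hp p h1 p' h2 h6 h7 h8 h9 h3 h5
    omega
  by_cases e0 : t = 0
  · subst e0
    have e1 : fr o ⁻¹' DZ d a 0 = ∅ := by
      ext p
      rw [Set.mem_preimage, mem_DZ]
      simp only [Set.mem_empty_iff_false, iff_false]
      omega
    have e2 : fr o ⁻¹' KZ d a 0 = {p | pos p = pos p0} := by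
      clear * - V fr o d a I pos p0 Γ m hC hch S hd hI Ψ hp0 y' A'
      ext p
      rw [Set.mem_preimage, mem_KZ, Set.mem_setOf_eq, hC.pos o]
      have h6 := pp_cases a 0
      have := hch.zero
      norm_num at h6
      omega
    rw [e1, e2]
    refine (valid_zero hG hI (by omega) hdom0 hq hq1 hy0' hqν n4 n5).trans ?_
    rw [mul_right_comm]
    gcongr
  by_cases e1 : t + 2 ≤ 2 * d
  · have b1 := bd t (by omega)
    have b2 := bd (t + 1) (by omega)
    have h6 := pp_cases a t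
    push_cast at b2
    have e2 : fr o ⁻¹' DZ d a t = (Jf (fr o) (a t) (a t + t) : Set V) := by
      ext p
      rw [Set.mem_preimage, mem_DZ, mem_coe, mem_Jf']
      omega
    have e3 : fr o ⁻¹' KZ d a t = (Ff (fr o) (pp a t) : Set V) := by
      clear * - V fr o d a t S I pos hI Ψ p0 y' A' e1
      ext p
      rw [Set.mem_preimage, mem_KZ, mem_coe, mem_Ff']
      omega
    have g1 : ∀ p ∈ Jf (fr o) (a t) (a t + t), ∀ p' ∈ Jf (fr o) (a t) (a t + t), Γ.Adj p p' →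
        (pathG (fr o)).Adj p p' := fun p hp p' hp' =>
      adj t t (by omega) (by omega) p p' (e2 ▸ hp) (e2 ▸ hp')
    have g2 : ∀ z p p', pos p = pos p' → p ∈ Ff (fr o) z → p' ∈ Ff (fr o) z := fun z p p' h hp =>
      mem_Ff'.2 (((hC.pos o p p').1 h).symm.trans (mem_Ff'.1 hp))
    have hq2 : q * Fintype.card C + 2 * m + 2 ≤ Fintype.card C := by
      clear * - d V S I fr pos hd Ψ o a p0 y' A' t q C m hqν
      have : ((2 : ℕ) : ℝ) ≤ (2 * d + 1 : ℕ) := by exact_mod_cast (by omega)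
      push_cast at this hqν
      linarith only [this, hqν]
    rw [e2, e3]
    rcases hdom t (by omega) e1 with ⟨h1, h2⟩ | ⟨h1, h2⟩
    · rw [show pp a t = a t + t by omega]
      refine (valid_level hG (by omega) (by omega) (by push_cast; omega) h2 (fun p hp => ?_)
        (fun p hp => ?_) hι g1 (g2 _) (fun p a1 a2 p' a3 h => ?_) hq hq1 hy0 hq2 n1 n2).trans ?_
      · rw [mem_Ff'] at hp
        rw [mem_Jf']
        omega
      · rw [mem_Ff'] at hp
        rw [mem_Jf']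
        omega
      · have h3 := hC.adj o p p' h
        simp only [mem_Ff', mem_Jf'] at a1 a2 a3 ⊢
        push_cast at h3
        omega
      · rw [mul_right_comm]
        gcongr
    · rw [show pp a t = a t - 1 by omega]
      refine (valid_level hG (by omega) (by omega) (by push_cast; omega) h2 (fun p hp => ?_)
        (fun p hp => ?_) hι g1 (g2 _) (fun p a1 a2 p' a3 h => ?_) hq hq1 hy0 hq2 n1 n2).trans ?_
      · rw [mem_Ff'] at hp
        rw [mem_Jf']
        omega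
      · rw [mem_Ff'] at hp
        rw [mem_Jf']
        omega
      · have h3 := hC.adj o p p' h
        simp only [mem_Ff', mem_Jf'] at a1 a2 a3 ⊢
        push_cast at h3
        omega
      · rw [mul_right_comm]
        gcongr
  · rw [valid_full fun p => ?_]
    · simp only [Nat.cast_zero]
      clear * - ε V C fr o hε
      positivity
    · simp only [Set.mem_preimage, mem_DZ, mem_KZ]
      have h1 := hC.rng o p
      have h2 := hch.last
      push_cast at h1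
      by_cases e2 : t = 2 * d - 1
      · subst e2
        clear * - d a fr o p V S I pos Ψ p0 y' A' h2 h1 ht e1
        omega
      · omega

end Pool.Agent.Work.MP_418764_co.All
end

-- merged part: Pool.Agent.Work.MP_418764_co.OracleDef
section
namespace Pool.Agent.Work.MP_418764_co

/-- Abstract output of a proper `n`-colouring of the exponential graph.  `Φ l r κ x1 x2 x3` is the
colour of the map which is `κ p` on the fibre at position `p ∈ [-l, r]` (positions are counted from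
a centre fibre), constant `x1` on fibre `r+1`, constant `x3` on fibre `-l-1`, and constant `x2` on
all remaining fibres. -/
structure Oracle (m N : ℕ) (S : Type) where
  Φ : ℤ → ℤ → (ℤ → Fin m → S) → S → S → S → S
  P1 : ∀ (l r l' r' : ℤ) (κ κ' : ℤ → Fin m → S) (x1 x2 x3 y1 y2 y3 : S),
    0 ≤ l → 0 ≤ r → l ≤ l' → r ≤ r' → l' + r' + 4 ≤ N →
    (∀ p p' i i', -l ≤ p → p ≤ r → -l' ≤ p' → p' ≤ r' →
      ((p = p' ∧ i ≠ i') ∨ p - p' = 1 ∨ p' - p = 1) → κ p i ≠ κ' p' i') →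
    (∀ p' i', -l' ≤ p' → p' ≤ r' → r ≤ p' → p' ≤ r + 2 → x1 ≠ κ' p' i') →
    (∀ p' i', -l' ≤ p' → p' ≤ r' → -l - 2 ≤ p' → p' ≤ -l → x3 ≠ κ' p' i') →
    (∀ p' i', -l' ≤ p' → p' ≤ r' → (r < p' ∨ p' < -l) → x2 ≠ κ' p' i') →
    (r = r' → ∀ i, κ r i ≠ y1) → (l = l' → ∀ i, κ (-l) i ≠ y3) →
    x2 ≠ y1 → x2 ≠ y2 → x2 ≠ y3 →
    (r' ≤ r + 1 → x1 ≠ y1) → (r = r' → x1 ≠ y2) →
    (l' ≤ l + 1 → x3 ≠ y3) → (l = l' → x3 ≠ y2) →
    Φ l r κ x1 x2 x3 ≠ Φ l' r' κ' y1 y2 y3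
  P2 : ∀ (l r : ℤ) (κ : ℤ → Fin m → S) (x1 x2 x3 : S), 2 ≤ l → 2 ≤ r → l + r + 4 ≤ N →
    ∃ p i, -2 ≤ p ∧ p ≤ 2 ∧ Φ l r κ x1 x2 x3 = κ p i

end Pool.Agent.Work.MP_418764_co
end

-- merged part: Pool.Agent.Work.MP_418764_co.Layer1
section
namespace Pool.Agent.Work.MP_418764_co
open SimpleGraph

theorem lexK_not_colorable (d m n : ℕ) (hd : 1 ≤ d) (h : n * d < (2 * d + 1) * m) :
    ¬ (lexK (cycleGraph (2 * d + 1)) m).Colorable n := by
  rintro ⟨C⟩
  have key : ∀ c ∈ (Finset.univ : Finset (Fin n)),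
      (Finset.univ.filter fun x => C x = c).card ≤ d := by
    intro c _
    set T := Finset.univ.filter fun x => C x = c with hT
    have hm : ∀ x ∈ T, C x = c := fun x hx => (Finset.mem_filter.1 hx).2
    have h1 : Set.InjOn Prod.fst (T : Set (Fin (2 * d + 1) × Fin m)) := fun x hx y hy e =>
      Prod.ext e (by_contra fun h2 => C.valid (Or.inr ⟨e, h2⟩) ((hm x hx).trans (hm y hy).symm))
    have h2 : Disjoint (T.image Prod.fst) ((T.image Prod.fst).image (· + 1)) := by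
      rw [Finset.disjoint_left]
      intro u hu hu'
      obtain ⟨x, hx, rfl⟩ := Finset.mem_image.1 hu
      obtain ⟨w, hw, e⟩ := Finset.mem_image.1 hu'
      obtain ⟨y, hy, rfl⟩ := Finset.mem_image.1 hw
      refine C.valid (Or.inl (cycleGraph_adj'.2 (Or.inl ?_))) ((hm x hx).trans (hm y hy).symm)
      rw [← e, add_sub_cancel_left, Fin.val_one', Nat.mod_eq_of_lt (by omega)]
    have h3 := Finset.card_le_univ (T.image Prod.fst ∪ (T.image Prod.fst).image (· + 1))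
    rw [Finset.card_union_of_disjoint h2, Finset.card_image_of_injective _ (add_left_injective 1),
      Finset.card_image_of_injOn h1, Fintype.card_fin] at h3
    omega
  have h4 := Finset.card_le_mul_card_image_of_maps_to (fun x _ => Finset.mem_univ (C x)) d key
  simp only [Finset.card_univ, Fintype.card_prod, Fintype.card_fin] at h4
  rw [mul_comm n] at h
  omega

theorem Layer1.exists_psi {V : Type} (G : SimpleGraph V) (n : ℕ) (K : Type) [Fintype K]
    (hK : Fintype.card K = n) (hχ : ¬ G.Colorable n) (hc : (expGraph G n).Colorable n) :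
    ∃ Ψ : (V → K) → K, (∀ f g, (∀ x y, G.Adj x y → f x ≠ g y) → Ψ f ≠ Ψ g) ∧
      ∀ f, ∃ x, f x = Ψ f := by
  obtain ⟨C⟩ := hc
  let E : K ≃ Fin n := Fintype.equivFinOfCardEq hK
  have h1 : ∀ f g : V → K, (∀ x y, G.Adj x y → f x ≠ g y) → C (E ∘ f) ≠ C (E ∘ g) := by
    intro f g h
    refine C.valid ⟨fun e => hχ ⟨Coloring.mk (E ∘ f) fun {x y} hxy => ?_⟩,
      fun x y hxy => E.injective.ne (h x y hxy)⟩
    nth_rewrite 2 [e]
    exact E.injective.ne (h x y hxy)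
  have h2 : Function.Injective fun c : K => E.symm (C (E ∘ fun _ => c)) := fun c c' e =>
    by_contra fun hne => h1 _ _ (fun _ _ _ => hne) (E.symm.injective e)
  let e := Equiv.ofBijective _ (Finite.injective_iff_bijective.1 h2)
  have h3 : ∀ f g : V → K, (∀ x y, G.Adj x y → f x ≠ g y) →
      e.symm (E.symm (C (E ∘ f))) ≠ e.symm (E.symm (C (E ∘ g))) := fun f g h =>
    e.symm.injective.ne (E.symm.injective.ne (h1 f g h))
  refine ⟨fun f => e.symm (E.symm (C (E ∘ f))), h3, fun f => by_contra fun h => ?_⟩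
  exact h3 f (fun _ => e.symm (E.symm (C (E ∘ f)))) (fun x _ _ e' => h ⟨x, e'⟩)
    (e.symm_apply_apply _).symm

/-- The maps whose colours are recorded by the oracle, as functions of the cyclic position. -/
def Layer1.vert {m : ℕ} {S : Type} (N l r : ℤ) (κ : ℤ → Fin m → S) (x1 x2 x3 : S) (q : ℤ)
    (i : Fin m) : S :=
  if q ≤ r then κ q i else if N - l ≤ q then κ (q - N) i else if q = r + 1 then x1 else
    if q = N - l - 1 then x3 else x2

theorem Layer1.vert_cases {m : ℕ} {S : Type} (N l r : ℤ) (κ : ℤ → Fin m → S) (x1 x2 x3 : S)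
    {q : ℤ} (h0 : 0 ≤ q) (h1 : q < N) (hl : 0 ≤ l) (hr : 0 ≤ r) (i : Fin m) :
    (∃ p, -l ≤ p ∧ p ≤ r ∧ (q = p ∨ q = p + N) ∧ vert N l r κ x1 x2 x3 q i = κ p i) ∨
    (q = r + 1 ∧ vert N l r κ x1 x2 x3 q i = x1) ∨
    (q = N - l - 1 ∧ vert N l r κ x1 x2 x3 q i = x3) ∨
    (r + 1 < q ∧ q < N - l - 1 ∧ vert N l r κ x1 x2 x3 q i = x2) := by
  unfold vert
  split_ifs with a b c e
  · exact Or.inl ⟨q, by omega, a, Or.inl rfl, rfl⟩
  · exact Or.inl ⟨q - N, by omega, by omega, Or.inr (by omega), rfl⟩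
  · exact Or.inr (Or.inl ⟨c, rfl⟩)
  · exact Or.inr (Or.inr (Or.inl ⟨e, rfl⟩))
  · exact Or.inr (Or.inr (Or.inr ⟨by omega, by omega, rfl⟩))

theorem Layer1.pos_succ {d : ℕ} (v : Fin (2 * d + 1)) {u w : Fin (2 * d + 1)}
    (h : (u - w).val = 1) :
    (u - v).val = (w - v).val + 1 ∨ ((u - v).val = 0 ∧ (w - v).val = 2 * d) := by
  have h1 : (u - v).val = ((w - v).val + 1) % (2 * d + 1) := by
    have := Fin.val_add (w - v) (u - w)
    rwa [sub_add_sub_cancel', h] at this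
  rcases (Nat.succ_le_of_lt (w - v).2).lt_or_eq with h2 | h2
  · exact Or.inl (h1.trans (Nat.mod_eq_of_lt h2))
  · refine Or.inr ⟨h1.trans ?_, by omega⟩
    rw [show (w - v).val + 1 = 2 * d + 1 from h2, Nat.mod_self]

open Layer1 in
theorem exists_oracle (d m n : ℕ) (S : Type) [Fintype S] [DecidableEq S]
    (hS : Fintype.card S + (2 * d + 1) = n) (hd : 2 ≤ d)
    (hχ : ¬ (lexK (cycleGraph (2 * d + 1)) m).Colorable n)
    (hc : (expGraph (lexK (cycleGraph (2 * d + 1)) m) n).Colorable n) :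
    Nonempty (Oracle m (2 * d + 1) S) := by
  obtain ⟨Ψ, hΨ, hr⟩ := exists_psi _ n (S ⊕ Fin (2 * d + 1)) (by simpa using hS) hχ hc
  obtain ⟨⟨v, i₀⟩, hv⟩ := hr fun x => Sum.inr x.1
  set N : ℤ := ((2 * d + 1 : ℕ) : ℤ) with hN
  set q : Fin (2 * d + 1) × Fin m → ℤ := fun x => ((x.1 - v).val : ℤ) with hq
  have q0 : ∀ x, 0 ≤ q x := fun x => Int.natCast_nonneg _
  have q1 : ∀ x, q x < N := fun x => Int.ofNat_lt.2 (x.1 - v).2
  have hadj : ∀ x y, (lexK (cycleGraph (2 * d + 1)) m).Adj x y → (q x = q y ∧ x.2 ≠ y.2) ∨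
      (q x = q y + 1 ∨ q y = q x + 1 ∨ (q x = 0 ∧ q y = N - 1) ∨ (q y = 0 ∧ q x = N - 1)) := by
    clear * - d m q N v hq hN n S
    rintro x y (h | ⟨h1, h2⟩)
    · right
      rcases cycleGraph_adj'.1 h with h | h <;> have := pos_succ v h <;> simp only [hq, hN] <;>
        omega
    · exact Or.inl ⟨by simp only [hq, h1], h2⟩
  set θ : S → Fin (2 * d + 1) × Fin m → S ⊕ Fin (2 * d + 1) := fun s y =>
    if q y ≤ 1 ∨ q y = N - 1 then Sum.inl s else Sum.inr v with hθ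
  have hθ1 : ∀ s, Ψ (θ s) = Sum.inl s := fun s => by
    have h1 := hΨ (fun x => Sum.inr x.1) (θ s) fun x y hxy => by
      simp only [hθ]
      split_ifs with h
      · exact Sum.inr_ne_inl
      · intro e
        have h2 : q x = 0 := by simp [hq, Sum.inr.inj e]
        have := hadj x y hxy
        omega
    obtain ⟨y, hy⟩ := hr (θ s)
    rw [← hv, ← hy] at h1
    rw [← hy]
    simp only [hθ] at h1 ⊢
    split_ifs at h1 ⊢ with h
    · rfl
    · exact absurd rfl h1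
  choose X hX using fun (l r : ℤ) (κ : ℤ → Fin m → S) (x1 x2 x3 : S) =>
    hr fun x => Sum.inl (vert N l r κ x1 x2 x3 (q x) x.2)
  refine ⟨⟨fun l r κ x1 x2 x3 =>
    vert N l r κ x1 x2 x3 (q (X l r κ x1 x2 x3)) (X l r κ x1 x2 x3).2, ?_, ?_⟩⟩
  · intro l r l' r' κ κ' x1 x2 x3 y1 y2 y3 hl hr0 hll hrr hN4 a1 a2 a3 a4 a5 a6 a7 a8 a9 b1 b2 b3
      b4 e
    refine hΨ _ _ (fun x y hxy => Sum.inl_injective.ne ?_)
      ((hX l r κ x1 x2 x3).symm.trans ((congrArg Sum.inl e).trans (hX l' r' κ' y1 y2 y3)))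
    have c0 := hadj x y hxy
    have c1 := q0 x
    have c2 := q1 x
    have c3 := q0 y
    have c4 := q1 y
    rcases vert_cases N l r κ x1 x2 x3 c1 c2 hl hr0 x.2 with
      ⟨p, d1, d2, d3, e1⟩ | ⟨d1, e1⟩ | ⟨d1, e1⟩ | ⟨d1, d2, e1⟩ <;>
    rcases vert_cases N l' r' κ' y1 y2 y3 c3 c4 (hl.trans hll) (hr0.trans hrr) y.2 with
      ⟨p', f1, f2, f3, e2⟩ | ⟨f1, e2⟩ | ⟨f1, e2⟩ | ⟨f1, f2, e2⟩ <;> rw [e1, e2]
    · refine a1 p p' _ _ d1 d2 f1 f2 ?_
      rcases c0 with ⟨c5, c6⟩ | c5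
      · exact Or.inl ⟨by omega, c6⟩
      · exact Or.inr (by clear * - p p' d m n S hd v l r l' r' hl hr0 hll hrr hN4 x y c1 c2 c3 c4 d1 d2 d3 f1 f2 f3 c5; omega)
    · rw [show p = r by omega]
      exact a5 (by omega) _
    · rw [show p = -l by omega]
      exact a6 (by omega) _
    · omega
    · exact a2 p' _ f1 f2 (by omega) (by omega)
    · exact b1 (by omega)
    · omega
    · exact b2 (by omega)
    · exact a3 p' _ f1 f2 (by omega) (by omega)
    · omega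
    · exact b3 (by omega)
    · exact b4 (by omega)
    · exact a4 p' _ f1 f2 (by omega)
    · exact a7
    · exact a9
    · exact a8
  · intro l r κ x1 x2 x3 hl hr0 hN4
    by_contra h
    refine hΨ _ _ (fun x y hxy => ?_) ((hX l r κ x1 x2 x3).symm.trans (hθ1 _).symm)
    simp only [hθ]
    split_ifs with h1
    · refine Sum.inl_injective.ne fun e => h ?_
      have c0 := hadj x y hxy
      have c1 := q0 x
      have c2 := q1 x
      have c3 := q0 y
      rcases vert_cases N l r κ x1 x2 x3 c1 c2 (by omega) (by omega) x.2 with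
        ⟨p, d1, d2, d3, e1⟩ | ⟨d1, e1⟩ | ⟨d1, e1⟩ | ⟨d1, d2, e1⟩
      · exact ⟨p, x.2, by omega, by omega, e.symm.trans e1⟩
      all_goals omega
    · exact Sum.inl_ne_inr

end Pool.Agent.Work.MP_418764_co
end

-- merged part: Pool.Agent.Work.MP_418764_co.AFin
section
namespace Pool.Agent.Work.MP_418764_co.All
open Finset Function Classical

theorem fin_num (e : ℕ) (ε K q g : ℝ) (hε : 0 < ε) (hq : 0 < q) (hg : 0 < g) :
    ∃ n0 : ℕ, ∀ n : ℕ, n0 ≤ n → ∃ (A' y' u A y : ℕ) (y0 y0' : ℝ), 0 < y0 ∧ 0 < y0' ∧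
      (e + 2) * n * y' < (A' + 1) ^ (e + 2) ∧
      (∀ U : ℕ, (n - A') * y' * n ≤ U * n ^ (e + 2) → u + (e + 2) ≤ U) ∧
      7 * n * y ≤ A ^ 3 ∧ e + 2 + A < u ∧ 8 * n < y ∧ (u : ℝ) + (e + 2) ≤ g * n ∧
      (A : ℝ) ≤ ε / 4 * n ∧ (A' : ℝ) ≤ ε / 4 * n ∧ y0 * (4 * n) ≤ y ∧
      y0' * ((e + 2) * ((e + 2) * n ^ e)) ≤ y' ∧
      K ≤ y0 * (q ^ 2 / 2) ^ (e + 2) ∧ K ≤ y0' * (q ^ (e + 2) / 2) ^ (e + 2) ∧
      4 * (e + 2) / (q ^ 2 * (y0 * (q ^ 2 / 2) ^ (e + 2))) ≤ ε / 2 ∧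
      4 * (e + 2) / (q ^ (e + 2) * (y0' * (q ^ (e + 2) / 2) ^ (e + 2))) ≤ ε / 2 := by
  obtain ⟨e0, e0p, e01, e02⟩ : ∃ e0 : ℝ, 0 < e0 ∧ e0 ≤ ε / 4 ∧ e0 ≤ 1 / 2 :=
    ⟨min (ε / 4) (1 / 2), by positivity, min_le_left _ _, min_le_right _ _⟩
  obtain ⟨δ, δp, hδ⟩ : ∃ δ : ℝ, 0 < δ ∧ (e + 2) * δ = (e0 / 2) ^ (e + 2) :=
    ⟨(e0 / 2) ^ (e + 2) / (e + 2), by positivity, by field_simp⟩
  obtain ⟨g0, g0p, g01, g02⟩ : ∃ g0 : ℝ, 0 < g0 ∧ g0 ≤ δ / 8 ∧ g0 ≤ g / 2 :=
    ⟨min (δ / 8) (g / 2), by positivity, min_le_left _ _, min_le_right _ _⟩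
  obtain ⟨e1, e1p, e11, e12⟩ : ∃ e1 : ℝ, 0 < e1 ∧ e1 ≤ ε / 4 ∧ e1 ≤ g0 / 4 :=
    ⟨min (ε / 4) (g0 / 4), by positivity, min_le_left _ _, min_le_right _ _⟩
  obtain ⟨δ', δ'p, hδ'⟩ : ∃ δ' : ℝ, 0 < δ' ∧ 56 * δ' = e1 ^ 3 :=
    ⟨e1 ^ 3 / 56, by positivity, by field_simp⟩
  obtain ⟨a, ha⟩ : ∃ a : ℝ, a = (q ^ 2 / 2) ^ (e + 2) := ⟨_, rfl⟩
  obtain ⟨b, hb⟩ : ∃ b : ℝ, b = (q ^ (e + 2) / 2) ^ (e + 2) := ⟨_, rfl⟩
  obtain ⟨s, hs⟩ : ∃ s : ℝ, s = q ^ (e + 2) := ⟨_, rfl⟩
  have ap : 0 < a := by rw [ha]; positivity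
  have bp : 0 < b := by rw [hb]; positivity
  have sp : 0 < s := by rw [hs]; positivity
  rw [← ha, ← hb, ← hs]
  obtain ⟨n1, hn1⟩ := exists_large 2 e0 e0p
  obtain ⟨n2, hn2⟩ := exists_large 2 e1 e1p
  obtain ⟨n3, hn3⟩ := exists_large 18 δ' δ'p
  obtain ⟨n4, hn4⟩ := exists_large (4 * (e + 3)) g0 g0p
  obtain ⟨n5, hn5⟩ := exists_large K (δ' / 8 * a) (by positivity)
  obtain ⟨n6, hn6⟩ := exists_large K (δ / (2 * (e + 2) ^ 2) * b) (by positivity)
  obtain ⟨n7, hn7⟩ := exists_large (4 * (e + 2)) (ε / 2 * (q ^ 2 * (δ' / 8 * a))) (by positivity)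
  obtain ⟨n8, hn8⟩ := exists_large (4 * (e + 2)) (ε / 2 * (s * (δ / (2 * (e + 2) ^ 2) * b)))
    (by positivity)
  refine ⟨n1 + n2 + n3 + n4 + n5 + n6 + n7 + n8 + 1, fun n hn => ?_⟩
  replace hn1 := hn1 n (by omega)
  replace hn2 := hn2 n (by omega)
  replace hn3 := hn3 n (by omega)
  replace hn4 := hn4 n (by omega)
  replace hn5 := hn5 n (by omega)
  replace hn6 := hn6 n (by omega)
  replace hn7 := hn7 n (by omega)
  replace hn8 := hn8 n (by omega)
  have np : (1 : ℝ) ≤ n := by exact_mod_cast (by omega : 1 ≤ n)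
  have ep : (0 : ℝ) ≤ e := Nat.cast_nonneg _
  obtain ⟨M, hM⟩ : ∃ M : ℝ, M = (n : ℝ) ^ e := ⟨_, rfl⟩
  have M1 : 1 ≤ M := hM ▸ one_le_pow₀ np
  have k1 : 8 * (g0 * n) ≤ δ * n := by clear * - g0 n δ g01; linarith only [g01, mul_nonneg_of_nonpos_of_nonpos (Mathlib.Tactic.Linarith.sub_nonpos_of_le (Mathlib.Tactic.Linarith.natCast_nonneg ℝ n)) (Mathlib.Tactic.Linarith.sub_nonpos_of_le g01)]
  have k2 : δ * n ≤ δ * (n * M) := by
    clear * - n M M1 np δ δp
    have : (n : ℝ) * 1 ≤ n * M := by gcongr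
    gcongr
    linarith
  have k3 : δ' * n ≤ δ' * (n * n) := by
    clear * - n np δ' δ'p
    have : (n : ℝ) * 1 ≤ n * n := by gcongr
    gcongr
    linarith
  obtain ⟨A', A1, A2⟩ := exists_floor hn1
  obtain ⟨A, B1, B2⟩ := exists_floor hn2
  obtain ⟨u, u1, u2⟩ := exists_floor (θ := g0) (ν := n) (by clear * - g0 n e e0 e0p e02 hn4; linarith only [e0p, e02, hn4])
  obtain ⟨y', y1, y2⟩ := exists_floor (θ := δ) (ν := n * M) (by clear * - δ n M e e0 g0 e0p e02 hn4 k1 k2; linarith only [e0p, e02, hn4, k1, k2])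
  obtain ⟨y, z1, z2⟩ := exists_floor (θ := δ') (ν := n * n) (by clear * - δ' n e0 e0p e02 hn3 k3; linarith only [e0p, e02, hn3, k3])
  have hP : (n : ℝ) ^ (e + 2) = M * n ^ 2 := by rw [hM, pow_add]
  have k4 : e1 * n ≤ g0 / 4 * n := by gcongr
  have k5 : e1 * n ≤ ε / 4 * n := by gcongr
  have k6 : e0 * n ≤ ε / 4 * n := by gcongr
  have k7 : g0 * n ≤ g / 2 * n := by gcongr
  have k8 : e0 * n ≤ 1 / 2 * n := by gcongr
  refine ⟨A', y', u, A, y, δ' / 8 * n, δ / (2 * (e + 2) ^ 2) * n, by positivity, by positivity,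
    ?_, fun U hU => ?_, ?_, ?_, ?_, by clear * - u e g n e0 g0 e0p e02 hn4 u2 k7; linarith only [e0p, e02, hn4, u2, k7], by clear * - A ε n e1 B2 k5; linarith only [B2, k5], by clear * - A' ε n e0 A2 k6; linarith only [A2, k6], by clear * - δ' n y z1; linarith only [z1], ?_,
    by clear * - K δ' n a hn5; linarith only [hn5], by clear * - K δ e n b hn6; linarith only [hn6], ?_, ?_⟩
  · have c1 : ((e : ℝ) + 2) * n * y' ≤ (e + 2) * n * (δ * (n * M)) := by gcongr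
    have c2 : (e0 / 2 * n) ^ (e + 2) < ((A' : ℝ) + 1) ^ (e + 2) := by
      clear * - e0 n A' e0p e02 A1 np e
      gcongr
      linarith only [e0p, e02, A1]
    rw [mul_pow, hP, ← hδ] at c2
    exact_mod_cast (by clear * - e n y' A' δ M c1 c2; linarith : ((e : ℝ) + 2) * n * y' < ((A' : ℝ) + 1) ^ (e + 2))
  · have c0 : A' ≤ n := by clear * - A' n e0 e0p e02 hn1 A2 k8 M U a e hP hU u y' δ; exact_mod_cast (by clear * - A' n e0 e0p e02 hn1 A2 k8 M U a e hP hU u y' δ; linarith only [e0p, e02, hn1, A2, k8] : (A' : ℝ) ≤ n)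
    have c1 : ((n : ℝ) - A') * y' * n ≤ U * (M * n ^ 2) := by
      rw [← hP]
      exact_mod_cast hU
    have c2 : (n : ℝ) / 2 * (δ * (n * M) / 2) * n ≤ (n - A') * y' * n := by
      clear * - n δ M A' y' e0 A2 k8 y1 δp np M1 e0p e02 hn1
      gcongr
      · linarith only [e0p, e02, hn1, A2, k8]
      · linarith only [A2, k8]
    have c3 : δ * n / 4 ≤ U :=
      le_of_mul_le_mul_right (a := M * n ^ 2) (by clear * - δ n M U A' y' c1 c2 a; linarith only [c1, c2]) (by positivity)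
    exact_mod_cast (by clear * - u e U e0 g0 n δ e0p e02 hn4 k1 u2 c3; linarith only [e0p, e02, hn4, k1, u2, c3] : (u : ℝ) + (e + 2) ≤ U)
  · have c1 : (e1 * n / 2) ^ 3 ≤ (A : ℝ) ^ 3 := by gcongr
    have c2 : (7 : ℝ) * n * y ≤ 7 * n * (δ' * (n * n)) := by gcongr
    have c3 : (e1 * n / 2) ^ 3 = 7 * n * (δ' * (n * n)) := by
      rw [div_pow, mul_pow, ← hδ']
      ring
    exact_mod_cast (by clear * - n y A e1 δ' c1 c2 c3; linarith only [c1, c2, c3] : (7 : ℝ) * n * y ≤ (A : ℝ) ^ 3)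
  · exact_mod_cast (by clear * - e A u e0 g0 n e1 e0p e02 hn4 B2 u1 k4; linarith only [e0p, e02, hn4, B2, u1, k4] : (e : ℝ) + 2 + A < u)
  · have c1 : 18 * (n : ℝ) ≤ δ' * n * n := by clear * - n δ' hn3 np y; gcongr
    exact_mod_cast (by clear * - n y e0 δ' e0p e02 hn1 z1 k8 c1; linarith only [e0p, e02, hn1, z1, k8, c1] : (8 : ℝ) * n < y)
  · rw [← hM]
    refine le_trans (le_of_eq ?_) y1
    field_simp
  · rw [div_le_iff₀ (by positivity)]
    clear * - e ε q δ' n a hn7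
    linarith only [hn7]
  · rw [div_le_iff₀ (by positivity)]
    clear * - e ε s δ n b hn8
    linarith only [hn8]

theorem geo_num {d r w ν : ℕ} (hd : 2 ≤ d) (hr : 2 ≤ r) (hw : 16 * d * w ≤ r)
    (hw' : 2 * d + 1 ≤ w) (h1 : 2 * (d * r + 1) + r ≤ ν + w) (h2 : ν ≤ 2 * (d * r + 1) + r) :
    (∀ E : ℕ, 2 ≤ E → (2 * (E : ℝ) - 2) * (d * r + 1 : ℕ) <
      E * ν - (2 * (d * r + 1) + r : ℕ) - 1 / (8 * (d + 1)) * ν) ∧
    (∀ E : ℕ, 4 * d ≤ E + 1 → (2 * (E : ℝ) - 2) * (d * r + 1 : ℕ) <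
      E * ν - 2 * (2 * (d * r + 1) + r : ℕ) - 1 / (8 * (d + 1)) * ν) ∧
    1 / (4 * d + 4) * (ν : ℝ) + 2 * (d * r + 1 : ℕ) + (2 * d + 1 : ℕ) ≤ ν := by
  have a1 : 32 * w ≤ r := le_trans (by gcongr; omega) hw
  have a2 : ν ≤ (2 * d + 2) * r := by linarith only [hd, hw', h2, a1]
  have b1 : (32 : ℝ) * w ≤ r := by exact_mod_cast a1
  have b2 : (ν : ℝ) ≤ (2 * d + 2) * r := by exact_mod_cast a2
  have b3 : (16 : ℝ) * d * w ≤ r := by exact_mod_cast hw
  have b4 : 2 * ((d : ℝ) * r + 1) + r ≤ ν + w := by exact_mod_cast h1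
  have b5 : 2 * (d : ℝ) + 1 ≤ w := by exact_mod_cast hw'
  have b6 : (2 : ℝ) ≤ d := by exact_mod_cast hd
  have b7 : 1 / (8 * ((d : ℝ) + 1)) * ν ≤ r / 4 := by
    clear * - d ν r hd b2
    rw [one_div_mul_eq_div, div_le_iff₀ (by positivity)]
    linarith only [b2]
  have b8 : 1 / (4 * (d : ℝ) + 4) * ν ≤ r / 2 := by
    clear * - d ν r hd b2
    rw [one_div_mul_eq_div, div_le_iff₀ (by positivity)]
    linarith only [b2]
  push_cast
  refine ⟨fun E hE => ?_, fun E hE => ?_, by clear * - d ν r w b1 b4 b5 b6 b8; linarith only [b1, b4, b5, b6, b8]⟩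
  · have c1 : (2 : ℝ) ≤ E := by exact_mod_cast hE
    have c2 : (E : ℝ) * (2 * (d * r + 1) + r - w) ≤ E * ν := by
      clear * - E d r w ν b4 hE
      gcongr
      linarith only [b4]
    have c3 : 2 * ((r : ℝ) - w) ≤ E * (r - w) := by
      clear * - r w E c1 d b1 b5 b6
      gcongr
      linarith only [b1, b5, b6]
    linarith only [b1, b5, b6, b7, c2, c3]
  · have c1 : 4 * (d : ℝ) - 1 ≤ E := by
      clear * - d E hE
      have : 4 * (d : ℝ) ≤ E + 1 := by exact_mod_cast hE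
      linarith
    have c2 : (E : ℝ) * (2 * (d * r + 1) + r - w) ≤ E * ν := by
      clear * - E d r w ν b4
      gcongr
      linarith
    have c3 : (4 * (d : ℝ) - 1) * ((r : ℝ) - w) ≤ E * (r - w) := by
      clear * - r w d E c1 b1 b5 b6
      gcongr
      linarith only [b1, b5, b6]
    have c4 : 2 * (r : ℝ) ≤ d * r := by gcongr
    clear * - E d r ν w b1 b3 b5 b6 b7 c2 c3 c4
    linarith only [b1, b3, b5, b6, b7, c2, c3, c4]

theorem no_psi {d : ℕ} (hd : 2 ≤ d) : ∃ r : ℕ, ∀ (V S I : Type) [Fintype V] [Fintype S]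
    [Fintype I] (Γ : SimpleGraph V) (fr : ℤ → V → ℤ) (pos : V → I) (Ψ : (V → S) → S),
    Cyc Γ fr pos (2 * d + 1) (d * r + 1) → Fintype.card I = 2 * d + 1 →
    Fintype.card S = 2 * (d * r + 1) + r → Surjective pos →
    (∀ f g, (∀ p p', Γ.Adj p p' → f p ≠ g p') → Ψ f ≠ Ψ g) → (∀ f, ∃ x, f x = Ψ f) → False := by
  obtain ⟨q, hq⟩ : ∃ q : ℝ, q = 1 / (4 * d + 4) := ⟨_, rfl⟩
  have dp : (0 : ℝ) < d := by exact_mod_cast (by omega : 0 < d)
  have qp : 0 < q := by rw [hq]; positivity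
  have q1 : q ≤ 1 := by
    rw [hq, div_le_one (by positivity)]
    linarith only [dp]
  obtain ⟨ε, hε, K, ν0, H⟩ := main_abs (c := (q / 2) ^ (2 * d + 1)) (γ := 1 / (8 * (d + 1))) hd
    (by positivity) (pow_le_one₀ (by positivity) (by linarith only [q1])) (by positivity)
  obtain ⟨n0, hn⟩ := fin_num (2 * d + 1 - 2) ε (((K + 2 * d + 2 : ℕ) : ℝ) + 1) q
    (1 / (16 * d * (2 * d + 2))) hε qp (by positivity)
  obtain ⟨n1, hn1⟩ := exists_large (4 * (2 * d + 1 : ℕ)) (ε * (q * (q / 2) ^ (2 * d + 1)))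
    (by positivity)
  obtain ⟨r, hr⟩ : ∃ r, r = n0 + n1 + ν0 + 2 := ⟨_, rfl⟩
  refine ⟨r, fun V S I _ _ _ Γ fr pos Ψ hC hI hS hpos hΨ hrd => ?_⟩
  have he : 2 * d + 1 - 2 + 2 = 2 * d + 1 := by omega
  have he' : ((2 * d + 1 - 2 : ℕ) : ℝ) + 2 = (2 * d + 1 : ℕ) := by exact_mod_cast he
  obtain ⟨A', y', u, A, y, y0, y0', p1, p2, f1, f2, f3, f4, f5, f6, f7, f8, f9, f10, f11, f12,
    f13, f14⟩ := hn (Fintype.card S) (by omega)
  simp only [he, he'] at f1 f2 f4 f6 f10 f11 f12 f13 f14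
  have hw : 16 * d * (u + (2 * d + 1)) ≤ r := by
    clear * - S d r n0 n1 ν0 hr hS u hd f6
    have c1 : Fintype.card S ≤ (2 * d + 2) * r := by linarith only [hr, hS]
    have c2 : (Fintype.card S : ℝ) ≤ (2 * d + 2) * r := by exact_mod_cast c1
    rw [one_div_mul_eq_div, le_div_iff₀ (by positivity)] at f6
    have c3 : 16 * d * ((u : ℝ) + (2 * d + 1 : ℕ)) ≤ r :=
      le_of_mul_le_mul_right (a := 2 * (d : ℝ) + 2) (by linarith only [f6, c2]) (by positivity)
    exact_mod_cast c3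
  have hw2 : 32 * (u + (2 * d + 1)) ≤ r := le_trans (by gcongr; omega) hw
  obtain ⟨j, hdom0, t0, ht0⟩ := level0 (fun w : I → S => Ψ fun p => w (pos p))
    (fun w => let ⟨x, hx⟩ := hrd fun p => w (pos p); ⟨pos x, hx⟩) (a := A') (y := y')
    (by omega) (by rw [hI]; exact f1)
  obtain ⟨p0, rfl⟩ := hpos j
  rw [hI] at ht0
  have c1 := f2 _ ht0
  have c2 : (univ.image t0).card ≤ 2 * d + 1 := card_image_le.trans (by rw [card_univ, hI])
  obtain ⟨U0, s1, s2⟩ := exists_subset_card_eq (n := u)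
    (le_trans (by omega) (le_card_sdiff (univ.image t0)
      (univ.filter fun v => Ψ (fun p => update t0 (pos p0) v (pos p)) = v)))
  obtain ⟨C, _, ι, c3, hι0⟩ : ∃ (C : Type) (_ : Fintype C) (ι : C ↪ S),
      Fintype.card C = Fintype.card S - (U0 ∪ univ.image t0).card ∧
      ∀ c, ι c ∉ U0 ∪ univ.image t0 :=
    ⟨{x : S // x ∉ U0 ∪ univ.image t0}, inferInstance, Embedding.subtype _,
      by rw [Fintype.card_subtype_compl, Fintype.card_coe], fun c => c.2⟩
  have c4 := card_union_le U0 (univ.image t0)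
  have hι : ∀ c : C, ι c ∉ univ.image t0 ∧ ι c ∉ U0 :=
    fun c => ⟨fun h => hι0 c (mem_union_right _ h), fun h => hι0 c (mem_union_left _ h)⟩
  obtain ⟨o, a, hch, hp0, hdom⟩ := chain_exists hd hC Ψ hΨ ι
    (univ.image t0) U0 p0 t0 (fun v hv => (mem_filter.1 (mem_sdiff.1 (s1 hv)).1).2)
    (fun i => mem_image_of_mem _ (mem_univ _)) hι (by clear * - d r C ν0 n0 n1 hr V S I pos Ψ hS A' y' u A y hw2 t0 p0 c2 U0 s2 c3 c4 f3 f5 hι; omega) f3 (by omega) (by omega) f5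
  obtain ⟨g1, g2, g3⟩ := geo_num (ν := Fintype.card C) hd (by omega) hw (by omega) (by omega)
    (by omega)
  rw [← hq] at g3
  have c5 : Fintype.card S ≤ 2 * Fintype.card C := by clear * - S C d ν0 n0 n1 r hr V I fr pos Ψ hS A' y' u A y hw hw2 t0 p0 c2 U0 s2 c3 c4 o a; omega
  have c6 : (Fintype.card S : ℝ) ≤ 2 * Fintype.card C := by exact_mod_cast c5
  have c7 : ε / 4 * Fintype.card S ≤ ε / 4 * (2 * Fintype.card C) := by gcongr
  have hG := hC.pathCl o
  have hdr : r ≤ d * r := Nat.le_mul_of_pos_left _ (by omega)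
  refine H V C S _ _ _ a _ (by omega) ⟨hG, hch, by omega, c5, fun E h _ => hS ▸ g1 E h,
    hS ▸ g2, Om_nonempty hG (by omega)⟩
    (tok_system hd hC hI hΨ _ hch hp0 (fun c => (hι c).1) hdom hdom0 hε.le qp q1 p1 p2 g3 f9 f11
      ?_ f10 f12 ?_) ((atyp_bound hG qp q1 (by omega) ?_).trans ?_)
  · have := mul_le_mul_of_nonneg_left f13 (Nat.cast_nonneg (α := ℝ) (Fintype.card C))
    clear * - A C d q y0 ε S f7 c7 this
    linarith only [f7, c7, this]
  · have := mul_le_mul_of_nonneg_left f14 (Nat.cast_nonneg (α := ℝ) (Fintype.card C))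
    clear * - A' C d q y0' ε S f8 c7 this
    linarith only [f8, c7, this]
  · push_cast at g3 ⊢
    clear * - q C d r dp g3
    linarith
  · have c8 : (0 : ℝ) < Fintype.card C := by exact_mod_cast (by omega : 0 < Fintype.card C)
    gcongr
    rw [div_le_iff₀ (by positivity)]
    clear * - d ε q C hn1 n1 ν0 n0 r hr V S I fr pos Ψ hS A' y' u A y t0 p0 U0 c3 o a c5 hdr
    linarith only [hn1, hr, hS, c3, c5, hdr, hn1 (Fintype.card C) (by omega)]

theorem all_cycles (d : ℕ) (hd : 2 ≤ d) : ∃ m n : ℕ, 0 < m ∧ 0 < n ∧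
    ¬ (lexK (SimpleGraph.cycleGraph (2 * d + 1)) m).Colorable n ∧
    ¬ (expGraph (lexK (SimpleGraph.cycleGraph (2 * d + 1)) m) n).Colorable n := by
  obtain ⟨r, H⟩ := no_psi hd
  have hχ := lexK_not_colorable d (d * r + 1) (2 * (d * r + 1) + r) (by omega) (by linarith only [])
  refine ⟨d * r + 1, 2 * (d * r + 1) + r, by omega, by omega, hχ, fun hc => ?_⟩
  obtain ⟨Ψ, h1, h2⟩ := Layer1.exists_psi _ _ (Fin (2 * (d * r + 1) + r)) (Fintype.card_fin _) hχ hc
  obtain ⟨fr, hC⟩ := cyc_exists d (d * r + 1) (by omega)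
  exact H _ _ _ _ fr Prod.fst Ψ hC (Fintype.card_fin _) (Fintype.card_fin _)
    (fun j => ⟨(j, 0), rfl⟩) h1 h2

end Pool.Agent.Work.MP_418764_co.All
end
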