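import Mathlib

namespace Pool.Agent.Work.MP_418764_co.All

theorem exists_floor {θ ν : ℝ} (h : 2 ≤ θ * ν) : ∃ t : ℕ, θ * ν / 2 ≤ t ∧ (t : ℝ) ≤ θ * ν :=
  ⟨⌊θ * ν⌋₊, by have := Nat.lt_floor_add_one (θ * ν); linarith, Nat.floor_le (by linarith)⟩

theorem exists_large (a b : ℝ) (hb : 0 < b) : ∃ n : ℕ, ∀ ν : ℕ, n ≤ ν → a ≤ b * ν := by
  obtain ⟨n, hn⟩ := exists_nat_ge (a / b)
  refine ⟨n, fun ν h => ?_⟩
  have h1 : (n : ℝ) ≤ ν := by exact_mod_cast h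
  rw [mul_comm]
  exact (div_le_iff₀ hb).1 (hn.trans h1)

theorem exists_small (a b : ℝ) (ha : 0 < a) (hb : 0 ≤ b) : ∃ θ : ℝ, 0 < θ ∧ θ ≤ 1 / 2 ∧
    ∀ θ', θ' ≤ θ → 0 ≤ θ' → b * θ' ≤ a := by
  refine ⟨min (1 / 2) (a / (b + 1)), by positivity, min_le_left _ _, fun θ' h h0 => ?_⟩
  have := (le_div_iff₀ (by positivity)).1 (h.trans (min_le_right _ _))
  nlinarith

theorem params (N E K' P p2 : ℕ) (c lam ξ : ℝ) (hc : 0 < c) (hlam : 0 < lam) (hξ : 0 < ξ) :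
    ∃ (P3 L w : ℕ) (β θ' : ℝ), 0 < β ∧ 0 < θ' ∧ ∃ ν0 : ℕ, ∀ ν : ℕ, ν0 ≤ ν → ∃ h t A : ℕ,
      0 < t ∧ N * (P + p2 * ν / t + 1) ≤ w ∧ P * (K' + 2 * w + 4 + N) ≤ h ∧
      (∀ s ≤ w, 2 * β * (ν : ℝ) ^ s < ((h : ℝ) + 1 - P * (K' + 2 * w + 4 + N : ℕ)) ^ s) ∧
      ((p2 * ν : ℕ) : ℝ) ≤ P3 * (c * ν - h) ∧ (h : ℝ) < c * ν ∧ θ' * ν ≤ A ∧ A < ν ∧
      (∀ Lc u : ℕ, (Lc : ℝ) ≤ lam * ν → c * ν ≤ u →
        2 * Lc + (L + 1) * (h + N + 1 + (L + 1) + (L + 1) * t) < (L + 1) * u) ∧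
      ∀ Lc S : ℕ, (Lc : ℝ) ≤ lam * ν → S * (A + 1) ≤
        ν * P3 * ((E * (h + N + 1) + L * t) * (A + 1) + ν * t) +
          2 * P3 * (N * (2 * A + 4) + 2 * A + 2) * Lc * (A + 1) → (S : ℝ) ≤ ξ * ν ^ 2 := by
  obtain ⟨P3, hP3⟩ := exists_large (2 * p2) c hc
  replace hP3 := hP3 P3 le_rfl
  obtain ⟨L, hL⟩ := exists_large (8 * lam) c hc
  replace hL := hL L le_rfl
  obtain ⟨e1, e1p, e1h, he1⟩ := exists_small c 8 hc (by norm_num)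
  obtain ⟨e2, e2p, -, he2⟩ := exists_small ξ (8 * P3 * E) hξ (by positivity)
  obtain ⟨η, ηp, η1, η2⟩ : ∃ η, 0 < η ∧ η ≤ e1 ∧ η ≤ e2 :=
    ⟨min e1 e2, by positivity, min_le_left _ _, min_le_right _ _⟩
  replace he1 := he1 η η1 ηp.le
  replace he2 := he2 η η2 ηp.le
  obtain ⟨θ', θ'p, θ'h, hθ'⟩ := exists_small ξ (16 * P3 * lam * (2 * N + 2)) hξ (by positivity)
  replace hθ' := hθ' θ' le_rfl θ'p.le
  obtain ⟨f1, f1p, -, hf1⟩ := exists_small c (8 * (L + 1)) hc (by positivity)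
  obtain ⟨f2, f2p, -, hf2⟩ := exists_small ξ (8 * P3 * L) hξ (by positivity)
  obtain ⟨f3, f3p, -, hf3⟩ := exists_small (ξ * θ') (16 * P3) (by positivity) (by positivity)
  obtain ⟨θ, θp, θ1, θ2, θ3⟩ : ∃ θ, 0 < θ ∧ θ ≤ f1 ∧ θ ≤ f2 ∧ θ ≤ f3 :=
    ⟨min f1 (min f2 f3), by positivity, min_le_left _ _, (min_le_right _ _).trans (min_le_left _ _),
      (min_le_right _ _).trans (min_le_right _ _)⟩
  replace hf1 := hf1 θ θ1 θp.le
  replace hf2 := hf2 θ θ2 θp.le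
  replace hf3 := hf3 θ θ3 θp.le
  obtain ⟨W1, hW1⟩ := exists_large (2 * p2) θ θp
  replace hW1 := hW1 W1 le_rfl
  obtain ⟨w, hw⟩ : ∃ w, w = N * (P + W1 + 1) := ⟨_, rfl⟩
  obtain ⟨k, hk⟩ : ∃ k, k = K' + 2 * w + 4 + N := ⟨_, rfl⟩
  obtain ⟨n1, hn1⟩ := exists_large 2 η ηp
  obtain ⟨n2, hn2⟩ := exists_large 2 θ θp
  obtain ⟨n3, hn3⟩ := exists_large 2 θ' θ'p
  obtain ⟨n4, hn4⟩ := exists_large (4 * P * k) η ηp
  obtain ⟨n5, hn5⟩ := exists_large (8 * (N + 1 + (L + 1))) c hc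
  obtain ⟨n6, hn6⟩ := exists_large (8 * P3 * E * (N + 1)) ξ hξ
  obtain ⟨n7, hn7⟩ := exists_large (16 * P3 * lam * (4 * N + 2)) ξ hξ
  refine ⟨P3, L, w, (η / 4) ^ w / 4, θ' / 2, by positivity, by positivity,
    n1 + n2 + n3 + n4 + n5 + n6 + n7 + 1, fun ν hν => ?_⟩
  replace hn1 := hn1 ν (by omega)
  replace hn2 := hn2 ν (by omega)
  replace hn3 := hn3 ν (by omega)
  replace hn4 := hn4 ν (by omega)
  replace hn5 := hn5 ν (by omega)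
  replace hn6 := hn6 ν (by omega)
  replace hn7 := hn7 ν (by omega)
  have hν0 : (0 : ℝ) < ν := by exact_mod_cast (by omega : 0 < ν)
  obtain ⟨h, h1, h2⟩ := exists_floor hn1
  obtain ⟨t, t1, t2⟩ := exists_floor hn2
  obtain ⟨A, A1, A2⟩ := exists_floor hn3
  have h3 : 8 * (h : ℝ) ≤ c * ν := by
    linarith only [h2, mul_le_mul_of_nonneg_right he1 hν0.le]
  have hcν : 0 < c * ν := by positivity
  rw [← hk]
  refine ⟨h, t, A, ?_, ?_, ?_, fun s hs => ?_, ?_, by linarith only [h3, hcν],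
    by linarith only [A1], ?_, fun Lc u l1 l2 => ?_, fun Lc S l1 l2 => ?_⟩
  · exact_mod_cast (by linarith only [hn2, t1] : (0 : ℝ) < t)
  · rw [hw]
    gcongr
    refine Nat.div_le_of_le_mul ?_
    have : (p2 : ℝ) * ν ≤ t * W1 := by
      linarith only [mul_le_mul_of_nonneg_right t1 (Nat.cast_nonneg (α := ℝ) W1),
        mul_le_mul_of_nonneg_right hW1 hν0.le]
    exact_mod_cast this
  · exact_mod_cast (by linarith only [hn4, h1, hn1] : (P : ℝ) * k ≤ h)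
  · have a1 : (η / 4) ^ w ≤ (η / 4) ^ s := 
      pow_le_pow_of_le_one (by positivity) (by linarith only [η1, e1h]) hs
    have a2 : (η / 4 * ν) ^ s ≤ ((h : ℝ) + 1 - P * k) ^ s := by
      gcongr
      linarith only [hn4, h1]
    have a3 : 0 < (η / 4) ^ w * (ν : ℝ) ^ s := by positivity
    have a4 : (η / 4) ^ w * (ν : ℝ) ^ s ≤ (η / 4) ^ s * (ν : ℝ) ^ s := by gcongr
    rw [mul_pow] at a2
    linarith only [a2, a3, a4]
  · push_cast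
    have : (P3 : ℝ) * (c * ν / 2) ≤ P3 * (c * ν - h) := by
      gcongr
      linarith only [h3, hcν]
    linarith only [this, mul_le_mul_of_nonneg_right hP3 hν0.le]
  · exact_mod_cast
      (by linarith only [A2, hν0, mul_le_mul_of_nonneg_right θ'h hν0.le] : (A : ℝ) < ν)
  · have a1 : ((L : ℝ) + 1) * t ≤ c * ν / 8 := by
      have : ((L : ℝ) + 1) * t ≤ (L + 1) * (θ * ν) := by gcongr
      linarith only [this, mul_le_mul_of_nonneg_right hf1 hν0.le]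
    have a2 : ((L : ℝ) + 1) * (h + N + 1 + (L + 1) + (L + 1) * t) ≤ (L + 1) * (c * ν / 2) := by
      gcongr
      linarith only [a1, h3, hn5, hcν]
    have a3 : ((L : ℝ) + 1) * (c * ν) ≤ (L + 1) * u := by gcongr
    have a4 : 8 * lam * ν ≤ c * L * ν := by gcongr
    have l1' : (Lc : ℝ) ≤ lam * ν := l1
    have a5 : (2 : ℝ) * Lc + (L + 1) * (h + N + 1 + (L + 1) + (L + 1) * t) < (L + 1) * u := by
      linarith only [mul_nonneg (Nat.cast_nonneg (α := ℝ) L) hcν.le, a2, a3, a4, l1', hcν]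
    exact_mod_cast a5
  · have l3 : (S : ℝ) * (A + 1) ≤ ν * P3 * ((E * (h + N + 1) + L * t) * (A + 1) + ν * t) +
        2 * P3 * (N * (2 * A + 4) + 2 * A + 2) * Lc * (A + 1) := by exact_mod_cast l2
    have a1 : (P3 : ℝ) * (E * (h + N + 1) + L * t) ≤ 3 / 8 * (ξ * ν) := by
      have b1 : (P3 : ℝ) * E * h ≤ P3 * E * (η * ν) := by gcongr
      have b2 : (P3 : ℝ) * L * t ≤ P3 * L * (θ * ν) := by gcongr
      have b3 : 8 * P3 * E * η * ν ≤ ξ * ν := by gcongr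
      have b4 : 8 * P3 * L * θ * ν ≤ ξ * ν := by gcongr
      linarith only [b1, b2, b3, b4, hn6]
    have a2 : (P3 : ℝ) * t ≤ ξ / 8 * (A + 1) := by
      have b1 : (P3 : ℝ) * t ≤ P3 * (θ * ν) := by gcongr
      have b2 : 16 * P3 * θ * ν ≤ ξ * θ' * ν := by gcongr
      have b3 : ξ * (θ' * ν / 2) ≤ ξ * A := by gcongr
      linarith only [b1, b2, b3, hξ]
    have a3 : 2 * (P3 : ℝ) * (N * (2 * A + 4) + 2 * A + 2) * lam ≤ ξ * ν / 4 := by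
      have b1 : (P3 : ℝ) * lam * (2 * N + 2) * A ≤ P3 * lam * (2 * N + 2) * (θ' * ν) := by gcongr
      have b2 : 16 * P3 * lam * (2 * N + 2) * θ' * ν ≤ ξ * ν := by gcongr
      linarith only [b1, b2, hn7]
    have a4 : 2 * (P3 : ℝ) * (N * (2 * A + 4) + 2 * A + 2) * Lc ≤ ξ * ν / 4 * ν := by
      calc _ ≤ 2 * (P3 : ℝ) * (N * (2 * A + 4) + 2 * A + 2) * (lam * ν) := by gcongr
        _ = 2 * (P3 : ℝ) * (N * (2 * A + 4) + 2 * A + 2) * lam * ν := by ring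
        _ ≤ _ := by gcongr
    have a5 : (ν : ℝ) * (P3 * (E * (h + N + 1) + L * t)) * (A + 1) ≤
        ν * (3 / 8 * (ξ * ν)) * (A + 1) := by gcongr
    have a6 : (ν : ℝ) ^ 2 * (P3 * t) ≤ ν ^ 2 * (ξ / 8 * (A + 1)) := by gcongr
    have a7 : 2 * (P3 : ℝ) * (N * (2 * A + 4) + 2 * A + 2) * Lc * (A + 1) ≤
        ξ * ν / 4 * ν * (A + 1) := by gcongr
    have a8 : 0 ≤ ξ * ν ^ 2 * ((A : ℝ) + 1) := by positivity
    refine le_of_mul_le_mul_right (a := (A : ℝ) + 1) (l3.trans ?_) (by positivity)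
    linarith only [a5, a6, a7, a8]

end Pool.Agent.Work.MP_418764_co.All
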