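import Mathlib
import Pool.Agent.Work.MP_418764_co.ANum

-- merged part: Pool.Agent.Work.MP_418764_co.ABasic
section
namespace Pool.Agent.Work.MP_418764_co.All
open Finset Function Classical

variable {V C Λ : Type} [Fintype V] [Fintype C] [Fintype Λ]

/-- Proper colourings. -/
def Proper (G : SimpleGraph V) (κ : V → C) : Prop := ∀ p p', G.Adj p p' → κ p ≠ κ p'

/-- The set of proper colourings. -/
noncomputable def Om (G : SimpleGraph V) (C : Type) [Fintype C] : Finset (V → C) :=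
  univ.filter (Proper G)

/-- Points where two colourings differ. -/
noncomputable def dif (κ κ' : V → C) : Finset V := univ.filter fun p => κ' p ≠ κ p

/-- Unused colours. -/
noncomputable def Un (κ : V → C) : Finset C := univ.filter fun c => ∀ p, κ p ≠ c

/-- Points carrying a given colour. -/
noncomputable def homes (κ : V → C) (b : C) : Finset V := univ.filter fun p => κ p = b

/-- `κ'` arises from `κ` by a compatible move whose new colours avoid `Z`. -/
def Mv (G : SimpleGraph V) (κ κ' : V → C) (Z : Finset C) : Prop :=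
  ∀ p, κ' p ≠ κ p → κ' p ∉ Z ∧ ∀ p', G.Adj p p' → κ' p ≠ κ p'

/-- For every small forbidden set there is a short move of all points of `Q` reaching `π`. -/
def Hold (G : SimpleGraph V) (j k : ℕ) (κ : V → C) (Q : Finset V) (π : (V → C) → Prop) : Prop :=
  ∀ Z : Finset C, Z.card ≤ k → ∃ κ', Mv G κ κ' Z ∧ Q ⊆ dif κ κ' ∧ (dif κ κ').card ≤ j ∧ π κ'

/-- Compatibility of two colourings on `D × D'`. -/
def Compat (G : SimpleGraph V) (D D' : Set V) (κ κ' : V → C) : Prop :=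
  ∀ p ∈ D, ∀ p' ∈ D', G.Adj p p' → κ p ≠ κ' p'

/-- Two families of (colouring, key) pairs never meet along compatible close colourings. -/
def Cross (G : SimpleGraph V) (K : ℕ) (D D' B B' : Set V) (σ σ' : (V → C) → C → Prop) : Prop :=
  ∀ κ κ' x x', σ κ x → σ' κ' x' → (dif κ κ').card ≤ K → Compat G D D' κ κ' → x ≠ x' →
    (∀ p ∈ B', κ' p ≠ x) → (∀ p ∈ B, κ p ≠ x') → False

/-- Weakest form of disjointness of a label system. -/
def Disj (G : SimpleGraph V) (K : ℕ) (ρ : (V → C) → C → Λ → Prop) : Prop :=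
  ∀ l, Cross G K Set.univ Set.univ Set.univ Set.univ (fun μ x => ρ μ x l) (fun μ x => ρ μ x l)

/-- All recolourings of the points of `Q` by unused colours. -/
noncomputable def Pl (κ : V → C) (Q : Finset V) : Finset (V → C) :=
  Fintype.piFinset fun p => if p ∈ Q then Un κ else {κ p}

/-- Number of labels with a property. -/
noncomputable def cnt (P : Λ → Prop) : ℕ := (univ.filter P).card

/-- Closure of a label system under short moves. -/
def RR (G : SimpleGraph V) (ρ : (V → C) → C → Λ → Prop) (j k : ℕ) (κ : V → C) (x : C) (l : Λ) :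
    Prop := Hold G j k κ ∅ fun μ => ρ μ x l

/-- Labels owned by a key. -/
def Own (G : SimpleGraph V) (ρ : (V → C) → C → Λ → Prop) (J k : ℕ) (κ : V → C) (x : C) (l : Λ) :
    Prop := Hold G 1 2 κ ∅ fun μ => RR G ρ (J + 1) k μ x l

/-- A key with at least `E` labels in the closure. -/
def Valid (G : SimpleGraph V) (ρ : (V → C) → C → Λ → Prop) (E j k : ℕ) (μ : V → C) (x : C) :
    Prop := Proper G μ ∧ x ∈ Un μ ∧ E ≤ cnt (RR G ρ j k μ x)

/-- Number of pairs (proper colouring, colour) with a property. -/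
noncomputable def npairs (G : SimpleGraph V) (P : (V → C) → C → Prop) : ℕ :=
  ((Om G C ×ˢ univ).filter fun p => P p.1 p.2).card

/-- Number of proper colourings with few unused colours. -/
noncomputable def atyp (G : SimpleGraph V) (C : Type) [Fintype C] (c : ℝ) : ℕ :=
  ((Om G C).filter fun κ => ((Un κ).card : ℝ) < c * Fintype.card C).card

/-- A point of a plane carrying a label that is neither held nor dictated by one coordinate. -/
def DPbad (G : SimpleGraph V) (ρ : (V → C) → C → Λ → Prop) (w J k K : ℕ) (κ : V → C) (x : C)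
    (Q : Finset V) (μ : V → C) : Prop :=
  ∃ l, RR G ρ w K μ x l ∧ ¬ Hold G (J + 1) k κ Q (fun a => ρ a x l) ∧
    ∀ q ∈ Q, ¬ Hold G J (k + 1) (update κ q (μ q)) (Q.erase q) fun a => ρ a x l

/-- Repairing pairs. -/
noncomputable def Rep (G : SimpleGraph V) (ρ : (V → C) → C → Λ → Prop) (s K : ℕ) (μ : V → C)
    (x : C) : Finset (V × C) :=
  univ.filter fun qa => Proper G (update μ qa.1 qa.2) ∧ qa.2 ≠ x ∧
    ∃ l, RR G ρ s (K + 1) (update μ qa.1 qa.2) x l ∧ ¬ RR G ρ (s + 1) K μ x l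

/-- Floating labels. -/
noncomputable def Fl (G : SimpleGraph V) (ρ : (V → C) → C → Λ → Prop) (J k : ℕ) (κ : V → C)
    (x : C) (Q : Finset V) (q : V) (z : C) : Finset Λ :=
  univ.filter fun l => Hold G J (k + 1) (update κ q z) (Q.erase q) (fun a => ρ a x l) ∧
    ¬ Own G ρ J k κ x l

/-- The label `l` of the key `c` survives when `z` is put at `q` and `c`, `b` are moved out. -/
def NA (G : SimpleGraph V) (ρ : (V → C) → C → Λ → Prop) (J k : ℕ) (κ : V → C) (c : C) (q : V)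
    (z : C) (l : Λ) (b : C) : Prop :=
  Hold G J k (update κ q z) ((homes κ c ∪ homes κ b).erase q) fun a => ρ a c l

/-- Labels borrowed by the unused colour `z` through the fibre `F`. -/
def SS (G : SimpleGraph V) (ρ : (V → C) → C → Λ → Prop) (fib : V → ℤ) (J k A B : ℕ) (F : ℤ)
    (κ : V → C) (z : C) (l : Λ) : Prop :=
  Proper G κ ∧ z ∈ Un κ ∧ ∃ X : Finset C, B ≤ X.card ∧ ∀ c ∈ X, ∃ q, fib q = F ∧
    ∃ At : Finset C, At.card ≤ A ∧ ∀ b ∉ At, NA G ρ J k κ c q z l b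

/-- Robust part of a label system. -/
def Rob (G : SimpleGraph V) (T : (V → C) → C → Λ → Prop) (N k A : ℕ) (κ : V → C) (x : C)
    (l : Λ) : Prop :=
  T κ x l ∧ ∃ At : Finset C, At.card ≤ A ∧ ∀ b ∉ At, Hold G N k κ (homes κ b) fun a => T a x l

section basic
variable {G : SimpleGraph V} {κ κ' μ : V → C}

@[simp] theorem mem_Om : κ ∈ Om G C ↔ Proper G κ := by simp [Om]
@[simp] theorem mem_dif {p : V} : p ∈ dif κ κ' ↔ κ' p ≠ κ p := by simp [dif]
theorem mem_Un {c : C} : c ∈ Un κ ↔ ∀ p, κ p ≠ c := by simp [Un]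
@[simp] theorem mem_homes {b : C} {p : V} : p ∈ homes κ b ↔ κ p = b := by simp [homes]

theorem mem_Pl {Q : Finset V} :
    μ ∈ Pl κ Q ↔ (∀ p ∈ Q, μ p ∈ Un κ) ∧ ∀ p ∉ Q, μ p = κ p := by
  simp only [Pl, Fintype.mem_piFinset]
  constructor
  · intro h
    refine ⟨fun p hp => ?_, fun p hp => ?_⟩
    · simpa [hp] using h p
    · simpa [hp] using h p
  · rintro ⟨h1, h2⟩ p
    split_ifs with hp
    · exact h1 p hp
    · simp [h2 p hp]

theorem dif_comm (κ κ' : V → C) : dif κ κ' = dif κ' κ := by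
  ext p; simp [eq_comm]

theorem dif_self (κ : V → C) : dif κ κ = ∅ := by ext p; simp

theorem dif_subset (a b c : V → C) : dif a c ⊆ dif a b ∪ dif b c := by
  intro p hp
  simp only [mem_union, mem_dif] at hp ⊢
  by_contra h
  push Not at h
  exact hp (h.2.trans h.1)

theorem dif_card_le (a b c : V → C) : (dif a c).card ≤ (dif a b).card + (dif b c).card :=
  (card_le_card (dif_subset a b c)).trans (card_union_le _ _)

theorem dif_update (κ : V → C) (q : V) (z : C) : dif κ (update κ q z) ⊆ {q} := by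
  intro p hp
  by_contra h
  simp only [mem_singleton] at h
  simp [update_of_ne h] at hp

theorem dif_update_card (κ : V → C) (q : V) (z : C) : (dif κ (update κ q z)).card ≤ 1 :=
  (card_le_card (dif_update κ q z)).trans (by simp)

theorem dif_Pl {Q : Finset V} (h : μ ∈ Pl κ Q) : dif κ μ = Q := by
  ext p
  rw [mem_dif]
  constructor
  · intro hp
    by_contra hq
    exact hp ((mem_Pl.1 h).2 p hq)
  · intro hp
    exact (mem_Un.1 ((mem_Pl.1 h).1 p hp) p).symm

theorem Mv_refl (G : SimpleGraph V) (κ : V → C) (Z : Finset C) : Mv G κ κ Z :=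
  fun _ h => absurd rfl h

theorem Mv_Pl {Q : Finset V} {Z : Finset C} (h : μ ∈ Pl κ Q) (hZ : ∀ p ∈ Q, μ p ∉ Z) :
    Mv G κ μ Z := by
  intro p hp
  have hq : p ∈ Q := dif_Pl h ▸ mem_dif.2 hp
  exact ⟨hZ p hq, fun p' _ => (mem_Un.1 ((mem_Pl.1 h).1 p hq) p').symm⟩

theorem Mv_update {q : V} {z : C} {Z : Finset C} (hz : z ∉ Z)
    (h : ∀ p', G.Adj q p' → z ≠ κ p') : Mv G κ (update κ q z) Z := by
  intro p hp
  have hq : p = q := by simpa using dif_update κ q z (mem_dif.2 hp)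
  subst hq
  simpa using ⟨hz, h⟩

theorem Mv_update_of_proper {q : V} {z : C} {Z : Finset C} (hz : z ∉ Z)
    (h : Proper G (update κ q z)) : Mv G κ (update κ q z) Z :=
  Mv_update hz fun p' hp => by simpa [update_of_ne hp.ne.symm] using h q p' hp

theorem Hold.mono {j j' k k' : ℕ} {Q Q' : Finset V} {π π' : (V → C) → Prop}
    (h : Hold G j k κ Q π) (hj : j ≤ j') (hk : k' ≤ k) (hQ : Q' ⊆ Q) (hπ : ∀ a, π a → π' a) :
    Hold G j' k' κ Q' π' := fun Z hZ =>
  let ⟨a, h1, h2, h3, h4⟩ := h Z (hZ.trans hk)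
  ⟨a, h1, hQ.trans h2, h3.trans hj, hπ a h4⟩

theorem Hold.of_self {j k : ℕ} {π : (V → C) → Prop} (h : π κ) : Hold G j k κ ∅ π :=
  fun Z _ => ⟨κ, Mv_refl G κ Z, empty_subset _, by simp [dif_self], h⟩

/-- Composition of one move with a held property. -/
theorem comp1 {j k : ℕ} {Q : Finset V} {π : (V → C) → Prop} {Z : Finset C} (hm : Mv G κ μ Z)
    (h : Hold G j k μ Q π) (hk : Z.card + (dif κ μ).card ≤ k) :
    ∃ κ', Mv G κ κ' Z ∧ dif κ μ ∪ Q ⊆ dif κ κ' ∧ (dif κ κ').card ≤ (dif κ μ).card + j ∧ π κ' := by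
  obtain ⟨a, h1, h2, h3, h4⟩ := h (Z ∪ (dif κ μ).image κ)
    ((card_union_le _ _).trans ((Nat.add_le_add_left card_image_le _).trans hk))
  have key : ∀ p, a p ≠ μ p → ∀ p', κ p' ≠ μ p' → a p ≠ κ p' := fun p hp p' hp' e =>
    (h1 p hp).1 (mem_union_right _ (mem_image.2 ⟨p', mem_dif.2 hp'.symm, e.symm⟩))
  refine ⟨a, fun p hp => ?_, fun p hp => ?_, (dif_card_le κ μ a).trans (by omega), h4⟩
  · by_cases e : a p = μ p
    · rw [e] at hp ⊢
      exact hm p hp
    · refine ⟨fun hz => (h1 p e).1 (mem_union_left _ hz), fun p' hp' => ?_⟩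
      by_cases e' : κ p' = μ p'
      · rw [e']
        exact (h1 p e).2 p' hp'
      · exact key p e p' e'
  · rw [mem_dif]
    by_cases e : a p = μ p
    · rcases mem_union.1 hp with hp | hp
      · rw [e]
        exact mem_dif.1 hp
      · exact absurd e (mem_dif.1 (h2 hp))
    · by_cases e' : κ p = μ p
      · rw [e']
        exact e
      · exact key p e p e'

/-- Composition of held properties. -/
theorem Hold.comp {j j1 k k1 : ℕ} {Q Q1 : Finset V} {π : (V → C) → Prop}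
    (h : Hold G j1 k1 κ Q1 fun μ => Hold G j k μ Q π) (hk : k1 + j1 ≤ k) :
    Hold G (j1 + j) k1 κ (Q1 ∪ Q) π := by
  intro Z hZ
  obtain ⟨μ, h1, h2, h3, h4⟩ := h Z hZ
  obtain ⟨a, a1, a2, a3, a4⟩ := comp1 h1 h4 (by omega)
  exact ⟨a, a1, (union_subset_union h2 Subset.rfl).trans a2, by omega, a4⟩

/-- Transfer between colourings that differ inside the moved set. -/
theorem Hold.transfer {j k k' : ℕ} {Q : Finset V} {π : (V → C) → Prop} (h : Hold G j k μ Q π)
    (hQ : dif κ μ ⊆ Q) (hk : k' + (dif κ μ).card ≤ k) : Hold G j k' κ Q π := by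
  intro Z hZ
  obtain ⟨a, h1, h2, h3, h4⟩ := h (Z ∪ (dif κ μ).image κ)
    ((card_union_le _ _).trans ((Nat.add_le_add hZ card_image_le).trans hk))
  have key : ∀ p, a p ≠ μ p → ∀ p', κ p' ≠ μ p' → a p ≠ κ p' := fun p hp p' hp' e =>
    (h1 p hp).1 (mem_union_right _ (mem_image.2 ⟨p', mem_dif.2 hp'.symm, e.symm⟩))
  have k2 : ∀ p, a p ≠ κ p → a p ≠ μ p := fun p hp e =>
    mem_dif.1 (h2 (hQ (mem_dif.2 (e ▸ hp)))) e
  refine ⟨a, fun p hp => ?_, fun p hp => ?_, (card_le_card fun p hp => ?_).trans h3, h4⟩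
  · have e := k2 p hp
    refine ⟨fun hz => (h1 p e).1 (mem_union_left _ hz), fun p' hp' => ?_⟩
    by_cases e' : κ p' = μ p'
    · rw [e']
      exact (h1 p e).2 p' hp'
    · exact key p e p' e'
  · have e := mem_dif.1 (h2 hp)
    rw [mem_dif]
    by_cases e' : κ p = μ p
    · rw [e']
      exact e
    · exact key p e p e'
  · exact mem_dif.2 (k2 p (mem_dif.1 hp))

theorem Cross.mono {K K' : ℕ} {D D' B B' D1 D1' B1 B1' : Set V} {σ σ' τ τ' : (V → C) → C → Prop}
    (h : Cross G K D D' B B' σ σ') (hK : K' ≤ K) (h1 : D ⊆ D1) (h2 : D' ⊆ D1') (h3 : B ⊆ B1)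
    (h4 : B' ⊆ B1') (h5 : ∀ a x, τ a x → σ a x) (h6 : ∀ a x, τ' a x → σ' a x) :
    Cross G K' D1 D1' B1 B1' τ τ' := fun a a' x x' c1 c2 c3 c4 c5 c6 c7 =>
  h a a' x x' (h5 _ _ c1) (h6 _ _ c2) (c3.trans hK) (fun p hp p' hp' => c4 p (h1 hp) p' (h2 hp'))
    c5 (fun p hp => c6 p (h4 hp)) (fun p hp => c7 p (h3 hp))

theorem Cross.symm {K : ℕ} {D D' B B' : Set V} {σ σ' : (V → C) → C → Prop}
    (h : Cross G K D D' B B' σ σ') : Cross G K D' D B' B σ' σ :=
  fun a a' x x' c1 c2 c3 c4 c5 c6 c7 =>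
  h a' a x' x c2 c1 (dif_comm a a' ▸ c3) (fun p hp p' hp' e => (c4 p' hp' p hp e.symm).symm)
    c5.symm c7 c6

/-- Two held properties of distinct keys cannot coexist. -/
theorem hd {K j1 j2 k1 k2 δ : ℕ} {D D' B B' : Set V} {σ σ' : (V → C) → C → Prop}
    (h : Cross G K D D' B B' σ σ') {μ1 μ2 : V → C} {x1 x2 : C} {Q1 Q2 : Finset V}
    (h1 : Hold G j1 k1 μ1 Q1 fun a => σ a x1) (h2 : Hold G j2 k2 μ2 Q2 fun a => σ' a x2)
    (hδ : (dif μ1 μ2).card ≤ δ) (hc : Compat G D D' μ1 μ2) (hx : x1 ≠ x2)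
    (b2 : ∀ p ∈ B', μ2 p = x1 → p ∈ Q2) (b1 : ∀ p ∈ B, μ1 p = x2 → p ∈ Q1)
    (n1 : δ + 1 ≤ k1) (n2 : δ + j1 + 1 ≤ k2) (n3 : δ + j1 + j2 ≤ K) : False := by
  obtain ⟨a1, m1, q1, d1, s1⟩ := h1 (insert x2 ((dif μ1 μ2).image μ2))
    ((card_insert_le _ _).trans (by have := card_image_le (s := dif μ1 μ2) (f := μ2); omega))
  obtain ⟨a2, m2, q2, d2, s2⟩ := h2
    (insert x1 ((dif μ1 μ2).image μ1 ∪ (dif μ1 a1).image a1))
    ((card_insert_le _ _).trans (by
      have := card_union_le ((dif μ1 μ2).image μ1) ((dif μ1 a1).image a1)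
      have := card_image_le (s := dif μ1 μ2) (f := μ1)
      have := card_image_le (s := dif μ1 a1) (f := a1)
      omega))
  refine h a1 a2 x1 x2 s1 s2 ?_ (fun p hp p' hp' hpp => ?_) hx (fun p hp e => ?_)
    (fun p hp e => ?_)
  · have := dif_card_le a1 μ1 a2
    have := dif_card_le μ1 μ2 a2
    rw [dif_comm] at d1
    omega
  · by_cases e2 : a2 p' = μ2 p'
    · rw [e2]
      by_cases e1 : a1 p = μ1 p
      · rw [e1]
        exact hc p hp p' hp' hpp
      · by_cases e3 : μ2 p' = μ1 p'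
        · rw [e3]
          exact (m1 p e1).2 p' hpp
        · exact fun e => (m1 p e1).1
            (mem_insert_of_mem (mem_image.2 ⟨p', mem_dif.2 e3, e.symm⟩))
    · intro e
      by_cases e1 : a1 p = μ1 p
      · by_cases e3 : μ2 p = μ1 p
        · exact (m2 p' e2).2 p hpp.symm (by rw [← e, e1, e3])
        · exact (m2 p' e2).1 (mem_insert_of_mem (mem_union_left _
            (mem_image.2 ⟨p, mem_dif.2 e3, e1.symm.trans e⟩)))
      · exact (m2 p' e2).1 (mem_insert_of_mem (mem_union_right _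
          (mem_image.2 ⟨p, mem_dif.2 e1, e⟩)))
  · by_cases e2 : a2 p = μ2 p
    · exact mem_dif.1 (q2 (b2 p hp (e2 ▸ e))) e2
    · exact (m2 p e2).1 (e ▸ mem_insert_self _ _)
  · by_cases e1 : a1 p = μ1 p
    · exact mem_dif.1 (q1 (b1 p hp (e1 ▸ e))) e1
    · exact (m1 p e1).1 (e ▸ mem_insert_self _ _)

/-- The closure of a disjoint system is disjoint. -/
theorem Disj.rr {K j k δ : ℕ} {ρ : (V → C) → C → Λ → Prop} (h : Disj G K ρ)
    (n2 : δ + j + 1 ≤ k) (n3 : δ + j + j ≤ K) : Disj G δ (RR G ρ j k) :=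
  fun l _ _ _ _ c1 c2 c3 c4 c5 c6 c7 =>
  hd (h l) c1 c2 c3 c4 c5 (fun p hp e => absurd e (c6 p hp)) (fun p hp e => absurd e (c7 p hp))
    (by omega) n2 n3

theorem card_Un_le (κ : V → C) : (Un κ).card ≤ Fintype.card C := card_le_univ _

/-- Exact size of a box inside a plane. -/
theorem card_Pl_box (κ : V → C) (Q : Finset V) (Y : V → Finset C) (hY : ∀ q ∈ Q, Y q ⊆ Un κ) :
    ((Pl κ Q).filter fun μ => ∀ q ∈ Q, μ q ∈ Y q).card = ∏ q ∈ Q, (Y q).card := by
  have : ((Pl κ Q).filter fun μ => ∀ q ∈ Q, μ q ∈ Y q) =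
      Fintype.piFinset fun p => if p ∈ Q then Y p else {κ p} := by
    ext μ
    simp only [mem_filter, mem_Pl, Fintype.mem_piFinset]
    constructor
    · rintro ⟨⟨-, h2⟩, h3⟩ p
      split_ifs with hp
      · exact h3 p hp
      · simp [h2 p hp]
    · intro h
      have h3 : ∀ q ∈ Q, μ q ∈ Y q := fun q hq => by simpa [hq] using h q
      exact ⟨⟨fun p hp => hY p hp (h3 p hp), fun p hp => by simpa [hp] using h p⟩, h3⟩
  rw [this, Fintype.card_piFinset]
  simp only [apply_ite Finset.card, card_singleton]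
  rw [prod_ite_mem, univ_inter]

theorem card_Pl (κ : V → C) (Q : Finset V) : (Pl κ Q).card = (Un κ).card ^ Q.card := by
  have := card_Pl_box κ Q (fun _ => Un κ) fun _ _ => Subset.rfl
  rw [filter_true_of_mem fun μ hμ => (mem_Pl.1 hμ).1, prod_const] at this
  exact this

/-- Upper bound for points of a plane with prescribed ranges on a subset of coordinates. -/
theorem card_Pl_restrict (κ : V → C) {Q T : Finset V} (hT : T ⊆ Q) (Y : V → Finset C) :
    ((Pl κ Q).filter fun μ => ∀ q ∈ T, μ q ∈ Y q).card * Fintype.card C ^ T.card ≤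
      (∏ q ∈ T, (Y q).card) * Fintype.card C ^ Q.card := by
  have h1 : ((Pl κ Q).filter fun μ => ∀ q ∈ T, μ q ∈ Y q) =
      (Pl κ Q).filter fun μ => ∀ q ∈ Q, μ q ∈ (if q ∈ T then Y q ∩ Un κ else Un κ) := by
    refine filter_congr fun μ hμ => ⟨fun h q hq => ?_, fun h q hq => ?_⟩
    · split_ifs with hq'
      · exact mem_inter.2 ⟨h q hq', (mem_Pl.1 hμ).1 q hq⟩
      · exact (mem_Pl.1 hμ).1 q hq
    · have := h q (hT hq)
      rw [if_pos hq] at this
      exact (mem_inter.1 this).1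
  rw [h1, card_Pl_box _ _ _ fun q _ => by split_ifs <;> simp,
    ← prod_sdiff hT, ← card_sdiff_add_card_eq_card hT, pow_add]
  have h2 : ∏ q ∈ Q \ T, (if q ∈ T then Y q ∩ Un κ else Un κ).card ≤
      Fintype.card C ^ (Q \ T).card := prod_le_pow_card _ _ _ fun q _ => card_le_univ _
  have h3 : ∏ q ∈ T, (if q ∈ T then Y q ∩ Un κ else Un κ).card ≤ ∏ q ∈ T, (Y q).card :=
    prod_le_prod' fun q hq => by rw [if_pos hq]; exact card_le_card inter_subset_left
  calc _ ≤ (Fintype.card C ^ (Q \ T).card * ∏ q ∈ T, (Y q).card) * Fintype.card C ^ T.card := by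
        gcongr
    _ = _ := by ring

theorem card_Pl_one (κ : V → C) {Q : Finset V} {q : V} (hq : q ∈ Q) (Y : Finset C) :
    ((Pl κ Q).filter fun μ => μ q ∈ Y).card * Fintype.card C ≤
      Y.card * Fintype.card C ^ Q.card := by
  simpa using card_Pl_restrict κ (singleton_subset_iff.2 hq) fun _ => Y

theorem card_Pl_hit (κ : V → C) (Q : Finset V) (Y : Finset C) :
    ((Pl κ Q).filter fun μ => ∃ q ∈ Q, μ q ∈ Y).card * Fintype.card C ≤
      Q.card * Y.card * Fintype.card C ^ Q.card := by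
  have h1 : ((Pl κ Q).filter fun μ => ∃ q ∈ Q, μ q ∈ Y) ⊆
      Q.biUnion fun q => (Pl κ Q).filter fun μ => μ q ∈ Y := by
    intro μ hμ
    obtain ⟨h1, q, hq, h2⟩ := mem_filter.1 hμ
    exact mem_biUnion.2 ⟨q, hq, mem_filter.2 ⟨h1, h2⟩⟩
  calc _ ≤ (∑ q ∈ Q, ((Pl κ Q).filter fun μ => μ q ∈ Y).card) * Fintype.card C := by
        gcongr
        exact (card_le_card h1).trans card_biUnion_le
    _ ≤ ∑ _q ∈ Q, Y.card * Fintype.card C ^ Q.card := by
        rw [sum_mul]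
        exact sum_le_sum fun q hq => card_Pl_one κ hq Y
    _ = _ := by rw [sum_const, smul_eq_mul, mul_assoc]

theorem card_Pl_two (κ : V → C) {Q : Finset V} {q q' : V} (hq : q ∈ Q) (hq' : q' ∈ Q)
    (hne : q ≠ q') (Y Y' : Finset C) :
    ((Pl κ Q).filter fun μ => μ q ∈ Y ∧ μ q' ∈ Y').card * Fintype.card C ^ 2 ≤
      Y.card * Y'.card * Fintype.card C ^ Q.card := by
  have := card_Pl_restrict κ (T := {q, q'}) (insert_subset hq (singleton_subset_iff.2 hq'))
    fun p => if p = q then Y else Y'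
  simpa [card_pair hne, prod_pair hne, hne.symm] using this

/-- Each point of a face of a plane lies below at most `card C` points of the plane. -/
theorem card_Pl_face (κ : V → C) {Q : Finset V} {q : V} (P : (V → C) → Prop) :
    ((Pl κ Q).filter fun μ => P (update μ q (κ q))).card ≤
      Fintype.card C * ((Pl κ (Q.erase q)).filter P).card := by
  refine card_le_mul_card_image_of_maps_to (f := fun μ => update μ q (κ q)) (fun μ hμ => ?_) _
    fun a _ => ?_
  · obtain ⟨h1, h2⟩ := mem_filter.1 hμ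
    refine mem_filter.2 ⟨mem_Pl.2 ⟨fun p hp => ?_, fun p hp => ?_⟩, h2⟩
    · rw [update_of_ne (mem_erase.1 hp).1]
      exact (mem_Pl.1 h1).1 p (mem_erase.1 hp).2
    · by_cases e : p = q
      · rw [e, update_self]
      · rw [update_of_ne e]
        exact (mem_Pl.1 h1).2 p fun h => hp (mem_erase.2 ⟨e, h⟩)
  · refine (card_le_card_of_injOn (fun μ => μ q) (fun _ _ => mem_univ _) ?_).trans_eq card_univ
    intro μ hμ μ' hμ' e
    have h1 := (mem_filter.1 hμ).2
    have h2 := (mem_filter.1 hμ').2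
    funext p
    by_cases hp : p = q
    · rw [hp]
      exact e
    · have := congrFun (h1.trans h2.symm) p
      simpa [update_of_ne hp] using this

theorem Pl_homes {c : C} (hκ : Proper G κ) (h : μ ∈ Pl κ (homes κ c)) :
    Proper G μ ∧ c ∈ Un μ := by
  obtain ⟨h1, h2⟩ := mem_Pl.1 h
  refine ⟨fun p p' hp => ?_, mem_Un.2 fun p => ?_⟩
  · by_cases e : p ∈ homes κ c <;> by_cases e' : p' ∈ homes κ c
    · exact absurd ((mem_homes.1 e).trans (mem_homes.1 e').symm) (hκ p p' hp)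
    · rw [h2 p' e']
      exact (mem_Un.1 (h1 p e) p').symm
    · rw [h2 p e]
      exact mem_Un.1 (h1 p' e') p
    · rw [h2 p e, h2 p' e']
      exact hκ p p' hp
  · by_cases e : p ∈ homes κ c
    · rw [← mem_homes.1 e]
      exact (mem_Un.1 (h1 p e) p).symm
    · rw [h2 p e]
      exact fun h => e (mem_homes.2 h)

theorem proper_update_Un {q : V} {z : C} (hκ : Proper G κ) (hz : z ∈ Un κ) :
    Proper G (update κ q z) := by
  intro p p' hp
  by_cases e : p = q <;> by_cases e' : p' = q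
  · exact absurd (e.trans e'.symm) hp.ne
  · rw [e, update_self, update_of_ne e']
    exact (mem_Un.1 hz p').symm
  · rw [e', update_self, update_of_ne e]
    exact mem_Un.1 hz p
  · rw [update_of_ne e, update_of_ne e']
    exact hκ p p' hp

/-- Among two large sets of keys there is a mutually non-attacking pair. -/
theorem exists_pair {X X' : Finset C} {A B : ℕ} (hX : B ≤ X.card) (hX' : B ≤ X'.card)
    (hB : 2 * A + 4 ≤ B) (At At' : C → Finset C) (h : ∀ c ∈ X, (At c).card ≤ A)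
    (h' : ∀ c ∈ X', (At' c).card ≤ A) (y y' : C) :
    ∃ c ∈ X, ∃ c' ∈ X', c ≠ c' ∧ c ≠ y ∧ c' ≠ y' ∧ c' ∉ At c ∧ c ∉ At' c' := by
  obtain ⟨X1, s1, c1⟩ := exists_subset_card_eq hX
  obtain ⟨X2, s2, c2⟩ := exists_subset_card_eq hX'
  by_contra hn
  push Not at hn
  have hsub : X1 ×ˢ X2 ⊆ (X1.biUnion fun c => (insert c (insert y' (At c))).image fun c' => (c, c'))
      ∪ X2.biUnion fun c' => (insert y (At' c')).image fun c => (c, c') := by
    rintro ⟨c, c'⟩ hc
    obtain ⟨hc, hc'⟩ := mem_product.1 hc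
    simp only [mem_union, mem_biUnion, mem_image, mem_insert, Prod.mk.injEq]
    by_cases e1 : c' = c ∨ c' = y' ∨ c' ∈ At c
    · exact Or.inl ⟨c, hc, c', e1, rfl, rfl⟩
    · push Not at e1
      refine Or.inr ⟨c', hc', c, ?_, rfl, rfl⟩
      by_cases e2 : c = y
      · exact Or.inl e2
      · exact Or.inr (hn c (s1 hc) c' (s2 hc') e1.1.symm e2 e1.2.1 e1.2.2)
  have h1 := (card_le_card hsub).trans (card_union_le _ _)
  have h2 := card_biUnion_le_card_mul X1
    (fun c => (insert c (insert y' (At c))).image fun c' => (c, c')) (A + 2) fun c hc =>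
      card_image_le.trans ((card_insert_le _ _).trans (by
        have := card_insert_le y' (At c); have := h c (s1 hc); omega))
  have h3 := card_biUnion_le_card_mul X2
    (fun c' => (insert y (At' c')).image fun c => (c, c')) (A + 1) fun c hc =>
      card_image_le.trans ((card_insert_le _ _).trans (by have := h' c (s2 hc); omega))
  rw [card_product, c1, c2] at h1
  rw [c1] at h2
  rw [c2] at h3
  clear * - A B C X1 y' At X2 y At' hB h1 h2 h3
  nlinarith only [hB, h1, h2, h3]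

/-- An intersecting family of arcs has at most three tails. -/
theorem three_keys (T : Finset (C × C))
    (h : ∀ a ∈ T, ∀ b ∈ T, a.1 = b.1 ∨ a.1 = b.2 ∨ b.1 = a.2) : (T.image Prod.fst).card ≤ 3 := by
  rcases T.eq_empty_or_nonempty with rfl | ⟨a, ha⟩
  · simp
  by_cases h1 : ∃ b ∈ T, b.1 ≠ a.1 ∧ b.1 ≠ a.2
  · obtain ⟨b, hb, b1, b2⟩ := h1
    refine (card_le_card (t := {a.1, a.2, b.1}) fun x hx => ?_).trans card_le_three
    obtain ⟨c, hc, rfl⟩ := mem_image.1 hx
    simp only [mem_insert, mem_singleton]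
    have := h a ha b hb
    have := h a ha c hc
    have := h b hb c hc
    grind
  · push Not at h1
    refine (card_le_card (t := {a.1, a.2}) fun x hx => ?_).trans (card_le_two.trans (by omega))
    obtain ⟨c, hc, rfl⟩ := mem_image.1 hx
    simp only [mem_insert, mem_singleton]
    have := h1 c hc
    grind

/-- Two proper colourings on a common line are compatible. -/
theorem compat_line {q : V} {a a' : C} (h : Proper G (update κ q a))
    (h' : Proper G (update κ q a')) :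
    Compat G Set.univ Set.univ (update κ q a) (update κ q a') := by
  intro p _ p' _ hp
  by_cases e : p = q
  · have e' : p' ≠ q := fun e' => hp.ne (e.trans e'.symm)
    have := h p p' hp
    rwa [update_of_ne e', ← update_of_ne e' a' κ] at this
  · have := h' p p' hp
    rwa [update_of_ne e, ← update_of_ne e a κ] at this

end basic

end Pool.Agent.Work.MP_418764_co.All
end

-- merged part: Pool.Agent.Work.MP_418764_co.AAL
section
namespace Pool.Agent.Work.MP_418764_co.All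
open Finset Function Classical

variable {V C Λ : Type} [Fintype V] [Fintype C] [Fintype Λ]

theorem own_sum {G : SimpleGraph V} {ρ : (V → C) → C → Λ → Prop} {KD J k : ℕ}
    (hD : Disj G KD ρ) {κ : V → C} (hκ : Proper G κ) (hk : J + 4 ≤ k) (hKD : 2 * J + 4 ≤ KD) :
    ∑ x ∈ Un κ, cnt (Own G ρ J k κ x) ≤ Fintype.card Λ := by
  have hR : Disj G 2 (RR G ρ (J + 1) k) := hD.rr (by omega) (by omega)
  unfold cnt
  rw [← card_biUnion]
  · exact card_le_univ _
  · intro x hx x' hx' hne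
    refine disjoint_left.2 fun l h1 h2 => ?_
    exact hd (δ := 0) (hR l) (mem_filter.1 h1).2 (mem_filter.1 h2).2 (by simp [dif_self])
      (fun p _ p' _ hp => hκ p p' hp) hne
      (fun p _ e => absurd e (mem_Un.1 (mem_coe.1 hx) p))
      (fun p _ e => absurd e (mem_Un.1 (mem_coe.1 hx') p)) (by omega) (by omega) (by omega)

/-- A label that is not owned floats for at most two colours. -/
theorem not_own {G : SimpleGraph V} {ρ : (V → C) → C → Λ → Prop} {J k : ℕ} {κ : V → C} {x : C}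
    {l : Λ} (h : ¬ Own G ρ J k κ x l) : ∃ Z : Finset C, Z.card ≤ 2 ∧ ∀ q, ∀ z ∈ Un κ,
      RR G ρ (J + 1) k (update κ q z) x l → z ∈ Z := by
  unfold Own Hold at h
  push Not at h
  obtain ⟨Z, hZ, h⟩ := h
  refine ⟨Z, hZ, fun q z hz hr => ?_⟩
  by_contra hzZ
  exact h (update κ q z) (Mv_update hzZ fun p' _ => (mem_Un.1 hz p').symm) (empty_subset _)
    (dif_update_card κ q z) hr

theorem AAL.line {G : SimpleGraph V} {ρ : (V → C) → C → Λ → Prop} {KD J k : ℕ}
    (hD : Disj G KD ρ) {κ : V → C} (hκ : Proper G κ) (hk : J + 4 ≤ k) (hKD : 2 * J + 4 ≤ KD)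
    (q : V) (l : Λ) :
    ((Un κ ×ˢ Un κ).filter fun a : C × C =>
      RR G ρ (J + 1) k (update κ q a.2) a.1 l ∧ ¬ Own G ρ J k κ a.1 l).card ≤ 6 := by
  have hR : Disj G 1 (RR G ρ (J + 1) k) := hD.rr (by omega) (by omega)
  set T := (Un κ ×ˢ Un κ).filter fun a : C × C =>
      RR G ρ (J + 1) k (update κ q a.2) a.1 l ∧ ¬ Own G ρ J k κ a.1 l with hT
  have h3 : (T.image Prod.fst).card ≤ 3 := by
    refine three_keys T fun a ha b hb => ?_
    obtain ⟨ha1, ha2, -⟩ := mem_filter.1 ha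
    obtain ⟨hb1, hb2, -⟩ := mem_filter.1 hb
    obtain ⟨a1, a2⟩ := mem_product.1 ha1
    obtain ⟨b1, b2⟩ := mem_product.1 hb1
    by_contra hn
    push Not at hn
    refine hR l _ _ _ _ ha2 hb2 ?_
      (compat_line (proper_update_Un hκ a2) (proper_update_Un hκ b2)) hn.1 (fun p _ => ?_)
      (fun p _ => ?_)
    · have := dif_update_card (update κ q a.2) q b.2
      rwa [update_idem] at this
    · by_cases e : p = q
      · rw [e, update_self]
        exact hn.2.1.symm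
      · rw [update_of_ne e]
        exact mem_Un.1 a1 p
    · by_cases e : p = q
      · rw [e, update_self]
        exact hn.2.2.symm
      · rw [update_of_ne e]
        exact mem_Un.1 b1 p
  have h2 : T.card ≤ 2 * (T.image Prod.fst).card := by
    refine card_le_mul_card_image T 2 fun x hx => ?_
    obtain ⟨a, ha, rfl⟩ := mem_image.1 hx
    obtain ⟨Z, hZ, hz⟩ := not_own (mem_filter.1 ha).2.2
    refine (card_le_card_of_injOn Prod.snd (fun b hb => ?_) fun b hb b' hb' e => ?_).trans hZ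
    · obtain ⟨hb1, hb2⟩ := mem_filter.1 (mem_coe.1 hb)
      obtain ⟨hb3, hb4, -⟩ := mem_filter.1 hb1
      exact mem_coe.2 (hz q b.2 (mem_product.1 hb3).2 (hb2 ▸ hb4))
    · exact Prod.ext ((mem_filter.1 (mem_coe.1 hb)).2.trans (mem_filter.1 (mem_coe.1 hb')).2.symm) e
  omega

theorem p2_sum {G : SimpleGraph V} {ρ : (V → C) → C → Λ → Prop} {KD J k : ℕ}
    (hD : Disj G KD ρ) {κ : V → C} (hκ : Proper G κ) (hk : J + 4 ≤ k) (hKD : 2 * J + 4 ≤ KD) :
    ∑ x ∈ Un κ, ∑ q, ∑ z ∈ Un κ,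
      cnt (fun l => RR G ρ (J + 1) k (update κ q z) x l ∧ ¬ Own G ρ J k κ x l) ≤
      6 * Fintype.card V * Fintype.card Λ := by
  rw [sum_comm]
  have key : ∀ q : V, ∑ x ∈ Un κ, ∑ z ∈ Un κ,
      cnt (fun l => RR G ρ (J + 1) k (update κ q z) x l ∧ ¬ Own G ρ J k κ x l) ≤
      6 * Fintype.card Λ := by
    intro q
    rw [← sum_product' (f := fun x z =>
      cnt (fun l => RR G ρ (J + 1) k (update κ q z) x l ∧ ¬ Own G ρ J k κ x l))]
    simp only [cnt, card_filter]
    rw [sum_comm]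
    calc _ ≤ ∑ _l : Λ, 6 := by
          refine sum_le_sum fun l _ => ?_
          have := AAL.line hD hκ hk hKD q l
          rw [card_filter] at this
          convert! this
      _ = _ := by simp [mul_comm]
  calc _ ≤ ∑ _q : V, 6 * Fintype.card Λ := sum_le_sum fun q _ => key q
    _ = _ := by simp only [sum_const, card_univ, smul_eq_mul]; ring

/-- A potential that never increases stabilises after boundedly many enlargements. -/
theorem AAL.stab (Φ : Finset V → ℕ) (N : ℕ) (hΦ : ∀ Q Q', Φ (Q ∪ Q') ≤ Φ Q) :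
    ∀ n : ℕ, ∀ Q0 : Finset V, Φ Q0 ≤ n → ∃ Q, Q0 ⊆ Q ∧ Q.card ≤ Q0.card + N * n ∧
      ∀ Q' : Finset V, Q'.card ≤ N → Φ (Q ∪ Q') = Φ Q := by
  intro n
  induction n with
  | zero =>
    intro Q0 h
    exact ⟨Q0, Subset.rfl, by omega, fun Q' _ => by have := hΦ Q0 Q'; omega⟩
  | succ n ih =>
    intro Q0 h
    by_cases h1 : ∀ Q' : Finset V, Q'.card ≤ N → Φ (Q0 ∪ Q') = Φ Q0
    · exact ⟨Q0, Subset.rfl, by omega, h1⟩
    · push Not at h1
      obtain ⟨Q', c1, c2⟩ := h1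
      have := hΦ Q0 Q'
      obtain ⟨Q, d1, d2, d3⟩ := ih (Q0 ∪ Q') (by omega)
      refine ⟨Q, subset_union_left.trans d1, ?_, d3⟩
      have := card_union_le Q0 Q'
      rw [mul_add]
      omega

theorem AAL.sum_div (s : Finset V) (f : V → ℕ) {t : ℕ} (ht : 0 < t) :
    ∑ q ∈ s, f q / t ≤ (∑ q ∈ s, f q) / t := by
  rw [Nat.le_div_iff_mul_le ht, sum_mul]
  exact sum_le_sum fun q _ => Nat.div_mul_le_self _ _

theorem AAL.Fl_anti {G : SimpleGraph V} {ρ : (V → C) → C → Λ → Prop} {J k : ℕ} {κ : V → C}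
    {x : C} (Q Q' : Finset V) (q : V) (z : C) :
    Fl G ρ J k κ x (Q ∪ Q') q z ⊆ Fl G ρ J k κ x Q q z := by
  intro l hl
  obtain ⟨-, h1, h2⟩ := mem_filter.1 hl
  exact mem_filter.2 ⟨mem_univ _, h1.mono le_rfl le_rfl
    (erase_subset_erase q subset_union_left) fun _ h => h, h2⟩

theorem AAL.few {G : SimpleGraph V} {J k : ℕ} {κ : V → C} {Q : Finset V} {q : V} (hq : q ∈ Q)
    {π : (V → C) → Prop} (h : ¬ Hold G (J + 1) k κ Q π) :
    ((Un κ).filter fun z => Hold G J (k + 1) (update κ q z) (Q.erase q) π).card ≤ k := by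
  unfold Hold at h
  push Not at h
  obtain ⟨Z, hZ, h⟩ := h
  refine (card_le_card fun z hz => ?_).trans hZ
  obtain ⟨hz1, hz2⟩ := mem_filter.1 hz
  by_contra hzZ
  have hd1 := dif_update_card κ q z
  obtain ⟨a, a1, a2, a3, a4⟩ := comp1 (Mv_update (G := G) (q := q) hzZ
    fun p' _ => (mem_Un.1 hz1 p').symm) hz2 (by omega)
  refine h a a1 (Subset.trans (fun p hp => ?_) a2) (by omega) a4
  by_cases e : p = q
  · refine mem_union_left _ (mem_dif.2 ?_)
    rw [e, update_self]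
    exact (mem_Un.1 hz1 q).symm
  · exact mem_union_right _ (mem_erase.2 ⟨e, hp⟩)

/-- The covering step of the allocation lemma. -/
theorem AAL.cover {G : SimpleGraph V} {ρ : (V → C) → C → Λ → Prop} {P h w J k K E : ℕ} {β : ℝ}
    {κ : V → C} {x : C} (hOwn : cnt (Own G ρ J k κ x) ≤ P) {Q : Finset V}
    (hVL : (((Pl κ Q).filter fun μ => ¬ Valid G ρ E w K μ x).card : ℝ)
      ≤ β * (Fintype.card C : ℝ) ^ Q.card)
    (hDP : (((Pl κ Q).filter (DPbad G ρ w J k K κ x Q)).card : ℝ)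
      ≤ β * (Fintype.card C : ℝ) ^ Q.card)
    (hh : P * k ≤ h)
    (hβ : 2 * β * (Fintype.card C : ℝ) ^ Q.card < ((h : ℝ) + 1 - P * k) ^ Q.card)
    (g : V → ℕ)
    (hg : ∀ q ∈ Q, h < ((Un κ).filter fun z => (Fl G ρ J k κ x Q q z).card < g q + 1).card) :
    E ≤ cnt (fun l => Hold G (J + 1) k κ Q fun a => ρ a x l) + ∑ q ∈ Q, g q := by
  set S : Finset Λ := univ.filter fun l => Own G ρ J k κ x l ∧
    ¬ Hold G (J + 1) k κ Q fun a => ρ a x l with hS
  have hSP : S.card ≤ P := by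
    refine le_trans (card_le_card fun l hl => ?_) hOwn
    exact mem_filter.2 ⟨mem_univ _, (mem_filter.1 hl).2.1⟩
  set Bad : V → Finset C := fun q => S.biUnion fun l => (Un κ).filter fun z =>
    Hold G J (k + 1) (update κ q z) (Q.erase q) fun a => ρ a x l with hBad
  have hB : ∀ q ∈ Q, (Bad q).card ≤ P * k := fun q hq =>
    (card_biUnion_le_card_mul _ _ k fun l hl => AAL.few hq (mem_filter.1 hl).2.2).trans
      (Nat.mul_le_mul_right k hSP)
  set Y : V → Finset C := fun q =>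
    ((Un κ).filter fun z => (Fl G ρ J k κ x Q q z).card < g q + 1) \ Bad q with hY
  have hYU : ∀ q ∈ Q, Y q ⊆ Un κ := fun q _ => sdiff_subset.trans (filter_subset _ _)
  have hYc : ∀ q ∈ Q, (h : ℝ) + 1 - P * k ≤ (Y q).card := by
    clear * - V Q C Λ G ρ J k κ x g Bad P hB h hg Y hY
    intro q hq
    have h1 := le_card_sdiff (Bad q)
      ((Un κ).filter fun z => (Fl G ρ J k κ x Q q z).card < g q + 1)
    have h2 := hB q hq
    have h3 := hg q hq
    have h4 : h + 1 ≤ (Y q).card + P * k := by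
      simp only [hY]
      omega
    have h5 : ((h + 1 : ℕ) : ℝ) ≤ (((Y q).card + P * k : ℕ) : ℝ) := Nat.cast_le.2 h4
    push_cast at h5
    linarith only [h5]
  have hpos : (0 : ℝ) ≤ (h : ℝ) + 1 - P * k := by
    have h5 : ((P * k : ℕ) : ℝ) ≤ (h : ℝ) := Nat.cast_le.2 hh
    push_cast at h5
    linarith only [h5]
  have hbox : ((h : ℝ) + 1 - P * k) ^ Q.card ≤
      (((Pl κ Q).filter fun μ => ∀ q ∈ Q, μ q ∈ Y q).card : ℝ) := by
    rw [card_Pl_box κ Q Y hYU, Nat.cast_prod, ← prod_const]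
    exact prod_le_prod (fun _ _ => hpos) hYc
  have hex : ∃ μ ∈ Pl κ Q, (∀ q ∈ Q, μ q ∈ Y q) ∧ Valid G ρ E w K μ x ∧
      ¬ DPbad G ρ w J k K κ x Q μ := by
    clear * - V C κ Q Y Λ G ρ E w K x J k β h P hVL hDP hβ hbox
    by_contra hn
    push Not at hn
    have hsub : ((Pl κ Q).filter fun μ => ∀ q ∈ Q, μ q ∈ Y q) ⊆
        ((Pl κ Q).filter fun μ => ¬ Valid G ρ E w K μ x) ∪
          (Pl κ Q).filter (DPbad G ρ w J k K κ x Q) := by
      intro μ hμ
      obtain ⟨m1, m2⟩ := mem_filter.1 hμ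
      by_cases hv : Valid G ρ E w K μ x
      · exact mem_union_right _ (mem_filter.2 ⟨m1, hn μ m1 m2 hv⟩)
      · exact mem_union_left _ (mem_filter.2 ⟨m1, hv⟩)
    have h1 := (card_le_card hsub).trans (card_union_le _ _)
    have h2 : ((((Pl κ Q).filter fun μ => ∀ q ∈ Q, μ q ∈ Y q).card : ℕ) : ℝ) ≤
        ((((Pl κ Q).filter fun μ => ¬ Valid G ρ E w K μ x).card +
          ((Pl κ Q).filter (DPbad G ρ w J k K κ x Q)).card : ℕ) : ℝ) := Nat.cast_le.2 h1
    push_cast at h2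
    linarith only [hVL, hDP, hβ, hbox, h2]
  obtain ⟨μ, -, m2, m3, m4⟩ := hex
  have hsub : (univ.filter (RR G ρ w K μ x)) ⊆
      (univ.filter fun l => Hold G (J + 1) k κ Q fun a => ρ a x l) ∪
        Q.biUnion fun q => Fl G ρ J k κ x Q q (μ q) := by
    intro l hl
    by_cases h1 : Hold G (J + 1) k κ Q fun a => ρ a x l
    · exact mem_union_left _ (mem_filter.2 ⟨mem_univ _, h1⟩)
    · refine mem_union_right _ ?_
      have h2 : ∃ q ∈ Q, Hold G J (k + 1) (update κ q (μ q)) (Q.erase q) fun a => ρ a x l := by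
        by_contra h3
        push Not at h3
        exact m4 ⟨l, (mem_filter.1 hl).2, h1, h3⟩
      obtain ⟨q, hq, h2⟩ := h2
      refine mem_biUnion.2 ⟨q, hq, mem_filter.2 ⟨mem_univ _, h2, fun ho => ?_⟩⟩
      exact (mem_sdiff.1 (m2 q hq)).2 (mem_biUnion.2 ⟨l, mem_filter.2 ⟨mem_univ _, ho, h1⟩,
        mem_filter.2 ⟨hYU q hq (m2 q hq), h2⟩⟩)
  have h1 := (card_le_card hsub).trans (card_union_le _ _)
  have h2 : (Q.biUnion fun q => Fl G ρ J k κ x Q q (μ q)).card ≤ ∑ q ∈ Q, g q :=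
    card_biUnion_le.trans (sum_le_sum fun q hq =>
      Nat.lt_succ_iff.1 (mem_filter.1 (mem_sdiff.1 (m2 q hq)).1).2)
  have h3 : E ≤ (univ.filter (RR G ρ w K μ x)).card := m3.2.2
  unfold cnt
  omega

/-- Allocation lemma. -/
theorem alloc {G : SimpleGraph V} {ρ : (V → C) → C → Λ → Prop} {N P P2 h t w J k K E : ℕ} {β : ℝ}
    {κ : V → C} {x : C} (hOwn : cnt (Own G ρ J k κ x) ≤ P)
    (hP2 : ∑ q, ∑ z ∈ Un κ,
      cnt (fun l => RR G ρ (J + 1) k (update κ q z) x l ∧ ¬ Own G ρ J k κ x l) ≤ P2)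
    (hVL : ∀ Q : Finset V, Q.card ≤ w → (((Pl κ Q).filter fun μ => ¬ Valid G ρ E w K μ x).card : ℝ)
      ≤ β * (Fintype.card C : ℝ) ^ Q.card)
    (hDP : ∀ Q : Finset V, Q.card ≤ w → (((Pl κ Q).filter (DPbad G ρ w J k K κ x Q)).card : ℝ)
      ≤ β * (Fintype.card C : ℝ) ^ Q.card)
    (ht : 0 < t) (hw : N * (P + P2 / t + 1) ≤ w) (hh : P * k ≤ h)
    (hβ : ∀ s ≤ w, 2 * β * (Fintype.card C : ℝ) ^ s < ((h : ℝ) + 1 - P * k) ^ s)
    (Q0 : Finset V) (hQ0 : Q0.card ≤ N) :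
    ∃ (Q : Finset V) (g : V → ℕ), Q0 ⊆ Q ∧
      E ≤ cnt (fun l => Hold G (J + 1) k κ Q fun a => ρ a x l) + ∑ q ∈ Q, g q ∧
      (∀ l, Hold G (J + 1) k κ Q (fun a => ρ a x l) → ∀ Q' : Finset V, Q'.card ≤ N →
        Hold G (J + 1) k κ (Q ∪ Q') fun a => ρ a x l) ∧
      (∀ q, g q ≤ E ∧ ((Un κ).filter fun z => (Fl G ρ J k κ x Q q z).card < g q).card ≤ h) ∧
      ∀ q, ∀ Q' : Finset V, Q'.card ≤ N →
        ∑ z ∈ Un κ, (Fl G ρ J k κ x Q q z \ Fl G ρ J k κ x (Q ∪ Q') q z).card < t := by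
  set H : Finset V → Finset Λ := fun Q =>
    univ.filter fun l => Hold G (J + 1) k κ Q fun a => ρ a x l with hH
  set Ψ : Finset V → V → ℕ := fun Q q => ∑ z ∈ Un κ, (Fl G ρ J k κ x Q q z).card with hΨ
  have aH : ∀ Q Q', H (Q ∪ Q') ⊆ H Q := fun Q Q' l hl => mem_filter.2 ⟨mem_univ _,
    (mem_filter.1 hl).2.mono le_rfl le_rfl subset_union_left fun _ h => h⟩
  have aΨ : ∀ Q Q' q, Ψ (Q ∪ Q') q ≤ Ψ Q q := fun Q Q' q =>
    sum_le_sum fun z _ => card_le_card (AAL.Fl_anti Q Q' q z)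
  have aΨt : ∀ Q Q' q, Ψ (Q ∪ Q') q / t ≤ Ψ Q q / t := fun Q Q' q =>
    Nat.div_le_div_right (aΨ Q Q' q)
  have h0 : (H Q0).card + ∑ q, Ψ Q0 q / t ≤ P + P2 / t := by
    refine Nat.add_le_add (le_trans (card_le_card fun l hl => ?_) hOwn) ?_
    · exact mem_filter.2 ⟨mem_univ _, Hold.of_self
        ((mem_filter.1 hl).2.mono le_rfl le_rfl (empty_subset _) fun _ h => h)⟩
    · refine (AAL.sum_div _ _ ht).trans (Nat.div_le_div_right (le_trans ?_ hP2))
      refine sum_le_sum fun q _ => sum_le_sum fun z _ => card_le_card fun l hl => ?_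
      obtain ⟨-, h1, h2⟩ := mem_filter.1 hl
      simp only [mem_filter, mem_univ, true_and]
      exact ⟨h1.mono (by omega) (by omega) (empty_subset _) fun _ h => h, h2⟩
  obtain ⟨Q, q1, q2, q3⟩ := AAL.stab (fun Q => (H Q).card + ∑ q, Ψ Q q / t) N
    (fun Q Q' => Nat.add_le_add (card_le_card (aH Q Q')) (sum_le_sum fun q _ => aΨt Q Q' q))
    _ Q0 h0
  have hQw : Q.card ≤ w := by
    rw [mul_add, mul_one] at hw
    omega
  have e1 : ∀ Q' : Finset V, Q'.card ≤ N → (H (Q ∪ Q')).card = (H Q).card ∧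
      ∑ q, Ψ (Q ∪ Q') q / t = ∑ q, Ψ Q q / t := by
    intro Q' hQ'
    have h1 := q3 Q' hQ'
    have h2 := card_le_card (aH Q Q')
    have h3 : ∑ q, Ψ (Q ∪ Q') q / t ≤ ∑ q, Ψ Q q / t := sum_le_sum fun q _ => aΨt Q Q' q
    omega
  set g : V → ℕ := fun q => Nat.findGreatest
    (fun g => ((Un κ).filter fun z => (Fl G ρ J k κ x Q q z).card < g).card ≤ h) E with hg
  refine ⟨Q, g, q1, ?_, fun l hl Q' hQ' => ?_, fun q => ⟨Nat.findGreatest_le E, ?_⟩,
    fun q Q' hQ' => ?_⟩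
  · by_cases hE : ∃ q ∈ Q, g q = E
    · obtain ⟨q, hq, e⟩ := hE
      have := single_le_sum (f := g) (fun _ _ => Nat.zero_le _) hq
      omega
    · push Not at hE
      refine AAL.cover hOwn (hVL Q hQw) (hDP Q hQw) hh (hβ _ hQw) g fun q hq => ?_
      have h1 : g q ≤ E := Nat.findGreatest_le E
      have h2 := hE q hq
      exact not_le.1 (Nat.findGreatest_is_greatest (P := fun g =>
        ((Un κ).filter fun z => (Fl G ρ J k κ x Q q z).card < g).card ≤ h) (k := g q + 1) (n := E)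
        (Nat.lt_succ_self _) (by omega))
  · have h1 : H (Q ∪ Q') = H Q := eq_of_subset_of_card_le (aH Q Q') (e1 Q' hQ').1.ge
    have h2 : l ∈ H Q := mem_filter.2 ⟨mem_univ _, hl⟩
    rw [← h1] at h2
    exact (mem_filter.1 h2).2
  · exact Nat.findGreatest_spec (P := fun g =>
      ((Un κ).filter fun z => (Fl G ρ J k κ x Q q z).card < g).card ≤ h) (m := 0)
      (Nat.zero_le E) (by simp)
  · have h1 : Ψ (Q ∪ Q') q / t = Ψ Q q / t :=
      (sum_eq_sum_iff_of_le fun q _ => aΨt Q Q' q).1 (e1 Q' hQ').2 q (mem_univ q)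
    have h2 : ∑ z ∈ Un κ, (Fl G ρ J k κ x Q q z \ Fl G ρ J k κ x (Q ∪ Q') q z).card +
        Ψ (Q ∪ Q') q = Ψ Q q := by
      simp only [hΨ]
      rw [← sum_add_distrib]
      exact sum_congr rfl fun z _ => card_sdiff_add_card_eq_card (AAL.Fl_anti Q Q' q z)
    have h3 := Nat.div_add_mod (Ψ (Q ∪ Q') q) t
    have h4 := Nat.div_add_mod (Ψ Q q) t
    have h5 := Nat.mod_lt (Ψ Q q) ht
    rw [h1] at h3
    omega

end Pool.Agent.Work.MP_418764_co.All
end

-- merged part: Pool.Agent.Work.MP_418764_co.ACnt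
section
namespace Pool.Agent.Work.MP_418764_co.All
open Finset Function Classical

variable {V C Λ : Type} [Fintype V] [Fintype C] [Fintype Λ]

omit [Fintype Λ] in
theorem ACnt.h2 {G : SimpleGraph V} {ρ : (V → C) → C → Λ → Prop} {KD J k : ℕ}
    (hD : Disj G KD ρ) {κ : V → C} (hκ : Proper G κ) (hk : J + 4 ≤ k) (hKD : 2 * J + 2 ≤ KD)
    {c c' z z' : C} {q q' : V} {l : Λ} (hc : c ≠ c') (h1 : NA G ρ J k κ c q z l c')
    (h2 : NA G ρ J k κ c' q' z' l c) (hz : z ∈ Un κ) (hz' : z' ∈ Un κ) (e1 : z ≠ c')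
    (e2 : z' ≠ c) (e3 : q = q' ∨ z ≠ z') : False := by
  refine hd (hD l) (δ := 2) h1 h2 ?_ (fun p _ p' _ hp => ?_) hc (fun p _ e => ?_)
    (fun p _ e => ?_) (by omega) (by omega) (by omega)
  · have k1 := dif_card_le (update κ q z) κ (update κ q' z')
    have k2 := dif_update_card κ q z
    have k3 := dif_update_card κ q' z'
    rw [dif_comm] at k2
    omega
  · by_cases e : p = q <;> by_cases e' : p' = q'
    · rw [e, e', update_self, update_self]
      exact e3.resolve_left fun h => hp.ne (e.trans (h.trans e'.symm))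
    · rw [e, update_self, update_of_ne e']
      exact (mem_Un.1 hz p').symm
    · rw [e', update_self, update_of_ne e]
      exact mem_Un.1 hz' p
    · rw [update_of_ne e, update_of_ne e']
      exact hκ p p' hp
  · by_cases e' : p = q'
    · rw [e', update_self] at e
      exact absurd e e2
    · rw [update_of_ne e'] at e
      exact mem_erase.2 ⟨e', mem_union_right _ (mem_homes.2 e)⟩
  · by_cases e' : p = q
    · rw [e', update_self] at e
      exact absurd e e1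
    · rw [update_of_ne e'] at e
      exact mem_erase.2 ⟨e', mem_union_right _ (mem_homes.2 e)⟩

omit [Fintype Λ] in
theorem ACnt.sum_le_of_disj {ι : Type} (Y : Finset ι) (T : ι → Finset Λ) (W : Finset Λ)
    (h : ∀ c ∈ Y, ∀ c' ∈ Y, c ≠ c' → ∀ l ∈ T c, l ∉ T c') (hW : ∀ c ∈ Y, T c ⊆ W) :
    ∑ c ∈ Y, (T c).card ≤ W.card := by
  rw [← card_biUnion fun c hc c' hc' hne => disjoint_left.2 (h c hc c' hc' hne)]
  exact card_le_card (biUnion_subset.2 hW)

omit [Fintype Λ] [Fintype C] in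
/-- Pairs attacked by some element of `Y`. -/
theorem ACnt.attacked (U Y : Finset C) (F : C → Finset Λ) (R : C → Λ → C → Prop) {t : ℕ}
    (a5 : ∀ b, ∑ z ∈ U, ((F z).filter fun l => ¬ R z l b).card ≤ t) :
    ∑ z ∈ U, ∑ l ∈ F z, (Y.filter fun b => ¬ R z l b).card ≤ Y.card * t := by
  have h : ∑ z ∈ U, ∑ l ∈ F z, (Y.filter fun b => ¬ R z l b).card =
      ∑ b ∈ Y, ∑ z ∈ U, ((F z).filter fun l => ¬ R z l b).card := by
    simp only [card_filter]
    rw [sum_comm (s := Y)]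
    exact sum_congr rfl fun z _ => sum_comm
  rw [h]
  exact (sum_le_sum fun b _ => a5 b).trans (by simp)

omit [Fintype V] [Fintype C] in
theorem ACnt.keys_le {U Y : Finset C} {FL : C → C → Finset Λ} {R : C → C → Λ → C → Prop}
    {g : C → ℕ} {h t : ℕ}
    (h2 : ∀ c c' z z' l, c ≠ c' → R c z l c' → R c' z' l c → z ∈ U → z' ∈ U → z ≠ c' → z' ≠ c →
      False)
    (a3 : ∀ c ∈ Y, 1 ≤ g c ∧ (U.filter fun z => (FL c z).card < g c).card ≤ h)
    (a4 : ∀ c ∈ Y, ∀ l, ∃ Z : Finset C, Z.card ≤ 2 ∧ ∀ z, l ∈ FL c z → z ∈ Z)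
    (a5 : ∀ c ∈ Y, ∀ b, ∑ z ∈ U, ((FL c z).filter fun l => ¬ R c z l b).card ≤ t) :
    Y.card * U.card ≤ 2 * Fintype.card Λ + Y.card * (h + Y.card + Y.card * t) := by
  let T : C → Finset Λ := fun c =>
    univ.filter fun l => ∃ z ∈ U, z ∉ Y ∧ l ∈ FL c z ∧ ∀ b ∈ Y, R c z l b
  have k1 : ∑ c ∈ Y, (T c).card ≤ Fintype.card Λ :=
    ACnt.sum_le_of_disj Y T univ (fun c hc c' hc' hne l hl hl' => by
      obtain ⟨z, z1, z2, -, z4⟩ := (mem_filter.1 hl).2
      obtain ⟨z', z1', z2', -, z4'⟩ := (mem_filter.1 hl').2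
      exact h2 c c' z z' l hne (z4 c' hc') (z4' c hc) z1 z1' (fun e => z2 (e ▸ hc'))
        fun e => z2' (e ▸ hc)) fun _ _ => subset_univ _
  have k2 : ∀ c ∈ Y, U.card ≤ 2 * (T c).card + (h + Y.card + Y.card * t) := fun c hc => by
    choose Z hZ hZ' using a4 c hc
    have m1 : U ⊆ (T c).biUnion Z ∪ ((U.filter fun z => (FL c z).card < g c) ∪ Y ∪
        U.filter fun z => 1 ≤ ∑ l ∈ FL c z, (Y.filter fun b => ¬ R c z l b).card) := by
      intro z hz
      simp only [mem_union, mem_filter, mem_biUnion]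
      by_contra hn
      push Not at hn
      obtain ⟨n1, ⟨n2, n3⟩, n4⟩ := hn
      obtain ⟨l, hl⟩ := card_pos.1 ((a3 c hc).1.trans (n2 hz))
      have n5 := sum_eq_zero_iff.1 (Nat.lt_one_iff.1 (n4 hz)) l hl
      refine n1 l (mem_filter.2 ⟨mem_univ _, z, hz, n3, hl, fun b hb => ?_⟩) (hZ' l z hl)
      by_contra n6
      exact absurd (mem_filter.2 ⟨hb, n6⟩) (card_eq_zero.1 n5 ▸ notMem_empty b)
    have m2 := card_biUnion_le_card_mul (T c) Z 2 fun l _ => hZ l
    have m3 : (U.filter fun z => 1 ≤ ∑ l ∈ FL c z, (Y.filter fun b => ¬ R c z l b).card).card ≤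
        Y.card * t := by
      refine le_trans ?_ (ACnt.attacked U Y (FL c) (R c) (a5 c hc))
      rw [card_filter]
      exact sum_le_sum fun z _ => by split_ifs <;> omega
    have m4 := (card_le_card m1).trans ((card_union_le _ _).trans (Nat.add_le_add_left
      ((card_union_le _ _).trans (Nat.add_le_add_right (card_union_le _ _) _)) _))
    have := (a3 c hc).2
    omega
  have k3 := sum_le_sum k2
  rw [sum_add_distrib, ← mul_sum, sum_const, sum_const, smul_eq_mul, smul_eq_mul] at k3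
  omega

omit [Fintype V] [Fintype Λ] [Fintype C] in
theorem ACnt.square {S : Finset C} (z : C → C) (At : C → Finset C) {M A : ℕ}
    (h1 : ∀ c ∈ S, (S.filter fun c' => z c' = z c).card ≤ M) (h2 : ∀ c ∈ S, (At c).card ≤ A)
    (h : ∀ c ∈ S, ∀ c' ∈ S, z c' = z c ∨ c = z c' ∨ c' = z c ∨ c' ∈ At c ∨ c ∈ At c') :
    S.card ≤ M + 2 * A + 2 := by
  have hsub : S ×ˢ S ⊆ (S.biUnion fun c =>
      ((S.filter fun c' => z c' = z c) ∪ insert (z c) (At c)).image fun c' => (c, c')) ∪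
      S.biUnion fun c' => (insert (z c') (At c')).image fun c => (c, c') := by
    rintro ⟨c, c'⟩ hc
    obtain ⟨hc, hc'⟩ := mem_product.1 hc
    simp only [mem_union, mem_biUnion, mem_image, mem_insert, mem_filter, Prod.mk.injEq]
    rcases h c hc c' hc' with e | e | e | e | e
    · exact Or.inl ⟨c, hc, c', Or.inl ⟨hc', e⟩, rfl, rfl⟩
    · exact Or.inr ⟨c', hc', c, Or.inl e, rfl, rfl⟩
    · exact Or.inl ⟨c, hc, c', Or.inr (Or.inl e), rfl, rfl⟩
    · exact Or.inl ⟨c, hc, c', Or.inr (Or.inr e), rfl, rfl⟩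
    · exact Or.inr ⟨c', hc', c, Or.inr e, rfl, rfl⟩
  have k1 := (card_le_card hsub).trans (card_union_le _ _)
  have k2 := card_biUnion_le_card_mul S (fun c =>
    ((S.filter fun c' => z c' = z c) ∪ insert (z c) (At c)).image fun c' => (c, c')) (M + (A + 1))
    fun c hc => card_image_le.trans ((card_union_le _ _).trans (Nat.add_le_add (h1 c hc)
      ((card_insert_le _ _).trans (Nat.add_le_add_right (h2 c hc) 1))))
  have k3 := card_biUnion_le_card_mul S
    (fun c' => (insert (z c') (At c')).image fun c => (c, c')) (A + 1) fun c hc =>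
      card_image_le.trans ((card_insert_le _ _).trans (Nat.add_le_add_right (h2 c hc) 1))
  rw [card_product] at k1
  rcases Nat.eq_zero_or_pos S.card with h0 | h0
  · omega
  · exact Nat.le_of_mul_le_mul_left (by linarith only [k1, k2, k3]) h0

/-- The abstract count. -/
theorem ACnt.main {fib : V → ℤ} {A B E m N P3 h t L : ℕ} {U : Finset C}
    {R : C → V → C → Λ → C → Prop} {S : ℤ → C → Λ → Prop}
    (h2 : ∀ c c' q q' z z' l, c ≠ c' → R c q z l c' → R c' q' z' l c → z ∈ U → z' ∈ U → z ≠ c' →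
      z' ≠ c → q = q' ∨ z ≠ z' → False)
    (hS : ∀ F, ∀ z ∈ U, ∀ l, ∀ X : Finset C, B ≤ X.card → (∀ c ∈ X, ∃ q, fib q = F ∧
      (univ.filter fun b => ¬ R c q z l b).card ≤ A) → S F z l)
    (hm : ∀ F, (univ.filter fun q => fib q = F).card ≤ m) (hN : (univ.image fib).card ≤ N)
    (Gd : Finset C) (H : C → Finset Λ) (Sig : C → Finset V) (g : C → V → ℕ)
    (FL : C → V → C → Finset Λ)
    (a1 : ∀ c ∈ Gd, E ≤ (H c).card + ∑ q ∈ Sig c, g c q)
    (a2 : ∑ c ∈ Gd, (H c).card ≤ Fintype.card Λ)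
    (a3 : ∀ c ∈ Gd, (Sig c).card ≤ P3 ∧ ∀ q ∈ Sig c, 1 ≤ g c q ∧ g c q ≤ E ∧
      (U.filter fun z => (FL c q z).card < g c q).card ≤ h)
    (a4 : ∀ c ∈ Gd, ∀ l, ∃ Z : Finset C, Z.card ≤ 2 ∧ ∀ q z, l ∈ FL c q z → z ∈ Z)
    (a5 : ∀ c ∈ Gd, ∀ q ∈ Sig c, ∀ b,
      ∑ z ∈ U, ((FL c q z).filter fun l => ¬ R c q z l b).card ≤ t)
    (a6 : ∀ c ∈ Gd, ∀ q z l, l ∈ FL c q z → z ≠ c)
    (hL : 2 * Fintype.card Λ + (L + 1) * (h + (L + 1) + (L + 1) * t) < (L + 1) * U.card) :
    ∃ loss : C → ℕ,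
      (∀ z ∈ U, E * Gd.card ≤ Fintype.card Λ + m * ∑ F ∈ univ.image fib, cnt (S F z) + loss z) ∧
      (∑ z ∈ U, loss z) * (A + 1) ≤
        Fintype.card C * P3 * ((E * h + L * t) * (A + 1) + Fintype.card C * t) +
        2 * P3 * (N * B + 2 * A + 2) * Fintype.card Λ * (A + 1) := by
  have hK : ∀ q, (Gd.filter fun c => q ∈ Sig c).card ≤ L := fun q => by
    by_contra hn
    obtain ⟨Y, hY, hc⟩ := exists_subset_card_eq (Nat.succ_le_of_lt (not_le.1 hn))
    have k := ACnt.keys_le (U := U) (Y := Y) (FL := fun c => FL c q) (R := fun c => R c q)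
      (g := fun c => g c q) (h := h) (t := t)
      (fun c c' z z' l e1 e2 e3 e4 e5 e6 e7 => h2 c c' q q z z' l e1 e2 e3 e4 e5 e6 e7 (Or.inl rfl))
      (fun c hc => have := (a3 c (mem_filter.1 (hY hc)).1).2 q (mem_filter.1 (hY hc)).2
        ⟨this.1, this.2.2⟩)
      (fun c hc l => have ⟨Z, z1, z2⟩ := a4 c (mem_filter.1 (hY hc)).1 l
        ⟨Z, z1, z2 q⟩)
      fun c hc => a5 c (mem_filter.1 (hY hc)).1 q (mem_filter.1 (hY hc)).2
    rw [hc] at k
    exact absurd hL (not_lt.2 k)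
  obtain ⟨GI, hGI⟩ : ∃ GI : C → V → C → Λ → Prop, ∀ c q z l, GI c q z l ↔
      (univ.filter fun b => ¬ R c q z l b).card ≤ A ∧ ∀ b ∈ Gd, q ∈ Sig b → R c q z l b :=
    ⟨_, fun _ _ _ _ => Iff.rfl⟩
  refine ⟨fun z => ∑ c ∈ Gd, ∑ q ∈ Sig c, ((if (FL c q z).card < g c q then E else 0) +
    ((FL c q z).filter fun l => ¬ GI c q z l).card +
    ((FL c q z).filter fun l => GI c q z l ∧ ¬ S (fib q) z l).card), fun z hz => ?_, ?_⟩
  · have k1 : ∑ c ∈ Gd, ∑ q ∈ Sig c, ((FL c q z).filter fun l => GI c q z l ∧ S (fib q) z l).card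
        ≤ m * ∑ F ∈ univ.image fib, cnt (S F z) := by
      rw [sum_comm' (t' := univ) (s' := fun q => Gd.filter fun c => q ∈ Sig c) (by simp)]
      refine (sum_le_sum fun q _ => ACnt.sum_le_of_disj _ _ (univ.filter (S (fib q) z))
        (fun c hc c' hc' hne l hl hl' => ?_) fun c _ l hl => ?_).trans ?_
      · obtain ⟨c1, c2⟩ := mem_filter.1 hc
        obtain ⟨c1', c2'⟩ := mem_filter.1 hc'
        obtain ⟨l1, l2, -⟩ := mem_filter.1 hl
        obtain ⟨l1', l2', -⟩ := mem_filter.1 hl'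
        exact h2 c c' q q z z l hne (((hGI _ _ _ _).1 l2).2 c' c1' c2')
          (((hGI _ _ _ _).1 l2').2 c c1 c2) hz hz (a6 c' c1' q z l l1') (a6 c c1 q z l l1)
          (Or.inl rfl)
      · exact mem_filter.2 ⟨mem_univ _, (mem_filter.1 hl).2.2⟩
      · rw [sum_comp (fun F => (univ.filter (S F z)).card) fib, mul_sum]
        exact sum_le_sum fun F _ => Nat.mul_le_mul_right _ (hm F)
    have k2 : ∀ c ∈ Gd, ∀ q ∈ Sig c, g c q ≤
        ((FL c q z).filter fun l => GI c q z l ∧ S (fib q) z l).card +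
        ((if (FL c q z).card < g c q then E else 0) +
        ((FL c q z).filter fun l => ¬ GI c q z l).card +
        ((FL c q z).filter fun l => GI c q z l ∧ ¬ S (fib q) z l).card) := fun c hc q hq => by
      have m1 := card_filter_add_card_filter_not (s := FL c q z) (GI c q z)
      have m2 := card_filter_add_card_filter_not (s := (FL c q z).filter (GI c q z))
        (S (fib q) z)
      rw [filter_filter, filter_filter] at m2
      have := ((a3 c hc).2 q hq).2.1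
      split_ifs <;> omega
    have k3 := sum_le_sum fun c hc => (a1 c hc).trans
      (Nat.add_le_add_left (sum_le_sum (k2 c hc)) _)
    simp only [sum_add_distrib, sum_const, smul_eq_mul] at k3 ⊢
    rw [mul_comm]
    omega
  · have k1 : ∀ c ∈ Gd, ∀ q ∈ Sig c,
        ∑ z ∈ U, (if (FL c q z).card < g c q then E else 0) ≤ E * h := fun c hc q hq => by
      rw [← sum_filter, sum_const, smul_eq_mul, mul_comm]
      exact Nat.mul_le_mul_left _ ((a3 c hc).2 q hq).2.2
    have k2 : ∀ c ∈ Gd, ∀ q ∈ Sig c,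
        (∑ z ∈ U, ((FL c q z).filter fun l => ¬ GI c q z l).card) * (A + 1) ≤
          L * t * (A + 1) + Fintype.card C * t := fun c hc q hq => by
      have m1 := ACnt.attacked U univ (FL c q) (R c q) (a5 c hc q hq)
      have m2 := (ACnt.attacked U (Gd.filter fun c => q ∈ Sig c) (FL c q) (R c q)
        (a5 c hc q hq)).trans (Nat.mul_le_mul_right _ (hK q))
      refine le_trans ?_ (Nat.add_le_add (Nat.mul_le_mul_right _ m2) m1)
      rw [sum_mul, sum_mul, ← sum_add_distrib]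
      refine sum_le_sum fun z _ => ?_
      rw [card_filter, sum_mul, sum_mul, ← sum_add_distrib]
      refine sum_le_sum fun l _ => ?_
      split_ifs with e
      · omega
      rw [hGI, not_and_or] at e
      rcases e with e | e
      · omega
      · push Not at e
        obtain ⟨b, b1, b2, b3⟩ := e
        have := card_pos.2 ⟨b, (mem_filter (p := fun b => ¬ R c q z l b)).2
          ⟨(mem_filter (p := fun c => q ∈ Sig c)).2 ⟨b1, b2⟩, b3⟩⟩
        exact le_add_right (Nat.mul_le_mul_right _ this)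
    have k3 : ∀ l, ∑ c ∈ Gd, ∑ q ∈ Sig c,
        (U.filter fun z => l ∈ FL c q z ∧ GI c q z l ∧ ¬ S (fib q) z l).card ≤
          2 * P3 * (N * B + 2 * A + 2) := fun l => by
      clear * - V C Gd Sig Λ FL l GI S fib U P3 N B A R hS hGI hN h2 a4 g E h a3 t
      rcases isEmpty_or_nonempty V with hV | hV
      · simp [eq_empty_of_isEmpty]
      obtain ⟨W, hW⟩ : ∃ W : Finset C, ∀ c, c ∈ W ↔
          c ∈ Gd ∧ ∃ q, ∃ z ∈ U, GI c q z l ∧ ¬ S (fib q) z l :=
        ⟨Gd.filter fun c => ∃ q, ∃ z ∈ U, GI c q z l ∧ ¬ S (fib q) z l, fun _ => mem_filter⟩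
      have m1 : ∀ c, ∃ q z, c ∈ W → z ∈ U ∧ GI c q z l ∧ ¬ S (fib q) z l := fun c => by
        by_cases hc : c ∈ W
        · obtain ⟨q, z, e⟩ := ((hW c).1 hc).2
          exact ⟨q, z, fun _ => e⟩
        · exact ⟨hV.some, c, fun e => absurd e hc⟩
      choose qq zz m1 using m1
      have m2 : W.card ≤ N * B + 2 * A + 2 := by
        refine ACnt.square zz (fun c => univ.filter fun b => ¬ R c (qq c) (zz c) l b)
          (fun c hc => ?_) (fun c hc => ((hGI _ _ _ _).1 (m1 c hc).2.1).1) fun c hc c' hc' => ?_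
        · refine (card_le_mul_card_image_of_maps_to (f := fun c' => fib (qq c'))
            (t := univ.image fib) (fun c' _ => mem_image_of_mem _ (mem_univ _)) B
            fun F _ => ?_).trans (by rw [mul_comm]; exact Nat.mul_le_mul_right _ hN)
          by_contra hn
          obtain ⟨c1, hc1⟩ := card_pos.1 ((Nat.zero_le _).trans_lt (not_le.1 hn))
          simp only [mem_filter] at hc1
          have n1 := (m1 c1 hc1.1.1).2.2
          rw [hc1.1.2, hc1.2] at n1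
          refine n1 (hS F _ (m1 c hc).1 l _ (not_le.1 hn).le fun c2 hc2 => ?_)
          simp only [mem_filter] at hc2
          exact ⟨qq c2, hc2.2, hc2.1.2 ▸ ((hGI _ _ _ _).1 (m1 c2 hc2.1.1).2.1).1⟩
        · by_contra hn
          simp only [mem_filter, mem_univ, true_and, not_or, not_not] at hn
          obtain ⟨n1, n2, n3, n4, n5⟩ := hn
          exact h2 c c' _ _ _ _ l (fun e => n1 (e ▸ rfl)) n4 n5 (m1 c hc).1 (m1 c' hc').1
            (Ne.symm n3) (Ne.symm n2) (Or.inr (Ne.symm n1))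
      have m3 : ∀ c ∈ Gd, ∑ q ∈ Sig c,
          (U.filter fun z => l ∈ FL c q z ∧ GI c q z l ∧ ¬ S (fib q) z l).card ≤
            if c ∈ W then 2 * P3 else 0 := fun c hc => by
        split_ifs with e
        · obtain ⟨Z, z1, z2⟩ := a4 c hc l
          refine (sum_le_card_nsmul _ _ 2 fun q _ => (card_le_card fun z hz =>
            z2 q z (mem_filter.1 hz).2.1).trans z1).trans ?_
          rw [smul_eq_mul, mul_comm]
          exact Nat.mul_le_mul_left _ (a3 c hc).1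
        · refine (sum_eq_zero fun q _ => card_eq_zero.2 (filter_eq_empty_iff.2 fun z hz e' =>
            e ((hW c).2 ⟨hc, q, z, hz, e'.2⟩))).le
      refine (sum_le_sum m3).trans ?_
      rw [← sum_filter, sum_const, smul_eq_mul, mul_comm]
      exact Nat.mul_le_mul_left _ ((card_le_card fun c hc => (mem_filter.1 hc).2).trans m2)
    have k4 : ∑ c ∈ Gd, ∑ q ∈ Sig c, ∑ z ∈ U,
        ((FL c q z).filter fun l => GI c q z l ∧ ¬ S (fib q) z l).card ≤
          2 * P3 * (N * B + 2 * A + 2) * Fintype.card Λ := by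
      have m1 := sum_le_card_nsmul univ _ _ fun l _ => k3 l
      rw [smul_eq_mul, mul_comm, card_univ, sum_comm] at m1
      refine le_trans (sum_le_sum fun c _ => ?_) m1
      rw [sum_comm (s := univ)]
      refine sum_le_sum fun q _ => ?_
      simp only [card_filter]
      rw [sum_comm (s := univ)]
      refine sum_le_sum fun z _ => ?_
      simp only [ite_and]
      rw [← sum_filter (s := univ), filter_mem_eq_inter, univ_inter]
    have k5 : ∀ c ∈ Gd, ∑ q ∈ Sig c,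
        ((∑ z ∈ U, (if (FL c q z).card < g c q then E else 0)) +
          ∑ z ∈ U, ((FL c q z).filter fun l => ¬ GI c q z l).card) * (A + 1) ≤
        P3 * ((E * h + L * t) * (A + 1) + Fintype.card C * t) := fun c hc => by
      refine (sum_le_card_nsmul _ _ _ fun q hq => ?_).trans
        (Nat.mul_le_mul_right _ (a3 c hc).1)
      have := Nat.mul_le_mul_right (A + 1) (k1 c hc q hq)
      have := k2 c hc q hq
      rw [add_mul, add_mul]
      omega
    have k6 := (sum_le_card_nsmul _ _ _ k5).trans (Nat.mul_le_mul_right _ (card_le_univ Gd))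
    rw [← mul_assoc] at k6
    refine le_trans (le_of_eq ?_) (Nat.add_le_add k6 (Nat.mul_le_mul_right (A + 1) k4))
    rw [sum_comm]
    simp only [sum_comm (s := U), sum_add_distrib, ← sum_mul, add_mul]

/-- The count at a base colouring. -/
theorem cnt_main {G : SimpleGraph V} {ρ : (V → C) → C → Λ → Prop} {fib : V → ℤ}
    {KD J k A B E m N P3 h t L : ℕ} (hD : Disj G KD ρ) {κ : V → C} (hκ : Proper G κ)
    (hk : J + 4 ≤ k) (hKD : 2 * J + 2 ≤ KD)
    (hm : ∀ F, (univ.filter fun q => fib q = F).card ≤ m) (hN : (univ.image fib).card ≤ N)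
    (Gd : Finset C) (H : C → Finset Λ) (Sig : C → Finset V) (g : C → V → ℕ)
    (FL : C → V → C → Finset Λ)
    (a1 : ∀ c ∈ Gd, E ≤ (H c).card + ∑ q ∈ Sig c, g c q)
    (a2 : ∀ c ∈ Gd, ∀ l ∈ H c, ∀ b,
      Hold G (J + 1) k κ (homes κ c ∪ homes κ b) fun a => ρ a c l)
    (a3 : ∀ c ∈ Gd, (Sig c).card ≤ P3 ∧ ∀ q ∈ Sig c, 1 ≤ g c q ∧ g c q ≤ E ∧
      ((Un κ).filter fun z => (FL c q z).card < g c q).card ≤ h)
    (a4 : ∀ c ∈ Gd, ∀ l, ∃ Z : Finset C, Z.card ≤ 2 ∧ ∀ q z, l ∈ FL c q z → z ∈ Z)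
    (a5 : ∀ c ∈ Gd, ∀ q ∈ Sig c, ∀ b,
      ∑ z ∈ Un κ, ((FL c q z).filter fun l => ¬ NA G ρ J k κ c q z l b).card ≤ t)
    (a6 : ∀ c ∈ Gd, ∀ q z l, l ∈ FL c q z → z ≠ c)
    (hL : 2 * Fintype.card Λ + (L + 1) * (h + (L + 1) + (L + 1) * t) < (L + 1) * (Un κ).card) :
    ∃ loss : C → ℕ,
      (∀ z ∈ Un κ, E * Gd.card ≤ Fintype.card Λ +
        m * ∑ F ∈ univ.image fib, cnt (SS G ρ fib J k A B F κ z) + loss z) ∧
      (∑ z ∈ Un κ, loss z) * (A + 1) ≤
        Fintype.card C * P3 * ((E * h + L * t) * (A + 1) + Fintype.card C * t) +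
        2 * P3 * (N * B + 2 * A + 2) * Fintype.card Λ * (A + 1) := by
  refine ACnt.main (R := NA G ρ J k κ) (S := fun F => SS G ρ fib J k A B F κ)
    (fun c c' q q' z z' l => ACnt.h2 hD hκ hk hKD) (fun F z hz l X hX h => ⟨hκ, hz, X, hX,
      fun c hc => ?_⟩) hm hN Gd H Sig g FL a1 ?_ a3 a4 a5 a6 hL
  · obtain ⟨q, h1, h2⟩ := h c hc
    exact ⟨q, h1, _, h2, fun b hb => by simpa using hb⟩
  · refine ACnt.sum_le_of_disj Gd H univ (fun c hc c' hc' hne l hl hl' => ?_)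
      fun _ _ => subset_univ _
    exact hd (hD l) (δ := 0) (a2 c hc l hl c') (a2 c' hc' l hl' c) (by simp [dif_self])
      (fun p _ p' _ hp => hκ p p' hp) hne (fun p _ e => mem_union_right _ (mem_homes.2 e))
      (fun p _ e => mem_union_right _ (mem_homes.2 e)) (by omega) (by omega) (by omega)

end Pool.Agent.Work.MP_418764_co.All
end

-- merged part: Pool.Agent.Work.MP_418764_co.ADP
section
namespace Pool.Agent.Work.MP_418764_co.All
open Finset Function Classical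

variable {V C Λ : Type} [Fintype V] [Fintype C] [Fintype Λ]

/-- The label `l` witnesses that `μ` is a bad point. -/
def ADP.W (G : SimpleGraph V) (ρ : (V → C) → C → Λ → Prop) (w J k K : ℕ) (κ : V → C) (x : C)
    (Q : Finset V) (l : Λ) (μ : V → C) : Prop :=
  RR G ρ w K μ x l ∧ ¬ Hold G (J + 1) k κ Q (fun a => ρ a x l) ∧
    ∀ q ∈ Q, ¬ Hold G J (k + 1) (update κ q (μ q)) (Q.erase q) fun a => ρ a x l

section aux
variable {G : SimpleGraph V} {ρ : (V → C) → C → Λ → Prop} {KD w J k K : ℕ} {κ : V → C}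

omit [Fintype Λ] in
theorem ADP.one_key {x : C} {Q : Finset V} (l : Λ) (hQ : Q.card ≤ w) (hJ : 2 * w ≤ J)
    (hK : k + w + 1 ≤ K) :
    ((Pl κ Q).filter (ADP.W G ρ w J k K κ x Q l)).card * Fintype.card C ≤
      Q.card * k * Fintype.card C ^ Q.card := by
  by_cases hH : Hold G (J + 1) k κ Q (fun a => ρ a x l)
  · rw [filter_false_of_mem fun μ _ h => h.2.1 hH]
    simp
  · unfold Hold at hH
    push Not at hH
    obtain ⟨Z, hZ, hn⟩ := hH
    refine le_trans ?_ ((card_Pl_hit κ Q Z).trans (by gcongr))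
    gcongr with μ hμ
    intro hW
    by_contra hc
    push Not at hc
    have hd := dif_Pl hμ
    obtain ⟨a, a1, a2, a3, a4⟩ := comp1 (Mv_Pl (G := G) hμ hc) hW.1 (by rw [hd]; omega)
    rw [hd] at a2 a3
    exact hn a a1 (subset_union_left.trans a2) (by omega) a4

omit [Fintype Λ] in
theorem ADP.two_key {x : C} {Q : Finset V} (l : Λ) {q : V} (hq : q ∈ Q) (v : C)
    (hQ : Q.card ≤ w) (hJ : 2 * w ≤ J) (hK : k + w + 1 ≤ K) :
    ((Pl κ Q).filter fun μ => ADP.W G ρ w J k K κ x Q l μ ∧ μ q = v).card *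
      Fintype.card C ^ 2 ≤ Q.card * (k + 2) * Fintype.card C ^ Q.card := by
  by_cases hH : Hold G J (k + 1) (update κ q v) (Q.erase q) (fun a => ρ a x l)
  · rw [filter_false_of_mem fun μ _ h => h.1.2.2 q hq (h.2 ▸ hH)]
    simp
  · unfold Hold at hH
    push Not at hH
    obtain ⟨Z, hZ, hn⟩ := hH
    have hsub : ((Pl κ Q).filter fun μ => ADP.W G ρ w J k K κ x Q l μ ∧ μ q = v) ⊆
        (Q.erase q).biUnion fun q' =>
          (Pl κ Q).filter fun μ => μ q ∈ ({v} : Finset C) ∧ μ q' ∈ insert v Z := by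
      intro μ hμ
      obtain ⟨hμ, hW, hv⟩ := mem_filter.1 hμ
      by_contra hc
      have hc' : ∀ q' ∈ Q.erase q, μ q' ∉ insert v Z := fun q' hq' h =>
        hc (mem_biUnion.2 ⟨q', hq', mem_filter.2 ⟨hμ, mem_singleton.2 hv, h⟩⟩)
      obtain ⟨p1, p2⟩ := mem_Pl.1 hμ
      have hd : dif (update κ q v) μ = Q.erase q := by
        ext p
        rw [mem_dif, mem_erase]
        by_cases e : p = q
        · simp [e, hv]
        · rw [update_of_ne e]
          refine ⟨fun h => ⟨e, ?_⟩, fun h => (mem_Un.1 (p1 p h.2) p).symm⟩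
          by_contra h'
          exact h (p2 p h')
      have hm : Mv G (update κ q v) μ Z := by
        intro p hp
        have h1 : p ∈ Q.erase q := hd ▸ mem_dif.2 hp
        have h2 := hc' p h1
        rw [mem_insert, not_or] at h2
        refine ⟨h2.2, fun p' _ => ?_⟩
        by_cases e : p' = q
        · rw [e, update_self]
          exact h2.1
        · rw [update_of_ne e]
          exact (mem_Un.1 (p1 p (mem_erase.1 h1).2) p').symm
      have hce := card_erase_add_one hq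
      obtain ⟨a, a1, a2, a3, a4⟩ := comp1 hm hW.1 (by rw [hd]; omega)
      rw [hd] at a2 a3
      exact hn a a1 (subset_union_left.trans a2) (by omega) a4
    calc _ ≤ (∑ q' ∈ Q.erase q, ((Pl κ Q).filter fun μ =>
            μ q ∈ ({v} : Finset C) ∧ μ q' ∈ insert v Z).card) * Fintype.card C ^ 2 := by
          gcongr
          exact (card_le_card hsub).trans card_biUnion_le
      _ ≤ ∑ _q' ∈ Q.erase q, (k + 2) * Fintype.card C ^ Q.card := by
          rw [sum_mul]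
          refine sum_le_sum fun q' hq' => (card_Pl_two κ hq (mem_erase.1 hq').2
            (mem_erase.1 hq').1.symm _ _).trans ?_
          have := card_insert_le v Z
          rw [card_singleton, one_mul]
          gcongr
          omega
      _ ≤ _ := by
          rw [sum_const, smul_eq_mul, mul_assoc]
          gcongr
          exact erase_subset _ _

theorem ADP.meet (hD : Disj G KD ρ) (hκ : Proper G κ) (hK' : 3 * w + 1 ≤ K) (hKD : 4 * w ≤ KD)
    {x x' : C} {Q Q' : Finset V} {μ μ' : V → C} {l : Λ} (hx : x ∈ Un κ) (hx' : x' ∈ Un κ)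
    (hQ : Q.card ≤ w) (hQ' : Q'.card ≤ w) (hμ : μ ∈ Pl κ Q) (hμ' : μ' ∈ Pl κ Q')
    (h : RR G ρ w K μ x l) (h' : RR G ρ w K μ' x' l) :
    x ∈ insert x' (Q'.image μ') ∨ ∃ q ∈ Q, μ q ∈ insert x' (Q'.image μ') := by
  by_contra hc
  push Not at hc
  obtain ⟨c1, c2⟩ := hc
  obtain ⟨p1, p2⟩ := mem_Pl.1 hμ
  obtain ⟨r1, r2⟩ := mem_Pl.1 hμ'
  have hin : ∀ p ∈ Q', μ' p ∈ insert x' (Q'.image μ') := fun p hp =>
    mem_insert_of_mem (mem_image_of_mem _ hp)
  refine (hD.rr (δ := 2 * w) (j := w) (k := K) (by omega) (by omega)) l μ μ' x x' h h' ?_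
    (fun p _ p' _ hp => ?_) (fun e => c1 (e ▸ mem_insert_self _ _)) (fun p _ e => ?_)
    fun p _ e => ?_
  · have h1 := dif_card_le μ κ μ'
    rw [dif_comm μ κ, dif_Pl hμ, dif_Pl hμ'] at h1
    omega
  · by_cases e : p ∈ Q <;> by_cases e' : p' ∈ Q'
    · exact fun h => c2 p e (h ▸ hin p' e')
    · rw [r2 p' e']
      exact (mem_Un.1 (p1 p e) p').symm
    · rw [p2 p e]
      exact mem_Un.1 (r1 p' e') p
    · rw [p2 p e, r2 p' e']
      exact hκ p p' hp
  · by_cases e' : p ∈ Q'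
    · exact c1 (e ▸ hin p e')
    · exact mem_Un.1 hx p ((r2 p e').symm.trans e)
  · by_cases e' : p ∈ Q
    · exact c2 p e' (e ▸ mem_insert_self _ _)
    · exact mem_Un.1 hx' p ((p2 p e').symm.trans e)

theorem ADP.label (hD : Disj G KD ρ) (hκ : Proper G κ) (hJ : 2 * w ≤ J) (hK : k + w + 1 ≤ K)
    (hK' : 3 * w + 1 ≤ K) (hKD : 4 * w ≤ KD) {s : ℕ} (hs : s ≤ w) {X : Finset C}
    (hX : X ⊆ Un κ) (Q : C → Finset V) (hQ : ∀ x ∈ X, (Q x).card = s) (l : Λ) :
    (∑ x ∈ X, ((Pl κ (Q x)).filter (ADP.W G ρ w J k K κ x (Q x) l)).card) * Fintype.card C ≤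
      2 * (w + 1) ^ 3 * (k + 2) * Fintype.card C ^ s := by
  by_cases hne : ∃ x ∈ X, ∃ μ ∈ Pl κ (Q x), ADP.W G ρ w J k K κ x (Q x) l μ
  swap
  · push Not at hne
    rw [sum_eq_zero fun x hx => card_eq_zero.2 (filter_false_of_mem (hne x hx))]
    simp
  obtain ⟨x0, hx0, μ0, hμ0, hW0⟩ := hne
  obtain ⟨S, hS⟩ : ∃ S, S = insert x0 ((Q x0).image μ0) := ⟨_, rfl⟩
  have hSc : S.card ≤ s + 1 := by
    rw [hS]
    refine (card_insert_le _ _).trans ?_
    have := card_image_le (s := Q x0) (f := μ0)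
    have := hQ x0 hx0
    omega
  have hpos : 0 < Fintype.card C := Fintype.card_pos_iff.2 ⟨x0⟩
  obtain ⟨n, hn⟩ : ∃ n, n = Fintype.card C := ⟨_, rfl⟩
  have key : ∀ x ∈ X, ((Pl κ (Q x)).filter (ADP.W G ρ w J k K κ x (Q x) l)).card * n ^ 2 ≤
      (if x ∈ S then s * k * n ^ s * n else 0) + s * ((s + 1) * (s * (k + 2) * n ^ s)) := by
    intro x hx
    have hQx := hQ x hx
    split_ifs with hxS
    · refine le_trans ?_ (Nat.le_add_right _ _)
      have := ADP.one_key (G := G) (ρ := ρ) (κ := κ) (x := x) l (hQx.le.trans hs) hJ hK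
      rw [hQx, ← hn] at this
      rw [pow_two, ← mul_assoc]
      gcongr
    · rw [zero_add]
      have hsub : (Pl κ (Q x)).filter (ADP.W G ρ w J k K κ x (Q x) l) ⊆
          (Q x).biUnion fun q => S.biUnion fun v =>
            (Pl κ (Q x)).filter fun μ => ADP.W G ρ w J k K κ x (Q x) l μ ∧ μ q = v := by
        intro μ hμ
        obtain ⟨hμ, hW⟩ := mem_filter.1 hμ
        rcases ADP.meet hD hκ hK' hKD (hX hx) (hX hx0) (hQx.le.trans hs)
          ((hQ x0 hx0).le.trans hs) hμ hμ0 hW.1 hW0.1 with h | ⟨q, hq, h⟩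
        · exact absurd (hS ▸ h) hxS
        · exact mem_biUnion.2 ⟨q, hq, mem_biUnion.2 ⟨μ q, hS ▸ h, mem_filter.2 ⟨hμ, hW, rfl⟩⟩⟩
      calc _ ≤ (∑ q ∈ Q x, ∑ v ∈ S, ((Pl κ (Q x)).filter fun μ =>
              ADP.W G ρ w J k K κ x (Q x) l μ ∧ μ q = v).card) * n ^ 2 := by
            gcongr
            exact (card_le_card hsub).trans
              (card_biUnion_le.trans (sum_le_sum fun q _ => card_biUnion_le))
        _ ≤ ∑ _q ∈ Q x, ∑ _v ∈ S, s * (k + 2) * n ^ s := by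
            rw [sum_mul]
            refine sum_le_sum fun q hq => ?_
            rw [sum_mul]
            refine sum_le_sum fun v _ => ?_
            have := ADP.two_key (G := G) (ρ := ρ) (κ := κ) (x := x) l hq v (hQx.le.trans hs) hJ hK
            rwa [hQx, ← hn] at this
        _ ≤ _ := by
            simp only [sum_const, smul_eq_mul, hQx]
            gcongr
  rw [← hn] at hpos ⊢
  refine Nat.le_of_mul_le_mul_right ?_ hpos
  have hXn : X.card ≤ n := hn ▸ card_le_univ X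
  have hXS : (X.filter (· ∈ S)).card ≤ s + 1 :=
    (card_le_card fun x hx => (mem_filter.1 hx).2).trans hSc
  calc _ = ∑ x ∈ X, ((Pl κ (Q x)).filter (ADP.W G ρ w J k K κ x (Q x) l)).card * n ^ 2 := by
        rw [← sum_mul, mul_assoc, pow_two]
    _ ≤ _ := sum_le_sum key
    _ = (X.filter (· ∈ S)).card * (s * k * n ^ s * n) +
          X.card * (s * ((s + 1) * (s * (k + 2) * n ^ s))) := by
        rw [sum_add_distrib, ← sum_filter, sum_const, sum_const, smul_eq_mul, smul_eq_mul]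
    _ ≤ (w + 1) * ((w + 1) ^ 2 * (k + 2) * n ^ s * n) +
          n * ((w + 1) * ((w + 1) * ((w + 1) * (k + 2) * n ^ s))) := by
        clear * - s w hs C S X k n KD J K hXS hXn
        have h1 : s ≤ (w + 1) ^ 2 := by linarith only [hs, sq_nonneg (↑w + (1 : ℤ)), mul_nonneg_of_nonpos_of_nonpos (Mathlib.Tactic.Linarith.sub_nonpos_of_le (Mathlib.Tactic.Linarith.natCast_nonneg ℤ w)) (Mathlib.Tactic.Linarith.sub_nonpos_of_le (Mathlib.Tactic.Linarith.natCast_nonneg ℤ w))]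
        gcongr <;> omega
    _ = _ := by ring

theorem ADP.level {β : ℝ} (hD : Disj G KD ρ) (hκ : Proper G κ) (hJ : 2 * w ≤ J)
    (hK : k + w + 1 ≤ K) (hK' : 3 * w + 1 ≤ K) (hKD : 4 * w ≤ KD) {s : ℕ} (hs : s ≤ w) :
    (((Un κ).filter fun x => ∃ Q : Finset V, Q.card = s ∧ β * (Fintype.card C : ℝ) ^ Q.card <
        ((Pl κ Q).filter (DPbad G ρ w J k K κ x Q)).card).card : ℝ) * (β * Fintype.card C) ≤
      2 * (w + 1) ^ 3 * (k + 2) * Fintype.card Λ := by
  obtain ⟨X, hX⟩ : ∃ X, X = (Un κ).filter fun x => ∃ Q : Finset V, Q.card = s ∧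
      β * (Fintype.card C : ℝ) ^ Q.card < ((Pl κ Q).filter (DPbad G ρ w J k K κ x Q)).card :=
    ⟨_, rfl⟩
  rw [← hX]
  rcases X.eq_empty_or_nonempty with h0 | ⟨x0, -⟩
  · rw [h0, card_empty, Nat.cast_zero, zero_mul]
    positivity
  have hpos : (0 : ℝ) < Fintype.card C := Nat.cast_pos.2 (Fintype.card_pos_iff.2 ⟨x0⟩)
  have hch : ∀ x : C, ∃ Q : Finset V, x ∈ X → Q.card = s ∧
      β * (Fintype.card C : ℝ) ^ s < ((Pl κ Q).filter (DPbad G ρ w J k K κ x Q)).card := by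
    intro x
    by_cases hx : x ∈ X
    · rw [hX] at hx
      obtain ⟨Q, h1, h2⟩ := (mem_filter.1 hx).2
      exact ⟨Q, fun _ => ⟨h1, h1 ▸ h2⟩⟩
    · exact ⟨∅, fun h => absurd h hx⟩
  choose Q hQ using hch
  have hXU : X ⊆ Un κ := hX ▸ filter_subset _ _
  have h1 : ∀ x, ((Pl κ (Q x)).filter (DPbad G ρ w J k K κ x (Q x))).card ≤
      ∑ l, ((Pl κ (Q x)).filter (ADP.W G ρ w J k K κ x (Q x) l)).card := by
    intro x
    refine (card_le_card fun μ hμ => ?_).trans card_biUnion_le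
    obtain ⟨hμ, l, hl⟩ := mem_filter.1 hμ
    exact mem_biUnion.2 ⟨l, mem_univ _, mem_filter.2 ⟨hμ, hl⟩⟩
  have h2 : (∑ x ∈ X, ((Pl κ (Q x)).filter (DPbad G ρ w J k K κ x (Q x))).card) *
      Fintype.card C ≤ Fintype.card Λ * (2 * (w + 1) ^ 3 * (k + 2) * Fintype.card C ^ s) := by
    calc _ ≤ (∑ x ∈ X, ∑ l, ((Pl κ (Q x)).filter (ADP.W G ρ w J k K κ x (Q x) l)).card) *
            Fintype.card C := by
          gcongr with x _
          exact h1 x
      _ ≤ ∑ _l : Λ, 2 * (w + 1) ^ 3 * (k + 2) * Fintype.card C ^ s := by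
          rw [sum_comm, sum_mul]
          exact sum_le_sum fun l _ =>
            ADP.label hD hκ hJ hK hK' hKD hs hXU Q (fun x hx => (hQ x hx).1) l
      _ = _ := by rw [sum_const, card_univ, smul_eq_mul]
  have h3 : (X.card : ℝ) * (β * (Fintype.card C : ℝ) ^ s) ≤
      ∑ x ∈ X, (((Pl κ (Q x)).filter (DPbad G ρ w J k K κ x (Q x))).card : ℝ) := by
    rw [← nsmul_eq_mul, ← sum_const]
    exact sum_le_sum fun x hx => (hQ x hx).2.le
  have h4 : (∑ x ∈ X, (((Pl κ (Q x)).filter (DPbad G ρ w J k K κ x (Q x))).card : ℝ)) *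
      Fintype.card C ≤ Fintype.card Λ * (2 * (w + 1) ^ 3 * (k + 2) * Fintype.card C ^ s) := by
    exact_mod_cast h2
  refine le_of_mul_le_mul_right ?_ (pow_pos hpos s)
  calc _ = (X.card : ℝ) * (β * (Fintype.card C : ℝ) ^ s) * Fintype.card C := by ring
    _ ≤ _ := mul_le_mul_of_nonneg_right h3 hpos.le
    _ ≤ _ := h4
    _ = _ := by ring

end aux

/-- Dictator property: for all but few unused keys, on every small plane almost every point has
only labels that are held or dictated by one coordinate. -/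
theorem dp_bound {G : SimpleGraph V} {ρ : (V → C) → C → Λ → Prop} {KD w J k K : ℕ} {β : ℝ}
    (hD : Disj G KD ρ) {κ : V → C} (hκ : Proper G κ) (hJ : 2 * w ≤ J) (hK : k + w + 1 ≤ K)
    (hK' : 3 * w + 1 ≤ K) (hKD : 4 * w ≤ KD) (hβ : 0 < β) :
    (((Un κ).filter fun x => ∃ Q : Finset V, Q.card ≤ w ∧ β * (Fintype.card C : ℝ) ^ Q.card <
        ((Pl κ Q).filter (DPbad G ρ w J k K κ x Q)).card).card : ℝ) * (β * Fintype.card C) ≤
      2 * (w + 1) ^ 4 * (k + 2) * Fintype.card Λ := by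
  have h1 : ((Un κ).filter fun x => ∃ Q : Finset V, Q.card ≤ w ∧
      β * (Fintype.card C : ℝ) ^ Q.card <
        ((Pl κ Q).filter (DPbad G ρ w J k K κ x Q)).card).card ≤
      ∑ s ∈ range (w + 1), ((Un κ).filter fun x => ∃ Q : Finset V, Q.card = s ∧
        β * (Fintype.card C : ℝ) ^ Q.card <
          ((Pl κ Q).filter (DPbad G ρ w J k K κ x Q)).card).card := by
    refine (card_le_card fun x hx => ?_).trans card_biUnion_le
    obtain ⟨hx, Q, h1, h2⟩ := mem_filter.1 hx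
    exact mem_biUnion.2 ⟨Q.card, mem_range.2 (by omega), mem_filter.2 ⟨hx, Q, rfl, h2⟩⟩
  calc _ ≤ (∑ s ∈ range (w + 1), (((Un κ).filter fun x => ∃ Q : Finset V, Q.card = s ∧
        β * (Fintype.card C : ℝ) ^ Q.card <
          ((Pl κ Q).filter (DPbad G ρ w J k K κ x Q)).card).card : ℝ)) *
          (β * Fintype.card C) := by
        clear * - β C V w Λ G ρ J k K κ h1 hβ
        gcongr
        exact_mod_cast h1
    _ ≤ ∑ _s ∈ range (w + 1), (2 * (w + 1) ^ 3 * (k + 2) * Fintype.card Λ : ℝ) := by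
        rw [sum_mul]
        exact sum_le_sum fun s hs =>
          ADP.level hD hκ hJ hK hK' hKD (Nat.lt_succ_iff.1 (mem_range.1 hs))
    _ = _ := by
        rw [sum_const, card_range, nsmul_eq_mul]
        push_cast
        ring

end Pool.Agent.Work.MP_418764_co.All
end

-- merged part: Pool.Agent.Work.MP_418764_co.ALT
section
namespace Pool.Agent.Work.MP_418764_co.All
open Finset Function Classical

variable {V C Λ : Type} [Fintype V] [Fintype C] [Fintype Λ]

/-- Key together with the fresh colours of a point of a plane. -/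
noncomputable def ALT.A0 (Q : C → Finset V) (t : C × (V → C)) : Finset C :=
  insert t.1 ((Q t.1).image t.2)

/-- Members of the family attached to a label and a vertex. -/
def ALT.Mb (G : SimpleGraph V) (ρ : (V → C) → C → Λ → Prop) (s K : ℕ) (κ : V → C)
    (X : Finset C) (Q : C → Finset V) (l : Λ) (q : V) (t : (C × (V → C)) × C) : Prop :=
  t.1.1 ∈ X ∧ t.1.2 ∈ Pl κ (Q t.1.1) ∧ t.2 ∉ (Q t.1.1).image κ ∧ t.2 ∉ ALT.A0 Q t.1 ∧
    Proper G (update t.1.2 q t.2) ∧ RR G ρ s (K + 1) (update t.1.2 q t.2) t.1.1 l ∧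
    ¬ RR G ρ (s + 1) K t.1.2 t.1.1 l

omit [Fintype V] [Fintype C] in
theorem ALT.A0_card {Q : C → Finset V} {s : ℕ} {t : C × (V → C)} (h : (Q t.1).card = s + 1) :
    (ALT.A0 Q t).card ≤ s + 2 :=
  (card_insert_le _ _).trans (by have := card_image_le (s := Q t.1) (f := t.2); omega)

theorem ALT.one {κ : V → C} {X : Finset C} {Q : C → Finset V} {s : ℕ}
    (hQ : ∀ x ∈ X, (Q x).card = s + 1) (v : C) :
    (univ.filter fun t : C × (V → C) => t.1 ∈ X ∧ t.2 ∈ Pl κ (Q t.1) ∧ v ∈ ALT.A0 Q t).card ≤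
      (s + 2) * Fintype.card C ^ (s + 1) := by
  have hν : 0 < Fintype.card C := Fintype.card_pos_iff.2 ⟨v⟩
  have hsub : (univ.filter fun t : C × (V → C) => t.1 ∈ X ∧ t.2 ∈ Pl κ (Q t.1) ∧ v ∈ ALT.A0 Q t)
      ⊆ ((X.filter (· = v)).biUnion fun x => (Pl κ (Q x)).image fun μ => (x, μ)) ∪
        X.biUnion fun x => ((Pl κ (Q x)).filter fun μ => ∃ q ∈ Q x, μ q ∈ ({v} : Finset C)).image
          fun μ => (x, μ) := by
    rintro ⟨x, μ⟩ ht
    obtain ⟨-, h1, h2, h3⟩ := mem_filter.1 ht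
    rcases mem_insert.1 h3 with h3 | h3
    · exact mem_union_left _ (mem_biUnion.2 ⟨x, mem_filter.2 ⟨h1, h3.symm⟩,
        mem_image.2 ⟨μ, h2, rfl⟩⟩)
    · obtain ⟨q, hq, e⟩ := mem_image.1 h3
      exact mem_union_right _ (mem_biUnion.2 ⟨x, h1, mem_image.2 ⟨μ,
        mem_filter.2 ⟨h2, q, hq, mem_singleton.2 e⟩, rfl⟩⟩)
  have h1 : ((X.filter (· = v)).biUnion fun x => (Pl κ (Q x)).image fun μ => (x, μ)).card ≤
      Fintype.card C ^ (s + 1) := by
    refine (card_biUnion_le_card_mul _ _ (Fintype.card C ^ (s + 1)) fun x hx => ?_).trans ?_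
    · refine card_image_le.trans ?_
      rw [card_Pl, hQ x (mem_filter.1 hx).1]
      exact Nat.pow_le_pow_left (card_Un_le κ) _
    · have : (X.filter (· = v)).card ≤ 1 :=
        card_le_one.2 fun a ha b hb => (mem_filter.1 ha).2.trans (mem_filter.1 hb).2.symm
      calc _ ≤ 1 * Fintype.card C ^ (s + 1) := Nat.mul_le_mul_right _ this
        _ = _ := one_mul _
  have h2 : (X.biUnion fun x => ((Pl κ (Q x)).filter fun μ => ∃ q ∈ Q x, μ q ∈
      ({v} : Finset C)).image fun μ => (x, μ)).card ≤ (s + 1) * Fintype.card C ^ (s + 1) := by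
    refine (card_biUnion_le_card_mul _ _ ((s + 1) * Fintype.card C ^ s) fun x hx => ?_).trans ?_
    · refine card_image_le.trans ?_
      have := card_Pl_hit κ (Q x) {v}
      rw [hQ x hx, card_singleton, mul_one, pow_succ, ← mul_assoc] at this
      exact Nat.le_of_mul_le_mul_right this hν
    · calc _ ≤ Fintype.card C * ((s + 1) * Fintype.card C ^ s) :=
            Nat.mul_le_mul_right _ (card_le_univ _)
        _ = _ := by ring
  calc _ ≤ _ := (card_le_card hsub).trans (card_union_le _ _)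
    _ ≤ Fintype.card C ^ (s + 1) + (s + 1) * Fintype.card C ^ (s + 1) := Nat.add_le_add h1 h2
    _ = _ := by ring

theorem ALT.hit {G : SimpleGraph V} {ρ : (V → C) → C → Λ → Prop} {s K : ℕ} {κ : V → C}
    {X : Finset C} {Q : C → Finset V} (hQ : ∀ x ∈ X, (Q x).card = s + 1) {l : Λ} {q : V}
    (S : Finset C) (T : Finset ((C × (V → C)) × C))
    (hT : ∀ t ∈ T, ALT.Mb G ρ s K κ X Q l q t ∧ ∃ v ∈ S, v ∈ ALT.A0 Q t.1) :
    T.card ≤ K * (S.card * ((s + 2) * Fintype.card C ^ (s + 1))) := by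
  refine (card_le_mul_card_image_of_maps_to (f := Prod.fst) (t := S.biUnion fun v =>
    univ.filter fun t : C × (V → C) => t.1 ∈ X ∧ t.2 ∈ Pl κ (Q t.1) ∧ v ∈ ALT.A0 Q t)
    (fun t ht => ?_) K fun b _ => ?_).trans (Nat.mul_le_mul_left _
      (card_biUnion_le_card_mul _ _ _ fun v _ => ALT.one hQ v))
  · obtain ⟨h, v, hv, hv'⟩ := hT t ht
    exact mem_biUnion.2 ⟨v, hv, mem_filter.2 ⟨mem_univ _, h.1, h.2.1, hv'⟩⟩
  · rcases (T.filter fun a => a.1 = b).eq_empty_or_nonempty with h | ⟨t0, h0⟩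
    · simp [h]
    obtain ⟨h0, e0⟩ := mem_filter.1 h0
    have hn := (hT t0 h0).1.2.2.2.2.2.2
    rw [e0] at hn
    unfold RR Hold at hn
    push Not at hn
    obtain ⟨Z, hZ, hn⟩ := hn
    refine le_trans (card_le_card_of_injOn Prod.snd (t := Z) (fun t ht => ?_) ?_) hZ
    · obtain ⟨ht, e⟩ := mem_filter.1 (mem_coe.1 ht)
      obtain ⟨⟨-, -, -, -, h5, h6, -⟩, -⟩ := hT t ht
      rw [e] at h5 h6
      by_contra hz
      have hd := dif_update_card b.2 q t.2
      obtain ⟨a, a1, -, a3, a4⟩ := comp1 (Mv_update_of_proper hz h5) h6 (by omega)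
      exact hn a a1 (empty_subset _) (by omega) a4
    · intro t ht t' ht' e
      exact Prod.ext ((mem_filter.1 (mem_coe.1 ht)).2.trans
        (mem_filter.1 (mem_coe.1 ht')).2.symm) e

theorem ALT.two {G : SimpleGraph V} {ρ : (V → C) → C → Λ → Prop} {KD s K : ℕ}
    (hD : Disj G KD ρ) {κ : V → C} (hκ : Proper G κ) (hK : 3 * s + 5 ≤ K) (hKD : 4 * s + 4 ≤ KD)
    {X : Finset C} (hX : X ⊆ Un κ) {Q : C → Finset V} (hQ : ∀ x ∈ X, (Q x).card = s + 1)
    {l : Λ} {q : V} {t t' : (C × (V → C)) × C} (h : ALT.Mb G ρ s K κ X Q l q t)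
    (h' : ALT.Mb G ρ s K κ X Q l q t') :
    (∃ v ∈ insert t'.2 (ALT.A0 Q t'.1), v ∈ ALT.A0 Q t.1) ∨ t.2 ∈ ALT.A0 Q t'.1 := by
  obtain ⟨⟨x, μ⟩, a⟩ := t
  obtain ⟨⟨x', μ'⟩, a'⟩ := t'
  obtain ⟨h1, h2, h3, -, h5, h6, -⟩ := h
  obtain ⟨h1', h2', h3', -, h5', h6', -⟩ := h'
  simp only at h1 h2 h3 h5 h6 h1' h2' h3' h5' h6' ⊢
  by_contra hn
  push Not at hn
  obtain ⟨n1, n2⟩ := hn
  have m0 : x ∈ ALT.A0 Q (x, μ) := mem_insert_self _ _
  have m1 : ∀ p ∈ Q x, μ p ∈ ALT.A0 Q (x, μ) := fun p hp =>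
    mem_insert_of_mem (mem_image_of_mem _ hp)
  have m0' : x' ∈ ALT.A0 Q (x', μ') := mem_insert_self _ _
  have m1' : ∀ p ∈ Q x', μ' p ∈ ALT.A0 Q (x', μ') := fun p hp =>
    mem_insert_of_mem (mem_image_of_mem _ hp)
  have n3 : ∀ v ∈ ALT.A0 Q (x, μ), ∀ v' ∈ ALT.A0 Q (x', μ'), v ≠ v' := fun v hv v' hv' e =>
    n1 v' (mem_insert_of_mem hv') (e ▸ hv)
  have n4 : ∀ v ∈ ALT.A0 Q (x, μ), v ≠ a' := fun v hv e =>
    n1 a' (mem_insert_self _ _) (e ▸ hv)
  obtain ⟨u1, u2⟩ := mem_Pl.1 h2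
  obtain ⟨u1', u2'⟩ := mem_Pl.1 h2'
  refine (hD.rr (δ := 2 * s + 3) (j := s) (k := K + 1) (by omega) (by omega)) l _ _ x x' h6 h6'
    ?_ (fun p _ p' _ hp => ?_) (n3 x m0 x' m0') (fun p _ => ?_) (fun p _ => ?_)
  · have : dif (update μ q a) (update μ' q a') ⊆ insert q (Q x ∪ Q x') := by
      intro p hp
      by_contra hc
      simp only [mem_insert, mem_union, not_or] at hc
      rw [mem_dif, update_of_ne hc.1, update_of_ne hc.1, u2 p hc.2.1, u2' p hc.2.2] at hp
      exact hp rfl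
    have g1 := (card_le_card this).trans (card_insert_le _ _)
    have g2 := card_union_le (Q x) (Q x')
    rw [hQ x h1, hQ x' h1'] at g2
    omega
  · by_cases e : p = q
    · have e' : p' ≠ q := fun e' => hp.ne (e.trans e'.symm)
      have hpr := h5 p p' hp
      rw [update_of_ne e'] at hpr ⊢
      rw [e, update_self] at hpr ⊢
      by_cases c' : p' ∈ Q x'
      · exact fun e2 => n2 (e2 ▸ m1' p' c')
      · rw [u2' p' c']
        by_cases c : p' ∈ Q x
        · exact fun e2 => h3 (e2 ▸ mem_image_of_mem _ c)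
        · rwa [u2 p' c] at hpr
    · by_cases e' : p' = q
      · have hpr := h5' p p' hp
        rw [update_of_ne e] at hpr ⊢
        rw [e', update_self] at hpr ⊢
        by_cases c : p ∈ Q x
        · exact n4 _ (m1 p c)
        · rw [u2 p c]
          by_cases c' : p ∈ Q x'
          · exact fun e2 => h3' (e2 ▸ mem_image_of_mem _ c')
          · rwa [u2' p c'] at hpr
      · rw [update_of_ne e, update_of_ne e']
        by_cases c : p ∈ Q x <;> by_cases c' : p' ∈ Q x'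
        · exact n3 _ (m1 p c) _ (m1' p' c')
        · rw [u2' p' c']
          exact (mem_Un.1 (u1 p c) p').symm
        · rw [u2 p c]
          exact mem_Un.1 (u1' p' c') p
        · rw [u2 p c, u2' p' c']
          exact hκ p p' hp
  · by_cases e : p = q
    · rw [e, update_self]
      exact (n4 x m0).symm
    · rw [update_of_ne e]
      by_cases c' : p ∈ Q x'
      · exact (n3 x m0 _ (m1' p c')).symm
      · rw [u2' p c']
        exact mem_Un.1 (hX h1) p
  · by_cases e : p = q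
    · rw [e, update_self]
      exact fun e2 => n2 (e2 ▸ m0')
    · rw [update_of_ne e]
      by_cases c : p ∈ Q x
      · exact n3 _ (m1 p c) _ m0'
      · rw [u2 p c]
        exact mem_Un.1 (hX h1') p

theorem ALT.fam {G : SimpleGraph V} {ρ : (V → C) → C → Λ → Prop} {KD s K : ℕ}
    (hD : Disj G KD ρ) {κ : V → C} (hκ : Proper G κ) (hK : 3 * s + 5 ≤ K) (hKD : 4 * s + 4 ≤ KD)
    {X : Finset C} (hX : X ⊆ Un κ) {Q : C → Finset V} (hQ : ∀ x ∈ X, (Q x).card = s + 1)
    {l : Λ} {q : V} (T : Finset ((C × (V → C)) × C)) (hT : ∀ t ∈ T, ALT.Mb G ρ s K κ X Q l q t) :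
    T.card ≤ 2 * (s + 3) ^ 3 * K * Fintype.card C ^ (s + 1) := by
  rcases T.eq_empty_or_nonempty with rfl | ⟨t0, h0⟩
  · simp
  set W := (s + 2) * Fintype.card C ^ (s + 1) with hW
  have hc : ∀ t ∈ T, (insert t.2 (ALT.A0 Q t.1)).card ≤ s + 3 := fun t ht =>
    (card_insert_le _ _).trans (by have := ALT.A0_card (hQ _ (hT t ht).1); omega)
  have hsub : T ⊆ (T.filter fun t => ∃ v ∈ insert t0.2 (ALT.A0 Q t0.1), v ∈ ALT.A0 Q t.1) ∪
      (ALT.A0 Q t0.1).biUnion fun v => T.filter fun t => t.2 = v := by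
    intro t ht
    rcases ALT.two hD hκ hK hKD hX hQ (hT t ht) (hT t0 h0) with h | h
    · exact mem_union_left _ (mem_filter.2 ⟨ht, h⟩)
    · exact mem_union_right _ (mem_biUnion.2 ⟨t.2, h, mem_filter.2 ⟨ht, rfl⟩⟩)
  have h1 : (T.filter fun t => ∃ v ∈ insert t0.2 (ALT.A0 Q t0.1), v ∈ ALT.A0 Q t.1).card ≤
      K * ((s + 3) * W) := by
    refine (ALT.hit hQ (insert t0.2 (ALT.A0 Q t0.1)) _ fun t ht =>
      ⟨hT t (mem_filter.1 ht).1, (mem_filter.1 ht).2⟩).trans ?_
    have := hc t0 h0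
    gcongr
  have h2 : ∀ v, (T.filter fun t => t.2 = v).card ≤ K * ((s + 3) * W) := by
    intro v
    rcases (T.filter fun t => t.2 = v).eq_empty_or_nonempty with h | ⟨t1, ht1⟩
    · simp [h]
    obtain ⟨ht1, e1⟩ := mem_filter.1 ht1
    refine (ALT.hit hQ (insert t1.2 (ALT.A0 Q t1.1)) _ fun t ht =>
      ⟨hT t (mem_filter.1 ht).1, ?_⟩).trans ?_
    · rcases ALT.two hD hκ hK hKD hX hQ (hT t (mem_filter.1 ht).1) (hT t1 ht1) with h | h
      · exact h
      · rw [(mem_filter.1 ht).2, ← e1] at h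
        exact absurd h (hT t1 ht1).2.2.2.1
    · have := hc t1 ht1
      gcongr
  have h3 := card_biUnion_le_card_mul (ALT.A0 Q t0.1) (fun v => T.filter fun t => t.2 = v) _
    fun v _ => h2 v
  have h4 := ALT.A0_card (hQ _ (hT t0 h0).1)
  calc T.card ≤ _ := (card_le_card hsub).trans (card_union_le _ _)
    _ ≤ K * ((s + 3) * W) + (s + 2) * (K * ((s + 3) * W)) :=
        Nat.add_le_add h1 (h3.trans (Nat.mul_le_mul_right _ h4))
    _ = (s + 3) * ((s + 2) * (s + 3) * K * Fintype.card C ^ (s + 1)) := by rw [hW]; ring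
    _ ≤ (2 * (s + 3)) * ((s + 3) * (s + 3) * K * Fintype.card C ^ (s + 1)) := by
        gcongr <;> omega
    _ = _ := by ring

/-- Lightness: points of adversarially chosen planes rarely have many repairing pairs. -/
theorem lt_bound {G : SimpleGraph V} {ρ : (V → C) → C → Λ → Prop} {KD s K L : ℕ}
    (hD : Disj G KD ρ) {κ : V → C} (hκ : Proper G κ) (hK : 3 * s + 5 ≤ K) (hKD : 4 * s + 4 ≤ KD)
    (X : Finset C) (hX : X ⊆ Un κ) (Q : C → Finset V) (hQ : ∀ x ∈ X, (Q x).card = s + 1) :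
    (∑ x ∈ X, ((Pl κ (Q x)).filter fun μ => Proper G μ ∧ x ∈ Un μ ∧
        L + 2 * (s + 1) * Fintype.card V ≤ (Rep G ρ s K μ x).card).card) * L ≤
      2 * (s + 3) ^ 3 * K * Fintype.card Λ * Fintype.card V * Fintype.card C ^ (s + 1) := by
  set P : Finset (C × (V → C)) := univ.filter fun t => t.1 ∈ X ∧ t.2 ∈ Pl κ (Q t.1) ∧
    L + 2 * (s + 1) * Fintype.card V ≤ (Rep G ρ s K t.2 t.1).card with hP
  set T : Finset ((Λ × V) × ((C × (V → C)) × C)) := univ.filter fun t =>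
    t.2.1 ∈ P ∧ ALT.Mb G ρ s K κ X Q t.1.1 t.1.2 t.2 with hT
  have h1 : (∑ x ∈ X, ((Pl κ (Q x)).filter fun μ => Proper G μ ∧ x ∈ Un μ ∧
        L + 2 * (s + 1) * Fintype.card V ≤ (Rep G ρ s K μ x).card).card) ≤ P.card := by
    rw [card_eq_sum_card_fiberwise (f := Prod.fst) (s := P) (t := X)
      fun t ht => (mem_filter.1 (mem_coe.1 ht)).2.1]
    refine sum_le_sum fun x hx => card_le_card_of_injOn (fun μ => (x, μ)) (fun μ hμ => ?_)
      fun μ _ μ' _ e => (Prod.mk.inj e).2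
    obtain ⟨a1, -, -, a2⟩ := mem_filter.1 (mem_coe.1 hμ)
    exact mem_coe.2 (mem_filter.2 ⟨mem_filter.2 ⟨mem_univ _, hx, a1, a2⟩, rfl⟩)
  have h2 : L * P.card ≤ T.card := by
    clear * - Λ V C T P G ρ s K κ X Q L hQ KD
    refine mul_card_image_le_card_of_maps_to (f := fun t => t.2.1)
      (fun t ht => (mem_filter.1 ht).2.1) L fun b hb => ?_
    obtain ⟨-, b1, b2, b3⟩ := mem_filter.1 hb
    have hsub : Rep G ρ s K b.2 b.1 ⊆ ((T.filter fun t => t.2.1 = b).image
        fun t => (t.1.2, t.2.2)) ∪ univ ×ˢ ((Q b.1).image κ ∪ (Q b.1).image b.2) := by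
      rintro ⟨q, a⟩ hqa
      obtain ⟨-, r1, r2, l, r3, r4⟩ := mem_filter.1 hqa
      by_cases c : a ∈ (Q b.1).image κ ∪ (Q b.1).image b.2
      · exact mem_union_right _ (mem_product.2 ⟨mem_univ _, c⟩)
      · rw [mem_union, not_or] at c
        refine mem_union_left _ (mem_image.2 ⟨((l, q), (b, a)), mem_filter.2 ⟨mem_filter.2
          ⟨mem_univ _, hb, b1, b2, c.1, fun hh => ?_, r1, r3, r4⟩, rfl⟩, rfl⟩)
        rcases mem_insert.1 hh with hh | hh
        · exact r2 hh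
        · exact c.2 hh
    have c1 := (card_le_card hsub).trans (card_union_le _ _)
    have c2 := card_image_le (s := T.filter fun t => t.2.1 = b) (f := fun t => (t.1.2, t.2.2))
    have c3 : ((Q b.1).image κ ∪ (Q b.1).image b.2).card ≤ 2 * (s + 1) := by
      have := card_union_le ((Q b.1).image κ) ((Q b.1).image b.2)
      have := card_image_le (s := Q b.1) (f := κ)
      have := card_image_le (s := Q b.1) (f := b.2)
      have := hQ _ b1
      omega
    rw [card_product, card_univ] at c1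
    have c4 := Nat.mul_le_mul_left (Fintype.card V) c3
    rw [mul_comm (Fintype.card V) (2 * (s + 1))] at c4
    omega
  have h3 : T.card ≤ (2 * (s + 3) ^ 3 * K * Fintype.card C ^ (s + 1)) *
      (univ : Finset (Λ × V)).card := by
    refine card_le_mul_card_image_of_maps_to (f := Prod.fst) (fun _ _ => mem_univ _) _
      fun b _ => ?_
    rw [← card_image_of_injOn (f := Prod.snd) fun t ht t' ht' e =>
      Prod.ext ((mem_filter.1 (mem_coe.1 ht)).2.trans (mem_filter.1 (mem_coe.1 ht')).2.symm) e]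
    refine ALT.fam hD hκ hK hKD hX hQ (l := b.1) (q := b.2) _ fun t ht => ?_
    obtain ⟨u, hu, rfl⟩ := mem_image.1 ht
    obtain ⟨hu, e⟩ := mem_filter.1 hu
    rw [← e]
    exact (mem_filter.1 hu).2.2
  rw [card_univ, Fintype.card_prod] at h3
  calc _ ≤ P.card * L := Nat.mul_le_mul_right _ h1
    _ ≤ T.card := by rw [mul_comm]; exact h2
    _ ≤ _ := h3
    _ = _ := by ring

end Pool.Agent.Work.MP_418764_co.All
end

-- merged part: Pool.Agent.Work.MP_418764_co.AVL
section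
namespace Pool.Agent.Work.MP_418764_co.All
open Finset Function Classical

namespace AVL
variable {V C Λ : Type} [Fintype V] [Fintype C] [Fintype Λ]

theorem cnt_mono {P P' : Λ → Prop} (h : ∀ l, P l → P' l) : cnt P ≤ cnt P' :=
  card_le_card fun l hl => mem_filter.2 ⟨mem_univ _, h l (mem_filter.1 hl).2⟩

theorem exists_of_cnt_lt {P P' : Λ → Prop} (h : cnt P' < cnt P) : ∃ l, P l ∧ ¬ P' l := by
  by_contra hn
  push Not at hn
  exact absurd (cnt_mono hn) (by omega)

theorem npairs_le (G : SimpleGraph V) {P P1 P2 : (V → C) → C → Prop}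
    (h : ∀ κ x, Proper G κ → P κ x → P1 κ x ∨ P2 κ x) :
    npairs G P ≤ npairs G P1 + npairs G P2 := by
  refine (card_le_card fun p hp => ?_).trans (card_union_le _ _)
  obtain ⟨h1, h2⟩ := mem_filter.1 hp
  rcases h p.1 p.2 (mem_Om.1 (mem_product.1 h1).1) h2 with h3 | h3
  · exact mem_union_left _ (mem_filter.2 ⟨h1, h3⟩)
  · exact mem_union_right _ (mem_filter.2 ⟨h1, h3⟩)

theorem npairs_mono (G : SimpleGraph V) {P P1 : (V → C) → C → Prop}
    (h : ∀ κ x, Proper G κ → P κ x → P1 κ x) : npairs G P ≤ npairs G P1 := by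
  refine card_le_card fun p hp => ?_
  obtain ⟨h1, h2⟩ := mem_filter.1 hp
  exact mem_filter.2 ⟨h1, h p.1 p.2 (mem_Om.1 (mem_product.1 h1).1) h2⟩

/-- The set of pairs counted by `npairs`. -/
noncomputable def PS (G : SimpleGraph V) (P : (V → C) → C → Prop) : Finset ((V → C) × C) :=
  (Om G C ×ˢ univ).filter fun p => P p.1 p.2

theorem mem_PS {G : SimpleGraph V} {P : (V → C) → C → Prop} {p : (V → C) × C} :
    p ∈ PS G P ↔ Proper G p.1 ∧ P p.1 p.2 := by simp [PS]

theorem npairs_eq (G : SimpleGraph V) (P : (V → C) → C → Prop) : npairs G P = (PS G P).card := rfl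

/-- Invalid points. -/
def NV (G : SimpleGraph V) (ρ : (V → C) → C → Λ → Prop) (E j k : ℕ) (x : C) (μ : V → C) : Prop :=
  ¬ Valid G ρ E j k μ x

/-- Improper points of a plane are rare. -/
theorem card_improper {G : SimpleGraph V} {κ : V → C} (hκ : Proper G κ) (Q : Finset V)
    (hν : 0 < Fintype.card C) :
    ((Pl κ Q).filter fun μ => ¬ Proper G μ).card * Fintype.card C ≤
      Q.card ^ 2 * Fintype.card C ^ Q.card := by
  have h1 : ((Pl κ Q).filter fun μ => ¬ Proper G μ) ⊆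
      (Q.offDiag ×ˢ (univ : Finset C)).biUnion fun r =>
        (Pl κ Q).filter fun μ => μ r.1.1 ∈ ({r.2} : Finset C) ∧ μ r.1.2 ∈ ({r.2} : Finset C) := by
    intro μ hμ
    obtain ⟨h1, h2⟩ := mem_filter.1 hμ
    obtain ⟨a1, a2⟩ := mem_Pl.1 h1
    unfold Proper at h2
    push Not at h2
    obtain ⟨p, p', hp, e⟩ := h2
    have hp1 : p ∈ Q := by
      by_contra h
      by_cases h' : p' ∈ Q
      · exact mem_Un.1 (a1 p' h') p ((a2 p h).symm.trans e)
      · exact hκ p p' hp ((a2 p h).symm.trans (e.trans (a2 p' h')))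
    have hp2 : p' ∈ Q := by
      by_contra h
      exact mem_Un.1 (a1 p hp1) p' ((a2 p' h).symm.trans e.symm)
    exact mem_biUnion.2 ⟨((p, p'), μ p), mem_product.2 ⟨mem_offDiag.2 ⟨hp1, hp2, hp.ne⟩,
      mem_univ _⟩, mem_filter.2 ⟨h1, by simp, by simp [e]⟩⟩
  have h2 : ((Pl κ Q).filter fun μ => ¬ Proper G μ).card * Fintype.card C ^ 2 ≤
      (Q.card ^ 2 * Fintype.card C) * Fintype.card C ^ Q.card := by
    clear * - V C G κ Q h1
    calc _ ≤ (∑ r ∈ Q.offDiag ×ˢ (univ : Finset C), ((Pl κ Q).filter fun μ =>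
          μ r.1.1 ∈ ({r.2} : Finset C) ∧ μ r.1.2 ∈ ({r.2} : Finset C)).card) *
            Fintype.card C ^ 2 := by
          gcongr
          exact (card_le_card h1).trans card_biUnion_le
      _ ≤ ∑ _r ∈ Q.offDiag ×ˢ (univ : Finset C), Fintype.card C ^ Q.card := by
          rw [sum_mul]
          refine sum_le_sum fun r hr => ?_
          obtain ⟨b1, b2, b3⟩ := mem_offDiag.1 (mem_product.1 hr).1
          simpa using card_Pl_two κ b1 b2 b3 {r.2} {r.2}
      _ ≤ _ := by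
          rw [sum_const, smul_eq_mul, card_product, offDiag_card, card_univ]
          gcongr
          rw [pow_two]
          exact Nat.sub_le _ _
  refine Nat.le_of_mul_le_mul_right (c := Fintype.card C) ?_ hν
  calc _ = ((Pl κ Q).filter fun μ => ¬ Proper G μ).card * Fintype.card C ^ 2 := by ring
    _ ≤ _ := h2
    _ = _ := by ring

theorem card_used {κ : V → C} {x : C} (hx : x ∈ Un κ) (Q : Finset V) :
    ((Pl κ Q).filter fun μ => x ∉ Un μ).card * Fintype.card C ≤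
      Q.card * Fintype.card C ^ Q.card := by
  have h := card_Pl_hit κ Q {x}
  rw [card_singleton, mul_one] at h
  refine le_trans (Nat.mul_le_mul_right _ (card_le_card fun μ hμ => ?_)) h
  obtain ⟨h1, h2⟩ := mem_filter.1 hμ
  rw [mem_Un] at h2
  push Not at h2
  obtain ⟨p, hp⟩ := h2
  refine mem_filter.2 ⟨h1, p, ?_, by simp [hp]⟩
  by_contra h
  exact mem_Un.1 hx p (((mem_Pl.1 h1).2 p h).symm.trans hp)

theorem card_faces (κ : V → C) (Q : Finset V) (P : (V → C) → Prop) :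
    ((Pl κ Q).filter fun μ => ∃ q ∈ Q, P (update μ q (κ q))).card ≤
      ∑ q ∈ Q, Fintype.card C * ((Pl κ (Q.erase q)).filter P).card := by
  have h1 : ((Pl κ Q).filter fun μ => ∃ q ∈ Q, P (update μ q (κ q))) ⊆
      Q.biUnion fun q => (Pl κ Q).filter fun μ => P (update μ q (κ q)) := by
    intro μ hμ
    obtain ⟨h1, q, hq, h2⟩ := mem_filter.1 hμ
    exact mem_biUnion.2 ⟨q, hq, mem_filter.2 ⟨h1, h2⟩⟩
  exact ((card_le_card h1).trans card_biUnion_le).trans
    (sum_le_sum fun q _ => card_Pl_face κ P)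

/-- Heavy points of a plane. -/
noncomputable def Hv (G : SimpleGraph V) (ρ : (V → C) → C → Λ → Prop) (t K B : ℕ) (κ : V → C)
    (x : C) (Q : Finset V) : Finset (V → C) :=
  (Pl κ Q).filter fun μ => Proper G μ ∧ x ∈ Un μ ∧ B ≤ (Rep G ρ t K μ x).card

/-- Light invalid points of a plane that are repaired by going back to any face. -/
noncomputable def Lt (G : SimpleGraph V) (ρ : (V → C) → C → Λ → Prop) (E t K B : ℕ) (κ : V → C)
    (x : C) (Q : Finset V) : Finset (V → C) :=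
  (Pl κ Q).filter fun μ => Proper G μ ∧ x ∈ Un μ ∧ cnt (ρ μ x) < E ∧
    (Rep G ρ t K μ x).card ≤ B ∧ ∀ q ∈ Q, (q, κ q) ∈ Rep G ρ t K μ x

theorem split {G : SimpleGraph V} (ρ : (V → C) → C → Λ → Prop) (E t K B : ℕ) {κ : V → C}
    {x : C} (hx : x ∈ Un κ) (Q : Finset V) :
    ((Pl κ Q).filter (NV G ρ E (t + 1) K x)).card ≤
      ((Pl κ Q).filter fun μ => ¬ Proper G μ).card + ((Pl κ Q).filter fun μ => x ∉ Un μ).card +
      ((Pl κ Q).filter fun μ => ∃ q ∈ Q, NV G ρ E t (K + 1) x (update μ q (κ q))).card +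
      (Hv G ρ t K B κ x Q).card + (Lt G ρ E t K B κ x Q).card := by
  refine le_trans (card_le_card (t := ((((Pl κ Q).filter fun μ => ¬ Proper G μ) ∪
    ((Pl κ Q).filter fun μ => x ∉ Un μ)) ∪
    ((Pl κ Q).filter fun μ => ∃ q ∈ Q, NV G ρ E t (K + 1) x (update μ q (κ q)))) ∪
    Hv G ρ t K B κ x Q ∪ Lt G ρ E t K B κ x Q) fun μ hμ => ?_) ?_
  · obtain ⟨h1, h2⟩ := mem_filter.1 hμ
    simp only [mem_union, Hv, Lt, mem_filter, h1, true_and]
    by_contra hn
    push Not at hn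
    obtain ⟨⟨⟨⟨a1, a2⟩, a3⟩, a4⟩, a5⟩ := hn
    have b1 : cnt (RR G ρ (t + 1) K μ x) < E := by
      by_contra h
      exact h2 ⟨a1, a2, by omega⟩
    obtain ⟨q, hq, hq'⟩ := a5 a1 a2 (lt_of_le_of_lt (cnt_mono fun l hl => Hold.of_self hl) b1)
      (a4 a1 a2).le
    obtain ⟨c1, -, c3⟩ := not_not.1 (a3 q hq)
    exact hq' (mem_filter.2 ⟨mem_univ _, c1, mem_Un.1 hx q,
      exists_of_cnt_lt (lt_of_lt_of_le b1 c3)⟩)
  · refine (card_union_le _ _).trans (Nat.add_le_add_right ?_ _)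
    refine (card_union_le _ _).trans (Nat.add_le_add_right ?_ _)
    refine (card_union_le _ _).trans (Nat.add_le_add_right ?_ _)
    exact card_union_le _ _

/-- Total number of light points. -/
theorem sum_Lt (G : SimpleGraph V) (ρ : (V → C) → C → Λ → Prop) (E t K B s : ℕ)
    (S : Finset ((V → C) × C)) (Q : (V → C) → C → Finset V)
    (hQ : ∀ p ∈ S, (Q p.1 p.2).card = s) :
    ∑ p ∈ S, (Lt G ρ E t K B p.1 p.2 (Q p.1 p.2)).card ≤
      B ^ s * npairs G (fun κ x => x ∈ Un κ ∧ cnt (ρ κ x) < E) := by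
  rw [← card_sigma, npairs_eq]
  refine card_le_mul_card_image_of_maps_to (f := fun a => (a.2, a.1.2)) (fun a ha => ?_) _
    fun r _ => ?_
  · obtain ⟨-, h2⟩ := mem_sigma.1 ha
    obtain ⟨-, b1, b2, b3, -⟩ := mem_filter.1 h2
    exact mem_PS.2 ⟨b1, b2, b3⟩
  · by_cases hr : (Rep G ρ t K r.1 r.2).card ≤ B
    · refine (card_le_card_of_injOn (t := powersetCard s (Rep G ρ t K r.1 r.2))
        (fun a => (Q a.1.1 a.1.2).image fun q => (q, a.1.1 q)) (fun a ha => ?_) ?_).trans ?_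
      · obtain ⟨h1, rfl⟩ := mem_filter.1 ha
        obtain ⟨h1, h2⟩ := mem_sigma.1 h1
        obtain ⟨-, -, -, -, -, b⟩ := mem_filter.1 h2
        refine mem_powersetCard.2 ⟨fun z hz => ?_, ?_⟩
        · obtain ⟨q, hq, rfl⟩ := mem_image.1 hz
          exact b q hq
        · rw [card_image_of_injective _ fun q q' e => (Prod.ext_iff.1 e).1]
          exact hQ _ h1
      · rintro ⟨⟨κ, x⟩, μ⟩ ha ⟨⟨κ', x'⟩, μ'⟩ ha' e
        obtain ⟨h1, e1⟩ := mem_filter.1 ha
        obtain ⟨h1', e1'⟩ := mem_filter.1 ha'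
        obtain ⟨rfl, rfl⟩ := Prod.ext_iff.1 (e1.trans e1'.symm)
        have m1 := (mem_Pl.1 (mem_filter.1 (mem_sigma.1 h1).2).1).2
        have m2 := (mem_Pl.1 (mem_filter.1 (mem_sigma.1 h1').2).1).2
        simp only at e m1 m2
        have : κ = κ' := by
          funext p
          by_cases hp : p ∈ Q κ x
          · have : (p, κ p) ∈ (Q κ' x).image fun q => (q, κ' q) := e ▸ mem_image_of_mem _ hp
            obtain ⟨q, -, hq⟩ := mem_image.1 this
            obtain ⟨rfl, h⟩ := Prod.ext_iff.1 hq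
            exact h.symm
          · by_cases hp' : p ∈ Q κ' x
            · have : (p, κ' p) ∈ (Q κ x).image fun q => (q, κ q) :=
                e.symm ▸ mem_image_of_mem _ hp'
              obtain ⟨q, hq0, hq⟩ := mem_image.1 this
              obtain ⟨rfl, -⟩ := Prod.ext_iff.1 hq
              exact absurd hq0 hp
            · exact (m1 p hp).symm.trans (m2 p hp')
        subst this
        rfl
      · rw [card_powersetCard]
        exact (Nat.choose_le_pow _ _).trans (Nat.pow_le_pow_left hr _)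
    · rw [filter_false_of_mem, card_empty]
      · exact Nat.zero_le _
      · rintro a ha rfl
        obtain ⟨-, -, -, -, b, -⟩ := mem_filter.1 (mem_sigma.1 ha).2
        exact hr b

/-- Total number of heavy points. -/
theorem sum_Hv {G : SimpleGraph V} {ρ : (V → C) → C → Λ → Prop} {KD t K : ℕ} (L : ℕ)
    (hD : Disj G KD ρ) (hK : 3 * t + 5 ≤ K) (hKD : 4 * t + 4 ≤ KD) (P : (V → C) → C → Prop)
    (Q : (V → C) → C → Finset V) (hQ : ∀ κ x, P κ x → x ∈ Un κ ∧ (Q κ x).card = t + 1) :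
    (∑ p ∈ PS G P,
      (Hv G ρ t K (L + 2 * (t + 1) * Fintype.card V) p.1 p.2 (Q p.1 p.2)).card) * L ≤
      (Om G C).card *
        (2 * (t + 3) ^ 3 * K * Fintype.card Λ * Fintype.card V * Fintype.card C ^ (t + 1)) := by
  rw [PS, sum_filter, sum_product, sum_mul, ← smul_eq_mul (Om G C).card, ← sum_const]
  refine sum_le_sum fun κ hκ => ?_
  have := lt_bound (L := L) hD (mem_Om.1 hκ) hK hKD (univ.filter (P κ))
    (fun x hx => (hQ κ x (mem_filter.1 hx).2).1) (Q κ) (fun x hx => (hQ κ x (mem_filter.1 hx).2).2)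
  rw [sum_filter] at this
  exact this

/-- A plane with many invalid points. -/
def Bad (G : SimpleGraph V) (ρ : (V → C) → C → Λ → Prop) (E K : ℕ) (β : ℝ) (κ : V → C) (x : C)
    (Q : Finset V) : Prop :=
  β * (Fintype.card C : ℝ) ^ Q.card <
    ((Pl κ Q).filter (NV G ρ E Q.card (K - Q.card) x)).card

theorem one_pair {G : SimpleGraph V} (ρ : (V → C) → C → Λ → Prop) (E t K B : ℕ) {β : ℝ}
    (hβ : 0 < β) {κ : V → C} (hκ : Proper G κ) {x : C} (hx : x ∈ Un κ) {Q : Finset V}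
    (hQ : Q.card = t + 1) (hK : t + 1 ≤ K) (hν : 0 < Fintype.card C)
    (hν' : 4 * (((t + 1 : ℕ) : ℝ) ^ 2 + (t + 1 : ℕ)) ≤ β * Fintype.card C)
    (h1 : Bad G ρ E K β κ x Q)
    (h2 : ∀ q ∈ Q, ¬ Bad G ρ E K (β / (4 * (t + 1 : ℕ))) κ x (Q.erase q)) :
    β / 2 * (Fintype.card C : ℝ) ^ (t + 1) ≤
      (Hv G ρ t (K - (t + 1)) B κ x Q).card + (Lt G ρ E t (K - (t + 1)) B κ x Q).card := by
  unfold Bad at h1
  rw [hQ] at h1
  have a0 := split (G := G) ρ E t (K - (t + 1)) B hx Q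
  have a1 := card_improper hκ Q hν
  have a2 := card_used hx Q
  have a3 := card_faces κ Q (NV G ρ E t (K - (t + 1) + 1) x)
  rw [hQ] at a1 a2
  have hν0 : (0 : ℝ) < Fintype.card C := by exact_mod_cast hν
  have a4 : ((∑ q ∈ Q, Fintype.card C * ((Pl κ (Q.erase q)).filter
      (NV G ρ E t (K - (t + 1) + 1) x)).card : ℕ) : ℝ) ≤
      β / 4 * (Fintype.card C : ℝ) ^ (t + 1) := by
    clear * - V Q C Λ G ρ E t K x κ β h2 B hK hQ hν0 hν hβ
    push_cast
    calc _ ≤ ∑ _q ∈ Q, (Fintype.card C : ℝ) *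
          (β / (4 * (t + 1 : ℕ)) * (Fintype.card C : ℝ) ^ t) := by
          refine sum_le_sum fun q hq => mul_le_mul_of_nonneg_left ?_ hν0.le
          have := h2 q hq
          unfold Bad at this
          rw [card_erase_of_mem hq, hQ, Nat.add_sub_cancel,
            show K - t = K - (t + 1) + 1 by omega] at this
          exact not_lt.1 this
      _ = _ := by
          rw [sum_const, hQ, nsmul_eq_mul]
          have : ((t + 1 : ℕ) : ℝ) ≠ 0 := by positivity
          rw [pow_succ]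
          field_simp
  have a5 := (Nat.cast_le (α := ℝ)).2 a0
  have a6 := (Nat.cast_le (α := ℝ)).2 a1
  have a7 := (Nat.cast_le (α := ℝ)).2 a2
  have a8 := ((Nat.cast_le (α := ℝ)).2 a3).trans a4
  rw [Nat.cast_add, Nat.cast_add, Nat.cast_add, Nat.cast_add] at a5
  rw [Nat.cast_mul, Nat.cast_mul, Nat.cast_pow, Nat.cast_pow] at a6
  rw [Nat.cast_mul, Nat.cast_mul, Nat.cast_pow] at a7
  have hp : (0 : ℝ) < (Fintype.card C : ℝ) ^ (t + 1) := by positivity
  have a9 : (((Pl κ Q).filter fun μ => ¬ Proper G μ).card : ℝ) +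
      ((Pl κ Q).filter fun μ => x ∉ Un μ).card ≤ β / 4 * (Fintype.card C : ℝ) ^ (t + 1) := by
    clear * - C V G κ Q x β t hν' hp a6 a7 hν0
    refine le_of_mul_le_mul_right ?_ hν0
    have := mul_le_mul_of_nonneg_right hν' hp.le
    linarith only [a6, a7, this]
  linarith only [h1, a5, a8, a9]

end AVL

open AVL

theorem AVL.step (N t K : ℕ) (lam β η : ℝ) (hβ : 0 < β) (hη : 0 < η) (hK : 4 * t + 6 ≤ K) :
    ∃ ε : ℝ, 0 < ε ∧ ∃ ν0 : ℕ, ∀ (V C Λ : Type) [Fintype V] [Fintype C] [Fintype Λ]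
      (G : SimpleGraph V) (ρ : (V → C) → C → Λ → Prop) (E KD : ℕ),
      ν0 ≤ Fintype.card C → Fintype.card V ≤ N * Fintype.card C →
      (Fintype.card Λ : ℝ) ≤ lam * Fintype.card C → Disj G KD ρ → 4 * t + 4 ≤ KD →
      (npairs G (fun κ x => x ∈ Un κ ∧ cnt (ρ κ x) < E) : ℝ) ≤
        ε * (Om G C).card * Fintype.card C →
      (npairs G (fun κ x => x ∈ Un κ ∧ ∃ Q : Finset V, Q.card = t + 1 ∧ Bad G ρ E K β κ x Q ∧
        ∀ q ∈ Q, ¬ Bad G ρ E K (β / (4 * (t + 1 : ℕ))) κ x (Q.erase q)) : ℝ) ≤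
        η * (Om G C).card * Fintype.card C := by
  obtain ⟨M, hM⟩ := exists_nat_gt (4 * (2 * (t + 3) ^ 3 * K * |lam| * N) / (β * η))
  have hM0 : (0 : ℝ) < M := lt_of_le_of_lt (by positivity) hM
  rw [div_lt_iff₀ (by positivity)] at hM
  obtain ⟨ν0, hν0⟩ := exists_nat_gt (4 * (((t + 1 : ℕ) : ℝ) ^ 2 + (t + 1 : ℕ)) / β)
  have hν1 : (0 : ℝ) < ν0 := lt_of_le_of_lt (by positivity) hν0
  rw [div_lt_iff₀ hβ] at hν0
  refine ⟨β * η / (4 * ((M : ℝ) + 2 * (t + 1) * N) ^ (t + 1)), by positivity, ν0, ?_⟩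
  intro V C Λ _ _ _ G ρ E KD hν hV hΛ hD hKD hε
  have hν2 : (ν0 : ℝ) ≤ Fintype.card C := by exact_mod_cast hν
  have hν3 : (0 : ℝ) < Fintype.card C := hν1.trans_le hν2
  have hν4 : 0 < Fintype.card C := by exact_mod_cast hν3
  set P : (V → C) → C → Prop := fun κ x => x ∈ Un κ ∧ ∃ Q : Finset V, Q.card = t + 1 ∧
    Bad G ρ E K β κ x Q ∧ ∀ q ∈ Q, ¬ Bad G ρ E K (β / (4 * (t + 1 : ℕ))) κ x (Q.erase q) with hP
  have hex : ∀ κ x, ∃ Q : Finset V, P κ x → Q.card = t + 1 ∧ Bad G ρ E K β κ x Q ∧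
      ∀ q ∈ Q, ¬ Bad G ρ E K (β / (4 * (t + 1 : ℕ))) κ x (Q.erase q) := by
    intro κ x
    by_cases h : P κ x
    · obtain ⟨Q, hQ⟩ := h.2
      exact ⟨Q, fun _ => hQ⟩
    · exact ⟨∅, fun h' => absurd h' h⟩
  choose Q hQ using hex
  set B := M * Fintype.card C + 2 * (t + 1) * Fintype.card V with hB
  set S := PS G P with hS
  have b1 := sum_Hv (K := K - (t + 1)) (M * Fintype.card C) hD (by omega) hKD P Q
    fun κ x h => ⟨h.1, (hQ κ x h).1⟩
  have b2 := sum_Lt G ρ E t (K - (t + 1)) B (t + 1) S Q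
    fun p hp => (hQ _ _ (mem_PS.1 hp).2).1
  rw [← hB, ← hS] at b1
  have b3 : (S.card : ℝ) * (β / 2 * (Fintype.card C : ℝ) ^ (t + 1)) ≤
      ((∑ p ∈ S, (Hv G ρ t (K - (t + 1)) B p.1 p.2 (Q p.1 p.2)).card : ℕ) : ℝ) +
      ((∑ p ∈ S, (Lt G ρ E t (K - (t + 1)) B p.1 p.2 (Q p.1 p.2)).card : ℕ) : ℝ) := by
    clear * - V C S β t Λ G ρ K B Q E P hQ hβ N hK M ν0 KD hν4 hν0 hν2
    push_cast
    rw [← sum_add_distrib, ← nsmul_eq_mul, ← sum_const]
    refine sum_le_sum fun p hp => ?_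
    obtain ⟨c1, c2⟩ := mem_PS.1 hp
    obtain ⟨c3, c4, c5⟩ := hQ _ _ c2
    exact one_pair ρ E t K B hβ c1 c2.1 c3 (by omega) hν4
      (by linarith only [hν0, hβ, hν2, mul_nonneg_of_nonpos_of_nonpos (le_of_lt (Mathlib.Tactic.Linarith.sub_neg_of_lt hβ)) (Mathlib.Tactic.Linarith.sub_nonpos_of_le hν2)]) c4 c5
  show (S.card : ℝ) ≤ _
  generalize (∑ p ∈ S, (Hv G ρ t (K - (t + 1)) B p.1 p.2 (Q p.1 p.2)).card) = H at b1 b3
  generalize (∑ p ∈ S, (Lt G ρ E t (K - (t + 1)) B p.1 p.2 (Q p.1 p.2)).card) = T at b2 b3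
  have hV' : (Fintype.card V : ℝ) ≤ N * Fintype.card C := by exact_mod_cast hV
  have hΛ' : (Fintype.card Λ : ℝ) ≤ |lam| * Fintype.card C :=
    hΛ.trans (mul_le_mul_of_nonneg_right (le_abs_self _) hν3.le)
  have hK' : ((K - (t + 1) : ℕ) : ℝ) ≤ K := by exact_mod_cast Nat.sub_le _ _
  have hp : (0 : ℝ) < (Fintype.card C : ℝ) ^ (t + 1) := by positivity
  have d1 : (H : ℝ) ≤ β * η / 4 * ((Om G C).card * Fintype.card C) *
      (Fintype.card C : ℝ) ^ (t + 1) := by
    clear * - H M C V G t K Λ b1 β η lam N hK' hΛ' hV' hν4 hM hM0 hν3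
    have e1 := (Nat.cast_le (α := ℝ)).2 b1
    rw [Nat.cast_mul, Nat.cast_mul, Nat.cast_mul, Nat.cast_mul, Nat.cast_mul, Nat.cast_mul,
      Nat.cast_mul, Nat.cast_mul, Nat.cast_pow, Nat.cast_pow, Nat.cast_add] at e1
    refine le_of_mul_le_mul_right (e1.trans ?_) (mul_pos hM0 hν3)
    calc _ ≤ ((Om G C).card : ℝ) * (2 * (t + 3) ^ 3 * K * (|lam| * Fintype.card C) *
          (N * Fintype.card C) * (Fintype.card C : ℝ) ^ (t + 1)) := by
          push_cast
          gcongr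
      _ = (4 * (2 * (t + 3) ^ 3 * K * |lam| * N)) * (((Om G C).card : ℝ) * Fintype.card C *
          Fintype.card C * (Fintype.card C : ℝ) ^ (t + 1) / 4) := by ring
      _ ≤ (M * (β * η)) * (((Om G C).card : ℝ) * Fintype.card C *
          Fintype.card C * (Fintype.card C : ℝ) ^ (t + 1) / 4) := by gcongr
      _ = _ := by ring
  have d2 : (T : ℝ) ≤ β * η / 4 * ((Om G C).card * Fintype.card C) *
      (Fintype.card C : ℝ) ^ (t + 1) := by
    clear * - T B t V C G Λ ρ E b2 M N hB hV' hM0 β η hε hν4 hη hβ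
    have e1 := (Nat.cast_le (α := ℝ)).2 b2
    rw [Nat.cast_mul, Nat.cast_pow] at e1
    have e2 : (B : ℝ) ≤ ((M : ℝ) + 2 * (t + 1) * N) * Fintype.card C := by
      rw [hB]
      push_cast
      have : (2 * (t + 1) : ℝ) * Fintype.card V ≤ 2 * (t + 1) * (N * Fintype.card C) := by gcongr
      linarith only [this]
    have e3 : (0 : ℝ) < ((M : ℝ) + 2 * (t + 1) * N) ^ (t + 1) := by positivity
    calc (T : ℝ) ≤ (((M : ℝ) + 2 * (t + 1) * N) * Fintype.card C) ^ (t + 1) *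
          (β * η / (4 * ((M : ℝ) + 2 * (t + 1) * N) ^ (t + 1)) * (Om G C).card *
            Fintype.card C) := e1.trans (by gcongr)
      _ = _ := by rw [mul_pow]; field_simp
  refine le_of_mul_le_mul_right (b3.trans ?_) (by positivity)
  clear * - H T η V C G β t d1 d2
  linarith only [d1, d2]

theorem AVL.ind (N K : ℕ) (lam : ℝ) (s : ℕ) (hK : 4 * s + 6 ≤ K) :
    ∀ β η : ℝ, 0 < β → 0 < η →
    ∃ ε : ℝ, 0 < ε ∧ ∃ ν0 : ℕ, ∀ (V C Λ : Type) [Fintype V] [Fintype C] [Fintype Λ]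
      (G : SimpleGraph V) (ρ : (V → C) → C → Λ → Prop) (E KD : ℕ),
      ν0 ≤ Fintype.card C → Fintype.card V ≤ N * Fintype.card C →
      (Fintype.card Λ : ℝ) ≤ lam * Fintype.card C → Disj G KD ρ → 4 * s + 4 ≤ KD →
      (npairs G (fun κ x => x ∈ Un κ ∧ cnt (ρ κ x) < E) : ℝ) ≤
        ε * (Om G C).card * Fintype.card C →
      (npairs G (fun κ x => x ∈ Un κ ∧ ∃ Q : Finset V, Q.card ≤ s ∧ Bad G ρ E K β κ x Q) : ℝ) ≤
        η * (Om G C).card * Fintype.card C := by
  induction s with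
  | zero =>
    intro β η hβ hη
    refine ⟨η, hη, 0, fun V C Λ _ _ _ G ρ E KD _ _ _ _ _ hε => le_trans ?_ hε⟩
    refine Nat.cast_le.2 (npairs_mono G fun κ x hκ h => ?_)
    obtain ⟨hx, Q, hQ, hb⟩ := h
    obtain rfl : Q = ∅ := card_eq_zero.1 (by omega)
    refine ⟨hx, ?_⟩
    unfold Bad at hb
    have hpos : (0 : ℝ) < _ := lt_trans (by simpa using hβ) hb
    obtain ⟨μ, hμ⟩ := card_pos.1 (Nat.cast_pos.1 hpos)
    obtain ⟨h1, h2⟩ := mem_filter.1 hμ
    obtain rfl : μ = κ := funext fun p => (mem_Pl.1 h1).2 p (notMem_empty p)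
    by_contra h
    exact h2 ⟨hκ, hx, (not_lt.1 h).trans (cnt_mono fun l hl => Hold.of_self hl)⟩
  | succ t ih =>
    intro β η hβ hη
    obtain ⟨ε1, hε1, ν1, H1⟩ := ih (by omega) (β / (4 * (t + 1 : ℕ))) (η / 2) (by positivity)
      (by positivity)
    obtain ⟨ε2, hε2, ν2, H2⟩ := AVL.step N t K lam β (η / 2) hβ (by positivity) (by omega)
    refine ⟨min ε1 ε2, lt_min hε1 hε2, max ν1 ν2, ?_⟩
    intro V C Λ _ _ _ G ρ E KD hν hV hΛ hD hKD hε
    have a1 := H1 V C Λ G ρ E KD ((le_max_left _ _).trans hν) hV hΛ hD (by omega)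
      (hε.trans (by clear * - C ε1 ε2 V G hε; gcongr; exact min_le_left _ _))
    have a2 := H2 V C Λ G ρ E KD ((le_max_right _ _).trans hν) hV hΛ hD (by omega)
      (hε.trans (by clear * - C ε1 ε2 V G hε; gcongr; exact min_le_right _ _))
    refine le_trans ?_ ((add_le_add a1 a2).trans_eq (by ring))
    rw [← Nat.cast_add]
    refine Nat.cast_le.2 (npairs_le G fun κ x _ h => ?_)
    obtain ⟨hx, Q, hQ, hb⟩ := h
    by_cases hc : ∃ Q : Finset V, Q.card ≤ t ∧ Bad G ρ E K (β / (4 * (t + 1 : ℕ))) κ x Q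
    · exact Or.inl ⟨hx, hc⟩
    · push Not at hc
      have hQ' : Q.card = t + 1 := by
        clear * - V Q t hc N K ν1 ν2 C KD hQ β Λ G ρ E x κ hβ hb
        by_contra h
        refine hc Q (by omega) (lt_of_le_of_lt ?_ hb)
        gcongr
        refine div_le_self hβ.le ?_
        push_cast
        have : (0 : ℝ) ≤ t := Nat.cast_nonneg t
        linarith only []
      exact Or.inr ⟨hx, Q, hQ', hb, fun q hq => hc _ (by rw [card_erase_of_mem hq]; omega)⟩

/-- Validity lemma: if almost all pairs have `E` labels, then for almost all pairs almost all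
points of every small plane have `E` labels in the closure. -/
theorem vl_bound (N w K : ℕ) (lam β η : ℝ) (hβ : 0 < β) (hη : 0 < η) (hK : 4 * w + 6 ≤ K) :
    ∃ ε : ℝ, 0 < ε ∧ ∃ ν0 : ℕ, ∀ (V C Λ : Type) [Fintype V] [Fintype C] [Fintype Λ]
      (G : SimpleGraph V) (ρ : (V → C) → C → Λ → Prop) (E KD : ℕ),
      ν0 ≤ Fintype.card C → Fintype.card V ≤ N * Fintype.card C →
      (Fintype.card Λ : ℝ) ≤ lam * Fintype.card C → Disj G KD ρ → 4 * w + 4 ≤ KD →
      (npairs G (fun κ x => x ∈ Un κ ∧ cnt (ρ κ x) < E) : ℝ) ≤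
        ε * (Om G C).card * Fintype.card C →
      (npairs G (fun κ x => x ∈ Un κ ∧ ∃ Q : Finset V, Q.card ≤ w ∧
        β * (Fintype.card C : ℝ) ^ Q.card <
          ((Pl κ Q).filter fun μ => ¬ Valid G ρ E w (K - w) μ x).card) : ℝ) ≤
        η * (Om G C).card * Fintype.card C := by
  obtain ⟨ε, hε, ν0, H⟩ := AVL.ind N K lam w hK β η hβ hη
  refine ⟨ε, hε, ν0, fun V C Λ _ _ _ G ρ E KD hν hV hΛ hD hKD h =>
    le_trans ?_ (H V C Λ G ρ E KD hν hV hΛ hD hKD h)⟩
  refine Nat.cast_le.2 (npairs_mono G fun κ x _ h => ?_)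
  obtain ⟨hx, Q, hQ, hb⟩ := h
  refine ⟨hx, Q, hQ, lt_of_lt_of_le hb (Nat.cast_le.2 (card_le_card fun μ hμ => ?_))⟩
  obtain ⟨h1, h2⟩ := mem_filter.1 hμ
  refine mem_filter.2 ⟨h1, fun hv => h2 ⟨hv.1, hv.2.1, hv.2.2.trans (cnt_mono fun l hl => ?_)⟩⟩
  exact Hold.mono hl hQ (by omega) Subset.rfl fun _ h => h

end Pool.Agent.Work.MP_418764_co.All
end

-- merged part: Pool.Agent.Work.MP_418764_co.ABase
section
namespace Pool.Agent.Work.MP_418764_co.All
open Finset Function Classical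

variable {V C Λ : Type} [Fintype V] [Fintype C] [Fintype Λ]

/-- A pair to which the allocation lemma applies. -/
def Good (G : SimpleGraph V) (ρ : (V → C) → C → Λ → Prop) (E w J k K P P2 : ℕ) (c β : ℝ)
    (μ : V → C) (x : C) : Prop :=
  c * Fintype.card C ≤ (Un μ).card ∧ cnt (Own G ρ J k μ x) ≤ P ∧
  (∑ q, ∑ z ∈ Un μ,
    cnt (fun l => RR G ρ (J + 1) k (update μ q z) x l ∧ ¬ Own G ρ J k μ x l) ≤ P2) ∧
  (∀ Q : Finset V, Q.card ≤ w → (((Pl μ Q).filter fun a => ¬ Valid G ρ E w K a x).card : ℝ)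
    ≤ β * (Fintype.card C : ℝ) ^ Q.card) ∧
  ∀ Q : Finset V, Q.card ≤ w → (((Pl μ Q).filter (DPbad G ρ w J k K μ x Q)).card : ℝ)
    ≤ β * (Fintype.card C : ℝ) ^ Q.card

theorem le_cnt {P : Λ → Prop} {s : Finset Λ} (h : ∀ l ∈ s, P l) : s.card ≤ cnt P :=
  card_le_card fun l hl => by simpa using h l hl

theorem cnt_le {P : Λ → Prop} {s : Finset Λ} (h : ∀ l, P l → l ∈ s) : cnt P ≤ s.card :=
  card_le_card fun l hl => h l (by simpa using hl)

theorem Fl_rr {G : SimpleGraph V} {ρ : (V → C) → C → Λ → Prop} {J k : ℕ} {μ : V → C} {x z : C}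
    {Q : Finset V} {q : V} {l : Λ} (h : l ∈ Fl G ρ J k μ x Q q z) :
    RR G ρ (J + 1) k (update μ q z) x l ∧ ¬ Own G ρ J k μ x l :=
  ⟨(mem_filter.1 h).2.1.mono (by omega) (by omega) (empty_subset _) fun _ h => h,
    (mem_filter.1 h).2.2⟩

theorem base_count {G : SimpleGraph V} {ρ : (V → C) → C → Λ → Prop} {fib : V → ℤ}
    {KD J k A B E m N P P2 P3 h t L w K : ℕ} {c β : ℝ} (hD : Disj G KD ρ) {κ : V → C}
    (hκ : Proper G κ) (hk : J + 4 ≤ k) (hKD : 2 * J + 2 ≤ KD)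
    (hm : ∀ F, (univ.filter fun q => fib q = F).card ≤ m) (hN : (univ.image fib).card ≤ N)
    (hh : ∀ b, (homes κ b).card ≤ N) (Gd : Finset C)
    (hGd : ∀ b ∈ Gd, ∃ μ ∈ Pl κ (homes κ b), Good G ρ E w J (k + N) K P P2 c β μ b)
    (ht : 0 < t) (hw : N * (P + P2 / t + 1) ≤ w) (hPk : P * (k + N) ≤ h)
    (hβ : ∀ s ≤ w, 2 * β * (Fintype.card C : ℝ) ^ s < ((h : ℝ) + 1 - P * (k + N : ℕ)) ^ s)
    (hP3 : (P2 : ℝ) ≤ P3 * (c * Fintype.card C - h)) (hch : (h : ℝ) < c * Fintype.card C)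
    (hL : 2 * Fintype.card Λ + (L + 1) * (h + N + 1 + (L + 1) + (L + 1) * t) <
      (L + 1) * (Un κ).card) :
    ∃ loss : C → ℕ,
      (∀ z ∈ Un κ, E * Gd.card ≤ Fintype.card Λ +
        m * ∑ F ∈ univ.image fib, cnt (SS G ρ fib J k A B F κ z) + loss z) ∧
      (∑ z ∈ Un κ, loss z) * (A + 1) ≤
        Fintype.card C * P3 * ((E * (h + N + 1) + L * t) * (A + 1) + Fintype.card C * t) +
        2 * P3 * (N * B + 2 * A + 2) * Fintype.card Λ * (A + 1) := by
  choose! μ hμ hG using hGd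
  have hal := fun b (hb : b ∈ Gd) => alloc (hG b hb).2.1 (hG b hb).2.2.1 (hG b hb).2.2.2.1
    (hG b hb).2.2.2.2 ht hw hPk hβ (homes κ b) (hh b)
  choose! Q g q1 q2 q3 q4 q5 using hal
  refine cnt_main hD hκ hk hKD hm hN Gd
    (fun b => univ.filter fun l => Hold G (J + 1) (k + N) (μ b) (Q b) fun a => ρ a b l)
    (fun b => (Q b).filter fun q => 1 ≤ g b q) g
    (fun b q z => if z ∈ Un (μ b) ∧ z ≠ b then Fl G ρ J (k + N) (μ b) b (Q b) q z else ∅)
    (fun b hb => ?_) (fun b hb l hl b' => ?_) (fun b hb => ⟨?_, fun q hq => ?_⟩)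
    (fun b hb l => ?_) (fun b hb q hq b' => ?_) (fun b hb q z l hl => ?_) hL
  · refine (q2 b hb).trans (Nat.add_le_add le_rfl (le_of_eq ?_))
    refine (sum_filter_of_ne fun q _ hq => ?_).symm
    omega
  · refine ((q3 b hb l (mem_filter.1 hl).2 _ (hh b')).transfer (k' := k) ?_ ?_).mono le_rfl le_rfl
      (union_subset_union (q1 b hb) Subset.rfl) fun _ h => h
    · rw [dif_Pl (hμ b hb)]
      exact (q1 b hb).trans subset_union_left
    · rw [dif_Pl (hμ b hb)]
      have := hh b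
      omega
  · have h1 : ∀ q ∈ (Q b).filter (fun q => 1 ≤ g b q), (Un (μ b)).card ≤ h + ∑ z ∈ Un (μ b),
        cnt (fun l => RR G ρ (J + 1) (k + N) (update (μ b) q z) b l ∧
          ¬ Own G ρ J (k + N) (μ b) b l) := by
      intro q hq
      rw [← card_filter_add_card_filter_not
        (fun z => (Fl G ρ J (k + N) (μ b) b (Q b) q z).card < g b q)]
      refine Nat.add_le_add (q4 b hb q).2 ?_
      rw [card_eq_sum_ones]
      refine (sum_le_sum fun z hz => ?_).trans (sum_le_sum_of_subset (filter_subset _ _))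
      have h2 := (mem_filter.1 hq).2
      have h3 := not_lt.1 (mem_filter.1 hz).2
      exact (h2.trans h3).trans (le_cnt fun l hl => Fl_rr hl)
    have h2 := sum_le_sum h1
    rw [sum_add_distrib, sum_const, sum_const, smul_eq_mul, smul_eq_mul] at h2
    have h3 := (sum_le_sum_of_subset (subset_univ ((Q b).filter fun q => 1 ≤ g b q))).trans
      (hG b hb).2.2.1
    have h4 := (hG b hb).1
    generalize ((Q b).filter fun q => 1 ≤ g b q).card = s at h2 ⊢
    have h5 : (s : ℝ) * (Un (μ b)).card ≤ s * h + P2 := by exact_mod_cast h2.trans (by omega)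
    have h6 : (s : ℝ) * (c * Fintype.card C - h) ≤ P3 * (c * Fintype.card C - h) := by
      clear * - s c C V μ b h4 h P3 P2 hP3 h5
      have : (s : ℝ) * (c * Fintype.card C) ≤ s * (Un (μ b)).card := by gcongr
      linarith only [hP3, h5, this]
    exact_mod_cast le_of_mul_le_mul_right h6 (by clear * - c C h hch h6; linarith)
  · refine ⟨(mem_filter.1 hq).2, (q4 b hb q).1, ?_⟩
    refine (card_le_card (t := insert b (((Un (μ b)).filter fun z =>
      (Fl G ρ J (k + N) (μ b) b (Q b) q z).card < g b q) ∪ (homes κ b).image (μ b)))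
      fun z hz => ?_).trans ((card_insert_le _ _).trans ?_)
    · obtain ⟨h1, h2⟩ := mem_filter.1 hz
      by_cases e : z = b
      · exact e ▸ mem_insert_self _ _
      refine mem_insert_of_mem (mem_union.2 ?_)
      by_cases e' : z ∈ Un (μ b)
      · rw [if_pos ⟨e', e⟩] at h2
        exact Or.inl (mem_filter.2 ⟨e', h2⟩)
      · rw [mem_Un] at e'
        push Not at e'
        obtain ⟨p, hp⟩ := e'
        refine Or.inr (mem_image.2 ⟨p, by_contra fun hp' => ?_, hp⟩)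
        exact mem_Un.1 h1 p (((mem_Pl.1 (hμ b hb)).2 p hp').symm.trans hp)
    · have h1 := card_union_le ((Un (μ b)).filter fun z =>
        (Fl G ρ J (k + N) (μ b) b (Q b) q z).card < g b q) ((homes κ b).image (μ b))
      have h2 := card_image_le (s := homes κ b) (f := μ b)
      have h3 := hh b
      have h4 := (q4 b hb q).2
      omega
  · by_cases e : Own G ρ J (k + N) (μ b) b l
    · refine ⟨∅, by simp, fun q z hl => ?_⟩
      split_ifs at hl with e'
      · exact absurd e (Fl_rr hl).2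
      · simp at hl
    · obtain ⟨Z, h1, h2⟩ := not_own e
      refine ⟨Z, h1, fun q z hl => ?_⟩
      split_ifs at hl with e'
      · exact h2 q z e'.1 (Fl_rr hl).1
      · simp at hl
  · refine (sum_le_sum_of_ne_zero (t := Un (μ b)) fun z _ hz => ?_).trans
      ((sum_le_sum fun z hz => card_le_card fun l hl => ?_).trans (q5 b hb q _ (hh b')).le)
    · by_contra e
      rw [if_neg fun e' => e e'.1] at hz
      simp at hz
    · obtain ⟨h1, h2⟩ := mem_filter.1 hl
      split_ifs at h1 with e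
      · refine mem_sdiff.2 ⟨h1, fun h3 => h2 ?_⟩
        have h4 : dif (update κ q z) (update (μ b) q z) ⊆ (homes κ b).erase q := by
          intro p hp
          rw [mem_dif] at hp
          have e' : p ≠ q := fun e' => hp (by rw [e', update_self, update_self])
          rw [update_of_ne e', update_of_ne e'] at hp
          exact mem_erase.2 ⟨e', dif_Pl (hμ b hb) ▸ mem_dif.2 hp⟩
        refine ((mem_filter.1 h3).2.1.transfer (k' := k) ?_ ?_).mono le_rfl le_rfl
          (erase_subset_erase _ (union_subset_union (q1 b hb) Subset.rfl)) fun _ h => h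
        · exact h4.trans (erase_subset_erase _ ((q1 b hb).trans subset_union_left))
        · have h5 := (card_le_card h4).trans (card_erase_le.trans (hh b))
          omega
      · simp at h1
  · split_ifs at hl with e
    · exact e.2
    · simp at hl

theorem npairs_eq (G : SimpleGraph V) (P : (V → C) → C → Prop) :
    npairs G P = ∑ κ ∈ Om G C, (univ.filter (P κ)).card := by
  rw [npairs, card_filter, sum_product]
  exact sum_congr rfl fun κ _ => (card_filter _ _).symm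

theorem npairs_mono {G : SimpleGraph V} {P P' : (V → C) → C → Prop}
    (h : ∀ κ x, Proper G κ → P κ x → P' κ x) : npairs G P ≤ npairs G P' :=
  card_le_card fun p hp =>
    let ⟨h1, h2⟩ := mem_filter.1 hp
    mem_filter.2 ⟨h1, h _ _ (mem_Om.1 (mem_product.1 h1).1) h2⟩

theorem npairs_or (G : SimpleGraph V) (P P' : (V → C) → C → Prop) :
    npairs G (fun κ x => P κ x ∨ P' κ x) ≤ npairs G P + npairs G P' := by
  unfold npairs
  refine le_trans (card_le_card fun p hp => ?_) (card_union_le _ _)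
  simp only [mem_filter, mem_union] at hp ⊢
  tauto

theorem npairs_exists {ι : Type} [Fintype ι] (G : SimpleGraph V) (P : ι → (V → C) → C → Prop) :
    npairs G (fun κ x => ∃ i, P i κ x) ≤ ∑ i, npairs G (P i) := by
  unfold npairs
  refine le_trans (card_le_card fun p hp => ?_) card_biUnion_le
  simp only [mem_filter, mem_biUnion, mem_univ, true_and] at hp ⊢
  tauto

theorem npairs_le_of {G : SimpleGraph V} {P : (V → C) → C → Prop} {r : ℝ}
    (h : ∀ κ, Proper G κ → ∃ s : Finset C, (∀ x, P κ x → x ∈ s) ∧ (s.card : ℝ) ≤ r) :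
    (npairs G P : ℝ) ≤ r * (Om G C).card := by
  rw [npairs_eq, Nat.cast_sum, mul_comm, ← nsmul_eq_mul]
  refine sum_le_card_nsmul _ _ _ fun κ hκ => ?_
  obtain ⟨s, h1, h2⟩ := h κ (mem_Om.1 hκ)
  exact (Nat.cast_le.2 (card_le_card fun x hx => h1 x (mem_filter.1 hx).2)).trans h2

theorem npairs_base (G : SimpleGraph V) (P : (V → C) → Prop) :
    npairs G (fun κ (_ : C) => P κ) = ((Om G C).filter P).card * Fintype.card C := by
  rw [npairs_eq, card_filter, sum_mul]
  refine sum_congr rfl fun κ _ => ?_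
  split_ifs with h <;> simp [h]

theorem markov {α : Type} (s : Finset α) (f : α → ℕ) (P : ℕ) :
    (s.filter fun x => P < f x).card * (P + 1) ≤ ∑ x ∈ s, f x :=
  (card_nsmul_le_sum (s.filter fun x => P < f x) f (P + 1) fun _ hx => (mem_filter.1 hx).2).trans
    (sum_le_sum_of_subset (filter_subset _ _))

theorem good_bound (N w J k P p2 : ℕ) (c lam β η : ℝ) (hβ : 0 < β) (hη : 0 < η) (hJ : 2 * w ≤ J)
    (hk : J + 4 ≤ k) (hP : 5 * lam ≤ η * P) (hp2 : 30 * N * lam ≤ η * p2) :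
    ∃ ε : ℝ, 0 < ε ∧ ∃ ν0 : ℕ, ∀ (V C Λ : Type) [Fintype V] [Fintype C] [Fintype Λ]
      (G : SimpleGraph V) (ρ : (V → C) → C → Λ → Prop) (E KD : ℕ),
      ν0 ≤ Fintype.card C → Fintype.card V ≤ N * Fintype.card C →
      (Fintype.card Λ : ℝ) ≤ lam * Fintype.card C → Disj G KD ρ → 2 * J + 4 ≤ KD →
      (atyp G C c : ℝ) ≤ ε * (Om G C).card →
      (npairs G (fun κ x => x ∈ Un κ ∧ cnt (ρ κ x) < E) : ℝ) ≤
        ε * (Om G C).card * Fintype.card C →
      (npairs G (fun κ x => x ∈ Un κ ∧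
        ¬ Good G ρ E w J k (k + 3 * w + 6) P (p2 * Fintype.card C) c β κ x) : ℝ) ≤
        η * (Om G C).card * Fintype.card C := by
  obtain ⟨ε, hε, ν0, hvl⟩ := vl_bound N w (k + 4 * w + 6) lam β (η / 5) hβ (by positivity)
    (by omega)
  obtain ⟨ν1, hν1⟩ := exists_nat_ge (10 * (w + 1) ^ 4 * (k + 2) * lam / (β * η))
  refine ⟨min ε (η / 5), by positivity, max ν0 (ν1 + 1), ?_⟩
  intro V C Λ _ _ _ G ρ E KD hν hV hΛ hD hKD hat hinv
  set ν := Fintype.card C with hνdef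
  have hν0 : (0 : ℝ) < ν := by exact_mod_cast (by omega : 0 < ν)
  have hlam : 0 ≤ lam := by
    clear * - lam Λ ν hΛ hν0
    by_contra e
    have : (0 : ℝ) ≤ Fintype.card Λ := Nat.cast_nonneg _
    linarith only [hΛ, hν0, e, mul_pos_of_neg_of_neg (Mathlib.Tactic.Linarith.sub_neg_of_lt hν0) (Mathlib.Tactic.Linarith.sub_neg_of_lt (lt_of_not_ge e))]
  have hO : (0 : ℝ) ≤ (Om G C).card := Nat.cast_nonneg _
  have b4 := hvl V C Λ G ρ E KD (by omega) hV hΛ hD (by omega)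
    (hinv.trans (by clear * - ν ε η V C G hν0 hinv; gcongr; exact min_le_left _ _))
  rw [show k + 4 * w + 6 - w = k + 3 * w + 6 by omega] at b4
  have b1 : (npairs G (fun κ (_ : C) => ((Un κ).card : ℝ) < c * ν) : ℝ) ≤
      η / 5 * (Om G C).card * ν := by
    clear * - V C G c ν η ε hat hν0
    rw [npairs_base, Nat.cast_mul]
    gcongr
    exact hat.trans (by gcongr; exact min_le_right _ _)
  have b2 : (npairs G (fun κ x => x ∈ Un κ ∧ P < cnt (Own G ρ J k κ x)) : ℝ) ≤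
      η / 5 * ν * (Om G C).card := by
    clear * - V C G P Λ ρ J k η ν KD hD hk hKD lam hΛ hη hP
    refine npairs_le_of fun κ hκ => ?_
    have h1 := (markov (Un κ) (fun x => cnt (Own G ρ J k κ x)) P).trans (own_sum hD hκ hk hKD)
    refine ⟨(Un κ).filter fun x => P < cnt (Own G ρ J k κ x), fun x hx => mem_filter.2 hx, ?_⟩
    generalize ((Un κ).filter fun x => P < cnt (Own G ρ J k κ x)).card = s at h1 ⊢
    have h2 : (s : ℝ) * (P + 1) ≤ Fintype.card Λ := by exact_mod_cast h1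
    refine le_of_mul_le_mul_right (a := (P : ℝ) + 1) ?_ (by positivity)
    linarith only [hΛ, h2, hη, hP, mul_nonneg_of_nonpos_of_nonpos (Mathlib.Tactic.Linarith.sub_nonpos_of_le (Mathlib.Tactic.Linarith.natCast_nonneg ℝ ν)) (le_of_lt (Mathlib.Tactic.Linarith.sub_neg_of_lt hη)), mul_nonneg_of_nonpos_of_nonpos (Mathlib.Tactic.Linarith.sub_nonpos_of_le (Mathlib.Tactic.Linarith.natCast_nonneg ℝ ν)) (Mathlib.Tactic.Linarith.sub_nonpos_of_le hP)]
  have b3 : (npairs G (fun κ x => x ∈ Un κ ∧ p2 * ν < ∑ q, ∑ z ∈ Un κ,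
      cnt (fun l => RR G ρ (J + 1) k (update κ q z) x l ∧ ¬ Own G ρ J k κ x l)) : ℝ) ≤
      η / 5 * ν * (Om G C).card := by
    clear * - V C G p2 ν Λ ρ J k η KD hD hk hKD N hV lam hΛ hν0 hp2 hη
    refine npairs_le_of fun κ hκ => ?_
    have h1 := (markov (Un κ) (fun x => ∑ q, ∑ z ∈ Un κ,
      cnt (fun l => RR G ρ (J + 1) k (update κ q z) x l ∧ ¬ Own G ρ J k κ x l)) (p2 * ν)).trans
      (p2_sum hD hκ hk hKD)
    refine ⟨(Un κ).filter fun x => p2 * ν < ∑ q, ∑ z ∈ Un κ,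
      cnt (fun l => RR G ρ (J + 1) k (update κ q z) x l ∧ ¬ Own G ρ J k κ x l),
      fun x hx => mem_filter.2 hx, ?_⟩
    generalize ((Un κ).filter fun x => p2 * ν < ∑ q, ∑ z ∈ Un κ,
      cnt (fun l => RR G ρ (J + 1) k (update κ q z) x l ∧ ¬ Own G ρ J k κ x l)).card = s at h1 ⊢
    have h2 : (s : ℝ) * (p2 * ν + 1) ≤ 6 * Fintype.card V * Fintype.card Λ := by exact_mod_cast h1
    have h3 : (Fintype.card V : ℝ) ≤ N * ν := by exact_mod_cast hV
    have h4 : (6 : ℝ) * Fintype.card V * Fintype.card Λ ≤ 6 * (N * ν) * (lam * ν) := by gcongr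
    have h5 : 30 * N * lam * (ν * ν) ≤ η * p2 * (ν * ν) := by gcongr
    refine le_of_mul_le_mul_right (a := (p2 : ℝ) * ν + 1) ?_ (by positivity)
    linarith only [h2, h4, h5, hη, mul_nonneg_of_nonpos_of_nonpos (Mathlib.Tactic.Linarith.sub_nonpos_of_le (Mathlib.Tactic.Linarith.natCast_nonneg ℝ ν)) (le_of_lt (Mathlib.Tactic.Linarith.sub_neg_of_lt hη))]
  have b5 : (npairs G (fun κ x => x ∈ Un κ ∧ ∃ Q : Finset V, Q.card ≤ w ∧ β * (ν : ℝ) ^ Q.card <
      ((Pl κ Q).filter (DPbad G ρ w J k (k + 3 * w + 6) κ x Q)).card) : ℝ) ≤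
      η / 5 * ν * (Om G C).card := by
    clear * - V C G w β ν Λ ρ J k η KD hD hJ N ν0 ν1 hKD hβ hν lam hη hν1 hΛ hν0
    refine npairs_le_of fun κ hκ => ?_
    have h1 := dp_bound (K := k + 3 * w + 6) (k := k) hD hκ hJ (by omega) (by omega) (by omega) hβ
    refine ⟨_, fun x hx => mem_filter.2 hx, le_of_mul_le_mul_right (h1.trans ?_) (by positivity)⟩
    have h2 : (ν1 : ℝ) ≤ ν := by exact_mod_cast (by omega : ν1 ≤ ν)
    have h3 := (div_le_iff₀ (by positivity)).1 (hν1.trans h2)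
    calc _ ≤ 2 * ((w : ℝ) + 1) ^ 4 * (k + 2) * (lam * ν) := by gcongr
      _ = 10 * ((w : ℝ) + 1) ^ 4 * (k + 2) * lam * (ν / 5) := by ring
      _ ≤ ν * (β * η) * (ν / 5) := by gcongr
      _ = _ := by ring
  have h1 := npairs_mono (G := G) (P := fun κ x => x ∈ Un κ ∧
      ¬ Good G ρ E w J k (k + 3 * w + 6) P (p2 * ν) c β κ x) (P' := fun κ x => _ ∨ _ ∨ _ ∨ _ ∨ _)
    fun κ x _ hx => by
      obtain ⟨hx, h⟩ := hx
      simp only [Good, not_and_or, not_le, not_forall, exists_prop] at h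
      exact h.imp id (Or.imp (And.intro hx) (Or.imp (And.intro hx)
        (Or.imp (And.intro hx) (And.intro hx))))
  have h2 := h1.trans ((npairs_or _ _ _).trans (Nat.add_le_add_left ((npairs_or _ _ _).trans
    (Nat.add_le_add_left ((npairs_or _ _ _).trans (Nat.add_le_add_left (npairs_or _ _ _) _)) _)) _))
  have h3 := (Nat.cast_le (α := ℝ)).2 h2
  push_cast at h3
  clear * - V C G Λ ρ E w J k P p2 ν c β η b4 b1 b2 b3 b5 h3
  linarith only [b4, b1, b2, b3, b5, h3]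

end Pool.Agent.Work.MP_418764_co.All
end

-- merged part: Pool.Agent.Work.MP_418764_co.ACross
section
namespace Pool.Agent.Work.MP_418764_co.All
open Finset Function Classical

variable {V C Λ : Type} [Fintype V] [Fintype C] [Fintype Λ]
variable {G : SimpleGraph V} {ρ T : (V → C) → C → Λ → Prop} {fib : V → ℤ}
  {J k A B K K' N : ℕ} {l : Λ} {D DT NT : Set V}

theorem dif_update_update (κ κ' : V → C) (q q' : V) (z z' : C) :
    (dif (update κ q z) (update κ' q' z')).card ≤ (dif κ κ').card + 2 := by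
  have h1 := dif_card_le (update κ q z) κ (update κ' q' z')
  have h2 := dif_card_le κ κ' (update κ' q' z')
  have h3 := dif_update_card κ q z
  have h4 := dif_update_card κ' q' z'
  rw [dif_comm] at h3
  omega

theorem mem_moved {κ : V → C} {q p : V} {z c b : C} (hz : z ≠ b) (h : update κ q z p = b) :
    p ∈ (homes κ c ∪ homes κ b).erase q := by
  have hp : p ≠ q := fun e => hz (by rw [← h, e, update_self])
  rw [update_of_ne hp] at h
  exact mem_erase.2 ⟨hp, mem_union_right _ (mem_homes.2 h)⟩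

theorem choose_At {X : Finset C} {P : V → Prop} {R : C → V → C → Prop}
    (h : ∀ c ∈ X, ∃ q, P q ∧ ∃ At : Finset C, At.card ≤ A ∧ ∀ b ∉ At, R c q b) :
    ∃ At : C → Finset C, (∀ c ∈ X, (At c).card ≤ A) ∧
      ∀ c ∈ X, ∃ q, P q ∧ ∀ b ∉ At c, R c q b := by
  have h' : ∀ c ∈ X, ∃ At : Finset C, At.card ≤ A ∧ ∃ q, P q ∧ ∀ b ∉ At, R c q b := fun c hc =>
    let ⟨q, h1, At, h2, h3⟩ := h c hc
    ⟨At, h2, q, h1, h3⟩
  choose! At h1 h2 using h'
  exact ⟨At, h1, h2⟩

theorem SS_cross (h : Cross G K D D D D (fun μ x => ρ μ x l) fun μ x => ρ μ x l)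
    (hB : 2 * A + 4 ≤ B) (hk : K' + J + 3 ≤ k) (hK : K' + 2 + 2 * J ≤ K) (F F' : ℤ) :
    Cross G K' D D D D (fun μ x => SS G ρ fib J k A B F μ x l)
      fun μ x => SS G ρ fib J k A B F' μ x l := by
  rintro κ κ' z z' ⟨-, -, X, hX, h1⟩ ⟨-, -, X', hX', h2⟩ c3 c4 c5 c6 c7
  obtain ⟨At, hAt, hN⟩ := choose_At h1
  obtain ⟨At', hAt', hN'⟩ := choose_At h2
  obtain ⟨c, hc, c', hc', e1, e2, e3, e4, e5⟩ := exists_pair hX hX' hB At At' hAt hAt' z' z
  obtain ⟨q, hq, hN⟩ := hN c hc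
  obtain ⟨q', hq', hN'⟩ := hN' c' hc'
  refine hd (δ := K' + 2) h (hN c' e4) (hN' c e5)
    ((dif_update_update _ _ _ _ _ _).trans (by omega)) (fun p hp p' hp' hpp => ?_) e1
    (fun p _ e => mem_moved e2.symm e) (fun p _ e => mem_moved e3.symm e) (by omega) (by omega)
    (by omega)
  by_cases e : p = q <;> by_cases e' : p' = q'
  · rw [e, e', update_self, update_self]
    exact c5
  · rw [e, update_self, update_of_ne e']
    exact (c6 p' hp').symm
  · rw [e', update_self, update_of_ne e]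
    exact c7 p hp
  · rw [update_of_ne e, update_of_ne e']
    exact c4 p hp p' hp' hpp

theorem SS_deg (h : Cross G K D D D D (fun μ x => ρ μ x l) fun μ x => ρ μ x l)
    (hB : 2 * A + 4 ≤ B) (hk : J + 3 ≤ k) (hK : 2 + 2 * J ≤ K) {F F' : ℤ} {κ : V → C} {z : C}
    (h1 : SS G ρ fib J k A B F κ z l) (h2 : SS G ρ fib J k A B F' κ z l) :
    ∃ q q', q ∈ D ∧ q' ∈ D ∧ fib q = F ∧ fib q' = F' ∧ G.Adj q q' := by
  obtain ⟨hκ, hz, X, hX, h1⟩ := h1
  obtain ⟨-, -, X', hX', h2⟩ := h2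
  obtain ⟨At, hAt, hN⟩ := choose_At h1
  obtain ⟨At', hAt', hN'⟩ := choose_At h2
  obtain ⟨c, hc, c', hc', e1, e2, e3, e4, e5⟩ := exists_pair hX hX' hB At At' hAt hAt' z z
  obtain ⟨q, hq, hN⟩ := hN c hc
  obtain ⟨q', hq', hN'⟩ := hN' c' hc'
  by_contra hn
  refine hd (δ := 2) h (hN c' e4) (hN' c e5)
    ((dif_update_update _ _ _ _ _ _).trans (by simp [dif_self])) (fun p hp p' hp' hpp => ?_) e1
    (fun p _ e => mem_moved e2.symm e) (fun p _ e => mem_moved e3.symm e) (by omega) (by omega)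
    (by omega)
  by_cases e : p = q <;> by_cases e' : p' = q'
  · exact absurd ⟨p, p', hp, hp', e ▸ hq, e' ▸ hq', hpp⟩ hn
  · rw [e, update_self, update_of_ne e']
    exact (mem_Un.1 hz p').symm
  · rw [e', update_self, update_of_ne e]
    exact mem_Un.1 hz p
  · rw [update_of_ne e, update_of_ne e']
    exact hκ p p' hpp

theorem exists_key {X At : Finset C} (hX : B ≤ X.card) (hAt : At.card ≤ A)
    (hB : 2 * A + 4 ≤ B) (y : C) : ∃ c ∈ X, c ∉ At ∧ c ≠ y := by
  obtain ⟨c, hc, h⟩ := exists_mem_notMem_of_card_lt_card (s := insert y At) (t := X)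
    (by have := card_insert_le y At; omega)
  exact ⟨c, hc, fun e => h (mem_insert_of_mem e), fun e => h (e ▸ mem_insert_self _ _)⟩

theorem exists_free {At : Finset C} (hAt : At.card ≤ A) (hA : A < Fintype.card C) :
    ∃ b, b ∉ At := by
  obtain ⟨b, -, h⟩ := exists_mem_notMem_of_card_lt_card (s := At) (t := univ)
    (by rw [card_univ]; omega)
  exact ⟨b, h⟩

theorem SS_Rob_cross
    (h : Cross G K D DT (D ∩ NT) DT (fun μ x => ρ μ x l) fun μ x => T μ x l)
    (hB : 2 * A + 4 ≤ B) (hA : A < Fintype.card C) (hk : K' + J + 3 ≤ k)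
    (hK : K' + 1 + J + N ≤ K) (F : ℤ) :
    Cross G K' D DT (D ∩ NT) DT (fun μ x => SS G ρ fib J k A B F μ x l)
      fun μ x => Rob G T N k A μ x l := by
  rintro κ κ' z x' ⟨-, -, X, hX, h1⟩ ⟨-, At', hAt', h2⟩ c3 c4 c5 c6 c7
  obtain ⟨c, hc, e1, e2⟩ := exists_key hX hAt' hB x'
  obtain ⟨q, -, At, hAt, hN⟩ := h1 c hc
  obtain ⟨b, hb⟩ := exists_free hAt hA
  have hδ : (dif (update κ q z) κ').card ≤ K' + 1 := by
    have h1 := dif_card_le (update κ q z) κ κ'
    have h3 := dif_update_card κ q z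
    rw [dif_comm] at h3
    omega
  refine hd h (hN b hb) (h2 c e1) hδ (fun p hp p' hp' hpp => ?_) e2
    (fun p _ e => mem_homes.2 e) (fun p hp e => ?_) (by omega) (by omega) (by omega)
  · by_cases e : p = q
    · rw [e, update_self]
      exact (c6 p' hp').symm
    · rw [update_of_ne e]
      exact c4 p hp p' hp' hpp
  · by_cases e' : p = q
    · rw [e', update_self] at e
      exact absurd e c5
    · rw [update_of_ne e'] at e
      exact absurd e (c7 p hp)

theorem SS_tok (h : Cross G K D DT (D ∩ NT) DT (fun μ x => ρ μ x l) fun μ x => T μ x l)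
    (hB : 2 * A + 4 ≤ B) (hA : A < Fintype.card C) (hk : J + 3 ≤ k) (hK : 1 + J + N ≤ K)
    {F : ℤ} {κ : V → C} {z : C} (h1 : SS G ρ fib J k A B F κ z l) (h2 : Rob G T N k A κ z l) :
    ∃ q ∈ NT, fib q = F := by
  obtain ⟨hκ, hz, X, hX, h1⟩ := h1
  obtain ⟨-, At', hAt', h2⟩ := h2
  obtain ⟨c, hc, e1, e2⟩ := exists_key hX hAt' hB z
  obtain ⟨q, hq, At, hAt, hN⟩ := h1 c hc
  obtain ⟨b, hb⟩ := exists_free hAt hA
  by_contra hn
  refine hd (δ := 1) h (hN b hb) (h2 c e1) (by rw [dif_comm]; exact dif_update_card κ q z)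
    (fun p hp p' hp' hpp => ?_) e2 (fun p _ e => mem_homes.2 e) (fun p hp e => ?_) (by omega)
    (by omega) (by omega)
  · by_cases e : p = q
    · rw [e, update_self]
      exact (mem_Un.1 hz p').symm
    · rw [update_of_ne e]
      exact hκ p p' hpp
  · by_cases e' : p = q
    · exact absurd ⟨p, hp.2, e' ▸ hq⟩ hn
    · rw [update_of_ne e'] at e
      exact absurd e (mem_Un.1 hz p)

end Pool.Agent.Work.MP_418764_co.All
end

-- merged part: Pool.Agent.Work.MP_418764_co.AMO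
section
namespace Pool.Agent.Work.MP_418764_co.All
open Finset Function Classical

variable {V C Λ : Type} [Fintype V] [Fintype C] [Fintype Λ]

/-- Double counting with real bounds. -/
theorem AMO.dc {α β : Type} (s : Finset α) (t : Finset β) (r : α → β → Prop) {m n : ℝ}
    (hm : ∀ a ∈ s, ∃ u : Finset β, m ≤ u.card ∧ ∀ b ∈ u, b ∈ t ∧ r a b)
    (hn : ∀ b ∈ t, ∃ u : Finset α, (u.card : ℝ) ≤ n ∧ ∀ a ∈ s, r a b → a ∈ u) :
    s.card * m ≤ t.card * n := by
  have := card_nsmul_le_card_nsmul (R := ℝ) (s := s) (t := t) r (m := m) (n := n)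
    (fun a ha => by
      obtain ⟨u, h1, h2⟩ := hm a ha
      exact h1.trans (Nat.cast_le.2 (card_le_card fun b hb => mem_filter.2 (h2 b hb))))
    (fun b hb => by
      obtain ⟨u, h1, h2⟩ := hn b hb
      exact (Nat.cast_le.2 (card_le_card fun a ha =>
        h2 a (mem_filter.1 ha).1 (mem_filter.1 ha).2)).trans h1)
  simpa [nsmul_eq_mul] using this

theorem AMO.npairs_eq (G : SimpleGraph V) (P : (V → C) → C → Prop) :
    ∃ S : Finset ((V → C) × C), npairs G P = S.card ∧ ∀ p, p ∈ S ↔ Proper G p.1 ∧ P p.1 p.2 :=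
  ⟨_, rfl, fun p => by simp⟩

theorem AMO.mo_slice {G : SimpleGraph V} {u : ℝ} (hu : 0 ≤ u) (Good : (V → C) → C → Prop) (s : ℕ)
    (S : Finset ((V → C) × C)) (hS : ∀ p ∈ S, Proper G p.1 ∧ u ≤ (Un p.1).card ∧
      (¬ ∃ μ ∈ Pl p.1 (homes p.1 p.2), Good μ p.2) ∧ (homes p.1 p.2).card = s) :
    S.card * u ^ s ≤
      (npairs G fun μ x => x ∈ Un μ ∧ ¬ Good μ x : ℝ) * (Fintype.card V : ℝ) ^ s := by
  obtain ⟨R, e, hR⟩ := AMO.npairs_eq G fun μ x => x ∈ Un μ ∧ ¬ Good μ x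
  rw [e]
  refine AMO.dc _ _ (fun p p' => p'.2 = p.2 ∧ p'.1 ∈ Pl p.1 (homes p.1 p.2)) ?_ ?_
  · rintro ⟨κ, b⟩ h
    obtain ⟨h1, h2, h3, h4⟩ := hS _ h
    refine ⟨(Pl κ (homes κ b)).image fun μ => (μ, b), ?_, fun p hp => ?_⟩
    · rw [card_image_of_injective _ (Prod.mk_left_injective b), card_Pl, h4, Nat.cast_pow]
      exact pow_le_pow_left₀ hu h2 s
    · obtain ⟨μ, hμ, rfl⟩ := mem_image.1 hp
      have h5 := Pl_homes h1 hμ
      exact ⟨(hR _).2 ⟨h5.1, h5.2, fun h => h3 ⟨μ, hμ, h⟩⟩, rfl, hμ⟩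
  · rintro ⟨μ, x⟩ -
    refine ⟨(powersetCard s univ).image fun Q => (fun p => if p ∈ Q then x else μ p, x), ?_, ?_⟩
    · rw [← Nat.cast_pow, Nat.cast_le]
      refine card_image_le.trans ?_
      rw [card_powersetCard, card_univ]
      exact Nat.choose_le_pow _ _
    · rintro ⟨κ, b⟩ hp ⟨rfl, h1⟩
      refine mem_image.2 ⟨homes κ x, mem_powersetCard.2 ⟨subset_univ _, (hS _ hp).2.2.2⟩,
        Prod.ext (funext fun p => ?_) rfl⟩
      dsimp only
      split_ifs with h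
      · exact (mem_homes.1 h).symm
      · exact (mem_Pl.1 h1).2 p h

/-- Moving a colour out has bounded density. -/
theorem mo_bound {G : SimpleGraph V} {N : ℕ} {c : ℝ} (hc : 0 < c) (hcN : c ≤ N)
    (hV : Fintype.card V ≤ N * Fintype.card C)
    (hh : ∀ κ : V → C, Proper G κ → ∀ b, (homes κ b).card ≤ N) (Good : (V → C) → C → Prop) :
    (npairs G (fun κ b => c * Fintype.card C ≤ (Un κ).card ∧
      ¬ ∃ μ ∈ Pl κ (homes κ b), Good μ b) : ℝ) ≤
      (N + 1) * (N / c) ^ N * npairs G fun μ x => x ∈ Un μ ∧ ¬ Good μ x := by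
  have h1 : 1 ≤ N / c := (one_le_div hc).2 hcN
  rcases isEmpty_or_nonempty C with hC | hC
  · simp [npairs]
  have hν : (0 : ℝ) < Fintype.card C := by exact_mod_cast Fintype.card_pos
  have hV' : (Fintype.card V : ℝ) ≤ N * Fintype.card C := by exact_mod_cast hV
  obtain ⟨S, e, hS⟩ := AMO.npairs_eq G fun κ b => c * Fintype.card C ≤ (Un κ).card ∧
    ¬ ∃ μ ∈ Pl κ (homes κ b), Good μ b
  rw [e, card_eq_sum_card_fiberwise (f := fun p => (homes p.1 p.2).card) (t := range (N + 1))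
    (fun p hp => mem_coe.2 (mem_range.2 (Nat.lt_succ_iff.2
      (hh p.1 ((hS p).1 (mem_coe.1 hp)).1 p.2)))), Nat.cast_sum]
  refine (sum_le_card_nsmul _ _
    ((N / c) ^ N * npairs G fun μ x => x ∈ Un μ ∧ ¬ Good μ x : ℝ) fun s hs => ?_).trans
    (by simp [mul_assoc])
  refine le_of_mul_le_mul_right ((AMO.mo_slice (G := G) (u := c * Fintype.card C) (by positivity)
    Good s _ fun p hp => ?_).trans ?_) (by positivity)
  · obtain ⟨h2, h3⟩ := mem_filter.1 hp
    obtain ⟨h2, h4⟩ := (hS p).1 h2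
    exact ⟨h2, h4.1, h4.2, h3⟩
  rw [mul_comm ((N / c : ℝ) ^ N), mul_assoc]
  refine mul_le_mul_of_nonneg_left ?_ (by positivity)
  calc (Fintype.card V : ℝ) ^ s ≤ (N / c * (c * Fintype.card C)) ^ s :=
        pow_le_pow_left₀ (by positivity) (hV'.trans_eq (by field_simp)) s
    _ ≤ _ := by
        rw [mul_pow]
        exact mul_le_mul_of_nonneg_right
          (pow_le_pow_right₀ h1 (Nat.lt_succ_iff.1 (mem_range.1 hs))) (by positivity)

/-- Triples where some label is lost when the colour `b` is moved out. -/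
noncomputable def AMO.Fail (G : SimpleGraph V) (T : (V → C) → C → Λ → Prop) (j k : ℕ) :
    Finset ((V → C) × C × C) :=
  univ.filter fun t => Proper G t.1 ∧ (homes t.1 t.2.2).card ≤ j ∧
    ∃ l, T t.1 t.2.1 l ∧ ¬ Hold G j k t.1 (homes t.1 t.2.2) fun a => T a t.2.1 l

/-- Colours on a line that keep a label. -/
noncomputable def AMO.Pop (G : SimpleGraph V) (T : (V → C) → C → Λ → Prop) (κ : V → C) (q : V)
    (x : C) (l : Λ) : Finset C :=
  univ.filter fun a => Proper G (update κ q a) ∧ T (update κ q a) x l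

/-- Typical pairs with an unpopular label in the direction `q`. -/
noncomputable def AMO.Unp (G : SimpleGraph V) (T : (V → C) → C → Λ → Prop) (u g : ℝ) (q : V) :
    Finset ((V → C) × C) :=
  univ.filter fun p => Proper G p.1 ∧ u ≤ (Un p.1).card ∧
    ∃ l, T p.1 p.2 l ∧ ((AMO.Pop G T p.1 q p.2 l).card : ℝ) < g

/-- Failing triples with a popular label. -/
noncomputable def AMO.Two (G : SimpleGraph V) (T : (V → C) → C → Λ → Prop) (j k : ℕ) (g : ℝ) :
    Finset ((V → C) × C × C) :=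
  univ.filter fun t => (homes t.1 t.2.2).card ≤ j + 1 ∧ ∃ l q, t.1 q = t.2.2 ∧
    g ≤ (AMO.Pop G T t.1 q t.2.1 l).card ∧
      ¬ Hold G (j + 1) k t.1 (homes t.1 t.2.2) fun a => T a t.2.1 l

section
variable {G : SimpleGraph V} {T : (V → C) → C → Λ → Prop}

theorem AMO.line (hT : ∀ κ x l, T κ x l → x ∈ Un κ) (hD : Disj G 1 T) (κ : V → C) (q : V) (l : Λ)
    {g : ℝ} (hg : 0 ≤ g) :
    ((univ.filter fun p : C × C => p.2 ∈ AMO.Pop G T κ q p.1 l ∧
      ((AMO.Pop G T κ q p.1 l).card : ℝ) < g).card : ℝ) ≤ 3 * g := by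
  set S := univ.filter fun p : C × C => p.2 ∈ AMO.Pop G T κ q p.1 l ∧
      ((AMO.Pop G T κ q p.1 l).card : ℝ) < g with hS
  have h3 : (S.image Prod.fst).card ≤ 3 := by
    refine three_keys S ?_
    rintro ⟨x, a⟩ h ⟨x', a'⟩ h'
    simp only [hS, AMO.Pop, mem_filter, mem_univ, true_and] at h h'
    by_contra hn
    push Not at hn
    refine hD l _ _ x x' h.1.2 h'.1.2 ?_ (compat_line h.1.1 h'.1.1) hn.1 (fun p _ => ?_)
      fun p _ => ?_
    · have := dif_update_card (update κ q a) q a'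
      rwa [update_idem] at this
    · by_cases e : p = q
      · rw [e, update_self]; exact hn.2.1.symm
      · have := mem_Un.1 (hT _ _ _ h.1.2) p
        rwa [update_of_ne e, ← update_of_ne e a' κ] at this
    · by_cases e : p = q
      · rw [e, update_self]; exact hn.2.2.symm
      · have := mem_Un.1 (hT _ _ _ h'.1.2) p
        rwa [update_of_ne e, ← update_of_ne e a κ] at this
  have h4 := AMO.dc S (S.image Prod.fst) (fun p x => p.1 = x) (m := 1) (n := g)
    (fun p hp => ⟨{p.1}, by simp, fun x hx => by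
      rw [mem_singleton.1 hx]; exact ⟨mem_image_of_mem _ hp, rfl⟩⟩) (fun x hx => by
    obtain ⟨p, hp, rfl⟩ := mem_image.1 hx
    refine ⟨(AMO.Pop G T κ q p.1 l).image fun a => (p.1, a),
      (Nat.cast_le.2 card_image_le).trans (mem_filter.1 hp).2.2.le, fun p' hp' e => ?_⟩
    exact mem_image.2 ⟨p'.2, e ▸ (mem_filter.1 hp').2.1, Prod.ext e.symm rfl⟩)
  have h5 : ((S.image Prod.fst).card : ℝ) ≤ 3 := by exact_mod_cast h3
  linarith only [h4, h5, hg, mul_le_mul_of_nonneg_right h5 hg]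

theorem AMO.unp (hT : ∀ κ x l, T κ x l → x ∈ Un κ) (hD : Disj G 1 T) (q : V) (u : ℝ) {g : ℝ}
    (hg : 0 ≤ g) :
    (AMO.Unp G T u g q).card * u ≤ (Om G C).card * (Fintype.card Λ * (3 * g)) := by
  refine AMO.dc _ _ (fun p κ' => ∃ a, κ' = update p.1 q a) ?_ fun κ' _ => ?_
  · rintro ⟨κ, x⟩ h
    obtain ⟨h1, h2, -⟩ := (mem_filter.1 h).2
    refine ⟨(Un κ).image (update κ q), ?_, fun μ hμ => ?_⟩
    · rwa [card_image_of_injective _ (update_injective κ q)]
    · obtain ⟨a, ha, rfl⟩ := mem_image.1 hμ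
      exact ⟨mem_Om.2 (proper_update_Un h1 ha), a, rfl⟩
  · refine ⟨univ.biUnion fun l => (univ.filter fun p : C × C => p.2 ∈ AMO.Pop G T κ' q p.1 l ∧
      ((AMO.Pop G T κ' q p.1 l).card : ℝ) < g).image fun p => (update κ' q p.2, p.1), ?_, ?_⟩
    · refine (Nat.cast_le.2 card_biUnion_le).trans ?_
      rw [Nat.cast_sum]
      refine (sum_le_card_nsmul _ _ (3 * g) fun l _ =>
        (Nat.cast_le.2 card_image_le).trans (AMO.line hT hD κ' q l hg)).trans ?_
      rw [nsmul_eq_mul, card_univ]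
    · rintro ⟨κ, x⟩ h ⟨a, e⟩
      obtain ⟨h1, -, l, h2, h3⟩ := (mem_filter.1 h).2
      have e1 : ∀ a, update κ' q a = update κ q a := fun a => by rw [e, update_idem]
      have e2 : AMO.Pop G T κ' q x l = AMO.Pop G T κ q x l := by simp only [AMO.Pop, e1]
      refine mem_biUnion.2 ⟨l, mem_univ _, mem_image.2 ⟨(x, κ q), mem_filter.2 ⟨mem_univ _, ?_,
        e2 ▸ h3⟩, by simp only [e1, update_eq_self]⟩⟩
      simp only [AMO.Pop, mem_filter, mem_univ, true_and, e1, update_eq_self]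
      exact ⟨h1, h2⟩

theorem AMO.two (j k : ℕ) (g : ℝ) :
    (AMO.Two G T j k g).card * (g - (k + 1)) ≤ (AMO.Fail G T j (k + 1)).card * Fintype.card V := by
  refine AMO.dc _ _ (fun t t' => t'.2 = t.2 ∧ ∃ q, t.1 = update t'.1 q t.2.2) ?_ ?_
  · rintro ⟨κ, x, b⟩ h
    obtain ⟨h1, l, q, h2, h3, h4⟩ := (mem_filter.1 h).2
    dsimp only at h1 h2 h3 h4
    set P := (AMO.Pop G T κ q x l).erase b with hP
    have hh : ∀ a, a ≠ b → homes (update κ q a) b = (homes κ b).erase q := fun a ha => by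
      ext p
      by_cases e : p = q
      · simp [e, ha]
      · simp [e]
    have k1 : (P.filter fun a => (update κ q a, x, b) ∉ AMO.Fail G T j (k + 1)).card ≤ k := by
      by_contra hc
      refine h4 fun Z hZ => ?_
      obtain ⟨a, ha, haZ⟩ := exists_mem_notMem_of_card_lt_card (hZ.trans_lt (not_le.1 hc))
      obtain ⟨ha, hf⟩ := mem_filter.1 ha
      obtain ⟨hab, ha⟩ := mem_erase.1 ha
      obtain ⟨a1, a2⟩ := (mem_filter.1 ha).2
      have a3 : Hold G j (k + 1) (update κ q a) ((homes κ b).erase q) fun μ => T μ x l := by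
        by_contra hn
        refine hf (mem_filter.2 ⟨mem_univ _, a1, ?_, l, a2, by rwa [hh a hab]⟩)
        rw [hh a hab, card_erase_of_mem (mem_homes.2 h2)]
        exact Nat.sub_le_of_le_add h1
      have a4 := dif_update_card κ q a
      obtain ⟨μ, m1, m2, m3, m4⟩ := comp1 (Mv_update_of_proper haZ a1) a3 (by omega)
      refine ⟨μ, m1, fun p hp => m2 ?_, by omega, m4⟩
      by_cases e : p = q
      · exact mem_union_left _ (mem_dif.2 (by rw [e, update_self, h2]; exact hab))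
      · exact mem_union_right _ (mem_erase.2 ⟨e, hp⟩)
    have k2 := card_filter_add_card_filter_not (s := P)
      fun a => (update κ q a, x, b) ∈ AMO.Fail G T j (k + 1)
    have k3 : (AMO.Pop G T κ q x l).card ≤ P.card + 1 :=
      Nat.le_add_of_sub_le pred_card_le_card_erase
    refine ⟨(P.filter fun a => (update κ q a, x, b) ∈ AMO.Fail G T j (k + 1)).image
      fun a => (update κ q a, x, b), ?_, fun t ht => ?_⟩
    · rw [card_image_of_injective _ fun a a' e => update_injective κ q (Prod.ext_iff.1 e).1]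
      have k5 : (AMO.Pop G T κ q x l).card ≤ (P.filter
        fun a => (update κ q a, x, b) ∈ AMO.Fail G T j (k + 1)).card + (k + 1) := by omega
      have k6 := (Nat.cast_le (α := ℝ)).2 k5
      push_cast at k6
      linarith only [h3, k6]
    · obtain ⟨a, ha, rfl⟩ := mem_image.1 ht
      refine ⟨(mem_filter.1 ha).2, rfl, q, ?_⟩
      dsimp only
      rw [update_idem, ← h2, update_eq_self]
  · rintro ⟨κ', x, b⟩ -
    refine ⟨univ.image fun q => (update κ' q b, x, b),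
      Nat.cast_le.2 (card_image_le.trans card_univ.le), ?_⟩
    rintro ⟨κ, x', b'⟩ - ⟨e, q, h⟩
    obtain ⟨rfl, rfl⟩ := Prod.ext_iff.1 e
    exact mem_image.2 ⟨q, mem_univ _, Prod.ext h.symm rfl⟩

theorem AMO.split (j k : ℕ) (c g : ℝ) :
    (AMO.Fail G T (j + 1) k).card ≤ atyp G C c * (Fintype.card C * Fintype.card C) +
      ∑ q, (AMO.Unp G T (c * Fintype.card C) g q).card + (AMO.Two G T j k g).card := by
  have h1 : AMO.Fail G T (j + 1) k ⊆
      (((Om G C).filter fun κ => ((Un κ).card : ℝ) < c * Fintype.card C) ×ˢ univ ∪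
        univ.biUnion fun q => (AMO.Unp G T (c * Fintype.card C) g q).image
          fun p => (p.1, p.2, p.1 q)) ∪ AMO.Two G T j k g := by
    rintro ⟨κ, x, b⟩ h
    obtain ⟨h1, h2, l, h3, h4⟩ := (mem_filter.1 h).2
    dsimp only at h1 h2 h3 h4
    obtain ⟨q, hq⟩ : (homes κ b).Nonempty := by
      rw [nonempty_iff_ne_empty]
      exact fun e => h4 (e ▸ Hold.of_self h3)
    rw [mem_homes] at hq
    by_cases e1 : ((Un κ).card : ℝ) < c * Fintype.card C
    · exact mem_union_left _ (mem_union_left _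
        (mem_product.2 ⟨mem_filter.2 ⟨mem_Om.2 h1, e1⟩, mem_univ _⟩))
    by_cases e2 : ((AMO.Pop G T κ q x l).card : ℝ) < g
    · exact mem_union_left _ (mem_union_right _ (mem_biUnion.2 ⟨q, mem_univ _, mem_image.2
        ⟨(κ, x), mem_filter.2 ⟨mem_univ _, h1, not_lt.1 e1, l, h3, e2⟩, by rw [← hq]⟩⟩))
    · exact mem_union_right _ (mem_filter.2 ⟨mem_univ _, h2, l, q, hq, not_lt.1 e2, h4⟩)
  refine (card_le_card h1).trans ((card_union_le _ _).trans (Nat.add_le_add_right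
    ((card_union_le _ _).trans (Nat.add_le_add (le_of_eq ?_) ?_)) _))
  · rw [card_product, card_univ, Fintype.card_prod, atyp]
  · exact card_biUnion_le.trans (sum_le_sum fun q _ => card_image_le)

end

theorem AMO.fail (N : ℕ) (c lam : ℝ) (hc : 0 < c) (hlam : 0 < lam) (j : ℕ) :
    ∀ (k : ℕ) (η : ℝ), 0 < η → ∃ ε : ℝ, 0 < ε ∧ ∃ ν0 : ℕ,
      ∀ (V C Λ : Type) [Fintype V] [Fintype C] [Fintype Λ] (G : SimpleGraph V)
        (T : (V → C) → C → Λ → Prop), ν0 ≤ Fintype.card C →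
        Fintype.card V ≤ N * Fintype.card C → (Fintype.card Λ : ℝ) ≤ lam * Fintype.card C →
        (∀ κ x l, T κ x l → x ∈ Un κ) → Disj G 1 T → (atyp G C c : ℝ) ≤ ε * (Om G C).card →
        ((AMO.Fail G T j k).card : ℝ) ≤ η * (Om G C).card * (Fintype.card C : ℝ) ^ 2 := by
  induction j with
  | zero =>
    refine fun k η hη => ⟨1, one_pos, 0, fun V C Λ _ _ _ G T _ _ _ _ _ _ => ?_⟩
    have : AMO.Fail G T 0 k = ∅ := by
      refine filter_eq_empty_iff.2 fun t _ ⟨_, h2, l, h3, h4⟩ => h4 ?_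
      rw [card_eq_zero.1 (Nat.le_zero.1 h2)]
      exact Hold.of_self h3
    rw [this, card_empty, Nat.cast_zero]
    positivity
  | succ j ih =>
    intro k η hη
    set γ := η * c / (9 * (N + 1) * lam) with hγ
    have hγ0 : 0 < γ := by positivity
    obtain ⟨ε, hε, ν0, h⟩ := ih (k + 1) (η * γ / (6 * (N + 1))) (by positivity)
    refine ⟨min ε (η / 3), lt_min hε (by positivity), max ν0 ⌈2 * (k + 1) / γ⌉₊,
      fun V C Λ _ _ _ G T h1 h2 h3 h4 h5 h6 => ?_⟩
    have hO : (0 : ℝ) ≤ (Om G C).card := Nat.cast_nonneg _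
    have k1 := h V C Λ G T (le_of_max_le_left h1) h2 h3 h4 h5
      (h6.trans (mul_le_mul_of_nonneg_right (min_le_left _ _) hO))
    have k2 := h6.trans (mul_le_mul_of_nonneg_right (min_le_right _ _) hO)
    have k3 : 2 * (k + 1) ≤ Fintype.card C * γ :=
      (div_le_iff₀ hγ0).1 (Nat.ceil_le.1 (le_of_max_le_right h1))
    have hν : (0 : ℝ) < Fintype.card C :=
      pos_of_mul_pos_left (lt_of_lt_of_le (by positivity) k3) hγ0.le
    have hV : (Fintype.card V : ℝ) ≤ (N + 1) * Fintype.card C := by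
      have : (Fintype.card V : ℝ) ≤ N * Fintype.card C := by exact_mod_cast h2
      linarith only [hν, this]
    set ν : ℝ := (Fintype.card C : ℝ) with hνd
    have k4 := (Nat.cast_le (α := ℝ)).2 (AMO.split (G := G) (T := T) j k c (γ * ν))
    push_cast at k4
    have k5 : ∀ q, ((AMO.Unp G T (c * ν) (γ * ν) q).card : ℝ) ≤
        η / (3 * (N + 1)) * (Om G C).card * ν := fun q => by
      clear * - c ν V C Λ G T γ q η N h4 h5 lam hη hc hlam hν h3 hγ
      refine le_of_mul_le_mul_right ((AMO.unp h4 h5 q (c * ν) (by positivity)).trans ?_)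
        (by positivity)
      calc ((Om G C).card : ℝ) * (Fintype.card Λ * (3 * (γ * ν)))
          ≤ (Om G C).card * (lam * ν * (3 * (γ * ν))) := by gcongr
        _ = _ := by rw [hγ]; field_simp; norm_num
    have k6 : ∑ q, ((AMO.Unp G T (c * ν) (γ * ν) q).card : ℝ) ≤ η / 3 * (Om G C).card * ν ^ 2 := by
      clear * - V C Λ G T c ν γ η N k5 hV hη hν
      refine (sum_le_card_nsmul _ _ _ fun q _ => k5 q).trans ?_
      rw [nsmul_eq_mul, card_univ]
      exact (mul_le_mul_of_nonneg_right hV (by positivity)).trans_eq (by field_simp)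
    have k7 : ((AMO.Two G T j k (γ * ν)).card : ℝ) ≤ η / 3 * (Om G C).card * ν ^ 2 := by
      clear * - γ ν V C Λ G T j k η N c lam k3 k1 hV hη hc hlam hν hγ0
      refine le_of_mul_le_mul_right ?_ (show 0 < γ * ν / 2 by positivity)
      calc ((AMO.Two G T j k (γ * ν)).card : ℝ) * (γ * ν / 2)
          ≤ (AMO.Two G T j k (γ * ν)).card * (γ * ν - (k + 1)) :=
            mul_le_mul_of_nonneg_left (by linarith only [k3]) (Nat.cast_nonneg _)
        _ ≤ _ := AMO.two j k _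
        _ ≤ η * γ / (6 * (N + 1)) * (Om G C).card * ν ^ 2 * ((N + 1) * ν) :=
            mul_le_mul k1 hV (Nat.cast_nonneg _) (by positivity)
        _ = _ := by field_simp; ring
    rw [← hνd] at k4
    linarith only [k4, k6, k7, k2, hν, mul_le_mul_of_nonneg_right k2 (show 0 ≤ ν * ν by positivity)]

/-- Robustness lemma: almost all labels survive moving out almost every colour. -/
theorem rl_bound (N k : ℕ) (c lam θ η : ℝ) (hc : 0 < c) (hθ : 0 < θ) (hη : 0 < η) :
    ∃ ε : ℝ, 0 < ε ∧ ∃ ν0 : ℕ, ∀ (V C Λ : Type) [Fintype V] [Fintype C] [Fintype Λ]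
      (G : SimpleGraph V) (T : (V → C) → C → Λ → Prop) (A : ℕ),
      ν0 ≤ Fintype.card C → Fintype.card V ≤ N * Fintype.card C →
      (Fintype.card Λ : ℝ) ≤ lam * Fintype.card C →
      (∀ κ : V → C, Proper G κ → ∀ b, (homes κ b).card ≤ N) →
      (∀ κ x l, T κ x l → x ∈ Un κ) → Disj G 1 T → θ * Fintype.card C ≤ A →
      (atyp G C c : ℝ) ≤ ε * (Om G C).card →
      (npairs G (fun κ x => ∃ l, T κ x l ∧ ¬ Rob G T N k A κ x l) : ℝ) ≤
        η * (Om G C).card * Fintype.card C := by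
  obtain ⟨ε, hε, ν0, h⟩ := AMO.fail N c (|lam| + 1) hc (by positivity) N k (η * θ) (by positivity)
  refine ⟨ε, hε, max ν0 1, fun V C Λ _ _ _ G T A h1 h2 h3 h4 h5 h6 h7 h8 => ?_⟩
  have hν : (0 : ℝ) < Fintype.card C := by exact_mod_cast le_of_max_le_right h1
  have k1 := h V C Λ G T (le_of_max_le_left h1) h2
    (h3.trans (mul_le_mul_of_nonneg_right (by linarith only [le_abs_self lam]) hν.le)) h5 h6 h8
  obtain ⟨S, e, hS⟩ := AMO.npairs_eq G fun κ x => ∃ l, T κ x l ∧ ¬ Rob G T N k A κ x l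
  have k2 := AMO.dc S (AMO.Fail G T N k)
    (fun p t => p = (t.1, t.2.1)) (m := θ * Fintype.card C) (n := 1) (by
      rintro ⟨κ, x⟩ hp
      obtain ⟨a3, l, a1, a2⟩ := (hS _).1 hp
      have a4 : A < (univ.filter fun b => ¬ Hold G N k κ (homes κ b) fun a => T a x l).card := by
        by_contra hn
        exact a2 ⟨a1, _, not_lt.1 hn, fun b hb => by simpa using hb⟩
      refine ⟨(univ.filter fun b => ¬ Hold G N k κ (homes κ b) fun a => T a x l).image
        fun b => (κ, x, b), h7.trans (Nat.cast_le.2 ?_), fun t ht => ?_⟩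
      · rw [card_image_of_injective _ fun _ _ e => by simpa using e]
        exact a4.le
      · obtain ⟨b, hb, rfl⟩ := mem_image.1 ht
        exact ⟨mem_filter.2 ⟨mem_univ _, a3, h4 κ a3 b, l, a1, (mem_filter.1 hb).2⟩, rfl⟩)
    (fun t _ => ⟨{(t.1, t.2.1)}, by simp, fun p _ e => mem_singleton.2 e⟩)
  rw [e]
  refine le_of_mul_le_mul_right (k2.trans ?_) (by positivity)
  rw [mul_one]
  exact k1.trans_eq (by ring)

end Pool.Agent.Work.MP_418764_co.All
end

-- merged part: Pool.Agent.Work.MP_418764_co.AStep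
section
namespace Pool.Agent.Work.MP_418764_co.All
open Finset Function Classical

theorem homes_le {V C : Type} [Fintype V] [Fintype C] {G : SimpleGraph V} {fib : V → ℤ} {N : ℕ}
    (hN : (univ.image fib).card ≤ N) (hcl : ∀ p p', fib p = fib p' → p ≠ p' → G.Adj p p')
    (κ : V → C) (hκ : Proper G κ) (b : C) : (homes κ b).card ≤ N :=
  (card_le_card_of_injOn fib (fun p _ => mem_image_of_mem _ (mem_univ p)) fun p hp p' hp' e =>
    by_contra fun hne => hκ p p' (hcl p p' e hne)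
      ((mem_homes.1 hp).trans (mem_homes.1 hp').symm)).trans hN

theorem markov_real {α : Type} (s : Finset α) (f : α → ℕ) {r : ℝ} :
    ((s.filter fun x => r < f x).card : ℝ) * r ≤ (∑ x ∈ s, f x : ℕ) := by
  rw [← nsmul_eq_mul, Nat.cast_sum]
  exact (card_nsmul_le_sum _ _ _ fun _ hx => (mem_filter.1 hx).2.le).trans
    (sum_le_sum_of_subset_of_nonneg (filter_subset _ _) fun _ _ _ => Nat.cast_nonneg _)

/-- The step lemma. -/
theorem step (N E T K' : ℕ) (c lam γ η : ℝ) (hc : 0 < c) (hcN : c ≤ N) (hlam : 0 < lam)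
    (hγ : 0 < γ) (hη : 0 < η) :
    ∃ ε : ℝ, 0 < ε ∧ ε ≤ η ∧ ∃ K ν0 : ℕ, K' ≤ K ∧ ∀ (V C Λ ι : Type) [Fintype V] [Fintype C]
      [Fintype Λ] [Fintype ι] (G : SimpleGraph V) (fib : V → ℤ) (m : ℕ)
      (ρ : (V → C) → C → Λ → Prop) (Dep : Λ → Set V) (Tk : ι → (V → C) → C → Λ → Prop)
      (DT NT : ι → Set V), ν0 ≤ Fintype.card C → m ≤ Fintype.card C →
      (Fintype.card Λ : ℝ) ≤ lam * Fintype.card C → Fintype.card ι ≤ T →
      (∀ F, (univ.filter fun q => fib q = F).card ≤ m) → (univ.image fib).card ≤ N →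
      (∀ p p', fib p = fib p' → p ≠ p' → G.Adj p p') →
      (∀ l, Cross G K (Dep l) (Dep l) (Dep l) (Dep l) (fun μ x => ρ μ x l) fun μ x => ρ μ x l) →
      (∀ τ l, Cross G K (Dep l) (DT τ) (Dep l ∩ NT τ) (DT τ) (fun μ x => ρ μ x l)
        fun μ x => Tk τ μ x l) →
      (∀ τ, Disj G K (Tk τ)) → (∀ τ κ x l, Tk τ κ x l → x ∈ Un κ) →
      (atyp G C c : ℝ) ≤ ε * (Om G C).card →
      (npairs G (fun κ x => x ∈ Un κ ∧ cnt (ρ κ x) < E) : ℝ) ≤
        ε * (Om G C).card * Fintype.card C →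
      (∀ τ, (npairs G (fun κ x => x ∈ Un κ ∧ ¬ ∃ l, Tk τ κ x l) : ℝ) ≤
        ε * (Om G C).card * Fintype.card C) →
      ∃ (S : ℤ → (V → C) → C → Λ → Prop) (Tp : ι → (V → C) → C → Λ → Prop),
        (∀ τ κ x l, Tp τ κ x l → Tk τ κ x l) ∧
        (∀ F F' l, Cross G K' (Dep l) (Dep l) (Dep l) (Dep l) (fun μ x => S F μ x l)
          fun μ x => S F' μ x l) ∧
        (∀ F τ l, Cross G K' (Dep l) (DT τ) (Dep l ∩ NT τ) (DT τ) (fun μ x => S F μ x l)
          fun μ x => Tp τ μ x l) ∧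
        (∀ F F' κ z l, S F κ z l → S F' κ z l →
          ∃ q q', q ∈ Dep l ∧ q' ∈ Dep l ∧ fib q = F ∧ fib q' = F' ∧ G.Adj q q') ∧
        (∀ F τ κ z l, S F κ z l → Tp τ κ z l → ∃ q ∈ NT τ, fib q = F) ∧
        (npairs G (fun κ z => z ∈ Un κ ∧ ¬ ((∀ τ, ∃ l, Tp τ κ z l) ∧
          (E : ℝ) * Fintype.card C - Fintype.card Λ - γ * Fintype.card C ≤
            m * (∑ F ∈ univ.image fib, cnt (S F κ z) : ℕ))) : ℝ) ≤
          η * (Om G C).card * Fintype.card C := by
  obtain ⟨η1, hη1⟩ : ∃ η1, η1 = γ / (2 * (E + 1)) := ⟨_, rfl⟩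
  obtain ⟨Mo, hMo⟩ : ∃ Mo : ℝ, Mo = (N + 1) * (N / c) ^ N := ⟨_, rfl⟩
  have hN0 : (0 : ℝ) < N := hc.trans_le hcN
  have η1p : 0 < η1 := by rw [hη1]; positivity
  have Mop : 0 < Mo := by rw [hMo]; positivity
  obtain ⟨ηG, hηG⟩ : ∃ ηG, ηG = η / 4 * η1 / Mo := ⟨_, rfl⟩
  have ηGp : 0 < ηG := by rw [hηG]; positivity
  obtain ⟨P, hP⟩ := exists_large (5 * lam) ηG ηGp
  obtain ⟨p2, hp2⟩ := exists_large (30 * N * lam) ηG ηGp
  obtain ⟨P3, L, w, β, θ', βp, θ'p, ν1, hpar⟩ :=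
    params N E K' P p2 c lam (η / 4 * (γ / 2)) hc hlam (by positivity)
  obtain ⟨ε2, ε2p, ν2, hgood⟩ := good_bound N w (2 * w) (K' + 2 * w + 4 + N) P p2 c lam β ηG βp
    ηGp le_rfl (by omega) (hP P le_rfl) (hp2 p2 le_rfl)
  obtain ⟨η3, hη3⟩ : ∃ η3, η3 = η / (8 * (T + 1)) := ⟨_, rfl⟩
  have η3p : 0 < η3 := by rw [hη3]; positivity
  have hη3' : (T + 1) * η3 = η / 8 := by rw [hη3]; field_simp
  obtain ⟨ε3, ε3p, ν3, hrl⟩ := rl_bound N (K' + 2 * w + 4) c lam θ' η3 hc θ'p η3p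
  have hT0 : (0 : ℝ) ≤ T := Nat.cast_nonneg _
  refine ⟨min ε2 (min ε3 η3), by positivity,
    (min_le_right _ _).trans ((min_le_right _ _).trans (by clear * - η3 η T hη hη3' η3p; linarith only [hη, hη3', η3p, mul_nonneg_of_nonpos_of_nonpos (Mathlib.Tactic.Linarith.sub_nonpos_of_le (Mathlib.Tactic.Linarith.natCast_nonneg ℝ T)) (le_of_lt (Mathlib.Tactic.Linarith.sub_neg_of_lt η3p))])),
    K' + 4 * w + N + 4, ν1 + ν2 + ν3 + 1, by omega, ?_⟩
  intro V C Λ ι _ _ _ _ G fib m ρ Dep Tk DT NT hν hmν hΛ hT hm hN hcl hρ hX hTT hun hat hinv htok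
  have e2 : min ε2 (min ε3 η3) ≤ ε2 := min_le_left _ _
  have e3 : min ε2 (min ε3 η3) ≤ ε3 := (min_le_right _ _).trans (min_le_left _ _)
  have e4 : min ε2 (min ε3 η3) ≤ η3 := (min_le_right _ _).trans (min_le_right _ _)
  generalize min ε2 (min ε3 η3) = ε at hat hinv htok e2 e3 e4
  set ν := Fintype.card C with hνdef
  have hν0 : (0 : ℝ) < ν := by exact_mod_cast (by omega : 0 < ν)
  have hO : (0 : ℝ) ≤ (Om G C).card := Nat.cast_nonneg _
  obtain ⟨h, t, A, p1, p2', p3, p4, p5, p6, p7, p8, p9, p10⟩ := hpar ν (by omega)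
  have hD : Disj G (K' + 4 * w + N + 4) ρ := fun l => (hρ l).mono le_rfl (Set.subset_univ _)
    (Set.subset_univ _) (Set.subset_univ _) (Set.subset_univ _) (fun _ _ h => h) fun _ _ h => h
  have hV : Fintype.card V ≤ N * ν := by
    have := card_le_mul_card_image_of_maps_to (s := (univ : Finset V)) (f := fib)
      (fun p hp => mem_image_of_mem _ hp) m fun F _ => hm F
    rw [card_univ, mul_comm] at this
    exact this.trans (Nat.mul_le_mul hN hmν)
  have hh := homes_le (C := C) hN hcl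
  refine ⟨SS G ρ fib (2 * w) (K' + 2 * w + 4) A (2 * A + 4),
    fun τ => Rob G (Tk τ) N (K' + 2 * w + 4) A, fun τ κ x l h => h.1,
    fun F F' l => SS_cross (hρ l) le_rfl (by omega) (by omega) F F',
    fun F τ l => SS_Rob_cross (hX τ l) le_rfl p8 (by omega) (by omega) F,
    fun F F' κ z l => SS_deg (hρ l) le_rfl (by omega) (by omega),
    fun F τ κ z l => SS_tok (hX τ l) le_rfl p8 (by omega) (by omega), ?_⟩
  set Gd : (V → C) → Finset C := fun κ => univ.filter fun b => ∃ μ ∈ Pl κ (homes κ b),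
    Good G ρ E w (2 * w) (K' + 2 * w + 4 + N) (K' + 2 * w + 4 + N + 3 * w + 6) P (p2 * ν) c β μ b
    with hGd
  have b1 : (npairs G (fun κ (_ : C) => ((Un κ).card : ℝ) < c * ν) : ℝ) ≤
      η / 8 * (Om G C).card * ν := by
    clear * - V C G c ν η ε hat T η3 hη3' e4 η3p hν0
    rw [npairs_base, Nat.cast_mul]
    gcongr
    exact hat.trans (by gcongr; linarith only [hη3', e4, η3p, mul_nonneg_of_nonpos_of_nonpos (Mathlib.Tactic.Linarith.sub_nonpos_of_le (Mathlib.Tactic.Linarith.natCast_nonneg ℝ T)) (le_of_lt (Mathlib.Tactic.Linarith.sub_neg_of_lt η3p))])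
  have b2 : (npairs G (fun κ (_ : C) => c * ν ≤ (Un κ).card ∧ η1 * ν < ((Gd κ)ᶜ).card) : ℝ) ≤
      η / 4 * (Om G C).card * ν := by
    clear * - V C G Λ ρ E w K' N P p2 c β ηG hgood ν2 T ν1 ν3 ι fib m hν h t A hV hΛ hD hN ε ε2
      hat e2 ν hinv hν0 hc hcN hh Mo Mop hMo η1 Gd η hGd η1p hηG hνdef hη
    have h1 := hgood V C Λ G ρ E _ (by omega) hV hΛ hD (by omega) (hat.trans (by gcongr))
      (hinv.trans (by gcongr))
    have h2 := (mo_bound hc hcN hV hh _).trans (mul_le_mul_of_nonneg_left h1 (hMo ▸ Mop.le))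
    rw [← hMo, npairs_eq] at h2
    have h3 := markov_real (Om G C) (fun κ => (univ.filter fun b => c * ν ≤ (Un κ).card ∧
      ¬ ∃ μ ∈ Pl κ (homes κ b), Good G ρ E w (2 * w) (K' + 2 * w + 4 + N)
        (K' + 2 * w + 4 + N + 3 * w + 6) P (p2 * ν) c β μ b).card) (r := η1 * ν)
    rw [npairs_base, Nat.cast_mul]
    gcongr
    refine le_of_mul_le_mul_right (a := η1 * ν) (le_trans ?_ (h3.trans (le_trans ?_
      (h2.trans (le_of_eq ?_))))) (by positivity)
    · gcongr with κ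
      rintro ⟨h4, h5⟩
      refine h5.trans_le (Nat.cast_le.2 (card_le_card fun b hb => ?_))
      simp only [hGd, mem_compl, mem_filter, mem_univ, true_and] at hb ⊢
      exact ⟨h4, hb⟩
    · exact le_of_eq (by congr!)
    · rw [hηG, ← hνdef]
      field_simp
  have b3 : (npairs G (fun κ z => (c * ν ≤ (Un κ).card ∧ (((Gd κ)ᶜ).card : ℝ) ≤ η1 * ν) ∧
      z ∈ Un κ ∧ ¬ (E : ℝ) * ν - Fintype.card Λ - γ * ν ≤ m * (∑ F ∈ univ.image fib,
        cnt (SS G ρ fib (2 * w) (K' + 2 * w + 4) A (2 * A + 4) F κ z) : ℕ)) : ℝ) ≤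
      η / 4 * ν * (Om G C).card := by
    clear * - V C G c ν Gd η1 E Λ γ m fib ρ w K' A η P3 h N L t P p2 β hD T ν1 ν2 ν3 ι hN hm hh p1
      p2' p3 p4 p5 p6 p9 hΛ p10 hη1 hγ η1p hν0 hη
    refine npairs_le_of fun κ hκ => ?_
    by_cases hb : c * ν ≤ (Un κ).card ∧ (((Gd κ)ᶜ).card : ℝ) ≤ η1 * ν
    swap
    · exact ⟨∅, fun x hx => absurd hx.1 hb, by simp; positivity⟩
    obtain ⟨loss, l1, l2⟩ := base_count (A := A) (B := 2 * A + 4) hD hκ (by omega) (by omega) hm hN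
      (hh κ hκ) (Gd κ) (fun b hb => (mem_filter.1 hb).2) p1 p2' p3 p4 p5 p6 (p9 _ _ hΛ hb.1)
    have l3 := (markov_real (Un κ) loss (r := γ / 2 * ν)).trans (p10 _ _ hΛ l2)
    refine ⟨(Un κ).filter fun z => γ / 2 * ν < loss z, fun z hz => mem_filter.2 ⟨hz.2.1, ?_⟩,
      le_of_mul_le_mul_right (l3.trans (le_of_eq (by ring))) (by positivity)⟩
    have l4 := (Nat.cast_le (α := ℝ)).2 (l1 z hz.2.1)
    have l5 := not_le.1 hz.2.2
    have l6 : ((Gd κ).card : ℝ) + ((Gd κ)ᶜ).card = ν := by exact_mod_cast card_add_card_compl _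
    have l7 : (E : ℝ) * ((Gd κ)ᶜ).card ≤ E * (η1 * ν) := by gcongr; exact hb.2
    have l8 : (E + 1) * η1 = γ / 2 := by rw [hη1]; field_simp
    have l9 : (E : ℝ) * ν = E * (Gd κ).card + E * ((Gd κ)ᶜ).card := by rw [← l6]; ring
    have l10 : (E + 1) * η1 * ν = γ / 2 * ν := by rw [l8]
    have l11 : 0 < η1 * ν := by positivity
    rw [Nat.cast_add, Nat.cast_add, Nat.cast_mul, Nat.cast_mul] at l4
    linarith only [hb, hz, l4, l7, l9, l10]
  have hTr : (Fintype.card ι : ℝ) ≤ T := by exact_mod_cast hT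
  have key : ∀ P : ι → (V → C) → C → Prop,
      (∀ τ, (npairs G (P τ) : ℝ) ≤ η3 * (Om G C).card * ν) →
      (npairs G (fun κ z => ∃ τ, P τ κ z) : ℝ) ≤ η / 8 * (Om G C).card * ν := fun P hP => by
    clear * - V C G ι P η ν η3 hP T hη3' η3p hν0 hTr
    refine (Nat.cast_le.2 (npairs_exists G P)).trans ?_
    rw [Nat.cast_sum]
    refine (sum_le_card_nsmul _ _ _ fun τ _ => hP τ).trans ?_
    rw [nsmul_eq_mul, card_univ, ← hη3']
    have : 0 ≤ η3 * (Om G C).card * ν := by positivity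
    linarith only [this, hTr, mul_nonneg_of_nonpos_of_nonpos (Mathlib.Tactic.Linarith.sub_nonpos_of_le hTr) (Mathlib.Tactic.Linarith.sub_nonpos_of_le this)]
  have b4 := key _ fun τ => (htok τ).trans (by clear * - ν ε V C G η3 e4 hν0 htok key τ; gcongr)
  have b5 := key _ fun τ => hrl V C Λ G (Tk τ) A (by omega) hV hΛ hh (hun τ)
    (fun l => (hTT τ l).mono (by omega) le_rfl le_rfl le_rfl le_rfl (fun _ _ h => h) fun _ _ h => h)
    p7 (hat.trans (by clear * - V C G ε ε3 e3 hat p7; gcongr))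
  have h1 := npairs_mono (G := G) (P := fun κ z => z ∈ Un κ ∧
      ¬ ((∀ τ, ∃ l, Rob G (Tk τ) N (K' + 2 * w + 4) A κ z l) ∧
        (E : ℝ) * ν - Fintype.card Λ - γ * ν ≤ m * (∑ F ∈ univ.image fib,
          cnt (SS G ρ fib (2 * w) (K' + 2 * w + 4) A (2 * A + 4) F κ z) : ℕ)))
    (P' := fun κ z => ((Un κ).card : ℝ) < c * ν ∨
      (c * ν ≤ (Un κ).card ∧ η1 * ν < ((Gd κ)ᶜ).card) ∨
      ((c * ν ≤ (Un κ).card ∧ (((Gd κ)ᶜ).card : ℝ) ≤ η1 * ν) ∧
      z ∈ Un κ ∧ ¬ (E : ℝ) * ν - Fintype.card Λ - γ * ν ≤ m * (∑ F ∈ univ.image fib,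
        cnt (SS G ρ fib (2 * w) (K' + 2 * w + 4) A (2 * A + 4) F κ z) : ℕ)) ∨
      (∃ τ, z ∈ Un κ ∧ ¬ ∃ l, Tk τ κ z l) ∨
      ∃ τ, ∃ l, Tk τ κ z l ∧ ¬ Rob G (Tk τ) N (K' + 2 * w + 4) A κ z l)
    fun κ z _ hz => by
      by_contra hn
      simp only [not_or, not_lt, not_and, not_exists, not_not, not_forall] at hn
      obtain ⟨n1, n2, n3, n4, n5⟩ := hn
      refine hz.2 ⟨fun τ => ?_, n3 ⟨n1, n2 n1⟩ hz.1⟩
      obtain ⟨l, hl⟩ := n4 τ hz.1
      exact ⟨l, n5 τ l hl⟩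
  have h2 := h1.trans ((npairs_or _ _ _).trans (Nat.add_le_add_left ((npairs_or _ _ _).trans
    (Nat.add_le_add_left ((npairs_or _ _ _).trans (Nat.add_le_add_left (npairs_or _ _ _) _)) _)) _))
  have h3 := (Nat.cast_le (α := ℝ)).2 h2
  rw [Nat.cast_add, Nat.cast_add, Nat.cast_add, Nat.cast_add] at h3
  have : 0 ≤ η * (Om G C).card * ν := by clear * - η V C G ν hη hν0; positivity
  clear * - V C G ι Λ Tk N K' w A E ν γ m fib ρ η c η1 Gd b1 b2 b3 b4 b5 h3
  linarith only [b1, b2, b3, b4, b5, h3]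

end Pool.Agent.Work.MP_418764_co.All
end

-- merged part: Pool.Agent.Work.MP_418764_co.ADefs
section
namespace Pool.Agent.Work.MP_418764_co.All
open Finset Function Classical

variable {V C S I : Type} [Fintype V] [Fintype C] [Fintype S]

/-- Proper on a set of points. -/
def PrOn (G : SimpleGraph V) (J : Finset V) (κ : V → C) : Prop :=
  ∀ p ∈ J, ∀ p' ∈ J, G.Adj p p' → κ p ≠ κ p'

/-- A large admissible family of disjoint colour sets, all avoided by `κ` on `W`. -/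
def Rich (Adm : (V → C) → Finset I → Prop) (s : I → Finset C) (W : Finset V) (y : ℝ)
    (κ : V → C) : Prop :=
  ∃ M : Finset I, Adm κ M ∧ y ≤ M.card ∧ (∀ i ∈ M, ∀ p ∈ W, κ p ∉ s i) ∧
    ∀ i ∈ M, ∀ j ∈ M, i ≠ j → Disjoint (s i) (s j)

/-- A path of `N` cliques of size `m`. -/
structure PathCl (G : SimpleGraph V) (fib : V → ℤ) (N m : ℕ) : Prop where
  adj : ∀ p p', G.Adj p p' ↔ p ≠ p' ∧ fib p ≤ fib p' + 1 ∧ fib p' ≤ fib p + 1
  rng : ∀ p, 0 ≤ fib p ∧ fib p < N
  size : ∀ F : ℤ, 0 ≤ F → F < N → (univ.filter fun p => fib p = F).card = m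

/-- The points on an interval of fibres. -/
noncomputable def Jf (fib : V → ℤ) (a b : ℤ) : Finset V :=
  univ.filter fun p => a ≤ fib p ∧ fib p < b

/-- The points on a fibre. -/
noncomputable def Ff (fib : V → ℤ) (a : ℤ) : Finset V := univ.filter fun p => fib p = a

/-- For every colouring proper on `J`, all but `a` admissible first coordinates are heavy. -/
def Dom (Γ : SimpleGraph V) (ι : C ↪ S) (χ : (V → C) → S → S → S → S) (J Eu Ev : Finset V)
    (pool : Finset S) (y a : ℕ) : Prop :=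
  ∀ κ, PrOn Γ J κ → (univ.filter fun x : S => x ∉ pool ∧ (∀ p ∈ Eu, ι (κ p) ≠ x) ∧
    ¬ ∃ l, y ≤ (univ.filter fun be : S × S =>
      (∀ p ∈ Ev, ι (κ p) ≠ be.2) ∧ χ κ x be.1 be.2 = l).card).card ≤ a

/-- The map that is `κ` on `J`, constant on two further sets and constant elsewhere. -/
noncomputable def cell (ι : C ↪ S) (J Fu Fv : Finset V) (κ : V → C) (x b e : S) : V → S :=
  fun p => if p ∈ J then ι (κ p) else if p ∈ Fu then x else if p ∈ Fv then e else b

/-- The map that is `κ` on `D`, the key on `Kp` and a fibre-constant tail elsewhere. -/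
noncomputable def tokmap (ι : C ↪ S) (pos : V → I) (D Kp : Set V) (κ : V → C) (x : C)
    (t : I → S) : V → S :=
  fun p => if p ∈ D then ι (κ p) else if p ∈ Kp then ι x else t (pos p)

/-- Token labels. -/
def Tok (Γ : SimpleGraph V) (Ψ : (V → S) → S) (ι : C ↪ S) (pos : V → I) (K0 : ℕ) (D Kp : Set V)
    (κ : V → C) (x : C) (l : S) : Prop :=
  x ∈ Un κ ∧ ∀ Z : Finset S, Z.card ≤ K0 → ∃ t : I → S,
    (∀ p, p ∉ D → p ∉ Kp → t (pos p) ∉ Z ∧ ∀ p', Γ.Adj p p' → t (pos p) ≠ ι (κ p')) ∧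
    Ψ (tokmap ι pos D Kp κ x t) = l

/-- The interval of level `t`. -/
def II (a : ℕ → ℤ) (t : ℕ) : Set ℤ := {z | a t ≤ z ∧ z < a t + t}

/-- The key position of level `t`. -/
def pp (a : ℕ → ℤ) (t : ℕ) : ℤ := if a (t + 1) = a t then a t + t else a t - 1

/-- Fibres read by token `t`. -/
def DZ (d : ℕ) (a : ℕ → ℤ) (t : ℕ) : Set ℤ :=
  if t + 1 ≤ 2 * d then II a t else if t = 2 * d then {z | 0 ≤ z ∧ z < 2 * d}
  else {z | 1 ≤ z ∧ z ≤ 2 * d}

/-- Fibres carrying the key of token `t`. -/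
def KZ (d : ℕ) (a : ℕ → ℤ) (t : ℕ) : Set ℤ :=
  if t + 2 ≤ 2 * d then {pp a t} else if t + 1 = 2 * d then {z | z = 0 ∨ z = 2 * d}
  else if t = 2 * d then {z | z = 2 * d} else {0}

/-- Fibres near the key of token `t`. -/
def NZ (d : ℕ) (a : ℕ → ℤ) (t : ℕ) : Set ℤ :=
  {z | ∃ k ∈ KZ d a t, (z ≤ k + 1 ∧ k ≤ z + 1) ∨ (z = 0 ∧ k = 2 * d) ∨ (z = 2 * d ∧ k = 0)}

/-- A chain of intervals ending with `[1, 2d-1]`. -/
structure Chain (d : ℕ) (a : ℕ → ℤ) : Prop where
  zero : a 0 = a 1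
  step : ∀ t, t + 2 ≤ 2 * d → a (t + 1) = a t ∨ a (t + 1) = a t - 1
  last : a (2 * d - 1) = 1

theorem Chain.bounds {d : ℕ} {a : ℕ → ℤ} (h : Chain d a) :
    ∀ t, t + 1 ≤ 2 * d → 1 ≤ a t ∧ a t + t ≤ 2 * d := by
  have key : ∀ i t, t + i + 1 = 2 * d → 1 ≤ a t ∧ a t + t ≤ 2 * d := by
    intro i
    induction i with
    | zero =>
      intro t ht
      have := h.last
      rw [show 2 * d - 1 = t by omega] at this
      omega
    | succ i ih =>
      intro t ht
      have h1 := ih (t + 1) (by omega)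
      have h2 := h.step t (by omega)
      push_cast at h1
      omega
  intro t ht
  exact key (2 * d - 1 - t) t (by omega)

theorem Chain.mono {d : ℕ} {a : ℕ → ℤ} (h : Chain d a) {t t' : ℕ} (h1 : t ≤ t')
    (h2 : t' + 1 ≤ 2 * d) : a t' ≤ a t ∧ a t + t ≤ a t' + t' := by
  induction t', h1 using Nat.le_induction with
  | base => omega
  | succ n hn ih =>
    have h3 := ih (by omega)
    have h4 := h.step n (by omega)
    push_cast
    omega

/-- A cycle of `N` cliques of size `m`, read in every frame. -/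
structure Cyc (Γ : SimpleGraph V) (fr : ℤ → V → ℤ) (pos : V → I) (N m : ℕ) : Prop where
  rng : ∀ o p, 0 ≤ fr o p ∧ fr o p < N
  size : ∀ (o F : ℤ), 0 ≤ F → F < N → (univ.filter fun p => fr o p = F).card = m
  adj : ∀ o p p', Γ.Adj p p' → (fr o p ≤ fr o p' + 1 ∧ fr o p' ≤ fr o p + 1) ∨
    (fr o p = 0 ∧ fr o p' = N - 1) ∨ (fr o p = N - 1 ∧ fr o p' = 0)
  tr : ∀ o o' p, (N : ℤ) ∣ fr o p + o - (fr o' p + o')
  pos : ∀ o p p', pos p = pos p' ↔ fr o p = fr o p'

/-- The path of cliques given by a position function. -/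
def pathG (fib : V → ℤ) : SimpleGraph V where
  Adj p p' := p ≠ p' ∧ fib p ≤ fib p' + 1 ∧ fib p' ≤ fib p + 1
  symm := ⟨fun _ _ h => ⟨h.1.symm, h.2.2, h.2.1⟩⟩
  loopless := ⟨fun _ h => h.1 rfl⟩

theorem Cyc.pathCl {Γ : SimpleGraph V} {fr : ℤ → V → ℤ} {pos : V → I} {N m : ℕ}
    (h : Cyc Γ fr pos N m) (o : ℤ) : PathCl (pathG (fr o)) (fr o) N m :=
  ⟨fun _ _ => Iff.rfl, h.rng o, h.size o⟩

/-- The token system handed from the exponential graph to the counting argument. -/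
structure TokSys {Λ : Type} (G : SimpleGraph V) (fib : V → ℤ) (d : ℕ) (a : ℕ → ℤ)
    (Tk : ℕ → (V → C) → C → Λ → Prop) (K : ℕ) (ε : ℝ) : Prop where
  un : ∀ t κ x l, Tk t κ x l → x ∈ Un κ
  cross : ∀ t t', t < 2 * d + 2 → t' < 2 * d + 2 → ¬ (t = 2 * d ∧ t' = 2 * d + 1) →
    ¬ (t = 2 * d + 1 ∧ t' = 2 * d) → ∀ l,
    Cross G K (fib ⁻¹' DZ d a t) (fib ⁻¹' DZ d a t') (fib ⁻¹' DZ d a t ∩ fib ⁻¹' NZ d a t')
      (fib ⁻¹' DZ d a t' ∩ fib ⁻¹' NZ d a t) (fun μ x => Tk t μ x l) fun μ x => Tk t' μ x l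
  far : ∀ t t', t + 2 ≤ 2 * d → t' + 2 ≤ 2 * d → pp a t + 2 ≤ pp a t' → ∀ κ x l,
    Proper G κ → Tk t κ x l → Tk t' κ x l → False
  valid : ∀ t, t < 2 * d + 2 → (npairs G (fun κ x => x ∈ Un κ ∧ ¬ ∃ l, Tk t κ x l) : ℝ) ≤
    ε * (Om G C).card * Fintype.card C

end Pool.Agent.Work.MP_418764_co.All
end

-- merged part: Pool.Agent.Work.MP_418764_co.ASide
section
namespace Pool.Agent.Work.MP_418764_co.All
open Finset Function Classical

variable {V C S I : Type} [Fintype V] [Fintype C] [Fintype S]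

namespace ASide

omit [Fintype V] [Fintype C] in
theorem prOn_ext {Γ : SimpleGraph V} {J : Finset V} {v : V} {κ : V → C} {c : C}
    (h : PrOn Γ (J.erase v) κ) (hc : ∀ p ∈ J, Γ.Adj v p → κ p ≠ c) :
    PrOn Γ J (update κ v c) := by
  intro p hp p' hp' hpp
  by_cases e : p = v
  · have e' : p' ≠ v := fun e' => hpp.ne (e.trans e'.symm)
    rw [e, update_self, update_of_ne e']
    exact (hc p' hp' (e ▸ hpp)).symm
  · by_cases e' : p' = v
    · rw [e', update_self, update_of_ne e]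
      exact hc p hp (e' ▸ hpp.symm)
    · rw [update_of_ne e, update_of_ne e']
      exact h p (mem_erase.2 ⟨e, hp⟩) p' (mem_erase.2 ⟨e', hp'⟩) hpp

omit [Fintype V] [Fintype C] in
theorem prOn_congr {Γ : SimpleGraph V} {J : Finset V} {κ κ' : V → C}
    (e : ∀ p ∈ J, κ p = κ' p) (h : PrOn Γ J κ) : PrOn Γ J κ' := fun p hp p' hp' hpp => by
  rw [← e p hp, ← e p' hp']
  exact h p hp p' hp' hpp

omit [Fintype V] [Fintype C] in
theorem prOn_mono {Γ : SimpleGraph V} {J J' : Finset V} {κ : V → C} (hJ : J' ⊆ J)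
    (h : PrOn Γ J κ) : PrOn Γ J' κ := fun p hp p' hp' hpp => h p (hJ hp) p' (hJ hp') hpp

/-- Some label is taken on many cells. -/
def Hv (A B : Finset S) (g : S → S → S) (y : ℕ) : Prop :=
  ∃ l, y ≤ ((A ×ˢ B).filter fun p => g p.1 p.2 = l).card

/-- The values that are not heavy. -/
noncomputable def Bad (A B D : Finset S) (f : S → S → S → S) (y : ℕ) : Finset S :=
  A.filter fun x => ¬ Hv B D (f x) y

/-- Separated cells have different labels. -/
def Sep (X1 X2 X3 Y1 Y2 Y3 : Finset S) (f g : S → S → S → S) : Prop :=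
  ∀ x1 ∈ X1, ∀ x2 ∈ X2, ∀ x3 ∈ X3, ∀ y1 ∈ Y1, ∀ y2 ∈ Y2, ∀ y3 ∈ Y3, x1 ≠ y1 → x1 ≠ y2 →
    x2 ≠ y1 → x2 ≠ y2 → x2 ≠ y3 → x3 ≠ y2 → x3 ≠ y3 → f x1 x2 x3 ≠ g y1 y2 y3

omit [Fintype S] in
theorem Sep.flip {X1 X2 X3 Y1 Y2 Y3 : Finset S} {f g : S → S → S → S}
    (h : Sep X1 X2 X3 Y1 Y2 Y3 f g) :
    Sep X3 X2 X1 Y3 Y2 Y1 (fun x b e => f e b x) fun x b e => g e b x :=
  fun x1 h1 x2 h2 x3 h3 y1 h4 y2 h5 y3 h6 e1 e2 e3 e4 e5 e6 e7 =>
    h x3 h3 x2 h2 x1 h1 y3 h6 y2 h5 y1 h4 e7 e6 e5 e4 e3 e2 e1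

theorem avoid {A B : Finset S} {g : S → S → S} {y : ℕ} {l : S}
    (h : y ≤ ((A ×ˢ B).filter fun p => g p.1 p.2 = l).card) (n4 : 8 * Fintype.card S < y)
    (Y : Finset S) (hY : Y.card ≤ 4) :
    ∃ b ∈ A, ∃ e ∈ B, b ∉ Y ∧ e ∉ Y ∧ g b e = l := by
  by_contra hn
  push Not at hn
  have hsub : ((A ×ˢ B).filter fun p => g p.1 p.2 = l) ⊆ Y ×ˢ univ ∪ univ ×ˢ Y := by
    rintro ⟨b, e⟩ hp
    obtain ⟨h1, h2⟩ := mem_filter.1 hp
    obtain ⟨h3, h4⟩ := mem_product.1 h1
    simp only [mem_union, mem_product, mem_univ, and_true, true_and]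
    by_contra hc
    push Not at hc
    exact hn b h3 e h4 hc.1 hc.2 h2
  have h1 := (card_le_card hsub).trans (card_union_le _ _)
  rw [card_product, card_product, card_univ] at h1
  nlinarith only [h, n4, h1, hY]

omit [Fintype S] in
theorem slice {A B D : Finset S} {f : S → S → S → S} {y : ℕ} (F : Finset (S × S × S))
    (π : S × S × S → S) (ρ : S × S × S → S × S) (l : S)
    (hπ : ∀ c ∈ F, π c ∈ Bad A B D f y ∧ (ρ c).1 ∈ B ∧ (ρ c).2 ∈ D ∧
      f (π c) (ρ c).1 (ρ c).2 = l)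
    (hinj : ∀ c c', π c = π c' → ρ c = ρ c' → c = c') (v : S) :
    (F.filter fun c => π c = v).card ≤ y := by
  rcases (F.filter fun c => π c = v).eq_empty_or_nonempty with e | ⟨c0, hc0⟩
  · rw [e]
    exact Nat.zero_le _
  obtain ⟨h0, h1⟩ := mem_filter.1 hc0
  have hv : ¬ Hv B D (f v) y := h1 ▸ (mem_filter.1 (hπ c0 h0).1).2
  unfold Hv at hv
  push Not at hv
  refine le_trans (card_le_card_of_injOn ρ (fun c hc => ?_) fun c hc c' hc' e => ?_) (hv l).le
  · obtain ⟨h2, h3⟩ := mem_filter.1 (mem_coe.1 hc)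
    obtain ⟨-, h4, h5, h6⟩ := hπ c h2
    exact mem_coe.2 (mem_filter.2 ⟨mem_product.2 ⟨h4, h5⟩, h3 ▸ h6⟩)
  · exact hinj c c' ((mem_filter.1 (mem_coe.1 hc)).2.trans (mem_filter.1 (mem_coe.1 hc')).2.symm) e

theorem three {X1 X2 X3 : Finset S} {f : S → S → S → S} {y a : ℕ}
    (h : Sep X1 X2 X3 X1 X2 X3 f f) (n1 : 7 * Fintype.card S * y ≤ a ^ 3) :
    (Bad X1 X2 X3 f y).card ≤ a ∨ (Bad X2 X1 X3 (fun b x e => f x b e) y).card ≤ a ∨
      (Bad X3 X2 X1 (fun x b e => f e b x) y).card ≤ a := by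
  by_contra hn
  push Not at hn
  obtain ⟨c1, c2, c3⟩ := hn
  set B1 := Bad X1 X2 X3 f y with hB1
  set B2 := Bad X2 X1 X3 (fun b x e => f x b e) y with hB2
  set B3 := Bad X3 X2 X1 (fun x b e => f e b x) y with hB3
  have s1 : B1 ⊆ X1 := filter_subset _ _
  have s2 : B2 ⊆ X2 := filter_subset _ _
  have s3 : B3 ⊆ X3 := filter_subset _ _
  have key : (B1 ×ˢ B2 ×ˢ B3).card ≤ (7 * y) * (univ : Finset S).card := by
    clear * - S f B1 B2 B3 y X1 X2 X3 s2 s3 s1 h a
    refine card_le_mul_card_image_of_maps_to (f := fun c => f c.1 c.2.1 c.2.2)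
      (fun _ _ => mem_univ _) _ fun l _ => ?_
    set F := (B1 ×ˢ B2 ×ˢ B3).filter fun c => f c.1 c.2.1 c.2.2 = l with hF
    have mF : ∀ c ∈ F, c.1 ∈ B1 ∧ c.2.1 ∈ B2 ∧ c.2.2 ∈ B3 ∧ f c.1 c.2.1 c.2.2 = l := by
      intro c hc
      obtain ⟨h1, h2⟩ := mem_filter.1 hc
      obtain ⟨h3, h4⟩ := mem_product.1 h1
      obtain ⟨h5, h6⟩ := mem_product.1 h4
      exact ⟨h3, h5, h6, h2⟩
    have t1 := slice (A := X1) (B := X2) (D := X3) (f := f) (y := y) F (fun c => c.1)
      (fun c => c.2) l (fun c hc => ⟨(mF c hc).1, s2 (mF c hc).2.1, s3 (mF c hc).2.2.1,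
        (mF c hc).2.2.2⟩) (fun c c' e1 e2 => Prod.ext e1 e2)
    have t2 := slice (A := X2) (B := X1) (D := X3) (f := fun b x e => f x b e) (y := y) F
      (fun c => c.2.1) (fun c => (c.1, c.2.2)) l
      (fun c hc => ⟨(mF c hc).2.1, s1 (mF c hc).1, s3 (mF c hc).2.2.1, (mF c hc).2.2.2⟩)
      (fun c c' e1 e2 => Prod.ext (Prod.mk.inj e2).1 (Prod.ext e1 (Prod.mk.inj e2).2))
    have t3 := slice (A := X3) (B := X2) (D := X1) (f := fun x b e => f e b x) (y := y) F
      (fun c => c.2.2) (fun c => (c.2.1, c.1)) l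
      (fun c hc => ⟨(mF c hc).2.2.1, s2 (mF c hc).2.1, s1 (mF c hc).1, (mF c hc).2.2.2⟩)
      (fun c c' e1 e2 => Prod.ext (Prod.mk.inj e2).2 (Prod.ext (Prod.mk.inj e2).1 e1))
    rcases F.eq_empty_or_nonempty with e | ⟨c0, hc0⟩
    · rw [e]
      exact Nat.zero_le _
    have hsub : F ⊆ (F.filter fun c => c.1 = c0.1) ∪ (F.filter fun c => c.1 = c0.2.1) ∪
        (F.filter fun c => c.2.1 = c0.1) ∪ (F.filter fun c => c.2.1 = c0.2.1) ∪
        (F.filter fun c => c.2.1 = c0.2.2) ∪ (F.filter fun c => c.2.2 = c0.2.1) ∪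
        (F.filter fun c => c.2.2 = c0.2.2) := by
      intro c hc
      simp only [mem_union, mem_filter, hc, true_and]
      by_contra hc'
      push Not at hc'
      obtain ⟨⟨⟨⟨⟨⟨e1, e2⟩, e3⟩, e4⟩, e5⟩, e6⟩, e7⟩ := hc'
      obtain ⟨a1, a2, a3, a4⟩ := mF c0 hc0
      obtain ⟨b1, b2, b3, b4⟩ := mF c hc
      exact h _ (s1 a1) _ (s2 a2) _ (s3 a3) _ (s1 b1) _ (s2 b2) _ (s3 b3) (Ne.symm e1)
        (Ne.symm e3) (Ne.symm e2) (Ne.symm e4) (Ne.symm e6) (Ne.symm e5) (Ne.symm e7)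
        (a4.trans b4.symm)
    have u := card_le_card hsub
    have u1 := t1 c0.1
    have u2 := t1 c0.2.1
    have u3 := t2 c0.1
    have u4 := t2 c0.2.1
    have u5 := t2 c0.2.2
    have u6 := t3 c0.2.1
    have u7 := t3 c0.2.2
    refine u.trans ?_
    refine (card_union_le _ _).trans ?_
    refine (Nat.add_le_add_right (card_union_le _ _) _).trans ?_
    refine (Nat.add_le_add_right (Nat.add_le_add_right (card_union_le _ _) _) _).trans ?_
    refine (Nat.add_le_add_right (Nat.add_le_add_right (Nat.add_le_add_right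
      (card_union_le _ _) _) _) _).trans ?_
    refine (Nat.add_le_add_right (Nat.add_le_add_right (Nat.add_le_add_right
      (Nat.add_le_add_right (card_union_le _ _) _) _) _) _).trans ?_
    refine (Nat.add_le_add_right (Nat.add_le_add_right (Nat.add_le_add_right
      (Nat.add_le_add_right (Nat.add_le_add_right (card_union_le _ _) _) _) _) _) _).trans ?_
    omega
  rw [card_product, card_product, card_univ] at key
  have h1 : (a + 1) * ((a + 1) * (a + 1)) ≤ B1.card * (B2.card * B3.card) := by gcongr <;> omega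
  clear * - a S y B1 B2 B3 n1 key h1
  linarith only [n1, key, h1, mul_nonneg_of_nonpos_of_nonpos (Mathlib.Tactic.Linarith.sub_nonpos_of_le (Mathlib.Tactic.Linarith.natCast_nonneg ℤ a)) (Mathlib.Tactic.Linarith.sub_nonpos_of_le (Mathlib.Tactic.Linarith.natCast_nonneg ℤ a))]

/-- A choice of heavy labels. -/
theorem labels (A B D : Finset S) (f : S → S → S → S) (y : ℕ) :
    ∃ lab : S → S, ∀ x ∈ A \ Bad A B D f y,
      y ≤ ((B ×ˢ D).filter fun p => f x p.1 p.2 = lab x).card := by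
  have : ∀ x, ∃ l, x ∈ A \ Bad A B D f y →
      y ≤ ((B ×ˢ D).filter fun p => f x p.1 p.2 = l).card := by
    intro x
    by_cases hx : x ∈ A \ Bad A B D f y
    · obtain ⟨h1, h2⟩ := mem_sdiff.1 hx
      have : Hv B D (f x) y := by
        by_contra h3
        exact h2 (mem_filter.2 ⟨h1, h3⟩)
      obtain ⟨l, hl⟩ := this
      exact ⟨l, fun _ => hl⟩
    · exact ⟨x, fun h => absurd h hx⟩
  choose lab hlab using this
  exact ⟨lab, hlab⟩

theorem c3 (a b c : S) : ({a, b, c} : Finset S).card ≤ 4 := card_le_three.trans (by omega)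

theorem c4 (a b c d : S) : ({a, b, c, d} : Finset S).card ≤ 4 :=
  (card_insert_le _ _).trans (Nat.succ_le_succ card_le_three)

theorem not_mid {X1 X3 pool U0 : Finset S} {f : S → S → S → S} {y a : ℕ}
    (h : Sep X1 poolᶜ X3 X1 poolᶜ X3 f f)
    (P0 : ∀ x1 ∈ X1, ∀ x2 ∈ poolᶜ, ∀ x3 ∈ X3, f x1 x2 x3 ∈ U0 →
      f x1 x2 x3 = x1 ∨ f x1 x2 x3 = x3)
    (n2 : pool.card + a < U0.card) (n4 : 8 * Fintype.card S < y) :
    ¬ (Bad poolᶜ X1 X3 (fun b x e => f x b e) y).card ≤ a := by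
  intro hb
  obtain ⟨lab, hlab⟩ := labels poolᶜ X1 X3 (fun b x e => f x b e) y
  have h1 : (poolᶜ \ Bad poolᶜ X1 X3 (fun b x e => f x b e) y).card ≤ U0ᶜ.card := by
    refine card_le_card_of_injOn lab (fun b hb => ?_) fun b hb b' hb' e => ?_
    · have hb := mem_coe.1 hb
      obtain ⟨x, hx, z, hz, e1, e2, e3⟩ := avoid (g := fun x e => f x b e) (hlab b hb) n4 {lab b} (by simp)
      refine mem_coe.2 (mem_compl.2 fun hU => ?_)
      rw [mem_singleton] at e1 e2
      rcases P0 x hx b (mem_sdiff.1 hb).1 z hz (e3 ▸ hU) with e4 | e4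
      · exact e1 (e4.symm.trans e3)
      · exact e2 (e4.symm.trans e3)
    · have hb := mem_coe.1 hb
      have hb' := mem_coe.1 hb'
      by_contra hne
      obtain ⟨x, hx, z, hz, e1, e2, e3⟩ := avoid (g := fun x e => f x b e) (hlab b hb) n4 {b'} (by simp)
      obtain ⟨x', hx', z', hz', e4, e5, e6⟩ := avoid (g := fun x e => f x b' e) (hlab b' hb') n4
        {x, z, b} (c3 _ _ _)
      simp only [mem_insert, mem_singleton, not_or] at e1 e2 e4 e5
      exact h x hx b (mem_sdiff.1 hb).1 z hz x' hx' b' (mem_sdiff.1 hb').1 z' hz'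
        (Ne.symm e4.1) e1 (Ne.symm e4.2.2) hne (Ne.symm e5.2.2) e2 (Ne.symm e5.2.1)
        (e3.trans (e.trans e6.symm))
  have h2 := le_card_sdiff (Bad poolᶜ X1 X3 (fun b x e => f x b e) y) poolᶜ
  rw [card_compl] at h1 h2
  have := card_le_univ U0
  have := card_le_univ pool
  omega

theorem lab_inj {X1 X2 X3 : Finset S} {f : S → S → S → S} {y : ℕ} {lab : S → S}
    (h : Sep X1 X2 X3 X1 X2 X3 f f) (n4 : 8 * Fintype.card S < y)
    (hlab : ∀ x ∈ X1 \ Bad X1 X2 X3 f y,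
      y ≤ ((X2 ×ˢ X3).filter fun p => f x p.1 p.2 = lab x).card) :
    Set.InjOn lab (X1 \ Bad X1 X2 X3 f y : Finset S) := by
  intro x hx x' hx' e
  have hx := mem_coe.1 hx
  have hx' := mem_coe.1 hx'
  by_contra hne
  obtain ⟨b, hb, z, hz, e1, e2, e3⟩ := avoid (hlab x hx) n4 {x'} (by simp)
  obtain ⟨b', hb', z', hz', e4, e5, e6⟩ := avoid (hlab x' hx') n4 {x, b, z} (c3 _ _ _)
  simp only [mem_insert, mem_singleton, not_or] at e1 e2 e4 e5
  exact h x (mem_sdiff.1 hx).1 b hb z hz x' (mem_sdiff.1 hx').1 b' hb' z' hz' hne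
    (Ne.symm e4.1) e1 (Ne.symm e4.2.1) (Ne.symm e5.2.1) (Ne.symm e4.2.2) (Ne.symm e5.2.2)
    (e3.trans (e.trans e6.symm))

theorem not_both {X1 X2 X3 Y1 Y3 : Finset S} {f g : S → S → S → S} {y a k : ℕ} {s t : S}
    (hf : Sep X1 X2 X3 X1 X2 X3 f f) (hg : Sep Y1 X2 Y3 Y1 X2 Y3 g g)
    (hfg : Sep (X1.erase s) X2 (X3.erase s) (Y1.erase t) X2 (Y3.erase t) f g)
    (k1 : Fintype.card S ≤ X1.card + k) (k3 : Fintype.card S ≤ Y3.card + k)
    (n3 : 2 * k + 2 * a + 2 < Fintype.card S) (n4 : 8 * Fintype.card S < y)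
    (h1 : (Bad X1 X2 X3 f y).card ≤ a) :
    ¬ (Bad Y3 X2 Y1 (fun x b e => g e b x) y).card ≤ a := by
  intro h3
  obtain ⟨lab, hlab⟩ := labels X1 X2 X3 f y
  obtain ⟨mu, hmu⟩ := labels Y3 X2 Y1 (fun x b e => g e b x) y
  have i1 := lab_inj hf n4 hlab
  have i3 := lab_inj hg.flip n4 hmu
  set G1 := X1 \ Bad X1 X2 X3 f y with hG1
  set G3 := Y3 \ Bad Y3 X2 Y1 (fun x b e => g e b x) y with hG3
  have hd : Disjoint ((G1.erase s).image lab) ((G3.erase t).image mu) := by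
    rw [disjoint_left]
    intro l hl hl'
    obtain ⟨x, hx, rfl⟩ := mem_image.1 hl
    obtain ⟨e, he, hel⟩ := mem_image.1 hl'
    obtain ⟨hx1, hx2⟩ := mem_erase.1 hx
    obtain ⟨he1, he2⟩ := mem_erase.1 he
    obtain ⟨b, hb, z, hz, e1, e2, e3⟩ := avoid (hlab x hx2) n4 {e, s} (card_le_two.trans (by omega))
    obtain ⟨b', hb', z', hz', e4, e5, e6⟩ := avoid (g := fun b x => g x b e) (hmu e he2) n4
      {x, b, z, t} (c4 _ _ _ _)
    simp only [mem_insert, mem_singleton, not_or] at e1 e2 e4 e5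
    exact hfg x (mem_erase.2 ⟨hx1, (mem_sdiff.1 hx2).1⟩) b hb z (mem_erase.2 ⟨e2.2, hz⟩) z'
      (mem_erase.2 ⟨e5.2.2.2, hz'⟩) b' hb' e (mem_erase.2 ⟨he1, (mem_sdiff.1 he2).1⟩)
      (Ne.symm e5.1) (Ne.symm e4.1) (Ne.symm e5.2.1) (Ne.symm e4.2.1) e1.1
      (Ne.symm e4.2.2.1) e2.1 (e3.trans (hel.symm.trans e6.symm))
  have u := card_le_univ ((G1.erase s).image lab ∪ (G3.erase t).image mu)
  rw [card_union_of_disjoint hd,
    card_image_of_injOn (i1.mono (coe_subset.2 (erase_subset _ _))),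
    card_image_of_injOn (i3.mono (coe_subset.2 (erase_subset _ _)))] at u
  have u1 := pred_card_le_card_erase (s := G1) (a := s)
  have u3 := pred_card_le_card_erase (s := G3) (a := t)
  have v1 : X1.card - (Bad X1 X2 X3 f y).card ≤ G1.card := le_card_sdiff _ _
  have v3 : Y3.card - (Bad Y3 X2 Y1 (fun x b e => g e b x) y).card ≤ G3.card := le_card_sdiff _ _
  omega

/-- Admissible outer coordinates. -/
noncomputable def XX (ι : C ↪ S) (pool : Finset S) (E : Finset V) (κ : V → C) : Finset S :=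
  univ.filter fun x => x ∉ pool ∧ ∀ p ∈ E, ι (κ p) ≠ x

theorem mem_XX {ι : C ↪ S} {pool : Finset S} {E : Finset V} {κ : V → C} {x : S} :
    x ∈ XX ι pool E κ ↔ x ∉ pool ∧ ∀ p ∈ E, ι (κ p) ≠ x := by
  simp [XX]

theorem card_XX (ι : C ↪ S) (pool : Finset S) {E : Finset V} (κ : V → C) {m : ℕ}
    (h : E.card ≤ m) : Fintype.card S ≤ (XX ι pool E κ).card + (m + pool.card) := by
  have hsub : (univ : Finset S) ⊆ XX ι pool E κ ∪ (E.image (fun p => ι (κ p)) ∪ pool) := by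
    intro x _
    simp only [mem_union, mem_XX, mem_image]
    by_cases h1 : x ∈ pool
    · exact Or.inr (Or.inr h1)
    · by_cases h2 : ∃ p ∈ E, ι (κ p) = x
      · exact Or.inr (Or.inl h2)
      · push Not at h2
        exact Or.inl ⟨h1, h2⟩
  have h1 := (card_le_card hsub).trans (card_union_le _ _)
  have h2 := card_union_le (E.image (fun p => ι (κ p))) pool
  have h3 := card_image_le (s := E) (f := fun p => ι (κ p))
  rw [card_univ] at h1
  omega

theorem dom_of {Γ : SimpleGraph V} {ι : C ↪ S} {χ : (V → C) → S → S → S → S}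
    {J Eu Ev : Finset V} {pool : Finset S} {y a : ℕ}
    (h : ∀ κ, PrOn Γ J κ → (Bad (XX ι pool Eu κ) poolᶜ (XX ι pool Ev κ) (χ κ) y).card ≤ a) :
    Dom Γ ι χ J Eu Ev pool y a := by
  intro κ hκ
  refine le_trans (card_le_card fun x hx => ?_) (h κ hκ)
  obtain ⟨-, h1, h2, h3⟩ := mem_filter.1 hx
  refine mem_filter.2 ⟨mem_XX.2 ⟨h1, h2⟩, fun ⟨l, hl⟩ => h3 ⟨l, hl.trans (card_le_card ?_)⟩⟩
  intro be hbe
  obtain ⟨h4, h5⟩ := mem_filter.1 hbe
  exact mem_filter.2 ⟨mem_univ _, (mem_XX.1 (mem_product.1 h4).2).2, h5⟩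

end ASide

open ASide

/-- Recolouring one point at a time connects all colourings proper on a degenerate set. -/
theorem conn (Γ : SimpleGraph V) (J : Finset V)
    (hdeg : ∀ J' ⊆ J, J'.Nonempty → ∃ v ∈ J', (J'.filter (Γ.Adj v)).card + 2 ≤ Fintype.card C)
    (P : (V → C) → Prop) (h1 : ∀ κ κ', (∀ p ∈ J, κ p = κ' p) → P κ → P κ')
    (h2 : ∀ κ p c, PrOn Γ J κ → PrOn Γ J (update κ p c) → P κ → P (update κ p c)) :
    ∀ κ κ', PrOn Γ J κ → PrOn Γ J κ' → P κ → P κ' := by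
  induction J using Finset.strongInduction generalizing P with
  | H J ih =>
  rcases J.eq_empty_or_nonempty with rfl | hne
  · exact fun κ κ' _ _ h => h1 κ κ' (fun p hp => absurd hp (notMem_empty p)) h
  obtain ⟨v, hv, hc⟩ := hdeg J Subset.rfl hne
  have g1 : ∀ κ κ' : V → C, (∀ p ∈ J.erase v, κ p = κ' p) →
      (∃ c, PrOn Γ J (update κ v c) ∧ P (update κ v c)) →
      ∃ c, PrOn Γ J (update κ' v c) ∧ P (update κ' v c) := by
    rintro κ κ' e ⟨c, a1, a2⟩
    have e' : ∀ p ∈ J, update κ v c p = update κ' v c p := by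
      intro p hp
      by_cases e1 : p = v
      · rw [e1, update_self, update_self]
      · rw [update_of_ne e1, update_of_ne e1]
        exact e p (mem_erase.2 ⟨e1, hp⟩)
    exact ⟨c, prOn_congr e' a1, h1 _ _ e' a2⟩
  have key := ih (J.erase v) (erase_ssubset hv)
    (fun J' hJ' => hdeg J' (hJ'.trans (erase_subset _ _)))
    (fun κ => ∃ c, PrOn Γ J (update κ v c) ∧ P (update κ v c)) g1 (by
      intro κ p c a1 a2 a3
      by_cases hp : p ∈ J.erase v
      · obtain ⟨c0, b1, b2⟩ := a3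
        have hpv : p ≠ v := (mem_erase.1 hp).1
        obtain ⟨c', -, hc'⟩ : ∃ c' ∈ (univ : Finset C),
            c' ∉ insert c ((J.filter (Γ.Adj v)).image κ) := by
          apply exists_mem_notMem_of_card_lt_card
          have := card_insert_le c ((J.filter (Γ.Adj v)).image κ)
          have := card_image_le (s := J.filter (Γ.Adj v)) (f := κ)
          rw [card_univ]
          omega
        have d1 : ∀ q ∈ J, Γ.Adj v q → κ q ≠ c' := fun q hq hq' e =>
          hc' (mem_insert_of_mem (mem_image.2 ⟨q, mem_filter.2 ⟨hq, hq'⟩, e⟩))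
        have d2 : PrOn Γ J (update κ v c') := prOn_ext a1 d1
        have d3 : PrOn Γ J (update (update κ p c) v c') := by
          refine prOn_ext a2 fun q hq hq' => ?_
          by_cases e : q = p
          · rw [e, update_self]
            exact fun e' => hc' (e' ▸ mem_insert_self _ _)
          · rw [update_of_ne e]
            exact d1 q hq hq'
        have d4 : P (update κ v c') := by
          have := h2 (update κ v c0) v c' b1 (by rwa [update_idem]) b2
          rwa [update_idem] at this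
        refine ⟨c', d3, ?_⟩
        rw [update_comm hpv]
        exact h2 _ p c d2 (by rwa [← update_comm hpv]) d4
      · refine g1 κ _ (fun q hq => ?_) a3
        have e : q ≠ p := fun e => hp (e ▸ hq)
        rw [update_of_ne e])
  intro κ κ' a1 a2 a3
  obtain ⟨c, b1, b2⟩ := key κ κ' (prOn_mono (erase_subset _ _) a1) (prOn_mono (erase_subset _ _) a2)
    ⟨κ v, by rwa [update_eq_self], by rwa [update_eq_self]⟩
  have := h2 _ v (κ' v) b1 (by rwa [update_idem, update_eq_self]) b2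
  rwa [update_idem, update_eq_self] at this

/-- One of the two outer coordinates dominates, the same one for all colourings. -/
theorem side_main (Γ : SimpleGraph V) (ι : C ↪ S) (χ : (V → C) → S → S → S → S)
    (J Eu Ev : Finset V) (pool U0 : Finset S) {m y a : ℕ} (hEu : Eu ⊆ J) (hEv : Ev ⊆ J)
    (cEu : Eu.card ≤ m) (cEv : Ev.card ≤ m)
    (hdeg : ∀ J' ⊆ J, J'.Nonempty → ∃ v ∈ J', (J'.filter (Γ.Adj v)).card + 2 ≤ Fintype.card C)
    (hloc : ∀ κ κ', (∀ p ∈ J, κ p = κ' p) → χ κ = χ κ')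
    (P1 : ∀ κ κ' x1 x2 x3 y1 y2 y3, (∀ p ∈ J, ∀ p' ∈ J, Γ.Adj p p' → κ p ≠ κ' p') →
      (∀ p ∈ Eu, ι (κ' p) ≠ x1) → (∀ p ∈ Eu, ι (κ p) ≠ y1) → (∀ p ∈ Ev, ι (κ' p) ≠ x3) →
      (∀ p ∈ Ev, ι (κ p) ≠ y3) → x1 ≠ y1 → x1 ≠ y2 → x2 ≠ y1 → x2 ≠ y2 → x2 ≠ y3 → x3 ≠ y2 →
      x3 ≠ y3 → χ κ x1 x2 x3 ≠ χ κ' y1 y2 y3)
    (P0 : ∀ κ x1 x2 x3, x1 ∉ pool → x2 ∉ pool → x3 ∉ pool → χ κ x1 x2 x3 ∈ U0 →
      χ κ x1 x2 x3 = x1 ∨ χ κ x1 x2 x3 = x3)
    (n1 : 7 * Fintype.card S * y ≤ a ^ 3) (n2 : pool.card + a < U0.card)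
    (n3 : 2 * m + 2 * pool.card + 2 * a + 2 < Fintype.card S) (n4 : 8 * Fintype.card S < y) :
    Dom Γ ι χ J Eu Ev pool y a ∨ Dom Γ ι (fun κ x b e => χ κ e b x) J Ev Eu pool y a := by
  have sep : ∀ κ, PrOn Γ J κ → Sep (XX ι pool Eu κ) poolᶜ (XX ι pool Ev κ) (XX ι pool Eu κ) poolᶜ
      (XX ι pool Ev κ) (χ κ) (χ κ) := fun κ hκ x1 h1 x2 _ x3 h3 y1 h4 y2 _ y3 h6 =>
    P1 κ κ x1 x2 x3 y1 y2 y3 hκ (mem_XX.1 h1).2 (mem_XX.1 h4).2 (mem_XX.1 h3).2 (mem_XX.1 h6).2
  have two : ∀ κ, PrOn Γ J κ →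
      (Bad (XX ι pool Eu κ) poolᶜ (XX ι pool Ev κ) (χ κ) y).card ≤ a ∨
      (Bad (XX ι pool Ev κ) poolᶜ (XX ι pool Eu κ) (fun x b e => χ κ e b x) y).card ≤ a := by
    intro κ hκ
    rcases three (sep κ hκ) n1 with h | h | h
    · exact Or.inl h
    · exact absurd h (not_mid (sep κ hκ) (fun x1 h1 x2 h2 x3 h3 =>
        P0 κ x1 x2 x3 (mem_XX.1 h1).1 (mem_compl.1 h2) (mem_XX.1 h3).1) n2 n4)
    · exact Or.inr h
  by_cases hex : ∃ κ0, PrOn Γ J κ0 ∧
      (Bad (XX ι pool Eu κ0) poolᶜ (XX ι pool Ev κ0) (χ κ0) y).card ≤ a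
  · obtain ⟨κ0, k1, k2⟩ := hex
    refine Or.inl (dom_of fun κ hκ => conn Γ J hdeg
      (fun κ => (Bad (XX ι pool Eu κ) poolᶜ (XX ι pool Ev κ) (χ κ) y).card ≤ a)
      (fun κ κ' e h => ?_) (fun κ q c a1 a2 h => ?_) κ0 κ k1 hκ k2)
    · have e1 : ∀ E ⊆ J, XX ι pool E κ' = XX ι pool E κ := fun E hE => by
        ext x
        simp only [mem_XX]
        exact and_congr_right fun _ => forall₂_congr fun p hp => by rw [e p (hE hp)]
      rw [e1 Eu hEu, e1 Ev hEv, ← hloc κ κ' e]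
      exact h
    · refine (two _ a2).resolve_right (not_both (s := ι c) (t := ι (κ q)) (k := m + pool.card)
        (sep κ a1) (sep _ a2) ?_ (card_XX ι pool κ cEu) (card_XX ι pool _ cEv) (by omega) n4 h)
      have f1 : ∀ (E : Finset V) x, x ∈ (XX ι pool E κ).erase (ι c) →
          ∀ p ∈ E, ι (update κ q c p) ≠ x := by
        intro E x hx p hp
        obtain ⟨g1, g2⟩ := mem_erase.1 hx
        by_cases e : p = q
        · rw [e, update_self]
          exact g1.symm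
        · rw [update_of_ne e]
          exact (mem_XX.1 g2).2 p hp
      have f2 : ∀ (E : Finset V) x, x ∈ (XX ι pool E (update κ q c)).erase (ι (κ q)) →
          ∀ p ∈ E, ι (κ p) ≠ x := by
        intro E x hx p hp
        obtain ⟨g1, g2⟩ := mem_erase.1 hx
        by_cases e : p = q
        · rw [e]
          exact g1.symm
        · have := (mem_XX.1 g2).2 p hp
          rwa [update_of_ne e] at this
      intro x1 h1 x2 _ x3 h3 y1 h4 y2 _ y3 h6
      refine P1 κ _ x1 x2 x3 y1 y2 y3 (fun p hp p' hp' hpp => ?_) (f1 _ _ h1) (f2 _ _ h4)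
        (f1 _ _ h3) (f2 _ _ h6)
      by_cases e : p' = q
      · have e' : p ≠ q := fun e' => hpp.ne (e'.trans e.symm)
        have := a2 p hp p' hp' hpp
        rwa [update_of_ne e'] at this
      · rw [update_of_ne e]
        exact a1 p hp p' hp' hpp
  · exact Or.inr (dom_of fun κ hκ => (two κ hκ).resolve_left fun h => hex ⟨κ, hκ, h⟩)

/-- A colouring of words that always picks one of the letters has a dominating position. -/
theorem level0 [Fintype I] (Ψ0 : (I → S) → S) (h : ∀ w, ∃ i, w i = Ψ0 w) {a y : ℕ}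
    (hn : 0 < Fintype.card S)
    (hy : Fintype.card I * Fintype.card S * y < (a + 1) ^ Fintype.card I) :
    ∃ j, (univ.filter fun v : S =>
        (univ.filter fun w : I → S => w j = v ∧ Ψ0 w = v).card < y).card ≤ a ∧
      ∃ t : I → S, (Fintype.card S - a) * y * Fintype.card S ≤
        (univ.filter fun v => Ψ0 (update t j v) = v).card * Fintype.card S ^ Fintype.card I := by
  set L : I → Finset S := fun j => univ.filter fun v : S =>
    (univ.filter fun w : I → S => w j = v ∧ Ψ0 w = v).card < y with hL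
  obtain ⟨j, hj⟩ : ∃ j, (L j).card ≤ a := by
    by_contra hn'
    push Not at hn'
    have h1 : (a + 1) ^ Fintype.card I ≤ (Fintype.piFinset L).card := by
      rw [Fintype.card_piFinset, ← card_univ]
      exact pow_card_le_prod _ _ _ fun i _ => hn' i
    have hsub : Fintype.piFinset L ⊆ (univ : Finset I).biUnion fun j => (L j).biUnion fun v =>
        univ.filter fun w : I → S => w j = v ∧ Ψ0 w = v := by
      intro w hw
      obtain ⟨i, hi⟩ := h w
      exact mem_biUnion.2 ⟨i, mem_univ _, mem_biUnion.2 ⟨w i, Fintype.mem_piFinset.1 hw i,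
        mem_filter.2 ⟨mem_univ _, rfl, hi.symm⟩⟩⟩
    have h2 := (card_le_card hsub).trans (card_biUnion_le_card_mul _ _ (Fintype.card S * y)
      fun i _ => (card_biUnion_le_card_mul _ _ y fun v hv => (mem_filter.1 hv).2.le).trans
        (Nat.mul_le_mul_right _ (card_le_univ _)))
    rw [card_univ, ← mul_assoc] at h2
    omega
  refine ⟨j, hj, ?_⟩
  have : Nonempty S := Fintype.card_pos_iff.1 hn
  obtain ⟨t, -, ht⟩ := exists_max_image (univ : Finset (I → S))
    (fun t => (univ.filter fun v => Ψ0 (update t j v) = v).card) univ_nonempty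
  refine ⟨t, ?_⟩
  have s1 : ∑ t' : I → S, (univ.filter fun v => Ψ0 (update t' j v) = v).card ≤
      (univ.filter fun v => Ψ0 (update t j v) = v).card * Fintype.card S ^ Fintype.card I := by
    refine (sum_le_card_nsmul _ _ _ ht).trans_eq ?_
    rw [smul_eq_mul, card_univ, Fintype.card_fun, mul_comm]
  have s2 : ∑ t' : I → S, (univ.filter fun v => Ψ0 (update t' j v) = v).card =
      ∑ v : S, (univ.filter fun t' : I → S => Ψ0 (update t' j v) = v).card := by
    simp only [card_filter]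
    exact sum_comm
  have s3 : ∀ v ∈ (L j)ᶜ, y * Fintype.card S ≤
      (univ.filter fun t' : I → S => Ψ0 (update t' j v) = v).card := by
    intro v hv
    have hv' : y ≤ (univ.filter fun w : I → S => w j = v ∧ Ψ0 w = v).card := by
      by_contra hc
      exact mem_compl.1 hv (mem_filter.2 ⟨mem_univ _, by omega⟩)
    refine (Nat.mul_le_mul_right _ hv').trans ?_
    rw [← card_univ (α := S), ← card_product]
    refine card_le_card_of_injOn (fun p => update p.1 j p.2) (fun p hp => ?_)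
      fun p hp p' hp' e => ?_
    · obtain ⟨-, a1, a2⟩ := mem_filter.1 (mem_product.1 (mem_coe.1 hp)).1
      refine mem_coe.2 (mem_filter.2 ⟨mem_univ _, ?_⟩)
      rw [update_idem, ← a1, update_eq_self, a2, a1]
    · obtain ⟨-, a1, -⟩ := mem_filter.1 (mem_product.1 (mem_coe.1 hp)).1
      obtain ⟨-, a2, -⟩ := mem_filter.1 (mem_product.1 (mem_coe.1 hp')).1
      refine Prod.ext (funext fun i => ?_) (by simpa using congrFun e j)
      by_cases e' : i = j
      · rw [e', a1, a2]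
      · simpa [update_of_ne e'] using congrFun e i
  have s4 := (card_nsmul_le_sum _ _ _ s3).trans
    (sum_le_sum_of_subset (subset_univ _))
  rw [smul_eq_mul, card_compl] at s4
  calc (Fintype.card S - a) * y * Fintype.card S
      ≤ (Fintype.card S - (L j).card) * (y * Fintype.card S) := by
        rw [mul_assoc]
        exact Nat.mul_le_mul_right _ (by omega)
    _ ≤ _ := s4.trans (s2 ▸ s1)

/-- Greedy choice of pairwise disjoint sets. -/
theorem greedy_disj (W : Finset I) (s : I → Finset S) {R Δ : ℕ}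
    (h1 : ∀ i ∈ W, (s i).Nonempty) (h2 : ∀ i ∈ W, (s i).card ≤ R)
    (h3 : ∀ v, (W.filter fun i => v ∈ s i).card ≤ Δ) :
    ∃ M ⊆ W, (∀ i ∈ M, ∀ j ∈ M, i ≠ j → Disjoint (s i) (s j)) ∧ W.card ≤ M.card * (R * Δ) := by
  obtain ⟨Q, hQ⟩ : ∃ Q : Finset I → Prop,
      ∀ M, Q M ↔ ∀ i ∈ M, ∀ j ∈ M, i ≠ j → Disjoint (s i) (s j) := ⟨_, fun _ => Iff.rfl⟩
  obtain ⟨M, hM, hmax⟩ := exists_max_image (W.powerset.filter Q) card
    ⟨∅, mem_filter.2 ⟨empty_mem_powerset _, (hQ _).2 fun i hi => absurd hi (notMem_empty i)⟩⟩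
  obtain ⟨m1, m2⟩ := mem_filter.1 hM
  have m2 := (hQ _).1 m2
  have m1 := mem_powerset.1 m1
  refine ⟨M, m1, m2, ?_⟩
  have hsub : W ⊆ (M.biUnion s).biUnion fun v => W.filter fun i => v ∈ s i := by
    intro i hi
    by_contra hc
    have hd : ∀ j ∈ M, Disjoint (s i) (s j) := fun j hj => disjoint_left.2 fun v hv hv' =>
      hc (mem_biUnion.2 ⟨v, mem_biUnion.2 ⟨j, hj, hv'⟩, mem_filter.2 ⟨hi, hv⟩⟩)
    have hiM : i ∉ M := fun hiM => (h1 i hi).ne_empty (disjoint_self.1 (hd i hiM))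
    have := hmax (insert i M) (mem_filter.2 ⟨mem_powerset.2 (insert_subset hi m1), (hQ _).2 <| by
      intro k hk k' hk' hne
      rcases mem_insert.1 hk with rfl | hk1
      · rcases mem_insert.1 hk' with rfl | hk2
        · exact absurd rfl hne
        · exact hd _ hk2
      · rcases mem_insert.1 hk' with rfl | hk2
        · exact (hd _ hk1).symm
        · exact m2 _ hk1 _ hk2 hne⟩)
    rw [card_insert_of_notMem hiM] at this
    omega
  refine (card_le_card hsub).trans ((card_biUnion_le_card_mul _ _ Δ fun v _ => h3 v).trans ?_)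
  rw [← mul_assoc]
  exact Nat.mul_le_mul_right _ (card_biUnion_le_card_mul _ _ R fun i hi => h2 i (m1 hi))

end Pool.Agent.Work.MP_418764_co.All
end
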