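import Pool.Agent.Work.MP_418764_co.Host

namespace Pool.Agent.Work.MP_418764_co
open Finset Equiv
open scoped Classical

variable {m σ ρ : ℕ}

@[simp] theorem usable_cl (b : Bool) (i : Fin m) : usable (cl b i : Slot m σ ρ) := by
  simp [usable]
@[simp] theorem usable_rs (j : Fin ρ) : usable (rs j : Slot m σ ρ) := by simp [usable]
@[simp] theorem usable_ww2 (x : Fin σ) : usable (ww 2 x : Slot m σ ρ) := by simp [usable]
theorem not_usable0 (x : Fin σ) : ¬ usable (ww 0 x : Slot m σ ρ) := fun h => (h x).1 rfl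
theorem not_usable1 (x : Fin σ) : ¬ usable (ww 1 x : Slot m σ ρ) := fun h => (h x).2 rfl

/-- on usable slots `π` is `g` with the colour of `c` put on slot `a` -/
def Sub (g π : Perm (Slot m σ ρ)) (a c : Slot m σ ρ) : Prop :=
  ¬ usable c ∧ ∀ u, usable u → π u = if u = a then g c else g u

theorem Sub.ne {g π : Perm (Slot m σ ρ)} {a c v w : Slot m σ ρ} (h : Sub g π a c)
    (hv : usable v) (h1 : w ≠ c) (h2 : v ≠ a → w ≠ v) : π v ≠ g w := by
  rw [h.2 v hv]
  split_ifs with h3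
  · exact fun e => h1 (g.injective e).symm
  · exact fun e => h2 h3 (g.injective e).symm

theorem Sub.sim {g π : Perm (Slot m σ ρ)} {a c : Slot m σ ρ} (h : Sub g π a c) : Sim g π := by
  intro u v hu hv e
  rw [h.2 v hv] at e
  split_ifs at e with h3
  · exact absurd (g.injective e ▸ hu) h.1
  · exact g.injective e

theorem Sub.sim2 {g π π' : Perm (Slot m σ ρ)} {a c a' c' : Slot m σ ρ} (h : Sub g π a c)
    (h' : Sub g π' a' c') (hc : c ≠ c') : Sim π π' := by
  intro u v hu hv e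
  rw [h.2 u hu, h'.2 v hv] at e
  split_ifs at e with h3 h4 h4
  · exact absurd (g.injective e) hc
  · exact absurd (g.injective e ▸ hv) h.1
  · exact absurd (g.injective e ▸ hu) h'.1
  · exact g.injective e

theorem Sub_swap (g : Perm (Slot m σ ρ)) (a c : Slot m σ ρ) (hc : ¬ usable c) :
    Sub g (g * swap a c) a c := by
  refine ⟨hc, fun u hu => ?_⟩
  rw [Perm.mul_apply]
  split_ifs with h
  · rw [h, swap_apply_left]
  · rw [swap_apply_of_ne_of_ne h (show u ≠ c from fun e => hc (e ▸ hu))]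

theorem Sub_swap2 (g : Perm (Slot m σ ρ)) (a c c' : Slot m σ ρ) (ha : usable a)
    (hc : ¬ usable c) (hc' : ¬ usable c') (hcc : c' ≠ c) :
    Sub g (g * swap a c * swap a c') a c' := by
  refine ⟨hc', fun u hu => ?_⟩
  rw [Perm.mul_apply, Perm.mul_apply]
  split_ifs with h
  · rw [h, swap_apply_left, swap_apply_of_ne_of_ne (show c' ≠ a from fun e => hc' (e ▸ ha)) hcc]
  · rw [swap_apply_of_ne_of_ne h (show u ≠ c' from fun e => hc' (e ▸ hu)),
      swap_apply_of_ne_of_ne h (show u ≠ c from fun e => hc (e ▸ hu))]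

namespace Data
variable {J μ : ℕ} (D : Data m σ ρ J μ)

theorem Sub_agree {g π : Perm (Slot m σ ρ)} {a c : Slot m σ ρ} (h : Sub g π a c)
    (ha : a ∉ D.Z (J + 1)) : D.Agree g π := by
  intro z hz
  obtain ⟨b, i, rfl⟩ := D.Zcl z hz
  rw [h.2 _ (usable_cl b i), if_neg (show cl b i ≠ a from fun e => ha (e ▸ hz))]

theorem Agree.symm {D : Data m σ ρ J μ} {π π' : Perm (Slot m σ ρ)} (h : D.Agree π π') :
    D.Agree π' π := fun z hz => (h z hz).symm

theorem Agree.trans {D : Data m σ ρ J μ} {π π' π'' : Perm (Slot m σ ρ)} (h : D.Agree π π')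
    (h' : D.Agree π' π'') : D.Agree π π'' := fun z hz => (h z hz).trans (h' z hz)

theorem Av_sub_ww {g π : Perm (Slot m σ ρ)} {a c : Slot m σ ρ} (h : Sub g π a c) {t' : ℕ}
    (ht' : t' ≤ J) (t : ℕ) {k : Fin 3} {y : Fin σ} (hne : ww k y ≠ c) :
    D.Av π none t' t (g (ww k y)) :=
  D.Av_unused ht' (fun _ _ => h.ne (by simp) hne (by simp)) (fun _ => h.ne (by simp) hne (by simp))

theorem Av_sub_cl {g π : Perm (Slot m σ ρ)} {a c : Slot m σ ρ} (h : Sub g π a c) {t' t : ℕ}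
    (ht' : t' ≤ J) (htt : t' ≤ t) (i : Fin m) :
    D.Av π none t' t (g (cl (par (pos D.side t)) i)) := by
  have hc : ∀ b, (cl b i : Slot m σ ρ) ≠ c := fun b e => h.1 (e ▸ usable_cl b i)
  exact D.Av_par ht' htt (fun _ => h.ne (by simp) (hc _) (by simp))
    (fun _ => h.ne (by simp) (hc _) (by simp)) (fun _ => h.ne (by simp) (hc _) (by simp))

theorem ww_pair (π : Perm (Slot m σ ρ)) {t t' : ℕ} (ht : t ≤ J) (ht' : t' ≤ J) {k k' : Fin 3}
    {y y' : Fin σ} (hv : D.val π none t (ww k y)) (hv' : D.val π none t' (ww k' y'))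
    (h : (ww k y : Slot m σ ρ) ≠ ww k' y' ∨ 2 ≤ |pos D.side t - pos D.side t'|) :
    D.lab π none t (ww k y) ≠ D.lab π none t' (ww k' y') :=
  D.CT2 ht ht' hv hv' (Comp_none π none) (D.Agree_refl π) (D.Av_ww π ht' _ _ _)
    (D.Av_ww π ht _ _ _) (h.imp_left fun h e => h (π.injective e))

/-- isolated entries -/
noncomputable def ISO (π : Perm (Slot m σ ρ)) (t0 : ℕ) : Finset (ℕ × Fin σ) :=
  (Tm D.side false t0 J ×ˢ univ).filter (fun e => D.val π none e.1 (ww 0 e.2) ∧
    ∀ t' < J, |pos D.side t' - pos D.side e.1| ≤ 1 → t' ≠ e.1 → D.val π none t' (ww 0 e.2) →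
      D.lab π none t' (ww 0 e.2) ≠ D.lab π none e.1 (ww 0 e.2))

theorem ISO_card {d : ℕ} (hJ : J + 7 = 2 * d) (hN : m + ρ ≤ 3 * σ * d + σ)
    (π : Perm (Slot m σ ρ)) (t0 : ℕ) : (D.ISO π t0).card ≤ 16 * σ + D.inv π none := by
  have hm : ∀ e ∈ D.ISO π t0, e.1 < J ∧ par (pos D.side e.1) = false ∧
      D.val π none e.1 (ww 0 e.2) ∧ ∀ t' < J, |pos D.side t' - pos D.side e.1| ≤ 1 → t' ≠ e.1 →
      D.val π none t' (ww 0 e.2) →
      D.lab π none t' (ww 0 e.2) ≠ D.lab π none e.1 (ww 0 e.2) := by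
    intro e he
    simp only [ISO, mem_filter, mem_product, mem_Tm] at he
    exact ⟨he.1.1.2.1, he.1.1.2.2, he.2.1, he.2.2⟩
  have := D.hostJ hJ hN π true (fun _ => ∅) (D.ISO π t0) (fun e => D.lab π none e.1 (ww 0 e.2))
    (by
      intro e he e' he' h
      obtain ⟨h1, h2, h3, -⟩ := hm e he
      obtain ⟨h1', h2', h3', -⟩ := hm e' he'
      by_contra hne
      refine D.ww_pair π h1.le h1'.le h3 h3' ?_ h
      by_cases hy : e.2 = e'.2
      · exact Or.inr (far_of_par _ (h2.trans h2'.symm) (fun ht => hne (Prod.ext ht hy)))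
      · left; simpa using hy)
    (by
      intro i hv e he
      obtain ⟨h1, h2, h3, -⟩ := hm e he
      exact D.CT2 le_rfl h1.le hv h3 (Comp_none π none) (D.Agree_refl π)
        (D.Av_cl π none h1.le h1.le i) (D.Av_ww π le_rfl _ _ _) (Or.inl (by simp)))
    (by
      intro t ht hp k y _ hv e he
      obtain ⟨h1, h2, h3, h4⟩ := hm e he
      by_cases hc : (ww k y : Slot m σ ρ) ≠ ww 0 e.2 ∨ 2 ≤ |pos D.side t - pos D.side e.1|
      · exact D.ww_pair π ht.le h1.le hv h3 hc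
      · push Not at hc
        rw [hc.1] at hv ⊢
        exact h4 t ht (by omega) (fun h => by rw [h, h2] at hp; simp at hp) hv)
  simpa using this

/-- unstable entries whose label is an old label of the inserted element -/
noncomputable def U1 (π : Perm (Slot m σ ρ)) (ε : Bool) (i : Fin m) (x : Fin σ) :
    Finset (ℕ × Fin σ) :=
  (Tm D.side ε 0 J ×ˢ univ).filter (fun e =>
    D.val (π * swap (cl ε i) (ww 1 x)) none e.1 (ww 0 e.2) ∧
    ∃ t' < J, D.lab π none t' (ww 1 x) = D.lab (π * swap (cl ε i) (ww 1 x)) none e.1 (ww 0 e.2))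

theorem U1_card (π : Perm (Slot m σ ρ)) (ε : Bool) (i : Fin m) (x : Fin σ) :
    (D.U1 π ε i x).card ≤ J := by
  have : (D.U1 π ε i x).card ≤ ((range J).image (fun t' => D.lab π none t' (ww 1 x))).card := by
    apply card_le_card_of_injOn
      (fun e => D.lab (π * swap (cl ε i) (ww 1 x)) none e.1 (ww 0 e.2))
    · intro e he
      simp only [U1, coe_filter, Set.mem_ofPred_eq] at he
      obtain ⟨-, -, t', h1, h2⟩ := he
      simp only [coe_image, coe_range]
      exact ⟨t', h1, h2⟩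
    · intro e he e' he' h
      simp only [U1, coe_filter, Set.mem_ofPred_eq, mem_product, mem_Tm] at he he'
      by_contra hne
      refine D.ww_pair _ he.1.1.2.1.le he'.1.1.2.1.le he.2.1 he'.2.1 ?_ h
      by_cases hy : e.2 = e'.2
      · exact Or.inr (far_of_par _ (he.1.1.2.2.trans he'.1.1.2.2.symm)
          (fun ht => hne (Prod.ext ht hy)))
      · left; simpa using hy
  exact this.trans (card_image_le.trans (by simp))

/-- the property defining unstable entries of the second kind -/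
def U2P (π : Perm (Slot m σ ρ)) (ε : Bool) (t : ℕ) (y : Fin σ) (i : Fin m) (x : Fin σ) : Prop :=
  cl ε i ∉ D.Z (J + 1) ∧ D.val (π * swap (cl ε i) (ww 1 x)) none t (ww 0 y) ∧
    D.lab π none t (ww 0 y) ≠ D.lab (π * swap (cl ε i) (ww 1 x)) none t (ww 0 y) ∧
    ∀ t' < J, D.lab π none t' (ww 1 x) ≠ D.lab (π * swap (cl ε i) (ww 1 x)) none t (ww 0 y)

theorem U2_card {d : ℕ} (hJ : J + 7 = 2 * d) (hN : m + ρ ≤ 3 * σ * d + σ)
    (π : Perm (Slot m σ ρ)) (ε : Bool) (fi : Fin σ → Fin m) (fx : Fin σ → Fin σ)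
    (hfx : Function.Injective fx) :
    ((Tm D.side ε 0 J ×ˢ univ).filter (fun e => D.U2P π ε e.1 e.2 (fi e.2) (fx e.2))).card ≤
      16 * σ + D.inv π none := by
  have hS : ∀ y, Sub π (π * swap (cl ε (fi y)) (ww 1 (fx y))) (cl ε (fi y)) (ww 1 (fx y)) :=
    fun y => Sub_swap _ _ _ (not_usable1 _)
  have hy : ∀ y y', (π * swap (cl ε (fi y)) (ww 1 (fx y)) : Perm _) (ww 0 y') = π (ww 0 y') := by
    intro y y'
    rw [Perm.mul_apply, swap_apply_of_ne_of_ne (by simp) (by simp)]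
  have := D.hostJ hJ hN π ε (fun _ => ∅)
    ((Tm D.side ε 0 J ×ˢ univ).filter (fun e => D.U2P π ε e.1 e.2 (fi e.2) (fx e.2)))
    (fun e => D.lab (π * swap (cl ε (fi e.2)) (ww 1 (fx e.2))) none e.1 (ww 0 e.2))
    (by
      intro e he e' he' h
      simp only [U2P, coe_filter, Set.mem_ofPred_eq, mem_product, mem_Tm] at he he'
      by_contra hne
      by_cases hyy : e.2 = e'.2
      · have h3 := he'.2.2.1
        simp only [← hyy] at h h3
        exact D.ww_pair _ he.1.1.2.1.le he'.1.1.2.1.le he.2.2.1 h3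
          (Or.inr (far_of_par _ (he.1.1.2.2.trans he'.1.1.2.2.symm)
          (fun ht => hne (Prod.ext ht hyy)))) h
      · refine D.CT2 he.1.1.2.1.le he'.1.1.2.1.le he.2.2.1 he'.2.2.1
          ⟨(hS e.2).sim2 (hS e'.2) (by simpa using fun h => hyy (hfx h)), Or.inl rfl⟩
          ((D.Sub_agree (hS e.2) he.2.1).symm.trans (D.Sub_agree (hS e'.2) he'.2.1)) ?_ ?_ ?_ h
        · rw [hy]; exact D.Av_sub_ww (hS e'.2) he'.1.1.2.1.le _ (by simp)
        · rw [hy]; exact D.Av_sub_ww (hS e.2) he.1.1.2.1.le _ (by simp)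
        · left; rw [hy, hy]; simpa using hyy)
    (by
      intro i hv e he
      simp only [U2P, mem_filter, mem_product, mem_Tm] at he
      refine D.CT2 le_rfl he.1.1.2.1.le hv he.2.2.1 ⟨(hS e.2).sim, Or.inl rfl⟩
        (D.Sub_agree (hS e.2) he.2.1) (D.Av_sub_cl (hS e.2) he.1.1.2.1.le he.1.1.2.1.le i) ?_ ?_
      · rw [hy]; exact D.Av_ww π le_rfl _ _ _
      · left; rw [hy]; simp)
    (by
      intro t ht hp k y _ hv e he
      simp only [U2P, mem_filter, mem_product, mem_Tm] at he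
      by_cases h1 : (ww k y : Slot m σ ρ) = ww 1 (fx e.2)
      · rw [h1]; exact he.2.2.2.2 t ht
      by_cases h2 : (ww k y : Slot m σ ρ) = ww 0 e.2 ∧ t = e.1
      · rw [h2.1, h2.2]; exact he.2.2.2.1
      refine D.CT2 ht.le he.1.1.2.1.le hv he.2.2.1 ⟨(hS e.2).sim, Or.inl rfl⟩
        (D.Sub_agree (hS e.2) he.2.1) (D.Av_sub_ww (hS e.2) he.1.1.2.1.le _ h1) ?_ ?_
      · rw [hy]; exact D.Av_ww π ht.le _ _ _
      · rw [hy]
        by_cases h3 : (ww k y : Slot m σ ρ) = ww 0 e.2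
        · exact Or.inr (far_of_par _ (hp.trans he.1.1.2.2.symm) (fun h => h2 ⟨h3, h⟩))
        · exact Or.inl (fun e => h3 (π.injective e)))
  simpa using this

/-- entries where the modified context has another label -/
noncomputable def UH (π : Perm (Slot m σ ρ)) (ε : Bool) : Finset (ℕ × Fin σ) :=
  (Tm D.side ε 0 J ×ˢ univ).filter (fun e => D.val π (some ε) e.1 (ww 0 e.2) ∧
    D.lab π none e.1 (ww 0 e.2) ≠ D.lab π (some ε) e.1 (ww 0 e.2))

theorem Av_h_ww {π : Perm (Slot m σ ρ)} {ε : Bool} {t' t : ℕ} (ht' : t' ≤ J)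
    (hp : par (pos D.side t) = ε) {k : Fin 3} {y : Fin σ} (h : ¬ (k = 2 ∧ y ∈ D.X π ε t)) :
    D.Av π (some ε) t' t (π (ww k y)) := by
  intro p v hp' hn ho
  rcases D.occ π _ p v (InI_mono _ ht' hp') ho with
    ⟨i, rfl⟩ | ⟨j, rfl⟩ | ⟨t1, x, h1, h2, h3, h4, rfl⟩
  · simp
  · simp
  · simp only [Option.some.injEq] at h3
    have h5 : p = pos D.side t := eq_of_par_eq (h3.symm.trans hp.symm) hn
    have h6 : t1 = t := pos_inj _ (h2.symm.trans h5)
    rw [← h3, h6] at h4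
    intro e
    have := ww_inj.mp (π.injective e)
    exact h ⟨this.1.symm, this.2 ▸ h4⟩

theorem Av_h_core {π : Perm (Slot m σ ρ)} {ι : Option Bool} {t' : ℕ} (ht' : t' ≤ J) (t : ℕ)
    {k : Fin 3} (y : Fin σ) (h : k ≠ 2) : D.Av π ι t' t (π (ww k y)) :=
  D.Av_unused' ht' (by simp) (by simp) (by
    intro x e
    exact h (ww_inj.mp (π.injective e)).1.symm)

theorem UH_card {d : ℕ} (hJ : J + 7 = 2 * d) (hN : m + ρ ≤ 3 * σ * d + σ)
    (π : Perm (Slot m σ ρ)) (ε : Bool) :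
    (D.UH π ε).card ≤ 16 * σ + D.inv π none + ∑ t ∈ Tm D.side ε 0 J, (D.Y π ε t).card := by
  have := D.hostJ hJ hN π ε (D.X π ε) (D.UH π ε) (fun e => D.lab π (some ε) e.1 (ww 0 e.2))
    (by
      intro e he e' he' h
      simp only [UH, coe_filter, Set.mem_ofPred_eq, mem_product, mem_Tm] at he he'
      by_contra hne
      refine D.CT2 he.1.1.2.1.le he'.1.1.2.1.le he.2.1 he'.2.1
        ⟨Sim.refl π, Or.inr (Or.inr ⟨rfl, rfl⟩)⟩ (D.Agree_refl π)
        (D.Av_h_core he'.1.1.2.1.le _ _ (by decide)) (D.Av_h_core he.1.1.2.1.le _ _ (by decide))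
        ?_ h
      by_cases hy : e.2 = e'.2
      · exact Or.inr (far_of_par _ (he.1.1.2.2.trans he'.1.1.2.2.symm)
          (fun ht => hne (Prod.ext ht hy)))
      · left; simpa using hy)
    (by
      intro i hv e he
      simp only [UH, mem_filter, mem_product, mem_Tm] at he
      exact D.CT2 le_rfl he.1.1.2.1.le hv he.2.1 (Comp_none π _) (D.Agree_refl π)
        (D.Av_cl π _ he.1.1.2.1.le he.1.1.2.1.le i) (D.Av_ww π le_rfl _ _ _) (Or.inl (by simp)))
    (by
      intro t ht hp k y hk hv e he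
      simp only [UH, mem_filter, mem_product, mem_Tm] at he
      by_cases h2 : (ww k y : Slot m σ ρ) = ww 0 e.2 ∧ t = e.1
      · rw [h2.1, h2.2]; exact he.2.2
      refine D.CT2 ht.le he.1.1.2.1.le hv he.2.1 (Comp_none π _) (D.Agree_refl π)
        (D.Av_h_ww he.1.1.2.1.le hp hk) (D.Av_ww π ht.le _ _ _) ?_
      by_cases h3 : (ww k y : Slot m σ ρ) = ww 0 e.2
      · exact Or.inr (far_of_par _ (hp.trans he.1.1.2.2.symm) (fun h => h2 ⟨h3, h⟩))
      · exact Or.inl (fun e => h3 (π.injective e)))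
  have h2 : ∑ t ∈ Tm D.side ε 0 J, (D.X π ε t).card ≤ ∑ t ∈ Tm D.side ε 0 J, (D.Y π ε t).card :=
    sum_le_sum fun t _ => (D.cardX π ε t).trans (D.cardA π ε t)
  omega

end Data

end Pool.Agent.Work.MP_418764_co
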