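import Pool.Agent.Work.MP_418764_co.Bud

namespace Pool.Agent.Work.MP_418764_co
open Finset Equiv
open scoped Classical

variable {m σ ρ : ℕ}

namespace Data
variable {J μ : ℕ} (D : Data m σ ρ J μ)

def Nice (π : Perm (Slot m σ ρ)) (ε : Bool) (t t' : ℕ) (y : Fin σ) (i : Fin m) (x : Fin σ) :
    Prop :=
  cl (!ε) i ∉ D.Z (J + 1) ∧ D.val π none t' (ww 0 y) ∧
    D.lab π none t (ww 0 y) = D.lab π none t' (ww 0 y) ∧
    D.val (π * swap (cl (!ε) i) (ww 1 x)) none t' (ww 0 y) ∧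
    D.lab π none t' (ww 0 y) = D.lab (π * swap (cl (!ε) i) (ww 1 x)) none t' (ww 0 y)

def Vict (π : Perm (Slot m σ ρ)) (ε : Bool) (t : ℕ) (y : Fin σ) (i : Fin m) : Prop :=
  ∃ a, D.val (π * swap (cl (!ε) i) (ww 0 y)) none t (cl ε a) ∧
    D.lab (π * swap (cl (!ε) i) (ww 0 y)) none t (cl ε a) = D.lab π none t (ww 0 y)

theorem NV_card [NeZero σ] {d t0 : ℕ} (hJ : J + 7 = 2 * d) (hN : m + ρ ≤ 3 * σ * d + σ)
    (ht0 : t0 + 1200 = J) (g : Perm (Slot m σ ρ)) (ε : Bool) {t t' : ℕ} (h0 : t0 ≤ t)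
    (htt : t < t') (ht' : t' < J) (hp : par (pos D.side t) = ε)
    (hn : |pos D.side t - pos D.side t'| ≤ 1) :
    (univ.filter (fun i => ∃ y x, D.Nice (g * swap (cl (!ε) i) (ww 0 y)) ε t t' y i x ∧
      ¬ D.Vict (g * swap (cl (!ε) i) (ww 0 y)) ε t y i)).card ≤ 3632 * σ + 2 * D.inv g none := by
  have hp' : par (pos D.side t') = !ε := by
    have := par_ne_of_adj hn (fun h => absurd (pos_inj _ h) htt.ne)
    rw [hp] at this
    revert this; cases par (pos D.side t') <;> cases ε <;> simp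
  -- the two exceptional sets
  set I1 : Finset (Fin m) := univ.filter (fun i => ∃ yx : Fin σ × Fin σ,
    D.Nice (g * swap (cl (!ε) i) (ww 0 yx.1)) ε t t' yx.1 i yx.2 ∧
    ¬ (D.val g none t' (cl (!ε) i) ∧ D.lab g none t' (cl (!ε) i) =
      D.lab (g * swap (cl (!ε) i) (ww 0 yx.1)) none t' (ww 0 yx.1))) with hI1
  set I2 : Finset (Fin m) := univ.filter (fun i => D.val g none t' (cl (!ε) i) ∧
    ∀ a, D.val g none t (cl ε a) → D.lab g none t (cl ε a) ≠ D.lab g none t' (cl (!ε) i)) with hI2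
  have hsub : univ.filter (fun i => ∃ y x, D.Nice (g * swap (cl (!ε) i) (ww 0 y)) ε t t' y i x ∧
      ¬ D.Vict (g * swap (cl (!ε) i) (ww 0 y)) ε t y i) ⊆ I1 ∪ I2 := by
    intro i hi
    rw [mem_filter] at hi
    obtain ⟨-, y, x, h1, h2⟩ := hi
    rw [mem_union]
    by_cases h3 : D.val g none t' (cl (!ε) i) ∧ D.lab g none t' (cl (!ε) i) =
      D.lab (g * swap (cl (!ε) i) (ww 0 y)) none t' (ww 0 y)
    · right
      rw [hI2, mem_filter]
      refine ⟨mem_univ _, h3.1, fun a ha e => h2 ⟨a, ?_, ?_⟩⟩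
      · rw [mul_assoc, swap_mul_self, mul_one]; exact ha
      · rw [mul_assoc, swap_mul_self, mul_one, e, h3.2, h1.2.2.1]
    · left
      rw [hI1, mem_filter]
      exact ⟨mem_univ _, (y, x), h1, h3⟩
  have hS1 : ∀ i y, Sub g (g * swap (cl (!ε) i) (ww 0 y)) (cl (!ε) i) (ww 0 y) :=
    fun i y => Sub_swap _ _ _ (not_usable0 _)
  have hS2 : ∀ i y x, Sub g (g * swap (cl (!ε) i) (ww 0 y) * swap (cl (!ε) i) (ww 1 x))
      (cl (!ε) i) (ww 1 x) :=
    fun i y x => Sub_swap2 _ _ _ _ (by simp) (not_usable0 _) (not_usable1 _) (by simp)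
  have hc1 : ∀ i y, (g * swap (cl (!ε) i) (ww 0 y) : Perm _) (ww 0 y) = g (cl (!ε) i) := by
    intro i y; rw [Perm.mul_apply, swap_apply_right]
  have hc2 : ∀ i y x, (g * swap (cl (!ε) i) (ww 0 y) * swap (cl (!ε) i) (ww 1 x) : Perm _)
      (ww 0 y) = g (cl (!ε) i) := by
    intro i y x
    rw [Perm.mul_apply, swap_apply_of_ne_of_ne (by simp) (by simp), hc1]
  have hI1c : I1.card ≤ 1816 * σ + D.inv g none := by
    have hex : ∀ i ∈ I1, ∃ yx : Fin σ × Fin σ,
        D.Nice (g * swap (cl (!ε) i) (ww 0 yx.1)) ε t t' yx.1 i yx.2 ∧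
        ¬ (D.val g none t' (cl (!ε) i) ∧ D.lab g none t' (cl (!ε) i) =
          D.lab (g * swap (cl (!ε) i) (ww 0 yx.1)) none t' (ww 0 yx.1)) := by
      intro i hi; rw [hI1, mem_filter] at hi; exact hi.2
    choose! w hw using hex
    have hcl : ∀ {π : Perm (Slot m σ ρ)} {a c : Slot m σ ρ}, Sub g π a c → ∀ i,
        D.Av π none t' t' (g (cl (!ε) i)) := by
      intro π a c h i
      rw [← hp']; exact D.Av_sub_cl h ht'.le le_rfl i
    refine D.hostW hJ hN ht0 g t' ht'.le (by omega) I1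
      (fun i => D.lab (g * swap (cl (!ε) i) (ww 0 (w i).1)) none t' (ww 0 (w i).1)) ?_ ?_ ?_
    · intro i hi k hk h
      obtain ⟨⟨a1, a2, -, -, -⟩, -⟩ := hw i hi
      obtain ⟨⟨b1, -, -, b4, b5⟩, -⟩ := hw k hk
      by_contra hne
      simp only at h
      rw [b5] at h
      refine D.CT2 ht'.le ht'.le a2 b4 ⟨(hS1 _ _).sim2 (hS2 _ _ _) (by simp), Or.inl rfl⟩
        ((D.Sub_agree (hS1 _ _) a1).symm.trans (D.Sub_agree (hS2 _ _ _) b1)) ?_ ?_ ?_ h
      · rw [hc1]; exact hcl (hS2 _ _ _) i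
      · rw [hc2]; exact hcl (hS1 _ _) k
      · left; rw [hc1, hc2]; simpa using hne
    · intro k hk i hi
      obtain ⟨⟨a1, a2, -, -, -⟩, a6⟩ := hw i hi
      rw [hp'] at hk ⊢
      by_cases hki : k = i
      · subst hki; exact fun e => a6 ⟨hk, e⟩
      refine D.CT2 ht'.le ht'.le hk a2 ⟨(hS1 _ _).sim, Or.inl rfl⟩ (D.Sub_agree (hS1 _ _) a1)
        (hcl (hS1 _ _) k) ?_ ?_
      · rw [hc1, ← hp']; exact D.Av_cl g none ht'.le le_rfl i
      · left; rw [hc1]; simpa using hki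
    · intro s hs k y hv i hi
      obtain ⟨⟨a1, a2, -, a4, a5⟩, -⟩ := hw i hi
      have hav : D.Av g none s t' (g (cl (!ε) i)) := by
        rw [← hp']; exact D.Av_cl g none (by omega) (by omega) i
      by_cases hk : (ww k y : Slot m σ ρ) = ww 0 (w i).1
      · rw [a5]
        refine D.CT2 (by omega) ht'.le hv a4 ⟨(hS2 _ _ _).sim, Or.inl rfl⟩
          (D.Sub_agree (hS2 _ _ _) a1) (D.Av_sub_ww (hS2 _ _ _) ht'.le _ (by rw [hk]; simp)) ?_ ?_
        · rw [hc2]; exact hav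
        · left; rw [hc2]; simp
      · refine D.CT2 (by omega) ht'.le hv a2 ⟨(hS1 _ _).sim, Or.inl rfl⟩
          (D.Sub_agree (hS1 _ _) a1) (D.Av_sub_ww (hS1 _ _) ht'.le _ hk) ?_ ?_
        · rw [hc1]; exact hav
        · left; rw [hc1]; simp
  have hI2c : I2.card ≤ 1816 * σ + D.inv g none := by
    refine D.hostW hJ hN ht0 g t (by omega) h0 I2 (fun i => D.lab g none t' (cl (!ε) i)) ?_ ?_ ?_
    · intro i hi k hk h
      simp only [hI2, coe_filter, Set.mem_ofPred_eq] at hi hk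
      by_contra hne
      refine D.CT2 ht'.le ht'.le hi.2.1 hk.2.1 (Comp_none g none) (D.Agree_refl g) ?_ ?_
        (Or.inl (by simpa using hne)) h
      · rw [← hp']; exact D.Av_cl g none ht'.le le_rfl i
      · rw [← hp']; exact D.Av_cl g none ht'.le le_rfl k
    · intro a ha i hi
      rw [hI2, mem_filter] at hi
      rw [hp] at ha ⊢
      exact hi.2.2 a ha
    · intro s hs k y hv i hi
      rw [hI2, mem_filter] at hi
      refine D.CT2 (by omega) ht'.le hv hi.2.1 (Comp_none g none) (D.Agree_refl g)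
        (D.Av_ww g ht'.le _ _ _) ?_ (Or.inl (by simp))
      rw [← hp']; exact D.Av_cl g none (by omega) (by omega) i
  have := (card_le_card hsub).trans (card_union_le _ _)
  omega

theorem Av_A {π : Perm (Slot m σ ρ)} {t' t : ℕ} (ht' : t' ≤ J) (ht : t < J) {a : Fin m}
    (ha : a ∈ D.A π (par (pos D.side t)) t) :
    D.Av π (some (par (pos D.side t))) t' t (π (cl (par (pos D.side t)) a)) := by
  intro p v hp hn ho e
  have e := π.injective e
  subst e
  rcases D.occ π _ p _ (InI_mono _ ht' hp) ho with ⟨i, h⟩ | ⟨j, h⟩ | ⟨_, _, _, _, _, _, h⟩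
  · have h5 : p = pos D.side t := eq_of_par_eq (cl_inj.mp h).1.symm hn
    rw [h5] at ho
    exact D.occA π t a ht ha ho
  · simp at h
  · simp at h

theorem isoY {π : Perm (Slot m σ ρ)} {t t' : ℕ} (ht : t < J) (ht' : t' ≤ J) (hne : t ≠ t')
    (hn : |pos D.side t - pos D.side t'| ≤ 1) {y : Fin σ}
    (hy : y ∈ D.Y π (par (pos D.side t)) t)
    (hv : D.val π (some (par (pos D.side t))) t' (ww 0 y)) :
    D.lab π (some (par (pos D.side t))) t (ww 0 y) ≠
      D.lab π (some (par (pos D.side t))) t' (ww 0 y) := by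
  obtain ⟨-, h2, i, a, ha, h3, h4, h5⟩ := D.Ymem π t ht y hy
  rcases lt_or_gt_of_ne hne with h | h
  · rw [← h5]
    have hS : Sub π (π * swap (cl (!par (pos D.side t)) i) (ww 0 y)) _ _ :=
      Sub_swap π (cl (!par (pos D.side t)) i) (ww 0 y) (not_usable0 _)
    have e1 : (π * swap (cl (!par (pos D.side t)) i) (ww 0 y) : Perm _)
        (cl (par (pos D.side t)) a) = π (cl (par (pos D.side t)) a) := by
      rw [hS.2 _ (by simp), if_neg (by simp)]
    refine D.CT _ _ _ _ t t' _ _ h.le ht' h4 hv ⟨hS.sim.symm, Or.inl rfl⟩ ?_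
      (Or.inl ⟨_, _, rfl⟩) ?_ ?_ (Or.inl ?_)
    · intro z hz
      obtain ⟨b, k, rfl⟩ := D.Zcl z (D.Zmono _ _ (by omega) hz)
      rw [hS.2 _ (by simp), if_neg (fun e => h3 (by rw [← e]; exact hz))]
    · rw [e1]; exact D.Av_A ht' ht ha
    · intro p v hp hn' _
      exact absurd hn' (nx_no_near _ h hn le_rfl hp)
    · rw [e1]; simp
  · exact (h2 t' h (by rwa [abs_sub_comm]) hv).symm

theorem Y_card {d : ℕ} (hJ : J + 7 = 2 * d) (hN : m + ρ ≤ 3 * σ * d + σ)
    (π : Perm (Slot m σ ρ)) (ε : Bool) :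
    ∑ t ∈ Tm D.side ε 0 J, (D.Y π ε t).card ≤ 16 * σ + D.inv π (some ε) := by
  set F : ℕ → Finset (Slot m σ ρ) := fun t => if t = J then CL (par (pos D.side J)) else
    if par (pos D.side t) = ε then WK 1 ∪ (((univ \ D.X π ε t).image (ww 2) ∪
      (D.A π ε t).image (cl ε)) ∪ (D.Y π ε t).image (ww 0)) else WK 0 with hF
  have hFm : ∀ t ≤ J, ∀ u ∈ F t, (t = J ∧ ∃ i, u = cl (par (pos D.side J)) i) ∨
      (t < J ∧ par (pos D.side t) = ε ∧ ((∃ y, u = ww 1 y) ∨ (∃ x, x ∉ D.X π ε t ∧ u = ww 2 x) ∨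
        (∃ a ∈ D.A π ε t, u = cl ε a) ∨ ∃ y ∈ D.Y π ε t, u = ww 0 y)) ∨
      (t < J ∧ par (pos D.side t) ≠ ε ∧ ∃ y, u = ww 0 y) := by
    intro t ht u hu
    simp only [hF] at hu
    split_ifs at hu with h1 h3
    · exact Or.inl ⟨h1, mem_CL.mp hu⟩
    · refine Or.inr (Or.inl ⟨by omega, h3, ?_⟩)
      simp only [mem_union, mem_WK, mem_image, mem_sdiff, mem_univ, true_and] at hu
      rcases hu with h | (⟨x, h, rfl⟩ | ⟨a, h, rfl⟩) | ⟨y, h, rfl⟩
      · exact Or.inl h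
      · exact Or.inr (Or.inl ⟨x, h, rfl⟩)
      · exact Or.inr (Or.inr (Or.inl ⟨a, h, rfl⟩))
      · exact Or.inr (Or.inr (Or.inr ⟨y, h, rfl⟩))
    · exact Or.inr (Or.inr ⟨by omega, h3, mem_WK.mp hu⟩)
  have hAv : ∀ t ≤ J, ∀ t' ≤ J, ∀ u ∈ F t, D.Av π (some ε) t' t (π u) := by
    intro t ht t' ht' u hu
    rcases hFm t ht u hu with ⟨rfl, i, rfl⟩ | ⟨h1, h2, ⟨y, rfl⟩ | ⟨x, hx, rfl⟩ | ⟨a, ha, rfl⟩ |
      ⟨y, -, rfl⟩⟩ | ⟨-, -, y, rfl⟩
    · exact D.Av_cl π _ ht' ht' i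
    · exact D.Av_h_core ht' _ _ (by decide)
    · exact D.Av_h_ww ht' h2 (fun h => hx h.2)
    · subst h2; exact D.Av_A ht' h1 ha
    · exact D.Av_h_core ht' _ _ (by decide)
    · exact D.Av_h_core ht' _ _ (by decide)
  have hnear : ∀ t ≤ J, ∀ t' ≤ J, ∀ u ∈ F t, u ∈ F t' → t ≠ t' →
      |pos D.side t - pos D.side t'| ≤ 1 → par (pos D.side t) = ε →
      D.val π (some ε) t' u → D.lab π (some ε) t u ≠ D.lab π (some ε) t' u := by
    intro t ht t' ht' u hu hu' hne hn hp hv'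
    have hpp : par (pos D.side t') ≠ ε := by
      rw [← hp]; exact (par_ne_of_adj hn (fun h => hne (pos_inj _ h))).symm
    rcases hFm t' ht' u hu' with ⟨rfl, i, rfl⟩ | ⟨-, h2, -⟩ | ⟨-, -, y, rfl⟩
    · rcases hFm t ht _ hu with ⟨h, -⟩ | ⟨h1, h2, ⟨y, h⟩ | ⟨x, hx, h⟩ | ⟨a, ha, h⟩ |
        ⟨y, -, h⟩⟩ | ⟨-, -, y, h⟩
      · exact absurd h hne
      · simp at h
      · simp at h
      · exact absurd (cl_inj.mp h).1 hpp
      · simp at h
      · simp at h
    · exact absurd h2 hpp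
    · rcases hFm t ht _ hu with ⟨-, i, h⟩ | ⟨h1, h2, ⟨y, h⟩ | ⟨x, hx, h⟩ | ⟨a, ha, h⟩ |
        ⟨y', hy, h⟩⟩ | ⟨-, h, -⟩
      · simp at h
      · simp at h
      · simp at h
      · simp at h
      · obtain rfl := (ww_inj.mp h).2
        subst h2
        exact D.isoY h1 ht' hne hn hy hv'
      · exact absurd hp h
  have key := D.host π (some ε) F (∅ : Finset (Slot m σ ρ)) id
    (by
      intro t ht u hu
      rcases hFm t ht u hu with ⟨rfl, i, rfl⟩ | ⟨h1, h2, ⟨y, rfl⟩ | ⟨x, hx, rfl⟩ | ⟨a, ha, rfl⟩ |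
        ⟨y, -, rfl⟩⟩ | ⟨-, -, y, rfl⟩
      · exact relv_cl _ _ _ _
      · exact Or.inr (Or.inr (Or.inl ⟨y, rfl⟩))
      · exact Or.inr (Or.inr (Or.inr ⟨x, rfl, Or.inr (by rw [h2])⟩))
      · subst h2; exact relv_cl _ _ _ _
      · exact Or.inr (Or.inl ⟨y, rfl⟩)
      · exact Or.inr (Or.inl ⟨y, rfl⟩)) (by simp)
    (by
      intro t ht t' ht' u hu u' hu' hv hv' hne
      by_cases hc : u ≠ u' ∨ 2 ≤ |pos D.side t - pos D.side t'|
      · exact D.CT2 ht ht' hv hv' ⟨Sim.refl π, Or.inr (Or.inr ⟨rfl, rfl⟩)⟩ (D.Agree_refl π)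
          (hAv t ht t' ht' u hu) (hAv t' ht' t ht u' hu')
          (hc.imp_left fun h e => h (π.injective e))
      · push Not at hc
        obtain ⟨rfl, hc⟩ := hc
        have htt : t ≠ t' := by tauto
        have hn : |pos D.side t - pos D.side t'| ≤ 1 := by omega
        by_cases hp : par (pos D.side t) = ε
        · exact hnear t ht t' ht' u hu hu' htt hn hp hv'
        · have hp' : par (pos D.side t') = ε := by
            have := par_ne_of_adj hn (fun h => htt (pos_inj _ h))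
            revert this hp
            cases par (pos D.side t') <;> cases par (pos D.side t) <;> cases ε <;> simp
          exact (hnear t' ht' t ht u hu' hu htt.symm (by rwa [abs_sub_comm]) hp' hv).symm)
    (by simp)
  have hsub : insert J (Tm D.side ε 0 J ∪ Tm D.side (!ε) 0 J) ⊆ range (J + 1) := by
    intro t ht
    simp only [mem_insert, mem_union, mem_Tm] at ht
    rw [mem_range]; omega
  have hns : J ∉ Tm D.side ε 0 J ∪ Tm D.side (!ε) 0 J := by simp [mem_Tm]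
  have hdis : Disjoint (Tm D.side ε 0 J) (Tm D.side (!ε) 0 J) := by
    rw [disjoint_left]
    intro t h1 h2
    rw [mem_Tm] at h1 h2
    have := h1.2.2.symm.trans h2.2.2
    simp at this
  have h3 := sum_le_sum_of_subset (f := fun t => (F t).card) hsub
  rw [sum_insert hns, sum_union hdis] at h3
  have h4 : (F J).card = m := by simp [hF, card_CL]
  have h5 : 2 * σ * (Tm D.side ε 0 J).card + ∑ t ∈ Tm D.side ε 0 J, (D.Y π ε t).card ≤
      ∑ t ∈ Tm D.side ε 0 J, (F t).card := by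
    rw [mul_comm, ← smul_eq_mul, ← sum_const, ← sum_add_distrib]
    refine sum_le_sum fun t ht => ?_
    rw [mem_Tm] at ht
    simp only [hF, ht.2.1.ne, ht.2.2, if_true, if_false]
    rw [card_union_of_disjoint, card_union_of_disjoint, card_union_of_disjoint, card_WK,
      card_image_of_injective _ (fun i j h => by simpa using h),
      card_image_of_injective _ (fun i j h => by simpa using h),
      card_image_of_injective _ (fun i j h => by simpa using h), card_univ_sdiff]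
    · have := D.cardX π ε t
      have := card_le_univ (D.X π ε t)
      simp only [Fintype.card_fin] at *
      omega
    · simp [disjoint_left]
    · simp only [disjoint_left, mem_union, mem_image]
      rintro u (⟨x, -, rfl⟩ | ⟨x, -, rfl⟩) <;> simp
    · simp only [disjoint_left, mem_union, mem_image, mem_WK]
      rintro u ⟨x, rfl⟩; simp
  have h6 : σ * (Tm D.side (!ε) 0 J).card ≤ ∑ t ∈ Tm D.side (!ε) 0 J, (F t).card := by
    rw [mul_comm, ← smul_eq_mul, ← sum_const]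
    refine sum_le_sum fun t ht => ?_
    rw [mem_Tm] at ht
    have : par (pos D.side t) ≠ ε := by rw [ht.2.2]; simp
    simp only [hF, ht.2.1.ne, this, if_false, card_WK, le_refl]
  have hc1 := (Tm_card D.side ε (Nat.zero_le J)).1
  have hc2 := (Tm_card D.side (!ε) (Nat.zero_le J)).1
  have h7 : 2 * σ * d ≤ 2 * σ * ((Tm D.side ε 0 J).card + 4) := Nat.mul_le_mul_left _ (by omega)
  have h8 : σ * d ≤ σ * ((Tm D.side (!ε) 0 J).card + 4) := Nat.mul_le_mul_left _ (by omega)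
  have h9 : 3 * σ * d = 2 * σ * d + σ * d := by ring
  rw [mul_add] at h7 h8
  simp only [card_empty] at key
  omega

end Data

end Pool.Agent.Work.MP_418764_co
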