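import Pool.Agent.Work.MP_418764_co.Geom

namespace Pool.Agent.Work.MP_418764_co
open Finset Equiv
open scoped Classical

abbrev Slot (m σ ρ : ℕ) := (Bool × Fin m) ⊕ (Fin 3 × Fin σ) ⊕ Fin ρ

variable {m σ ρ : ℕ}

def cl (b : Bool) (i : Fin m) : Slot m σ ρ := Sum.inl (b, i)
def ww (k : Fin 3) (y : Fin σ) : Slot m σ ρ := Sum.inr (Sum.inl (k, y))
def rs (j : Fin ρ) : Slot m σ ρ := Sum.inr (Sum.inr j)

@[simp] theorem cl_inj {b b' : Bool} {i i' : Fin m} :
    (cl b i : Slot m σ ρ) = cl b' i' ↔ b = b' ∧ i = i' := by simp [cl]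
@[simp] theorem ww_inj {k k' : Fin 3} {y y' : Fin σ} :
    (ww k y : Slot m σ ρ) = ww k' y' ↔ k = k' ∧ y = y' := by simp [ww]
@[simp] theorem rs_inj {j j' : Fin ρ} : (rs j : Slot m σ ρ) = rs j' ↔ j = j' := by simp [rs]
@[simp] theorem cl_ne_ww {b : Bool} {i : Fin m} {k : Fin 3} {y : Fin σ} :
    ((cl b i : Slot m σ ρ) = ww k y) ↔ False := by simp [cl, ww]
@[simp] theorem ww_ne_cl {b : Bool} {i : Fin m} {k : Fin 3} {y : Fin σ} :
    ((ww k y : Slot m σ ρ) = cl b i) ↔ False := by simp [cl, ww]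
@[simp] theorem cl_ne_rs {b : Bool} {i : Fin m} {j : Fin ρ} :
    ((cl b i : Slot m σ ρ) = rs j) ↔ False := by simp [cl, rs]
@[simp] theorem rs_ne_cl {b : Bool} {i : Fin m} {j : Fin ρ} :
    ((rs j : Slot m σ ρ) = cl b i) ↔ False := by simp [cl, rs]
@[simp] theorem ww_ne_rs {k : Fin 3} {y : Fin σ} {j : Fin ρ} :
    ((ww k y : Slot m σ ρ) = rs j) ↔ False := by simp [ww, rs]
@[simp] theorem rs_ne_ww {k : Fin 3} {y : Fin σ} {j : Fin ρ} :
    ((rs j : Slot m σ ρ) = ww k y) ↔ False := by simp [ww, rs]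

theorem card_Slot : Fintype.card (Slot m σ ρ) = 2 * m + (3 * σ + ρ) := by
  simp [Fintype.card_sum, Fintype.card_prod]

def usable (u : Slot m σ ρ) : Prop := ∀ y, u ≠ ww 0 y ∧ u ≠ ww 1 y

def Sim (π π' : Perm (Slot m σ ρ)) : Prop :=
  ∀ u v, usable u → usable v → π u = π' v → u = v

def Comp (π : Perm (Slot m σ ρ)) (ι : Option Bool) (π' : Perm (Slot m σ ρ)) (ι' : Option Bool) :
    Prop := Sim π π' ∧ (ι = none ∨ ι' = none ∨ (π = π' ∧ ι = ι'))

theorem Sim.symm {π π' : Perm (Slot m σ ρ)} (h : Sim π π') : Sim π' π :=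
  fun u v hu hv e => (h v u hv hu e.symm).symm

theorem Sim.refl (π : Perm (Slot m σ ρ)) : Sim π π := fun _ _ _ _ e => π.injective e

theorem Comp.symm {π π' : Perm (Slot m σ ρ)} {ι ι' : Option Bool} (h : Comp π ι π' ι') :
    Comp π' ι' π ι := ⟨h.1.symm, by rcases h.2 with h | h | ⟨h, h'⟩ <;> simp [*]⟩

/-- the relevant entries -/
def relv (side : ℕ → Bool) (ι : Option Bool) (t : ℕ) (u : Slot m σ ρ) : Prop :=
  (∃ i, u = cl (par (pos side t)) i) ∨ (∃ y, u = ww 0 y) ∨ (∃ y, u = ww 1 y) ∨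
    (∃ y, u = ww 2 y ∧ (ι = none ∨ ι = some (par (pos side t))))

noncomputable def invc (side : ℕ → Bool)
    (val : Perm (Slot m σ ρ) → Option Bool → ℕ → Slot m σ ρ → Prop) (J : ℕ)
    (π : Perm (Slot m σ ρ)) (ι : Option Bool) : ℕ :=
  ((range (J + 1) ×ˢ (univ : Finset (Slot m σ ρ))).filter
    (fun e => relv side ι e.1 e.2 ∧ ¬ val π ι e.1 e.2)).card

/-- the rule that triggers a modification -/
def RA (side : ℕ → Bool) (Z : ℕ → Finset (Slot m σ ρ))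
    (val : Perm (Slot m σ ρ) → Option Bool → ℕ → Slot m σ ρ → Prop)
    (lab : Perm (Slot m σ ρ) → Option Bool → ℕ → Slot m σ ρ → Slot m σ ρ)
    (π : Perm (Slot m σ ρ)) (ε : Bool) (t : ℕ) (y : Fin σ) (A : Finset (Fin m)) : Prop :=
  val π (some ε) t (ww 0 y) ∧
  (∀ t' < t, |pos side t' - pos side t| ≤ 1 → val π (some ε) t' (ww 0 y) →
    lab π (some ε) t' (ww 0 y) ≠ lab π (some ε) t (ww 0 y)) ∧
  ∃ i, ∃ a ∈ A, cl (!ε) i ∉ Z (t + 1) ∧
    val (π * swap (cl (!ε) i) (ww 0 y)) none t (cl ε a) ∧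
    lab (π * swap (cl (!ε) i) (ww 0 y)) none t (cl ε a) = lab π (some ε) t (ww 0 y)

structure Data (m σ ρ J μ : ℕ) where
  side : ℕ → Bool
  Z : ℕ → Finset (Slot m σ ρ)
  Occ : Perm (Slot m σ ρ) → Option Bool → ℤ → Slot m σ ρ → Prop
  val : Perm (Slot m σ ρ) → Option Bool → ℕ → Slot m σ ρ → Prop
  lab : Perm (Slot m σ ρ) → Option Bool → ℕ → Slot m σ ρ → Slot m σ ρ
  Y : Perm (Slot m σ ρ) → Bool → ℕ → Finset (Fin σ)
  A : Perm (Slot m σ ρ) → Bool → ℕ → Finset (Fin m)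
  X : Perm (Slot m σ ρ) → Bool → ℕ → Finset (Fin σ)
  Zmono : ∀ t t', t ≤ t' → Z t ⊆ Z t'
  Zcard : (Z (J + 1)).card ≤ ρ
  Zcl : ∀ z ∈ Z (J + 1), ∃ b i, z = cl b i
  occ : ∀ π ι p v, InI side J p → Occ π ι p v → (∃ i, v = cl (par p) i) ∨ (∃ j, v = rs j) ∨
    (∃ t x, t < J ∧ p = pos side t ∧ ι = some (par p) ∧ x ∈ X π (par p) t ∧ v = ww 2 x)
  occA : ∀ π t a, t < J → a ∈ A π (par (pos side t)) t →
    ¬ Occ π (some (par (pos side t))) (pos side t) (cl (par (pos side t)) a)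
  cardX : ∀ π ε t, (X π ε t).card ≤ (A π ε t).card
  cardA : ∀ π ε t, (A π ε t).card ≤ (Y π ε t).card
  Ymem : ∀ π t, t < J → ∀ y ∈ Y π (par (pos side t)) t,
    RA side Z val lab π (par (pos side t)) t y (A π (par (pos side t)) t)
  Rcount : ∀ π t, t < J →
    (univ.filter (fun y => RA side Z val lab π (par (pos side t)) t y univ)).card ≤ μ ∨
      μ ≤ (Y π (par (pos side t)) t).card
  CT : ∀ π ι π' ι' t t' u u', t ≤ t' → t' ≤ J → val π ι t u → val π' ι' t' u' →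
    Comp π ι π' ι' → (∀ z ∈ Z (t + 1), π z = π' z) →
    ((∃ b i, u = cl b i) ∨ ∀ z ∈ Z (t' + 1), π z = π' z) →
    (∀ p v, InI side t' p → |p - pos side t| ≤ 1 → Occ π' ι' p v → π' v ≠ π u) →
    (∀ p v, InI side t p → |p - pos side t'| ≤ 1 → Occ π ι p v → π v ≠ π' u') →
    (π u ≠ π' u' ∨ 2 ≤ |pos side t - pos side t'|) → lab π ι t u ≠ lab π' ι' t' u'
  INV : ∑ π, (invc side val J π none + invc side val J π (some false) +
    invc side val J π (some true)) ≤ Fintype.card (Perm (Slot m σ ρ)) * σ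

namespace Data
variable {J μ : ℕ} (D : Data m σ ρ J μ)

noncomputable def inv (π : Perm (Slot m σ ρ)) (ι : Option Bool) : ℕ := invc D.side D.val J π ι

def Agree (π π' : Perm (Slot m σ ρ)) : Prop := ∀ z ∈ D.Z (J + 1), π z = π' z

/-- the colour `c` does not occur near position `pos t` in the context of time `t'` -/
def Av (π : Perm (Slot m σ ρ)) (ι : Option Bool) (t' t : ℕ) (c : Slot m σ ρ) : Prop :=
  ∀ p v, InI D.side t' p → |p - pos D.side t| ≤ 1 → D.Occ π ι p v → π v ≠ c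

theorem CT2 {π π' : Perm (Slot m σ ρ)} {ι ι' : Option Bool} {t t' : ℕ} {u u' : Slot m σ ρ}
    (ht : t ≤ J) (ht' : t' ≤ J) (hv : D.val π ι t u) (hv' : D.val π' ι' t' u')
    (hc : Comp π ι π' ι') (ha : D.Agree π π') (h1 : D.Av π' ι' t' t (π u))
    (h2 : D.Av π ι t t' (π' u'))
    (h3 : π u ≠ π' u' ∨ 2 ≤ |pos D.side t - pos D.side t'|) :
    D.lab π ι t u ≠ D.lab π' ι' t' u' := by
  rcases le_total t t' with h | h
  · exact D.CT π ι π' ι' t t' u u' h ht' hv hv' hc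
      (fun z hz => ha z (D.Zmono _ _ (by omega) hz))
      (Or.inr fun z hz => ha z (D.Zmono _ _ (by omega) hz)) h1 h2 h3
  · refine (D.CT π' ι' π ι t' t u' u h ht hv' hv hc.symm
      (fun z hz => (ha z (D.Zmono _ _ (by omega) hz)).symm)
      (Or.inr fun z hz => (ha z (D.Zmono _ _ (by omega) hz)).symm) h2 h1 ?_).symm
    rcases h3 with h3 | h3
    · exact Or.inl h3.symm
    · right; rwa [abs_sub_comm]

theorem Av_unused {π : Perm (Slot m σ ρ)} {t' t : ℕ} {c : Slot m σ ρ} (ht' : t' ≤ J)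
    (h1 : ∀ b i, π (cl b i) ≠ c) (h2 : ∀ j, π (rs j) ≠ c) : D.Av π none t' t c := by
  intro p v hp _ ho
  rcases D.occ π none p v (InI_mono _ ht' hp) ho with ⟨i, rfl⟩ | ⟨j, rfl⟩ | ⟨_, _, _, _, h, _⟩
  · exact h1 _ _
  · exact h2 _
  · simp at h

theorem Av_unused' {π : Perm (Slot m σ ρ)} {ι : Option Bool} {t' t : ℕ} {c : Slot m σ ρ}
    (ht' : t' ≤ J) (h1 : ∀ b i, π (cl b i) ≠ c) (h2 : ∀ j, π (rs j) ≠ c)
    (h3 : ∀ x, π (ww 2 x) ≠ c) : D.Av π ι t' t c := by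
  intro p v hp _ ho
  rcases D.occ π ι p v (InI_mono _ ht' hp) ho with ⟨i, rfl⟩ | ⟨j, rfl⟩ | ⟨_, _, _, _, _, _, rfl⟩
  · exact h1 _ _
  · exact h2 _
  · exact h3 _

theorem Av_par {π : Perm (Slot m σ ρ)} {ι : Option Bool} {t' t : ℕ} {c : Slot m σ ρ}
    (ht' : t' ≤ J) (h : t' ≤ t) (h1 : ∀ i, π (cl (!par (pos D.side t)) i) ≠ c)
    (h2 : ∀ j, π (rs j) ≠ c) (h3 : ∀ x, π (ww 2 x) ≠ c) : D.Av π ι t' t c := by
  intro p v hp hn ho
  have hpar : par p = !par (pos D.side t) := by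
    have := par_near_InI D.side h hp hn
    revert this; cases par p <;> cases par (pos D.side t) <;> simp
  rcases D.occ π ι p v (InI_mono _ ht' hp) ho with ⟨i, rfl⟩ | ⟨j, rfl⟩ | ⟨_, _, _, _, _, _, rfl⟩
  · rw [hpar]; exact h1 _
  · exact h2 _
  · exact h3 _

theorem budget {α β : Type} (S1 : Finset α) (S2 : Finset β) (g1 : α → Slot m σ ρ)
    (g2 : β → Slot m σ ρ) (h1 : Set.InjOn g1 S1) (h2 : Set.InjOn g2 S2)
    (h12 : ∀ a ∈ S1, ∀ b ∈ S2, g1 a ≠ g2 b) :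
    S1.card + S2.card ≤ 2 * m + (3 * σ + ρ) := by
  rw [← card_Slot, ← card_image_of_injOn h1, ← card_image_of_injOn h2, ← card_union_of_disjoint]
  · exact card_le_univ _
  · rw [disjoint_left]
    intro c hc1 hc2
    obtain ⟨a, ha, rfl⟩ := mem_image.mp hc1
    obtain ⟨b, hb, e⟩ := mem_image.mp hc2
    exact h12 a ha b hb e.symm

theorem host {β : Type} (π : Perm (Slot m σ ρ)) (ι : Option Bool)
    (F : ℕ → Finset (Slot m σ ρ)) (S2 : Finset β) (g2 : β → Slot m σ ρ)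
    (hrel : ∀ t ≤ J, ∀ u ∈ F t, relv D.side ι t u) (h2 : Set.InjOn g2 S2)
    (hpair : ∀ t ≤ J, ∀ t' ≤ J, ∀ u ∈ F t, ∀ u' ∈ F t', D.val π ι t u → D.val π ι t' u' →
      (t ≠ t' ∨ u ≠ u') → D.lab π ι t u ≠ D.lab π ι t' u')
    (hcross : ∀ t ≤ J, ∀ u ∈ F t, D.val π ι t u → ∀ b ∈ S2, D.lab π ι t u ≠ g2 b) :
    ∑ t ∈ range (J + 1), (F t).card + S2.card ≤ 2 * m + (3 * σ + ρ) + D.inv π ι := by
  set E : Finset (ℕ × Slot m σ ρ) :=
    (range (J + 1) ×ˢ (univ : Finset (Slot m σ ρ))).filter (fun e => e.2 ∈ F e.1) with hE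
  have hEc : E.card = ∑ t ∈ range (J + 1), (F t).card := by
    rw [hE, card_filter, sum_product]
    refine sum_congr rfl fun t _ => ?_
    rw [← card_filter]; simp
  have hmem : ∀ e ∈ E, e.1 ≤ J ∧ e.2 ∈ F e.1 := by
    intro e he
    simp only [hE, mem_filter, mem_product, mem_range, mem_univ, and_true] at he
    exact ⟨by omega, he.2⟩
  have hb := budget (E.filter (fun e => D.val π ι e.1 e.2)) S2 (fun e => D.lab π ι e.1 e.2) g2
    (by
      intro e he e' he' h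
      simp only [coe_filter, Set.mem_ofPred_eq] at he he'
      by_contra hne
      refine hpair e.1 (hmem e he.1).1 e'.1 (hmem e' he'.1).1 e.2 (hmem e he.1).2 e'.2
        (hmem e' he'.1).2 he.2 he'.2 ?_ h
      by_contra hcon
      push Not at hcon
      exact hne (Prod.ext hcon.1 hcon.2)) h2
    (by
      intro e he b hb
      rw [mem_filter] at he
      exact hcross e.1 (hmem e he.1).1 e.2 (hmem e he.1).2 he.2 b hb)
  have hs := card_filter_add_card_filter_not (s := E) (fun e => D.val π ι e.1 e.2)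
  have hi : (E.filter (fun e => ¬ D.val π ι e.1 e.2)).card ≤ D.inv π ι := by
    unfold inv invc
    apply card_le_card
    intro e he
    rw [mem_filter] at he
    have := hmem e he.1
    simp only [mem_filter, mem_product, mem_range, mem_univ, and_true]
    exact ⟨by omega, hrel _ this.1 _ this.2, he.2⟩
  omega

end Data

end Pool.Agent.Work.MP_418764_co
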