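import Mathlib

namespace Pool.Agent.Work.MP_418764_co
open Finset

namespace DomAux

variable {S : Type} [Fintype S] [DecidableEq S]

/-- Rainbow admissible triples with label `l`. -/
def Tri (ψ : S → S → S → S) (X1 X3 : Finset S) (l : S) (x : Fin 3 → S) : Prop :=
  x 0 ∈ X1 ∧ x 2 ∈ X3 ∧ Function.Injective x ∧ ψ (x 0) (x 1) (x 2) = l

/-- `a` in position `i` is a centre for the label `l`. -/
def Cen (ψ : S → S → S → S) (X1 X3 : Finset S) (l : S) (i : Fin 3) (a : S) : Prop :=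
  ∀ Z : Finset S, Z.card ≤ 3 → ∃ x, Tri ψ X1 X3 l x ∧ x i = a ∧ ∀ j, j ≠ i → x j ∉ Z

/-- The clash property for triples. -/
def Clash (ψ : S → S → S → S) (X1 X3 : Finset S) : Prop :=
  ∀ x y : Fin 3 → S, x 0 ∈ X1 → x 2 ∈ X3 → y 0 ∈ X1 → y 2 ∈ X3 →
    ψ (x 0) (x 1) (x 2) = ψ (y 0) (y 1) (y 2) →
    ∃ i j : Fin 3, i.val ≤ j.val + 1 ∧ j.val ≤ i.val + 1 ∧ x i = y j

variable {ψ : S → S → S → S} {X1 X3 : Finset S}

omit [Fintype S] in
lemma cen_unique (hc : Clash ψ X1 X3) {l a a' : S} {i i' : Fin 3} (h : Cen ψ X1 X3 l i a)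
    (h' : Cen ψ X1 X3 l i' a') : a = a' ∧ i.val ≤ i'.val + 1 ∧ i'.val ≤ i.val + 1 := by
  obtain ⟨y, hy, hya, hyZ⟩ := h' {a} (by simp)
  obtain ⟨x, hx, hxa, hxZ⟩ := h (univ.image y) (card_image_le.trans (by simp))
  obtain ⟨p, q, h1, h2, h3⟩ := hc x y hx.1 hx.2.1 hy.1 hy.2.1 (hx.2.2.2.trans hy.2.2.2.symm)
  have hp : p = i := by
    by_contra hp
    exact hxZ p hp (h3 ▸ mem_image_of_mem y (mem_univ q))
  subst hp
  have hq : q = i' := by
    by_contra hq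
    exact hyZ q hq (by rw [← h3, hxa]; exact mem_singleton_self a)
  subst hq
  exact ⟨hxa.symm.trans (h3.trans hya), h1, h2⟩

lemma card_two_fixed (i j : Fin 3) (hij : j ≠ i) (a z : S) :
    (univ.filter fun x : Fin 3 → S => x i = a ∧ x j = z).card ≤ Fintype.card S := by
  have hk : ∀ i j : Fin 3, j ≠ i → ∃ k : Fin 3, ∀ t : Fin 3, t = i ∨ t = j ∨ t = k := by decide
  obtain ⟨k, hk⟩ := hk i j hij
  rw [← card_univ]
  refine card_le_card_of_injOn (fun x => x k) (fun _ _ => mem_coe.2 (mem_univ _)) ?_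
  intro x hx y hy hxy
  simp only [coe_filter, mem_univ, true_and, Set.mem_ofPred_eq] at hx hy
  funext t
  rcases hk t with rfl | rfl | rfl
  · rw [hx.1, hy.1]
  · rw [hx.2, hy.2]
  · exact hxy

open Classical in
/-- Rainbow admissible triples without a centre. -/
noncomputable def Bad (ψ : S → S → S → S) (X1 X3 : Finset S) : Finset (Fin 3 → S) :=
  univ.filter fun x => Tri ψ X1 X3 (ψ (x 0) (x 1) (x 2)) x ∧
    ∀ i, ¬ Cen ψ X1 X3 (ψ (x 0) (x 1) (x 2)) i (x i)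

omit [DecidableEq S] in
lemma mem_Bad {x : Fin 3 → S} : x ∈ Bad ψ X1 X3 ↔ Tri ψ X1 X3 (ψ (x 0) (x 1) (x 2)) x ∧
    ∀ i, ¬ Cen ψ X1 X3 (ψ (x 0) (x 1) (x 2)) i (x i) := by
  simp [Bad]

lemma card_Bad_fiber (hc : Clash ψ X1 X3) (l : S) :
    ((Bad ψ X1 X3).filter fun x => ψ (x 0) (x 1) (x 2) = l).card ≤ 81 * Fintype.card S := by
  rcases ((Bad ψ X1 X3).filter fun x => ψ (x 0) (x 1) (x 2) = l).eq_empty_or_nonempty with
    h | ⟨y, hy⟩
  · rw [h]; simp
  have hZ : ∀ (i : Fin 3) (a : S), ∃ Z : Finset S, Z.card ≤ 3 ∧ (¬ Cen ψ X1 X3 l i a →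
      ∀ x, Tri ψ X1 X3 l x → x i = a → ∃ j, j ≠ i ∧ x j ∈ Z) := by
    intro i a
    by_cases h : Cen ψ X1 X3 l i a
    · exact ⟨∅, by simp, fun h' => absurd h h'⟩
    · unfold Cen at h
      push Not at h
      obtain ⟨Z, hZ, h⟩ := h
      exact ⟨Z, hZ, fun _ => h⟩
  choose Z hZ3 hZ using hZ
  obtain ⟨hy1, hy2⟩ := mem_filter.1 hy
  have hy3 := (mem_Bad.1 hy1).1
  calc _ ≤ ((univ : Finset (Fin 3 × Fin 3)).biUnion fun p =>
        (univ.filter fun j => j ≠ p.1).biUnion fun j => (Z p.1 (y p.2)).biUnion fun z =>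
          univ.filter fun x : Fin 3 → S => x p.1 = y p.2 ∧ x j = z).card := by
        refine card_le_card fun x hx => ?_
        obtain ⟨hx1, hx2⟩ := mem_filter.1 hx
        obtain ⟨hx3, hx4⟩ := mem_Bad.1 hx1
        obtain ⟨p, q, -, -, h3⟩ := hc x y hx3.1 hx3.2.1 hy3.1 hy3.2.1 (hx2.trans hy2.symm)
        rw [hx2] at hx3 hx4
        obtain ⟨j, hj, hjZ⟩ := hZ p (y q) (h3 ▸ hx4 p) x hx3 h3
        simp only [mem_biUnion, mem_univ, mem_filter, true_and]
        exact ⟨(p, q), j, hj, x j, hjZ, h3, rfl⟩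
    _ ≤ (univ : Finset (Fin 3 × Fin 3)).card * (3 * (3 * Fintype.card S)) := by
        refine card_biUnion_le_card_mul _ _ _ fun p _ => ?_
        refine (card_biUnion_le_card_mul _ _ (3 * Fintype.card S) fun j hj => ?_).trans
          (Nat.mul_le_mul_right _ ((card_filter_le _ _).trans (by simp)))
        exact (card_biUnion_le_card_mul _ _ (Fintype.card S) fun z _ =>
          card_two_fixed _ _ (mem_filter.1 hj).2 _ _).trans (Nat.mul_le_mul_right _ (hZ3 _ _))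
    _ = 81 * Fintype.card S := by simp; ring

lemma card_Bad (hc : Clash ψ X1 X3) : (Bad ψ X1 X3).card ≤ 81 * Fintype.card S ^ 2 := by
  calc (Bad ψ X1 X3).card ≤ (81 * Fintype.card S) * (univ : Finset S).card :=
        card_le_mul_card_image_of_maps_to (f := fun x => ψ (x 0) (x 1) (x 2))
          (fun _ _ => mem_univ _) _ fun l _ => card_Bad_fiber hc l
    _ = _ := by rw [card_univ]; ring

open Classical in
/-- Elements that are centres in position `i`. -/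
noncomputable def Cs (ψ : S → S → S → S) (X1 X3 : Finset S) (i : Fin 3) : Finset S :=
  univ.filter fun a => ∃ l, Cen ψ X1 X3 l i a

omit [DecidableEq S] in
lemma mem_Cs {i : Fin 3} {a : S} : a ∈ Cs ψ X1 X3 i ↔ ∃ l, Cen ψ X1 X3 l i a := by
  simp [Cs]

lemma card_add_le (hc : Clash ψ X1 X3) {Lab : Finset S}
    (hlab : ∀ x1 x2 x3, x1 ∈ X1 → x3 ∈ X3 → ψ x1 x2 x3 ∈ Lab) {i j : Fin 3} {A B : Finset S}
    (hA : A ⊆ Cs ψ X1 X3 i) (hB : B ⊆ Cs ψ X1 X3 j)
    (h : Disjoint A B ∨ i.val + 1 < j.val) : A.card + B.card ≤ Lab.card := by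
  have hl : ∀ (i : Fin 3) (a : S), ∃ l, a ∈ Cs ψ X1 X3 i → Cen ψ X1 X3 l i a := by
    intro i a
    by_cases h : a ∈ Cs ψ X1 X3 i
    · obtain ⟨l, hl⟩ := mem_Cs.1 h
      exact ⟨l, fun _ => hl⟩
    · exact ⟨a, fun h' => absurd h' h⟩
  choose lab hl using hl
  have hinj : ∀ (i : Fin 3) (A : Finset S), A ⊆ Cs ψ X1 X3 i →
      (A.image (lab i)).card = A.card ∧ A.image (lab i) ⊆ Lab := by
    intro i A hA
    refine ⟨card_image_of_injOn fun a ha b hb hab => ?_, fun l hl' => ?_⟩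
    · exact (cen_unique hc (hl i a (hA ha)) (hab ▸ hl i b (hA hb))).1
    · obtain ⟨a, ha, rfl⟩ := mem_image.1 hl'
      obtain ⟨x, hx, -⟩ := hl i a (hA ha) ∅ (by simp)
      exact hx.2.2.2 ▸ hlab _ _ _ hx.1 hx.2.1
  rw [← (hinj i A hA).1, ← (hinj j B hB).1, ← card_union_of_disjoint]
  · exact card_le_card (union_subset (hinj i A hA).2 (hinj j B hB).2)
  · rw [disjoint_left]
    intro l h1 h2
    obtain ⟨a, ha, rfl⟩ := mem_image.1 h1
    obtain ⟨b, hb, hab⟩ := mem_image.1 h2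
    obtain ⟨h3, -, h4⟩ := cen_unique hc (hl i a (hA ha)) (hab ▸ hl j b (hB hb))
    rcases h with h | h
    · exact disjoint_left.1 h ha (h3 ▸ hb)
    · omega

omit [DecidableEq S] in
lemma Cs_zero_subset : Cs ψ X1 X3 0 ⊆ X1 := by
  intro a ha
  obtain ⟨l, hl⟩ := mem_Cs.1 ha
  obtain ⟨x, hx, hxa, -⟩ := hl ∅ (by simp)
  exact hxa ▸ hx.1

omit [Fintype S] [DecidableEq S] in
lemma inj_three {a b c : S} (h1 : a ≠ b) (h2 : a ≠ c) (h3 : b ≠ c) :
    Function.Injective ![a, b, c] := by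
  intro i j h
  fin_cases i <;> fin_cases j <;> simp_all [eq_comm]

lemma card_nonrainbow (c : S) :
    (univ.filter fun p : S × S => p.1 = c ∨ p.2 = c ∨ p.1 = p.2).card ≤ 3 * Fintype.card S := by
  calc _ ≤ ((univ.image fun t : S => (c, t)) ∪ ((univ.image fun t : S => (t, c)) ∪
        (univ.image fun t : S => (t, t)))).card := by
        refine card_le_card fun p hp => ?_
        obtain ⟨a, b⟩ := p
        simp only [mem_filter, mem_univ, true_and] at hp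
        simp only [mem_union, mem_image, mem_univ, true_and, Prod.mk.injEq]
        rcases hp with rfl | rfl | rfl <;> simp
    _ ≤ _ := by
        have h1 := card_image_le (s := univ) (f := fun t : S => (c, t))
        have h2 := card_image_le (s := univ) (f := fun t : S => (t, c))
        have h3 := card_image_le (s := univ) (f := fun t : S => (t, t))
        have h4 := card_union_le (univ.image fun t : S => (c, t))
          ((univ.image fun t : S => (t, c)) ∪ (univ.image fun t : S => (t, t)))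
        have h5 := card_union_le (univ.image fun t : S => (t, c))
          (univ.image fun t : S => (t, t))
        rw [card_univ] at h1 h2 h3
        omega

open Classical in
/-- The number of pairs completing `c` to a bad triple. -/
noncomputable def badc (ψ : S → S → S → S) (X1 X3 : Finset S) (c : S) : Finset (S × S) :=
  univ.filter fun p => ![c, p.1, p.2] ∈ Bad ψ X1 X3

lemma sum_badc : ∑ c, (badc ψ X1 X3 c).card ≤ (Bad ψ X1 X3).card := by
  rw [← card_sigma]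
  refine card_le_card_of_injOn (fun q => ![q.1, q.2.1, q.2.2]) (fun q hq => ?_) ?_
  · have := (mem_sigma.1 (mem_coe.1 hq)).2
    simpa [badc] using this
  · rintro ⟨c, a, b⟩ - ⟨c', a', b'⟩ - h
    have h0 := congrFun h 0
    have h1 := congrFun h 1
    have h2 := congrFun h 2
    simp only [Matrix.cons_val_zero, Matrix.cons_val_one, Matrix.cons_val] at h0 h1 h2
    subst h0 h1 h2
    rfl

/-- Pairs outside the centre sets: non-rainbow, bad, or labelled by a centre label of `c`. -/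
lemma trichotomy {c : S} (hc1 : c ∈ X1) {p : S × S} (h1 : p.1 ∉ Cs ψ X1 X3 1)
    (h2 : p.2 ∉ Cs ψ X1 X3 2) (h3 : p.2 ∈ X3) :
    (p.1 = c ∨ p.2 = c ∨ p.1 = p.2) ∨ p ∈ badc ψ X1 X3 c ∨ Cen ψ X1 X3 (ψ c p.1 p.2) 0 c := by
  by_contra h
  push Not at h
  obtain ⟨⟨ha, hb, hab⟩, hbad, hcen⟩ := h
  apply hbad
  simp only [badc, mem_filter, mem_univ, true_and, mem_Bad]
  refine ⟨⟨hc1, h3, inj_three ha.symm hb.symm hab, rfl⟩, fun i => ?_⟩
  fin_cases i
  · exact hcen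
  · exact fun h => h1 (mem_Cs.2 ⟨_, h⟩)
  · exact fun h => h2 (mem_Cs.2 ⟨_, h⟩)

lemma pair_count {c : S} (hc1 : c ∈ X1) {Y2 Y3 : Finset S} (h2 : Disjoint Y2 (Cs ψ X1 X3 1))
    (h3 : Disjoint Y3 (Cs ψ X1 X3 2)) (h4 : Y3 ⊆ X3) (G : Finset (S × S))
    (hG : ∀ p ∈ Y2 ×ˢ Y3, Cen ψ X1 X3 (ψ c p.1 p.2) 0 c → p ∈ G) :
    Y2.card * Y3.card ≤ 3 * Fintype.card S + (badc ψ X1 X3 c).card + G.card := by
  rw [← card_product]
  calc _ ≤ ((univ.filter fun p : S × S => p.1 = c ∨ p.2 = c ∨ p.1 = p.2) ∪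
        badc ψ X1 X3 c ∪ G).card := by
        refine card_le_card fun p hp => ?_
        obtain ⟨hp1, hp2⟩ := mem_product.1 hp
        rcases trichotomy (ψ := ψ) hc1 (disjoint_left.1 h2 hp1) (disjoint_left.1 h3 hp2)
          (h4 hp2) with h | h | h
        · exact mem_union_left _ (mem_union_left _ (mem_filter.2 ⟨mem_univ _, h⟩))
        · exact mem_union_left _ (mem_union_right _ h)
        · exact mem_union_right _ (hG p hp h)
    _ ≤ _ := (card_union_le _ _).trans (Nat.add_le_add_right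
        ((card_union_le _ _).trans (Nat.add_le_add_right (card_nonrainbow c) _)) _)

lemma one_side_small (hc : Clash ψ X1 X3) {Lab : Finset S}
    (hlab : ∀ x1 x2 x3, x1 ∈ X1 → x3 ∈ X3 → ψ x1 x2 x3 ∈ Lab) {m s σ : ℕ}
    (hn : Fintype.card S = 2 * m + s) (hLab : Lab.card ≤ 2 * m) (hs : 3 * σ ≤ s)
    (h1 : 84 * (2 * m + s) ^ 2 < 3 * σ ^ 3) :
    (X1 \ Cs ψ X1 X3 0).card ≤ σ ∨ (X3 \ Cs ψ X1 X3 2).card ≤ σ := by
  by_contra h
  push Not at h
  obtain ⟨ha, hb⟩ := h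
  have h2 : (Cs ψ X1 X3 1).card + (∅ : Finset S).card ≤ Lab.card :=
    card_add_le hc hlab (j := 1) Subset.rfl (empty_subset _) (Or.inl (disjoint_empty_right _))
  have h3 : 3 * σ ≤ (univ \ Cs ψ X1 X3 1).card := by
    rw [card_univ_sdiff]
    simp only [card_empty] at h2
    omega
  have h4 : ∀ c ∈ X1 \ Cs ψ X1 X3 0,
      3 * σ * σ ≤ 3 * Fintype.card S + (badc ψ X1 X3 c).card := by
    intro c hc'
    obtain ⟨hc1, hc2⟩ := mem_sdiff.1 hc'
    have := pair_count (ψ := ψ) hc1 (Y2 := univ \ Cs ψ X1 X3 1) (Y3 := X3 \ Cs ψ X1 X3 2)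
      sdiff_disjoint sdiff_disjoint sdiff_subset ∅ fun p _ h => absurd (mem_Cs.2 ⟨_, h⟩) hc2
    exact (Nat.mul_le_mul h3 hb.le).trans (by simpa using this)
  have h5 := card_nsmul_le_sum _ _ _ h4
  have h6 : ∑ c ∈ X1 \ Cs ψ X1 X3 0, (3 * Fintype.card S + (badc ψ X1 X3 c).card) ≤
      ∑ c, (3 * Fintype.card S + (badc ψ X1 X3 c).card) := sum_le_sum_of_subset (subset_univ _)
  rw [sum_add_distrib (s := univ), sum_const, card_univ] at h6
  have h7 := (sum_badc (ψ := ψ) (X1 := X1) (X3 := X3)).trans (card_Bad hc)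
  simp only [smul_eq_mul] at h5 h6
  have h8 := Nat.mul_le_mul_right (3 * σ * σ) ha.le
  rw [← hn] at h1
  nlinarith

lemma dom_side (hc : Clash ψ X1 X3) {Lab PR2 PR3 : Finset S} {m s σ L g ea eb : ℕ}
    (hlab : ∀ x1 x2 x3, x1 ∈ X1 → x3 ∈ X3 → ψ x1 x2 x3 ∈ Lab)
    (hn : Fintype.card S = 2 * m + s) (hLab : Lab.card ≤ 2 * m) (hX1 : m + s ≤ X1.card)
    (hR2 : Disjoint PR2 X1) (hR3 : PR3 ⊆ X3)
    (hR2c : m + 2 * σ ≤ PR2.card + s) (hR3c : m + 2 * σ ≤ PR3.card + s)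
    (hσ : 0 < σ) (h2 : 12 * (2 * m + s) ≤ σ ^ 2)
    (h3 : 324 * (2 * m + s) ^ 2 ≤ σ ^ 2 * ea) (h4 : 2 * m + s ≤ L * eb)
    (h5 : 2 * L * g ≤ σ ^ 2) (hL : 0 < L) (hsm : (X1 \ Cs ψ X1 X3 0).card ≤ σ) :
    ∃ (pl : S → S) (exc : Finset S), exc.card ≤ ea + eb ∧ ∀ c ∈ X1, c ∉ exc →
        g ≤ ((PR2 ×ˢ PR3).filter (fun be => ψ c be.1 be.2 = pl c)).card := by
  classical
  have hS1 : m + s ≤ (Cs ψ X1 X3 0).card + σ := by
    have := le_card_sdiff (Cs ψ X1 X3 0) X1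
    omega
  have hY2 : σ ≤ (PR2 \ Cs ψ X1 X3 1).card := by
    have := card_add_le hc hlab (i := 0) (j := 1) (B := PR2 ∩ Cs ψ X1 X3 1) Subset.rfl
      inter_subset_right (Or.inl (disjoint_of_subset_left Cs_zero_subset
        (disjoint_of_subset_right inter_subset_left hR2.symm)))
    have := card_sdiff_add_card_inter PR2 (Cs ψ X1 X3 1)
    omega
  have hY3 : σ ≤ (PR3 \ Cs ψ X1 X3 2).card := by
    have := card_add_le hc hlab (i := 0) (j := 2) Subset.rfl Subset.rfl (Or.inr (by decide))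
    have := le_card_sdiff (Cs ψ X1 X3 2) PR3
    omega
  set Lam : S → Finset S := fun c => univ.filter fun l => Cen ψ X1 X3 l 0 c with hLam
  have hsumL : ∑ c, (Lam c).card ≤ Fintype.card S := by
    rw [← card_biUnion]
    · exact card_le_univ _
    · intro a _ b _ hab
      rw [Function.onFun, disjoint_left]
      intro l ha hb
      exact hab (cen_unique hc (mem_filter.1 ha).2 (mem_filter.1 hb).2).1
  have hE1 : (univ.filter fun c => σ ^ 2 < 4 * (badc ψ X1 X3 c).card).card ≤ ea := by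
    have a1 := card_nsmul_le_sum (univ.filter fun c => σ ^ 2 < 4 * (badc ψ X1 X3 c).card)
      (fun c => 4 * (badc ψ X1 X3 c).card) (σ ^ 2) fun c hc' => (mem_filter.1 hc').2.le
    have a2 : ∑ c ∈ univ.filter fun c => σ ^ 2 < 4 * (badc ψ X1 X3 c).card,
        4 * (badc ψ X1 X3 c).card ≤ ∑ c, 4 * (badc ψ X1 X3 c).card :=
      sum_le_sum_of_subset (subset_univ _)
    rw [← mul_sum univ] at a2
    have a3 := (sum_badc (ψ := ψ) (X1 := X1) (X3 := X3)).trans (card_Bad hc)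
    rw [hn] at a3
    rw [smul_eq_mul, mul_comm] at a1
    exact Nat.le_of_mul_le_mul_left (c := σ ^ 2) (by omega) (by positivity)
  have hE2 : (univ.filter fun c => L < (Lam c).card).card ≤ eb := by
    have a1 := card_nsmul_le_sum (univ.filter fun c => L < (Lam c).card)
      (fun c => (Lam c).card) L fun c hc' => (mem_filter.1 hc').2.le
    have a2 : ∑ c ∈ univ.filter fun c => L < (Lam c).card, (Lam c).card ≤ ∑ c, (Lam c).card :=
      sum_le_sum_of_subset (subset_univ _)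
    rw [smul_eq_mul, mul_comm] at a1
    exact Nat.le_of_mul_le_mul_left (c := L) (by omega) hL
  have key : ∀ c, ∃ l, c ∈ X1 → 4 * (badc ψ X1 X3 c).card ≤ σ ^ 2 → (Lam c).card ≤ L →
      g ≤ ((PR2 ×ˢ PR3).filter (fun be => ψ c be.1 be.2 = l)).card := by
    intro c
    by_cases hc1 : c ∈ X1 ∧ 4 * (badc ψ X1 X3 c).card ≤ σ ^ 2 ∧ (Lam c).card ≤ L
    swap
    · exact ⟨c, fun a b d => absurd ⟨a, b, d⟩ hc1⟩
    obtain ⟨hc1, hc2, hc3⟩ := hc1
    set G := (PR2 ×ˢ PR3).filter fun p => ψ c p.1 p.2 ∈ Lam c with hG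
    have b1 := pair_count (ψ := ψ) hc1 (Y2 := PR2 \ Cs ψ X1 X3 1) (Y3 := PR3 \ Cs ψ X1 X3 2)
      sdiff_disjoint sdiff_disjoint (sdiff_subset.trans hR3) G fun p hp h =>
        mem_filter.2 ⟨product_subset_product sdiff_subset sdiff_subset hp,
          mem_filter.2 ⟨mem_univ _, h⟩⟩
    have b2 := Nat.mul_le_mul hY2 hY3
    have b3 : σ ^ 2 ≤ 2 * G.card := by
      rw [hn] at b1
      rw [← pow_two] at b2
      omega
    have b4 : G.Nonempty := by
      rw [← card_pos]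
      have : 0 < σ ^ 2 := by positivity
      omega
    have b5 : (Lam c).card * g ≤ G.card := by
      have := Nat.mul_le_mul_right g hc3
      rw [mul_assoc] at h5
      omega
    obtain ⟨p, hp⟩ := b4
    obtain ⟨l, -, hl⟩ := exists_le_card_fiber_of_mul_le_card_of_maps_to
      (f := fun p : S × S => ψ c p.1 p.2) (s := G) (t := Lam c) (fun p hp => (mem_filter.1 hp).2)
      ⟨_, (mem_filter.1 hp).2⟩ b5
    refine ⟨l, fun _ _ _ => hl.trans (card_le_card ?_)⟩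
    exact filter_subset_filter _ (filter_subset _ _)
  choose pl hpl using key
  refine ⟨pl, _ ∪ _, (card_union_le _ _).trans (Nat.add_le_add hE1 hE2), fun c hc1 hc2 => ?_⟩
  simp only [mem_union, mem_filter, mem_univ, true_and, not_or, not_lt] at hc2
  exact hpl c hc1 hc2.1 hc2.2

omit [DecidableEq S] in
lemma Cs_rev : Cs ψ X1 X3 2 ⊆ Cs (fun a b c => ψ c b a) X3 X1 0 := by
  intro a ha
  obtain ⟨l, hl⟩ := mem_Cs.1 ha
  refine mem_Cs.2 ⟨l, fun Z hZ => ?_⟩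
  obtain ⟨x, hx, hxa, hxZ⟩ := hl Z hZ
  refine ⟨x ∘ Fin.rev, ⟨hx.2.1, hx.1, hx.2.2.1.comp Fin.rev_injective, hx.2.2.2⟩, hxa,
    fun j hj => hxZ _ fun h => hj ?_⟩
  rw [← Fin.rev_rev j, h]
  rfl

end DomAux

open DomAux in
/-- Domination lemma for triples. -/
theorem dom {S : Type} [Fintype S] [DecidableEq S] (ψ : S → S → S → S)
    (X1 X3 Lab PR2 PR3 PL2 PL1 : Finset S) (m s σ L g ea eb : ℕ)
    (hprop : ∀ x1 x2 x3 y1 y2 y3, x1 ∈ X1 → x3 ∈ X3 → y1 ∈ X1 → y3 ∈ X3 →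
      x1 ≠ y1 → x1 ≠ y2 → x2 ≠ y1 → x2 ≠ y2 → x2 ≠ y3 → x3 ≠ y2 → x3 ≠ y3 →
      ψ x1 x2 x3 ≠ ψ y1 y2 y3)
    (hlab : ∀ x1 x2 x3, x1 ∈ X1 → x3 ∈ X3 → ψ x1 x2 x3 ∈ Lab)
    (hn : Fintype.card S = 2 * m + s) (hLab : Lab.card ≤ 2 * m) (hs : 3 * σ ≤ s)
    (hX1 : m + s ≤ X1.card) (hX3 : m + s ≤ X3.card)
    (hR2 : Disjoint PR2 X1) (hR3 : PR3 ⊆ X3) (hL2 : Disjoint PL2 X3) (hL1 : PL1 ⊆ X1)
    (hR2c : m + 2 * σ ≤ PR2.card + s) (hR3c : m + 2 * σ ≤ PR3.card + s)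
    (hL2c : m + 2 * σ ≤ PL2.card + s) (hL1c : m + 2 * σ ≤ PL1.card + s)
    (h1 : 84 * (2 * m + s) ^ 2 < 3 * σ ^ 3) (h2 : 12 * (2 * m + s) ≤ σ ^ 2)
    (h3 : 324 * (2 * m + s) ^ 2 ≤ σ ^ 2 * ea) (h4 : 2 * m + s ≤ L * eb)
    (h5 : 2 * L * g ≤ σ ^ 2) (hL : 0 < L) :
    (∃ (pl : S → S) (exc : Finset S), exc.card ≤ ea + eb ∧ ∀ c ∈ X1, c ∉ exc →
        g ≤ ((PR2 ×ˢ PR3).filter (fun be => ψ c be.1 be.2 = pl c)).card) ∨
    (∃ (pl : S → S) (exc : Finset S), exc.card ≤ ea + eb ∧ ∀ c ∈ X3, c ∉ exc →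
        g ≤ ((PL2 ×ˢ PL1).filter (fun be => ψ be.2 be.1 c = pl c)).card) := by
  have hσ : 0 < σ := by
    rcases Nat.eq_zero_or_pos σ with rfl | h
    · simp at h1
    · exact h
  have hc : Clash ψ X1 X3 := by
    intro x y a b c d e
    by_contra h
    push Not at h
    exact hprop _ _ _ _ _ _ a b c d (h 0 0 (by decide) (by decide)) (h 0 1 (by decide) (by decide))
      (h 1 0 (by decide) (by decide)) (h 1 1 (by decide) (by decide))
      (h 1 2 (by decide) (by decide)) (h 2 1 (by decide) (by decide))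
      (h 2 2 (by decide) (by decide)) e
  have hc' : Clash (fun a b c => ψ c b a) X3 X1 := by
    intro x y a b c d e
    by_contra h
    push Not at h
    exact hprop _ _ _ _ _ _ b a d c (h 2 2 (by decide) (by decide)) (h 2 1 (by decide) (by decide))
      (h 1 2 (by decide) (by decide)) (h 1 1 (by decide) (by decide))
      (h 1 0 (by decide) (by decide)) (h 0 1 (by decide) (by decide))
      (h 0 0 (by decide) (by decide)) e
  rcases one_side_small hc hlab hn hLab hs h1 with h | h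
  · exact Or.inl (dom_side hc hlab hn hLab hX1 hR2 hR3 hR2c hR3c hσ h2 h3 h4 h5 hL h)
  · exact Or.inr (dom_side hc' (fun a b c ha hb => hlab c b a hb ha) hn hLab hX3 hL2 hL1 hL2c hL1c
      hσ h2 h3 h4 h5 hL ((card_le_card (sdiff_subset_sdiff Subset.rfl Cs_rev)).trans h))

end Pool.Agent.Work.MP_418764_co
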