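import Pool.Agent.Work.MP_418764_co.Step

namespace Pool.Agent.Work.MP_418764_co
open Finset Equiv
open scoped Classical

variable {m σ ρ N μ : ℕ}

theorem exists_seq {α : Type} (P : ℕ → α → Prop) (R : α → α → Prop) (a0 : α) (h0 : P 0 a0)
    (J : ℕ) (hs : ∀ t a, t ≤ J → P t a → ∃ a', P (t + 1) a' ∧ R a a') :
    ∃ st : ℕ → α, st 0 = a0 ∧ (∀ t ≤ J + 1, P t (st t)) ∧ (∀ t ≤ J, R (st t) (st (t + 1))) ∧
      ∀ t, J < t → st (t + 1) = st t := by
  choose! f hf using hs
  let st : ℕ → α := fun t => Nat.rec a0 (fun t a => if t ≤ J then f t a else a) t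
  have e : ∀ t, st (t + 1) = if t ≤ J then f t (st t) else st t := fun t => rfl
  have hP : ∀ t ≤ J + 1, P t (st t) := by
    intro t ht
    induction t with
    | zero => exact h0
    | succ t ih =>
      rw [e, if_pos (by omega)]
      exact (hf t _ (by omega) (ih (by omega))).1
  refine ⟨st, rfl, hP, fun t ht => ?_, fun t ht => by rw [e, if_neg (by omega)]⟩
  rw [e, if_pos ht]
  exact (hf t _ ht (hP t (by omega))).2

theorem exists_pos (side : ℕ → Bool) {t t' : ℕ} (h : t ≤ t') {p : ℤ} (h1 : InI side t' p)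
    (h2 : ¬ InI side t p) : ∃ s, t ≤ s ∧ s < t' ∧ p = pos side s := by
  induction h with
  | refl => exact absurd h1 h2
  | @step t' ht ih =>
    by_cases h3 : InI side t' p
    · obtain ⟨s, a, b, c⟩ := ih h3
      exact ⟨s, a, by omega, c⟩
    · refine ⟨t', ht, by omega, ?_⟩
      unfold InI at h1 h3
      simp only [Nat.succ_eq_add_one] at h1
      rcases pos_cases side t' with h | h <;> omega

/-- a run of the construction -/
structure Run (O : Oracle m N (Slot m σ ρ)) (μ k e0 J : ℕ) where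
  st : ℕ → St m σ ρ
  l0 : (st 0).l = 2
  r0 : (st 0).r = 2
  H0 : ∀ π ε y, (st 0).H π ε y = ∅
  inv : ∀ t ≤ J + 1, Inv μ k t (st t)
  step : ∀ t ≤ J, Step O μ e0 (st t) (st (t + 1))
  fin : ∀ t, J < t → st (t + 1) = st t

theorem exists_run (O : Oracle m N (Slot m σ ρ)) {L g ea eb D E k e2 J : ℕ}
    (hn : Num m σ ρ μ L g ea eb) (hm : 0 < m)
    (hD : m * m + (D + 1) * (2 * ρ * m) ≤ (D + 1) * g) (hk : E * D ^ k ≤ (D + 1) ^ k)
    (hE : 6 * (2 * m + (3 * σ + ρ)) ≤ E * e2) (hE0 : 0 < E) (hJ : J + 8 ≤ N)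
    (hρ : 4 * k * (J + 1) ≤ ρ) : Nonempty (Run O μ k (3 * ρ + 3 * (ea + eb) + e2) J) := by
  let s0 : St m σ ρ := ⟨2, 2, [], fun _ _ p i => cl (par p) i, fun _ _ _ => ∅, true,
    fun _ _ _ => False, fun _ _ u => u, ∅, ∅, fun _ => ∅, fun _ => ∅,
    fun _ _ => ⟨0, by have := hn.h7; omega⟩⟩
  have h0 : Inv μ k 0 s0 := ⟨le_rfl, le_rfl, rfl, by simp [s0], by simp [s0],
    ⟨fun _ _ _ _ _ => Or.inl rfl, fun _ _ _ _ _ _ => Or.inl rfl,
      fun _ _ _ _ _ _ _ _ h => by simp [s0] at h, fun _ _ _ _ _ => by simp [s0],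
      fun _ _ _ _ _ _ => rfl⟩⟩
  obtain ⟨st, a, b, c, d⟩ := exists_seq (Inv μ k) (Step O μ (3 * ρ + 3 * (ea + eb) + e2)) s0 h0 J
    (fun t s ht hs => exists_step O hn hm hD hk hE hE0 (by omega)
      (le_trans (by gcongr) hρ) s hs)
  exact ⟨⟨st, by rw [a], by rw [a], fun _ _ _ => by rw [a], b, c, d⟩⟩

namespace Run
variable {O : Oracle m N (Slot m σ ρ)} {k e0 J : ℕ} (R : Run O μ k e0 J)

def side (t : ℕ) : Bool := (R.st (t + 1)).sd

theorem lr {t : ℕ} (ht : t ≤ J + 1) :
    (R.st t).l = Ll R.side t ∧ (R.st t).r = Rr R.side t := by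
  induction t with
  | zero => exact ⟨R.l0, R.r0⟩
  | succ t ih =>
    have h := R.step t (by omega)
    have := ih (by omega)
    rw [h.hl, h.hr, this.1, this.2]
    exact ⟨rfl, rfl⟩

theorem ppos_eq {t : ℕ} (ht : t ≤ J) :
    ppos (R.st (t + 1)).sd (R.st t).l (R.st t).r = pos R.side t := by
  rw [(R.lr (by omega)).1, (R.lr (by omega)).2]; rfl

theorem Zmono {t t' : ℕ} (h : t ≤ t') {z} (hz : z ∈ (R.st t).Z) : z ∈ (R.st t').Z := by
  induction h with
  | refl => exact hz
  | @step t' _ ih =>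
    by_cases h : t' ≤ J
    · exact (R.step t' h).hZ z ih
    · rw [Nat.succ_eq_add_one, R.fin t' (by omega)]; exact ih

theorem persist {t t' : ℕ} (h : t ≤ t') (ht' : t' ≤ J + 1) {p : ℤ} (hp : InI R.side t p) (π ι) :
    (R.st t').T π ι p = (R.st t).T π ι p := by
  induction h with
  | refl => rfl
  | @step t' h ih =>
    rw [← ih (by omega)]
    apply (R.step t' (by omega)).hT
    rw [R.ppos_eq (by omega)]
    rintro rfl
    exact pos_not_InI _ h hp

theorem TI' {t : ℕ} (ht : t ≤ J + 1) :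
    TI μ (Ll R.side t) (Rr R.side t) (R.st t).Z (R.st t).T := by
  have := (R.inv t ht).hT
  rwa [(R.lr ht).1, (R.lr ht).2] at this

theorem Hmem {t : ℕ} (ht : t ≤ J + 1) (π ε y pq) : pq ∈ (R.st t).H π ε y ↔
    ∃ t' < t, (R.st (t' + 1)).val π (some ε) (ww 0 y) ∧
      pq = (pos R.side t', (R.st (t' + 1)).lab π (some ε) (ww 0 y)) := by
  induction t with
  | zero => simp [R.H0]
  | succ t ih =>
    rw [(R.step t (by omega)).hH, ih (by omega), R.ppos_eq (by omega)]
    constructor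
    · rintro (⟨t', a, b⟩ | h)
      · exact ⟨t', by omega, b⟩
      · exact ⟨t, by omega, h⟩
    · rintro ⟨t', a, b⟩
      rcases Nat.lt_succ_iff_lt_or_eq.mp a with h | rfl
      · exact Or.inl ⟨t', h, b⟩
      · exact Or.inr b

theorem RM_iff {t : ℕ} (ht : t ≤ J) (π ε y A) :
    RM ((R.st t).H π ε y) (pos R.side t) (R.st (t + 1)).Z (R.st (t + 1)).val (R.st (t + 1)).lab
      π ε y A ↔
    RA R.side (fun t => (R.st t).Z.toFinset) (fun π ι t => (R.st (t + 1)).val π ι)
      (fun π ι t => (R.st (t + 1)).lab π ι) π ε t y A := by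
  unfold RM RA
  simp only [List.mem_toFinset]
  refine and_congr_right fun _ => and_congr_left fun _ => ?_
  constructor
  · intro h t' a b c
    exact h (pos R.side t', _) ((R.Hmem (by omega) _ _ _ _).mpr ⟨t', a, c, rfl⟩) b
  · intro h pq hpq b
    obtain ⟨t', a, c, rfl⟩ := (R.Hmem (by omega) _ _ _ _).mp hpq
    exact h t' a b c

theorem CT (hJ : J + 8 ≤ N) {π ι π' ι'} {t t' : ℕ} {u u'} (htt : t ≤ t') (ht' : t' ≤ J)
    (hv : (R.st (t + 1)).val π ι u) (hv' : (R.st (t' + 1)).val π' ι' u')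
    (hc : Comp π ι π' ι') (hz : ∀ z ∈ (R.st (t + 1)).Z, π z = π' z)
    (hz' : (∃ b i, u = cl b i) ∨ ∀ z ∈ (R.st (t' + 1)).Z, π z = π' z)
    (h1 : ∀ p i, InI R.side t' p → |p - pos R.side t| ≤ 1 → π' ((R.st J).T π' ι' p i) ≠ π u)
    (h2 : ∀ p i, InI R.side t p → |p - pos R.side t'| ≤ 1 → π ((R.st J).T π ι p i) ≠ π' u')
    (h3 : π u ≠ π' u' ∨ 2 ≤ |pos R.side t - pos R.side t'|) :
    (R.st (t + 1)).lab π ι u ≠ (R.st (t' + 1)).lab π' ι' u' := by
  have S := R.step t (by omega)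
  have S' := R.step t' ht'
  obtain ⟨v1, v2, ⟨be, hbe, v3⟩, -⟩ := S.hval π ι u hv
  obtain ⟨w1, -, -, ⟨be', hbe', w3⟩⟩ := S'.hval π' ι' u' hv'
  have a1 := S.hL1 be hbe
  have a2 := S'.hL2 be' hbe'
  rw [R.ppos_eq (by omega)] at v2
  rw [← v3, ← w3]
  unfold vt
  rw [(R.lr (t := t) (by omega)).1, (R.lr (t := t) (by omega)).2] at a1 ⊢
  rw [(R.lr (t := t') (by omega)).1, (R.lr (t := t') (by omega)).2] at a2 ⊢
  have T := R.TI' (t := t) (by omega)
  have T' := R.TI' (t := t') (by omega)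
  have l2 := two_le_Ll R.side t
  have r2 := two_le_Rr R.side t
  have l2' := two_le_Ll R.side t'
  have r2' := two_le_Rr R.side t'
  have lm := Ll_mono R.side htt
  have rm := Rr_mono R.side htt
  have s1 := Ll_add_Rr R.side t
  have s2 := Ll_add_Rr R.side t'
  have po := pout_mem (R.st (t + 1)).sd l2 r2
  set b : Slot m σ ρ := bs (R.st (t + 1)).sd (Ll R.side t) (Rr R.side t) be.1 with hb
  set e : Slot m σ ρ := es (R.st (t + 1)).sd (Ll R.side t) (Rr R.side t) be.2 with he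
  set b' : Slot m σ ρ := bs (R.st (t' + 1)).sd (Ll R.side t') (Rr R.side t') be'.1 with hb'
  set e' : Slot m σ ρ := es (R.st (t' + 1)).sd (Ll R.side t') (Rr R.side t') be'.2 with he'
  have hd : b ≠ b' ∧ b ≠ e' ∧ e ≠ b' ∧ e ≠ e' := by
    rcases eq_or_lt_of_le htt with rfl | hlt
    · exact a2.2.2.2.2 be hbe
    · have z1 := R.Zmono (show t + 1 ≤ t' by omega) a1.1
      have z2 := R.Zmono (show t + 1 ≤ t' by omega) a1.2
      exact ⟨fun h => a2.2.2.1 (h ▸ z1), fun h => a2.2.2.2.1 (h ▸ z1), fun h => a2.2.2.1 (h ▸ z2),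
        fun h => a2.2.2.2.1 (h ▸ z2)⟩
  have z1 := R.Zmono (show t + 1 ≤ t' + 1 by omega) a1.1
  have z2 := R.Zmono (show t + 1 ≤ t' + 1 by omega) a1.2
  have eb := hz b a1.1
  have ee := hz e a1.2
  refine vert_ne O _ _ _ _ _ _ _ _ _ _ _ _ _ _ (by omega) (by omega) lm rm (by omega) ?_ ?_ ?_ ?_
    ?_ ?_ ?_ ?_ ?_ ?_ ?_ ?_ ?_ ?_ ?_ ?_
  · rcases eq_or_lt_of_le htt with rfl | hlt
    · exact Or.inl ⟨rfl, rfl⟩
    · exact Or.inr (pos_InI R.side hlt)
  · intro p p' i i' d1 d2 d3 d4 d5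
    rw [← R.persist htt (by omega) ⟨d1, d2⟩]
    exact T'.hcc hc (by omega) (by omega) d3 d4 d5
  · intro p' i' d1 d2 d3
    have := h1 p' i' ⟨d1, d2⟩ d3
    rw [R.persist ht' (by omega) ⟨d1, d2⟩] at this
    exact this.symm
  · intro p' i' d1 d2 d3
    obtain ⟨s, f1, f2, rfl⟩ := exists_pos R.side htt (p := p') ⟨d1, d2⟩ (by unfold InI; omega)
    have f3 := (R.step s (by omega)).hTn π' ι' i'
    rw [R.ppos_eq (by omega), ← R.persist (show s + 1 ≤ t' by omega) (by omega)
      (pos_InI R.side (Nat.lt_succ_self s))] at f3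
    rw [eb, ee]
    exact ⟨fun h => f3 (π'.injective h ▸ R.Zmono (by omega) a1.1),
      fun h => f3 (π'.injective h ▸ R.Zmono (by omega) a1.2)⟩
  · intro i' h
    rw [ee] at h
    exact T'.ne_cl π' ι' i' (by omega) (by omega) _ (π'.injective h).symm
  · intro p i d1 d2 d3
    have := h2 p i ⟨d1, d2⟩ d3
    rwa [R.persist (htt.trans ht') (by omega) ⟨d1, d2⟩] at this
  · intro d1 d2 i h
    exact T.ne_cl π ι i d1 d2 _ (hc.1 _ _ (T.usable π ι i d1 d2) (usable_cl _ _) h)
  · rw [eb]; exact fun h => w1 (π'.injective h ▸ z1)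
  · rw [eb]; exact fun h => hd.1 (π'.injective h)
  · rw [eb]; exact fun h => hd.2.1 (π'.injective h)
  · rw [ee]; exact fun h => w1 (π'.injective h ▸ z2)
  · rw [ee]; exact fun h => hd.2.2.1 (π'.injective h)
  · rw [ee]; exact fun h => hd.2.2.2 (π'.injective h)
  · intro h
    rcases h3 with h3 | h3
    · exact h3
    · exact absurd (h3.trans h) (by norm_num)
  · intro d1 d2
    obtain rfl : t = t' := by omega
    rw [← hz _ a2.1, ← hz _ a2.2.1]
    exact ⟨fun h => v1 (π.injective h ▸ a2.1), fun h => v1 (π.injective h ▸ a2.2.1)⟩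
  · intro d h
    have hue : u ≠ e' := by
      rw [he', es, d]
      change u ≠ cl (!par (pos R.side t)) be'.2
      rcases v2 with ⟨i, rfl⟩ | ⟨k, y, rfl⟩ <;> simp
    rcases hz' with ⟨b0, i, rfl⟩ | hz'
    · exact hue (hc.1 _ _ (usable_cl _ _) (usable_cl _ _) h)
    · rw [← hz' _ a2.2.1] at h
      exact hue (π.injective h)

theorem last (t : ℕ) : ∃ t' ≤ J, R.st (t + 1) = R.st (t' + 1) := by
  induction t with
  | zero => exact ⟨0, by omega, rfl⟩
  | succ t ih =>
    by_cases h : t + 1 ≤ J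
    · exact ⟨t + 1, h, rfl⟩
    · rw [R.fin _ (by omega)]; exact ih

theorem INV (he : (J + 1) * e0 ≤ σ) :
    ∑ π, (invc R.side (fun π ι t => (R.st (t + 1)).val π ι) J π none +
      invc R.side (fun π ι t => (R.st (t + 1)).val π ι) J π (some false) +
      invc R.side (fun π ι t => (R.st (t + 1)).val π ι) J π (some true)) ≤
      Fintype.card (Perm (Slot m σ ρ)) * σ := by
  have e1 : ∀ π, (invc R.side (fun π ι t => (R.st (t + 1)).val π ι) J π none +
      invc R.side (fun π ι t => (R.st (t + 1)).val π ι) J π (some false) +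
      invc R.side (fun π ι t => (R.st (t + 1)).val π ι) J π (some true)) =
      ∑ t ∈ range (J + 1), ∑ ι : Option Bool, ∑ u : Slot m σ ρ,
        if relp (par (pos R.side t)) ι u ∧ ¬ (R.st (t + 1)).val π ι u then 1 else 0 := by
    intro π
    rw [sum_comm, Fintype.sum_option, Fintype.sum_bool]
    unfold invc
    simp only [card_filter, sum_product]
    rw [add_assoc, add_comm (∑ x ∈ range (J + 1), ∑ y, if relv R.side (some false) x y ∧ _
      then 1 else 0)]
    rfl
  simp only [e1]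
  rw [sum_comm]
  calc _ ≤ ∑ _t ∈ range (J + 1), Fintype.card (Perm (Slot m σ ρ)) * e0 := by
        refine sum_le_sum fun t ht => ?_
        have ht' : t ≤ J := by rw [mem_range] at ht; omega
        have := (R.step t ht').hinv
        rw [R.ppos_eq ht', card_filter, Fintype.sum_prod_type] at this
        simp only [Fintype.sum_prod_type] at this
        convert this
    _ ≤ _ := by
        rw [sum_const, card_range, smul_eq_mul, mul_left_comm]
        gcongr

noncomputable def data (hJ : J + 8 ≤ N) (hρ : 4 * k * (J + 1) ≤ ρ) (he : (J + 1) * e0 ≤ σ) :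
    Data m σ ρ J μ where
  side := R.side
  Z t := (R.st t).Z.toFinset
  Occ π ι p v := ∃ i, (R.st J).T π ι p i = v
  val π ι t := (R.st (t + 1)).val π ι
  lab π ι t := (R.st (t + 1)).lab π ι
  Y π _ t := (R.st (t + 1)).Y π
  A π _ t := (R.st (t + 1)).A π
  X π _ t := ((R.st (t + 1)).A π).image ((R.st (t + 1)).ξ π)
  Zmono t t' h z hz := List.mem_toFinset.mpr (R.Zmono h (List.mem_toFinset.mp hz))
  Zcard := (List.toFinset_card_le _).trans ((R.inv _ le_rfl).hZ.trans hρ)
  Zcl z hz := (R.inv _ le_rfl).hZc z (List.mem_toFinset.mp hz)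
  occ := by
    rintro π ι p v hp ⟨i, rfl⟩
    have T := R.TI' (t := J) (by omega)
    rcases T.kind π ι i hp.1 hp.2 with h | h | ⟨x, h⟩
    · exact Or.inl ⟨i, h⟩
    · exact Or.inr (Or.inl h)
    right; right
    have h0 : ¬ InI R.side 0 p := by
      intro h0
      rw [T.t0 π ι p i h0.1 h0.2] at h
      simp at h
    obtain ⟨s, -, f2, rfl⟩ := exists_pos R.side (Nat.zero_le J) hp h0
    cases ι with
    | none => exact absurd h (T.none_ne_ww hp.1 hp.2 x)
    | some ε =>
      have f3 := (R.step s (by omega)).hTX π ε i x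
      rw [R.ppos_eq (by omega), ← R.persist (show s + 1 ≤ J by omega) (by omega)
        (pos_InI R.side (Nat.lt_succ_self s))] at f3
      exact ⟨s, x, f2, rfl, by rw [(f3 h).1], (f3 h).2, h⟩
  occA := by
    rintro π t a ht ha ⟨i, h⟩
    have f3 := (R.step t (by omega)).hTA π a ha i
    rw [R.ppos_eq (by omega), ← R.persist (show t + 1 ≤ J by omega) (by omega)
        (pos_InI R.side (Nat.lt_succ_self t))] at f3
    exact f3 h
  cardX π ε t := card_image_le
  cardA π ε t := by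
    obtain ⟨t', h, e⟩ := R.last t
    simp only [e]
    exact (R.step t' h).hA π
  Ymem π t ht y hy := by
    have := (R.step t (by omega)).hY π y hy
    rw [R.ppos_eq (by omega)] at this
    exact (R.RM_iff (by omega) _ _ _ _).mp this
  Rcount π t ht := by
    have := (R.step t (by omega)).hR π
    rw [R.ppos_eq (by omega)] at this
    simp only [R.RM_iff (t := t) (by omega)] at this
    exact this
  CT π ι π' ι' t t' u u' htt ht' hv hv' hc hz hz' h1 h2 h3 :=
    R.CT hJ htt ht' hv hv' hc (fun z h => hz z (List.mem_toFinset.mpr h))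
      (hz'.imp id fun hz' z h => hz' z (List.mem_toFinset.mpr h))
      (fun p i a b => h1 p _ a b ⟨i, rfl⟩) (fun p i a b => h2 p _ a b ⟨i, rfl⟩) h3
  INV := R.INV he

end Run

end Pool.Agent.Work.MP_418764_co
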