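import Mathlib

namespace Pool.Agent.Work.MP_418764_co
open Finset

def Rr (side : ℕ → Bool) : ℕ → ℤ
  | 0 => 2
  | t + 1 => if side t then Rr side t + 1 else Rr side t

def Ll (side : ℕ → Bool) : ℕ → ℤ
  | 0 => 2
  | t + 1 => if side t then Ll side t else Ll side t + 1

def pos (side : ℕ → Bool) (t : ℕ) : ℤ := if side t then Rr side t + 1 else -Ll side t - 1

def InI (side : ℕ → Bool) (t : ℕ) (p : ℤ) : Prop := -Ll side t ≤ p ∧ p ≤ Rr side t

def par (p : ℤ) : Bool := decide (p % 2 = 1)

variable (side : ℕ → Bool)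

theorem Rr_mono {t t' : ℕ} (h : t ≤ t') : Rr side t ≤ Rr side t' := by
  induction h with
  | refl => exact le_rfl
  | step _ ih => simp only [Rr]; split_ifs <;> omega

theorem Ll_mono {t t' : ℕ} (h : t ≤ t') : Ll side t ≤ Ll side t' := by
  induction h with
  | refl => exact le_rfl
  | step _ ih => simp only [Ll]; split_ifs <;> omega

theorem two_le_Rr (t : ℕ) : 2 ≤ Rr side t := Rr_mono side (Nat.zero_le t)
theorem two_le_Ll (t : ℕ) : 2 ≤ Ll side t := Ll_mono side (Nat.zero_le t)

theorem Ll_add_Rr (t : ℕ) : Ll side t + Rr side t = 4 + t := by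
  induction t with
  | zero => simp [Ll, Rr]
  | succ t ih => simp only [Ll, Rr]; split_ifs <;> push_cast <;> omega

theorem InI_mono {t t' : ℕ} (h : t ≤ t') {p : ℤ} (hp : InI side t p) : InI side t' p := by
  have := Rr_mono side h; have := Ll_mono side h
  unfold InI at *; omega

theorem pos_cases (t : ℕ) : (side t = true ∧ pos side t = Rr side t + 1 ∧
    Rr side (t + 1) = Rr side t + 1 ∧ Ll side (t + 1) = Ll side t) ∨
    (side t = false ∧ pos side t = -Ll side t - 1 ∧
    Rr side (t + 1) = Rr side t ∧ Ll side (t + 1) = Ll side t + 1) := by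
  cases h : side t <;> simp [pos, Rr, Ll, h]

theorem pos_not_InI {t t' : ℕ} (h : t ≤ t') : ¬ InI side t (pos side t') := by
  have := Rr_mono side h; have := Ll_mono side h
  have := two_le_Rr side t; have := two_le_Ll side t
  rcases pos_cases side t' with h | h <;> unfold InI <;> omega

theorem pos_InI {t t' : ℕ} (h : t < t') : InI side t' (pos side t) := by
  apply InI_mono side (Nat.succ_le_of_lt h)
  have := two_le_Rr side t; have := two_le_Ll side t
  rcases pos_cases side t with h | h <;> unfold InI <;> simp only [Nat.succ_eq_add_one] <;> omega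

theorem pos_inj {t t' : ℕ} (h : pos side t = pos side t') : t = t' := by
  rcases lt_trichotomy t t' with h1 | h1 | h1
  · exact absurd (h ▸ pos_InI side h1) (pos_not_InI side le_rfl)
  · exact h1
  · exact absurd (h ▸ pos_InI side h1) (pos_not_InI side le_rfl)

theorem par_ne_of_adj {p q : ℤ} (h : |p - q| ≤ 1) (hne : p ≠ q) : par p ≠ par q := by
  have : p - q = 1 ∨ q - p = 1 := by
    rcases abs_cases (p - q) with h1 | h1 <;> omega
  unfold par
  intro h2
  have := decide_eq_decide.mp h2
  omega

theorem far_of_par_eq {p q : ℤ} (h : par p = par q) (hne : p ≠ q) : 2 ≤ |p - q| := by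
  by_contra hc
  exact par_ne_of_adj (by omega) hne h

theorem eq_of_par_eq {p q : ℤ} (h : par p = par q) (hn : |p - q| ≤ 1) : p = q := by
  by_contra hc
  exact par_ne_of_adj hn hc h

theorem far_of_par {t t' : ℕ} (h : par (pos side t) = par (pos side t')) (hne : t ≠ t') :
    2 ≤ |pos side t - pos side t'| :=
  far_of_par_eq h (fun h' => hne (pos_inj side h'))

theorem par_near_InI {t t' : ℕ} (h : t ≤ t') {q : ℤ} (hq : InI side t q)
    (hn : |q - pos side t'| ≤ 1) : par q ≠ par (pos side t') :=
  par_ne_of_adj hn (fun h' => pos_not_InI side h (h' ▸ hq))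

/-- geometry of two adjacent level positions -/
theorem nx_geom {t t' : ℕ} (h : t < t') (hn : |pos side t - pos side t'| ≤ 1) :
    (3 ≤ pos side t ∧ pos side t = Rr side t + 1 ∧ pos side t' = pos side t + 1) ∨
    (pos side t ≤ -3 ∧ pos side t = -Ll side t - 1 ∧ pos side t' = pos side t - 1) := by
  have h1 := pos_not_InI side (Nat.succ_le_of_lt h)
  have := two_le_Rr side t; have := two_le_Ll side t
  have h2 := abs_le.mp hn
  unfold InI at h1
  simp only [Nat.succ_eq_add_one] at h1
  rcases pos_cases side t with h | h <;> omega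

theorem nx_no_near {t t' : ℕ} (h : t < t') (hn : |pos side t - pos side t'| ≤ 1) {t0 : ℕ}
    (ht0 : t0 ≤ t) {q : ℤ} (hq : InI side t0 q) : ¬ |q - pos side t'| ≤ 1 := by
  have hq' := InI_mono side ht0 hq
  have := two_le_Rr side t; have := two_le_Ll side t
  intro h3
  have h3 := abs_le.mp h3
  unfold InI at hq'
  rcases nx_geom side h hn with h | h <;> omega

theorem nx_near_eq {t t' : ℕ} (h : t < t') (hn : |pos side t - pos side t'| ≤ 1)
    {q : ℤ} (hq : InI side t' q) (h3 : |q - pos side t'| ≤ 1) : q = pos side t := by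
  have h1 := pos_not_InI side (le_refl t')
  have h4 := pos_InI side h
  have h3 := abs_le.mp h3
  unfold InI at hq h1 h4
  rcases nx_geom side h hn with h | h <;> omega

theorem nx_unique_snd {t t1 t2 : ℕ} (h1 : t < t1) (h2 : t < t2)
    (hn1 : |pos side t - pos side t1| ≤ 1) (hn2 : |pos side t - pos side t2| ≤ 1) : t1 = t2 := by
  apply pos_inj side
  rcases nx_geom side h1 hn1 with h | h <;> rcases nx_geom side h2 hn2 with h' | h' <;> omega

theorem nx_unique_fst {t t1 t2 : ℕ} (h1 : t1 < t) (h2 : t2 < t)
    (hn1 : |pos side t1 - pos side t| ≤ 1) (hn2 : |pos side t2 - pos side t| ≤ 1) : t1 = t2 := by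
  apply pos_inj side
  rcases nx_geom side h1 hn1 with h | h <;> rcases nx_geom side h2 hn2 with h' | h' <;> omega

/-- the two neighbours of a level position are at distance two -/
theorem nx_far {t0 t t' : ℕ} (h0 : t0 < t) (h : t < t') (hn0 : |pos side t0 - pos side t| ≤ 1)
    : 2 ≤ |pos side t0 - pos side t'| := by
  by_contra hc
  exact absurd (nx_unique_snd side h0 (h0.trans h) hn0 (by omega)) (by omega)

/-- times in `[a,b)` whose position has parity `ε` -/
def Tm (ε : Bool) (a b : ℕ) : Finset ℕ := (Ico a b).filter (fun t => par (pos side t) = ε)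

theorem mem_Tm {ε : Bool} {a b t : ℕ} :
    t ∈ Tm side ε a b ↔ a ≤ t ∧ t < b ∧ par (pos side t) = ε := by
  simp [Tm, and_assoc]

theorem Tm_card_aux (ε : Bool) (a k : ℕ) :
    ∃ cr cl : ℤ, ((Tm side ε a (a + k)).card : ℤ) = cr + cl ∧
      (2 * cr - (Rr side (a + k) - Rr side a) =
        if (Rr side (a + k) - Rr side a) % 2 = 0 then 0
        else if par (Rr side a + 1) = ε then 1 else -1) ∧
      (2 * cl - (Ll side (a + k) - Ll side a) =
        if (Ll side (a + k) - Ll side a) % 2 = 0 then 0
        else if par (-Ll side a - 1) = ε then 1 else -1) := by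
  induction k with
  | zero => exact ⟨0, 0, by simp [Tm], by simp, by simp⟩
  | succ k ih =>
    obtain ⟨cr, cl, h1, h2, h3⟩ := ih
    have hT : ((Tm side ε a (a + (k + 1))).card : ℤ) =
        (Tm side ε a (a + k)).card + if par (pos side (a + k)) = ε then 1 else 0 := by
      unfold Tm
      rw [← add_assoc, Nat.Ico_succ_right_eq_insert_Ico (by omega), filter_insert]
      split_ifs with h
      · rw [card_insert_of_notMem (by simp)]; push_cast; ring
      · simp
    rw [hT, h1, ← add_assoc]
    rcases pos_cases side (a + k) with ⟨-, e1, e2, e3⟩ | ⟨-, e1, e2, e3⟩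
    · refine ⟨cr + if par (pos side (a + k)) = ε then 1 else 0, cl, by ring, ?_, by rw [e3]; exact h3⟩
      rw [e1, e2]
      cases ε <;> simp only [par, decide_eq_true_eq, decide_eq_false_iff_not] at h2 ⊢ <;>
        split_ifs at h2 ⊢ <;> omega
    · refine ⟨cr, cl + if par (pos side (a + k)) = ε then 1 else 0, by ring, by rw [e2]; exact h2, ?_⟩
      rw [e1, e3]
      cases ε <;> simp only [par, decide_eq_true_eq, decide_eq_false_iff_not] at h3 ⊢ <;>
        split_ifs at h3 ⊢ <;> omega

theorem Tm_card (ε : Bool) {a b : ℕ} (h : a ≤ b) :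
    b ≤ a + 2 * (Tm side ε a b).card + 2 ∧ a + 2 * (Tm side ε a b).card ≤ b + 2 := by
  obtain ⟨k, rfl⟩ := Nat.exists_eq_add_of_le h
  obtain ⟨cr, cl, h1, h2, h3⟩ := Tm_card_aux side ε a k
  have e1 := Ll_add_Rr side a
  have e2 := Ll_add_Rr side (a + k)
  push_cast at e2
  split_ifs at h2 h3 <;> omega

theorem boundary_card (a b : ℕ) :
    ((Ico a b).filter (fun t => ∃ t' ∈ range a, |pos side t' - pos side t| ≤ 1)).card ≤ 2 := by
  have : ((Ico a b).filter (fun t => ∃ t' ∈ range a, |pos side t' - pos side t| ≤ 1)).card ≤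
      ({Rr side a + 1, -Ll side a - 1} : Finset ℤ).card := by
    apply card_le_card_of_injOn (pos side)
    · intro t ht
      simp only [coe_filter, mem_Ico, mem_range, Set.mem_ofPred_eq] at ht
      obtain ⟨⟨h1, -⟩, t', h2, h3⟩ := ht
      have h4 := pos_InI side h2
      have h5 := pos_not_InI side h1
      have h3 := abs_le.mp h3
      unfold InI at h4 h5
      simp only [coe_insert, coe_singleton, Set.mem_insert_iff, Set.mem_singleton_iff]
      omega
    · intro t _ t' _ h; exact pos_inj side h
  exact this.trans card_le_two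

end Pool.Agent.Work.MP_418764_co
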