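import Pool.Agent.Work.MP_418764_co.Data

namespace Pool.Agent.Work.MP_418764_co
open Finset Equiv
open scoped Classical

variable {m σ ρ : ℕ}

noncomputable def CL (b : Bool) : Finset (Slot m σ ρ) := univ.image (cl b)
noncomputable def WK (k : Fin 3) : Finset (Slot m σ ρ) := univ.image (ww k)
noncomputable def WW : Finset (Slot m σ ρ) := univ.image (fun e : Fin 3 × Fin σ => ww e.1 e.2)

theorem mem_CL {b : Bool} {u : Slot m σ ρ} : u ∈ CL b ↔ ∃ i, u = cl b i := by
  simp [CL, eq_comm]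
theorem mem_WK {k : Fin 3} {u : Slot m σ ρ} : u ∈ WK k ↔ ∃ y, u = ww k y := by
  simp [WK, eq_comm]
theorem mem_WW {u : Slot m σ ρ} : u ∈ WW ↔ ∃ k y, u = ww k y := by
  simp [WW, eq_comm]
theorem card_CL (b : Bool) : (CL b : Finset (Slot m σ ρ)).card = m := by
  rw [CL, card_image_of_injective _ (fun i j h => by simpa using h)]; simp
theorem card_WK (k : Fin 3) : (WK k : Finset (Slot m σ ρ)).card = σ := by
  rw [WK, card_image_of_injective _ (fun i j h => by simpa using h)]; simp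
theorem card_WW : (WW : Finset (Slot m σ ρ)).card = 3 * σ := by
  rw [WW, card_image_of_injective _ (fun i j h => Prod.ext (by simpa using (ww_inj.mp h).1)
    (ww_inj.mp h).2)]; simp

theorem relv_ww (side : ℕ → Bool) (t : ℕ) (k : Fin 3) (y : Fin σ) :
    relv side none t (ww k y : Slot m σ ρ) := by
  unfold relv
  fin_cases k <;> simp

theorem relv_cl (side : ℕ → Bool) (ι : Option Bool) (t : ℕ) (i : Fin m) :
    relv side ι t (cl (par (pos side t)) i : Slot m σ ρ) := Or.inl ⟨i, rfl⟩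

namespace Data
variable {J μ : ℕ} (D : Data m σ ρ J μ)

theorem Agree_refl (π : Perm (Slot m σ ρ)) : D.Agree π π := fun _ _ => rfl

theorem Comp_none (π : Perm (Slot m σ ρ)) (ι : Option Bool) : Comp π none π ι :=
  ⟨Sim.refl π, Or.inl rfl⟩

theorem Av_ww (π : Perm (Slot m σ ρ)) {t' : ℕ} (ht' : t' ≤ J) (t : ℕ) (k : Fin 3) (y : Fin σ) :
    D.Av π none t' t (π (ww k y)) :=
  D.Av_unused ht' (fun _ _ => by simp) (fun _ => by simp)

theorem Av_cl (π : Perm (Slot m σ ρ)) (ι : Option Bool) {t' t : ℕ} (ht' : t' ≤ J) (h : t' ≤ t)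
    (i : Fin m) : D.Av π ι t' t (π (cl (par (pos D.side t)) i)) :=
  D.Av_par ht' h (fun _ => by simp) (fun _ => by simp) (fun _ => by simp)

/-- one special time `s` carrying the class slots, and the `W`-slots at earlier times of one parity -/
theorem host1 {β : Type} (π : Perm (Slot m σ ρ)) (ε : Bool) (s b : ℕ) (hs : s ≤ J) (hb : b ≤ s)
    (Rm : ℕ → Finset (Fin σ)) (S2 : Finset β) (g2 : β → Slot m σ ρ) (h2 : Set.InjOn g2 S2)
    (hc1 : ∀ i, D.val π none s (cl (par (pos D.side s)) i) → ∀ x ∈ S2,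
      D.lab π none s (cl (par (pos D.side s)) i) ≠ g2 x)
    (hc2 : ∀ t < b, par (pos D.side t) = ε → ∀ k y, ¬ (k = 2 ∧ y ∈ Rm t) →
      D.val π none t (ww k y) → ∀ x ∈ S2, D.lab π none t (ww k y) ≠ g2 x) :
    m + 3 * σ * (Tm D.side ε 0 b).card + S2.card ≤
      2 * m + (3 * σ + ρ) + D.inv π none + ∑ t ∈ Tm D.side ε 0 b, (Rm t).card := by
  set F : ℕ → Finset (Slot m σ ρ) := fun t => if t = s then CL (par (pos D.side s)) else
    if t ∈ Tm D.side ε 0 b then WW \ (Rm t).image (ww 2) else ∅ with hF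
  have hFm : ∀ t u, u ∈ F t → (t = s ∧ ∃ i, u = cl (par (pos D.side s)) i) ∨
      (t < b ∧ par (pos D.side t) = ε ∧ ∃ k y, u = ww k y ∧ ¬ (k = 2 ∧ y ∈ Rm t)) := by
    intro t u hu
    simp only [hF] at hu
    split_ifs at hu with h1 h3
    · exact Or.inl ⟨h1, mem_CL.mp hu⟩
    · rw [mem_sdiff, mem_WW] at hu
      obtain ⟨⟨k, y, rfl⟩, h4⟩ := hu
      rw [mem_Tm] at h3
      refine Or.inr ⟨h3.2.1, h3.2.2, k, y, rfl, ?_⟩
      rintro ⟨rfl, h5⟩
      exact h4 (mem_image_of_mem _ h5)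
    · simp at hu
  have key := D.host π none F S2 g2
    (by
      intro t _ u hu
      rcases hFm t u hu with ⟨rfl, i, rfl⟩ | ⟨-, -, k, y, rfl, -⟩
      · exact relv_cl _ _ _ _
      · exact relv_ww _ _ _ _) h2
    (by
      intro t ht t' ht' u hu u' hu' hv hv' hne
      refine D.CT2 ht ht' hv hv' (Comp_none π none) (D.Agree_refl π) ?_ ?_ ?_
      · rcases hFm t u hu with ⟨rfl, i, rfl⟩ | ⟨-, -, k, y, rfl, -⟩
        · refine D.Av_cl π none ht' ?_ i
          rcases hFm t' u' hu' with ⟨rfl, -⟩ | ⟨h, -⟩ <;> omega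
        · exact D.Av_ww π ht' _ _ _
      · rcases hFm t' u' hu' with ⟨rfl, i, rfl⟩ | ⟨-, -, k, y, rfl, -⟩
        · refine D.Av_cl π none ht ?_ i
          rcases hFm t u hu with ⟨rfl, -⟩ | ⟨h, -⟩ <;> omega
        · exact D.Av_ww π ht _ _ _
      · by_cases huu : u = u'
        · right
          subst huu
          have htt : t ≠ t' := by tauto
          rcases hFm t u hu with ⟨rfl, i, rfl⟩ | ⟨-, e1, k, y, rfl, -⟩
          · rcases hFm t' _ hu' with ⟨h, -⟩ | ⟨-, -, k, y, h, -⟩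
            · exact absurd h.symm htt
            · simp at h
          · rcases hFm t' _ hu' with ⟨-, i, h⟩ | ⟨-, e2, -⟩
            · simp at h
            · exact far_of_par _ (e1.trans e2.symm) htt
        · exact Or.inl (fun h => huu (π.injective h)))
    (by
      intro t _ u hu hv x hx
      rcases hFm t u hu with ⟨rfl, i, rfl⟩ | ⟨h1, h3, k, y, rfl, h4⟩
      · exact hc1 i hv x hx
      · exact hc2 t h1 h3 k y h4 hv x hx)
  have hsub : insert s (Tm D.side ε 0 b) ⊆ range (J + 1) := by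
    intro t ht
    rw [mem_insert, mem_Tm] at ht
    rw [mem_range]; omega
  have hns : s ∉ Tm D.side ε 0 b := by rw [mem_Tm]; omega
  have h3 : ∑ t ∈ insert s (Tm D.side ε 0 b), (F t).card ≤ ∑ t ∈ range (J + 1), (F t).card :=
    sum_le_sum_of_subset hsub
  rw [sum_insert hns] at h3
  have h4 : (F s).card = m := by simp [hF, card_CL]
  have h5 : 3 * σ * (Tm D.side ε 0 b).card ≤
      ∑ t ∈ Tm D.side ε 0 b, (F t).card + ∑ t ∈ Tm D.side ε 0 b, (Rm t).card := by
    rw [← sum_add_distrib, mul_comm, ← smul_eq_mul, ← sum_const]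
    refine sum_le_sum fun t ht => ?_
    have : t ≠ s := fun h => hns (h ▸ ht)
    simp only [hF, this, ht, if_true, if_false]
    have e1 := le_card_sdiff ((Rm t).image (ww 2 : Fin σ → Slot m σ ρ)) WW
    have e2 : ((Rm t).image (ww 2 : Fin σ → Slot m σ ρ)).card ≤ (Rm t).card := card_image_le
    rw [card_WW] at e1
    omega
  omega

/-- the final-level version -/
theorem hostJ {β : Type} {d : ℕ} (hJ : J + 7 = 2 * d) (hN : m + ρ ≤ 3 * σ * d + σ)
    (π : Perm (Slot m σ ρ)) (ε : Bool)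
    (Rm : ℕ → Finset (Fin σ)) (S2 : Finset β) (g2 : β → Slot m σ ρ) (h2 : Set.InjOn g2 S2)
    (hc1 : ∀ i, D.val π none J (cl (par (pos D.side J)) i) → ∀ x ∈ S2,
      D.lab π none J (cl (par (pos D.side J)) i) ≠ g2 x)
    (hc2 : ∀ t < J, par (pos D.side t) = ε → ∀ k y, ¬ (k = 2 ∧ y ∈ Rm t) →
      D.val π none t (ww k y) → ∀ x ∈ S2, D.lab π none t (ww k y) ≠ g2 x) :
    S2.card ≤ 16 * σ + D.inv π none + ∑ t ∈ Tm D.side ε 0 J, (Rm t).card := by
  have h := D.host1 π ε J J le_rfl le_rfl Rm S2 g2 h2 hc1 hc2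
  have hc := (Tm_card D.side ε (Nat.zero_le J)).1
  have h3 : 3 * σ * d ≤ 3 * σ * ((Tm D.side ε 0 J).card + 4) := Nat.mul_le_mul_left _ (by omega)
  rw [mul_add] at h3
  omega

/-- the version at a time of the window -/
theorem hostW {β : Type} {d t0 : ℕ} (hJ : J + 7 = 2 * d) (hN : m + ρ ≤ 3 * σ * d + σ)
    (ht0 : t0 + 1200 = J) (π : Perm (Slot m σ ρ)) (s : ℕ) (hs : s ≤ J) (hs0 : t0 ≤ s)
    (S2 : Finset β) (g2 : β → Slot m σ ρ) (h2 : Set.InjOn g2 S2)
    (hc1 : ∀ i, D.val π none s (cl (par (pos D.side s)) i) → ∀ x ∈ S2,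
      D.lab π none s (cl (par (pos D.side s)) i) ≠ g2 x)
    (hc2 : ∀ t < t0, ∀ k y, D.val π none t (ww k y) → ∀ x ∈ S2, D.lab π none t (ww k y) ≠ g2 x) :
    S2.card ≤ 1816 * σ + D.inv π none := by
  have h := D.host1 π true s t0 hs hs0 (fun _ => ∅) S2 g2 h2 hc1
    (fun t ht _ k y _ hv => hc2 t ht k y hv)
  have hc := (Tm_card D.side true (Nat.zero_le t0)).1
  have h3 : 3 * σ * d ≤ 3 * σ * ((Tm D.side true 0 t0).card + 604) :=
    Nat.mul_le_mul_left _ (by omega)
  rw [mul_add] at h3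
  simp only [card_empty, sum_const_zero] at h
  omega

end Data

end Pool.Agent.Work.MP_418764_co
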