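import Pool.Agent.Work.MP_418764_co.Bud2

namespace Pool.Agent.Work.MP_418764_co
open Finset Equiv
open scoped Classical

variable {m σ ρ : ℕ}

namespace Data
variable {J μ : ℕ} (D : Data m σ ρ J μ)

theorem inv_le (π : Perm (Slot m σ ρ)) (ι : Option Bool) (S : Finset (ℕ × Fin σ))
    (h : ∀ e ∈ S, e.1 ≤ J ∧ ¬ D.val π ι e.1 (ww 0 e.2)) : S.card ≤ D.inv π ι := by
  unfold inv invc
  apply card_le_card_of_injOn (fun e => (e.1, ww 0 e.2))
  · intro e he
    have := h e he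
    simp only [coe_filter, mem_product, mem_range, mem_univ, and_true, Set.mem_ofPred_eq]
    exact ⟨by omega, Or.inr (Or.inl ⟨_, rfl⟩), this.2⟩
  · intro e _ e' _ h
    simp only [Prod.mk.injEq, ww_inj, true_and] at h
    exact Prod.ext h.1 h.2

noncomputable def PR (ε : Bool) (t0 : ℕ) : Finset (ℕ × ℕ) :=
  (Ico t0 J ×ˢ Ico t0 J).filter (fun p => p.1 < p.2 ∧ par (pos D.side p.1) = ε ∧
    |pos D.side p.1 - pos D.side p.2| ≤ 1)

theorem mem_PR {ε : Bool} {t0 : ℕ} {p : ℕ × ℕ} : p ∈ D.PR ε t0 ↔ t0 ≤ p.1 ∧ p.1 < p.2 ∧ p.2 < J ∧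
    par (pos D.side p.1) = ε ∧ |pos D.side p.1 - pos D.side p.2| ≤ 1 := by
  simp only [PR, mem_filter, mem_product, mem_Ico]
  constructor
  · rintro ⟨⟨⟨h1, h2⟩, h3, h4⟩, h5, h6, h7⟩; exact ⟨h1, h5, h4, h6, h7⟩
  · rintro ⟨h1, h2, h3, h4, h5⟩; exact ⟨⟨⟨h1, by omega⟩, by omega, h3⟩, h2, h4, h5⟩

theorem PR_par {ε : Bool} {t0 : ℕ} {p : ℕ × ℕ} (h : p ∈ D.PR ε t0) :
    par (pos D.side p.2) = !ε := by
  rw [mem_PR] at h
  have := par_ne_of_adj h.2.2.2.2 (fun e => absurd (pos_inj _ e) h.2.1.ne)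
  rw [h.2.2.2.1] at this
  revert this; cases par (pos D.side p.2) <;> cases ε <;> simp

theorem PR_snd {ε : Bool} {t0 : ℕ} {p p' : ℕ × ℕ} (h : p ∈ D.PR ε t0) (h' : p' ∈ D.PR ε t0)
    (e : p.2 = p'.2) : p = p' := by
  rw [mem_PR] at h h'
  refine Prod.ext (nx_unique_fst D.side h.2.1 (e ▸ h'.2.1) h.2.2.2.2 ?_) e
  rw [e]; exact h'.2.2.2.2

theorem PR_fst {ε : Bool} {t0 : ℕ} {p p' : ℕ × ℕ} (h : p ∈ D.PR ε t0) (h' : p' ∈ D.PR ε t0)
    (e : p.1 = p'.1) : p = p' := by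
  rw [mem_PR] at h h'
  refine Prod.ext e (nx_unique_snd D.side h.2.1 (e ▸ h'.2.1) h.2.2.2.2 ?_)
  rw [e]; exact h'.2.2.2.2

theorem PR_card {ε : Bool} {t0 : ℕ} (ht0 : t0 + 1200 = J) : (D.PR ε t0).card ≤ 1200 := by
  have : (D.PR ε t0).card ≤ (Ico t0 J).card := by
    apply card_le_card_of_injOn (fun p => p.2)
    · intro p hp
      have := D.mem_PR.mp hp
      simp only [coe_Ico, Set.mem_Ico]; omega
    · intro p hp p' hp' e; exact D.PR_snd hp hp' e
  rw [Nat.card_Ico] at this; omega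

noncomputable def MM (π : Perm (Slot m σ ρ)) (ε : Bool) (t0 : ℕ) : Finset ((ℕ × ℕ) × Fin σ) :=
  (D.PR ε t0 ×ˢ univ).filter (fun e => D.val π none e.1.1 (ww 0 e.2) ∧
    D.val π none e.1.2 (ww 0 e.2) ∧ D.lab π none e.1.1 (ww 0 e.2) = D.lab π none e.1.2 (ww 0 e.2))

theorem mem_MM {π : Perm (Slot m σ ρ)} {ε : Bool} {t0 : ℕ} {e : (ℕ × ℕ) × Fin σ} :
    e ∈ D.MM π ε t0 ↔ e.1 ∈ D.PR ε t0 ∧ D.val π none e.1.1 (ww 0 e.2) ∧
    D.val π none e.1.2 (ww 0 e.2) ∧
    D.lab π none e.1.1 (ww 0 e.2) = D.lab π none e.1.2 (ww 0 e.2) := by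
  simp [MM]

noncomputable def Good (π : Perm (Slot m σ ρ)) (ε : Bool) (t0 : ℕ) : Finset (ℕ × Fin σ) :=
  (Tm D.side ε t0 J ×ˢ univ).filter (fun e => ∃ t', e.1 < t' ∧ t' < J ∧
    |pos D.side e.1 - pos D.side t'| ≤ 1 ∧ D.val π none t' (ww 0 e.2) ∧
    D.lab π none e.1 (ww 0 e.2) = D.lab π none t' (ww 0 e.2) ∧
    ∃ i, cl (!ε) i ∉ D.Z (J + 1) ∧ D.Vict π ε e.1 e.2 i)

theorem L1 (π : Perm (Slot m σ ρ)) {t0 : ℕ} (ht0 : t0 + 1200 = J) :
    599 * σ ≤ D.inv π none + (D.ISO π t0).card + (D.MM π false t0).card +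
      (D.MM π true t0).card + 2 * σ := by
  set S0 := (Tm D.side false t0 J ×ˢ (univ : Finset (Fin σ))).filter
    (fun e => ¬ D.val π none e.1 (ww 0 e.2)) with hS0
  set S1 := (D.MM π false t0).image (fun e => (e.1.1, e.2)) with hS1
  set S2 := (D.MM π true t0).image (fun e => (e.1.2, e.2)) with hS2
  set S3 := ((Ico t0 J).filter (fun t => ∃ t' ∈ range t0,
    |pos D.side t' - pos D.side t| ≤ 1)) ×ˢ (univ : Finset (Fin σ)) with hS3
  have hsub : Tm D.side false t0 J ×ˢ (univ : Finset (Fin σ)) ⊆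
      S0 ∪ D.ISO π t0 ∪ S1 ∪ S2 ∪ S3 := by
    rintro ⟨t, y⟩ he
    have he' := he
    simp only [mem_product, mem_Tm, mem_univ, and_true] at he'
    simp only [mem_union]
    by_cases hv : D.val π none t (ww 0 y)
    swap
    · exact Or.inl (Or.inl (Or.inl (Or.inl (mem_filter.mpr ⟨he, hv⟩))))
    by_cases hi : (t, y) ∈ D.ISO π t0
    · exact Or.inl (Or.inl (Or.inl (Or.inr hi)))
    simp only [ISO, mem_filter, he, hv, true_and, not_forall, not_not] at hi
    obtain ⟨t', h1, h2, h3, h4, h5⟩ := hi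
    rcases lt_or_gt_of_ne h3 with h | h
    · by_cases h6 : t' < t0
      · right
        simp only [hS3, mem_product, mem_filter, mem_Ico, mem_range, mem_univ, and_true]
        exact ⟨⟨he'.1, he'.2.1⟩, t', h6, h2⟩
      · left; right
        refine mem_image.mpr ⟨((t', t), y), D.mem_MM.mpr ⟨D.mem_PR.mpr
          ⟨Nat.le_of_not_lt h6, h, he'.2.1, ?_, h2⟩, h4, hv, h5⟩, rfl⟩
        have := par_ne_of_adj h2 (fun e => h3 (pos_inj _ e))
        rw [he'.2.2] at this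
        simpa using this
    · left; left; right
      exact mem_image.mpr ⟨((t, t'), y), D.mem_MM.mpr ⟨D.mem_PR.mpr
          ⟨he'.1, h, h1, he'.2.2, by rwa [abs_sub_comm]⟩, hv, h4, h5.symm⟩, rfl⟩
  have h0 : S0.card ≤ D.inv π none := by
    apply D.inv_le
    intro e he
    simp only [hS0, mem_filter, mem_product, mem_Tm] at he
    exact ⟨he.1.1.2.1.le, he.2⟩
  have h1 : S1.card ≤ (D.MM π false t0).card := card_image_le
  have h2 : S2.card ≤ (D.MM π true t0).card := card_image_le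
  have h3 : S3.card ≤ 2 * σ := by
    rw [hS3, card_product, card_univ, Fintype.card_fin]
    exact Nat.mul_le_mul_right _ (boundary_card _ _ _)
  have h4 := card_le_card hsub
  rw [card_product, card_univ, Fintype.card_fin] at h4
  have h5 := (Tm_card D.side false (show t0 ≤ J by omega)).1
  have h6 : 599 * σ ≤ (Tm D.side false t0 J).card * σ := Nat.mul_le_mul_right _ (by omega)
  have h7 := card_union_le (S0 ∪ D.ISO π t0 ∪ S1 ∪ S2) S3
  have h8 := card_union_le (S0 ∪ D.ISO π t0 ∪ S1) S2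
  have h9 := card_union_le (S0 ∪ D.ISO π t0) S1
  have h10 := card_union_le S0 (D.ISO π t0)
  omega

theorem L2 {d t0 : ℕ} (hJ : J + 7 = 2 * d) (hN : m + ρ ≤ 3 * σ * d + σ) (ht0 : t0 + 1200 = J)
    (hμ : σ = 8 * μ) (π : Perm (Slot m σ ρ)) (ε : Bool) :
    (D.Good π ε t0).card ≤ 160 * σ + 601 * μ + D.inv π none + 10 * D.inv π (some ε) := by
  set S0 := (Tm D.side ε t0 J ×ˢ (univ : Finset (Fin σ))).filter
    (fun e => ¬ D.val π (some ε) e.1 (ww 0 e.2)) with hS0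
  set S1 := (Tm D.side ε t0 J ×ˢ (univ : Finset (Fin σ))).filter
    (fun e => RA D.side D.Z D.val D.lab π ε e.1 e.2 univ) with hS1
  have hsub : D.Good π ε t0 ⊆ S0 ∪ D.UH π ε ∪ S1 := by
    rintro ⟨t, y⟩ he
    rw [Good, mem_filter] at he
    obtain ⟨he, t', h1, h2, h3, h4, h5, i, h6, a, h7, h8⟩ := he
    have he' := he
    simp only [mem_product, mem_Tm, mem_univ, and_true] at he'
    simp only [mem_union]
    by_cases hv : D.val π (some ε) t (ww 0 y)
    swap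
    · exact Or.inl (Or.inl (mem_filter.mpr ⟨he, hv⟩))
    by_cases hu : D.lab π none t (ww 0 y) = D.lab π (some ε) t (ww 0 y)
    swap
    · left; right
      simp only [UH, mem_filter, mem_product, mem_Tm, mem_univ, and_true]
      exact ⟨⟨Nat.zero_le _, he'.2⟩, hv, hu⟩
    right
    refine mem_filter.mpr ⟨he, hv, ?_, i, a, mem_univ _,
      fun h => h6 (D.Zmono _ _ (by simp only; omega) h), h7, h8.trans hu⟩
    intro s hs hn hvs
    simp only at h1 h3 h4 h5 hs hn hvs ⊢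
    rw [← hu, h5]
    exact D.CT2 (by omega) h2.le hvs h4 (Comp_none π _).symm (D.Agree_refl π)
      (D.Av_ww π h2.le _ _ _) (D.Av_h_core (by omega) _ _ (by decide))
      (Or.inr (nx_far _ hs h1 hn))
  have h0 : S0.card ≤ D.inv π (some ε) := by
    apply D.inv_le
    intro e he
    simp only [hS0, mem_filter, mem_product, mem_Tm] at he
    exact ⟨he.1.1.2.1.le, he.2⟩
  have h1 : S1.card ≤ ∑ t ∈ Tm D.side ε t0 J, (μ + 8 * (D.Y π ε t).card) := by
    rw [hS1, card_filter, sum_product]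
    refine sum_le_sum fun t ht => ?_
    rw [← card_filter]
    rw [mem_Tm] at ht
    obtain ⟨-, h1, rfl⟩ := ht
    rcases D.Rcount π t h1 with h | h
    · exact le_trans h (by omega)
    · have := card_le_univ (univ.filter
        (fun y => RA D.side D.Z D.val D.lab π (par (pos D.side t)) t y univ))
      rw [Fintype.card_fin] at this
      exact le_trans this (by omega)
  rw [sum_add_distrib, sum_const, smul_eq_mul, ← mul_sum] at h1
  have h2 : ∑ t ∈ Tm D.side ε t0 J, (D.Y π ε t).card ≤ ∑ t ∈ Tm D.side ε 0 J, (D.Y π ε t).card := by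
    apply sum_le_sum_of_subset
    intro t ht; rw [mem_Tm] at ht ⊢; exact ⟨Nat.zero_le _, ht.2⟩
  have h3 := D.UH_card hJ hN π ε
  have h4 := D.Y_card hJ hN π ε
  have h5 := (Tm_card D.side ε (show t0 ≤ J by omega)).2
  have h6 : (Tm D.side ε t0 J).card * μ ≤ 601 * μ := Nat.mul_le_mul_right _ (by omega)
  have h7 := card_le_card hsub
  have h8 := card_union_le (S0 ∪ D.UH π ε) S1
  have h9 := card_union_le S0 (D.UH π ε)
  omega

noncomputable def U2 (π : Perm (Slot m σ ρ)) (ε : Bool) (i : Fin m) (x : Fin σ) :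
    Finset (ℕ × Fin σ) := (Tm D.side ε 0 J ×ˢ univ).filter (fun e => D.U2P π ε e.1 e.2 i x)

noncomputable def NV (π : Perm (Slot m σ ρ)) (ε : Bool) (t0 : ℕ) (i : Fin m) (x : Fin σ) :
    Finset ((ℕ × ℕ) × Fin σ) :=
  (D.PR ε t0 ×ˢ univ).filter (fun e => D.Nice π ε e.1.1 e.1.2 e.2 i x ∧ ¬ D.Vict π ε e.1.1 e.2 i)

theorem L3 {t0 : ℕ} (ht0 : t0 + 1200 = J) (π : Perm (Slot m σ ρ)) (ε : Bool) (i : Fin m)
    (x : Fin σ) :
    (D.MM π ε t0).card ≤ (if cl (!ε) i ∈ D.Z (J + 1) then 1200 * σ else 0) +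
      D.inv (π * swap (cl (!ε) i) (ww 1 x)) none + J + (D.U2 π (!ε) i x).card +
      (D.NV π ε t0 i x).card + (D.Good π ε t0).card := by
  split_ifs with hZ
  · have h1 : (D.MM π ε t0).card ≤ (D.PR ε t0 ×ˢ (univ : Finset (Fin σ))).card :=
      card_filter_le _ _
    rw [card_product, card_univ, Fintype.card_fin] at h1
    have := Nat.mul_le_mul_right σ (D.PR_card (ε := ε) ht0)
    omega
  set π' := π * swap (cl (!ε) i) (ww 1 x) with hπ'
  set M := D.MM π ε t0 with hM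
  set S0 := M.filter (fun e => ¬ D.val π' none e.1.2 (ww 0 e.2)) with hS0
  set S1 := M.filter (fun e => (e.1.2, e.2) ∈ D.U1 π (!ε) i x) with hS1
  set S2 := M.filter (fun e => (e.1.2, e.2) ∈ D.U2 π (!ε) i x) with hS2
  set S3 := M.filter (fun e => (e.1.1, e.2) ∈ D.Good π ε t0) with hS3
  have hinj2 : Set.InjOn (fun e : (ℕ × ℕ) × Fin σ => (e.1.2, e.2)) M := by
    intro e he e' he' h
    simp only [Prod.mk.injEq] at h
    exact Prod.ext (D.PR_snd (D.mem_MM.mp he).1 (D.mem_MM.mp he').1 h.1) h.2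
  have hinj1 : Set.InjOn (fun e : (ℕ × ℕ) × Fin σ => (e.1.1, e.2)) M := by
    intro e he e' he' h
    simp only [Prod.mk.injEq] at h
    exact Prod.ext (D.PR_fst (D.mem_MM.mp he).1 (D.mem_MM.mp he').1 h.1) h.2
  have hsub : M ⊆ S0 ∪ S1 ∪ S2 ∪ D.NV π ε t0 i x ∪ S3 := by
    rintro ⟨⟨t, t'⟩, y⟩ he
    obtain ⟨h1, h2, h3, h4⟩ := D.mem_MM.mp he
    have hp' := D.PR_par h1
    have h1' := D.mem_PR.mp h1
    simp only at h2 h3 h4 hp' h1'
    have hT : (t', y) ∈ Tm D.side (!ε) 0 J ×ˢ (univ : Finset (Fin σ)) := by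
      simp only [mem_product, mem_Tm, mem_univ, and_true]
      exact ⟨Nat.zero_le _, h1'.2.2.1, hp'⟩
    simp only [mem_union]
    by_cases hv : D.val π' none t' (ww 0 y)
    swap
    · exact Or.inl (Or.inl (Or.inl (Or.inl (mem_filter.mpr ⟨he, hv⟩))))
    by_cases hu : ∃ s < J, D.lab π none s (ww 1 x) = D.lab π' none t' (ww 0 y)
    · exact Or.inl (Or.inl (Or.inl (Or.inr (mem_filter.mpr ⟨he, mem_filter.mpr ⟨hT, hv, hu⟩⟩))))
    push Not at hu
    by_cases hs : D.lab π none t' (ww 0 y) = D.lab π' none t' (ww 0 y)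
    swap
    · exact Or.inl (Or.inl (Or.inr (mem_filter.mpr ⟨he, mem_filter.mpr ⟨hT, hZ, hv, hs, hu⟩⟩)))
    by_cases hw : D.Vict π ε t y i
    · right
      refine mem_filter.mpr ⟨he, mem_filter.mpr ⟨?_, t', h1'.2.1, h1'.2.2.1, h1'.2.2.2.2, h3, h4,
        i, hZ, hw⟩⟩
      simp only [mem_product, mem_Tm, mem_univ, and_true]
      exact ⟨h1'.1, by omega, h1'.2.2.2.1⟩
    · left; right
      exact mem_filter.mpr ⟨mem_product.mpr ⟨h1, mem_univ _⟩, ⟨hZ, h3, h4, hv, hs⟩, hw⟩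
  have h0 : S0.card ≤ D.inv π' none := by
    rw [← card_image_of_injOn (hinj2.mono (coe_subset.mpr (filter_subset _ _)))]
    apply D.inv_le
    intro e he
    obtain ⟨e', he', rfl⟩ := mem_image.mp he
    rw [mem_filter] at he'
    exact ⟨(D.mem_PR.mp (D.mem_MM.mp he'.1).1).2.2.1.le, he'.2⟩
  have h1 : S1.card ≤ (D.U1 π (!ε) i x).card :=
    card_le_card_of_injOn _ (fun e he => (mem_filter.mp he).2)
      (hinj2.mono (coe_subset.mpr (filter_subset _ _)))
  have h2 : S2.card ≤ (D.U2 π (!ε) i x).card :=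
    card_le_card_of_injOn _ (fun e he => (mem_filter.mp he).2)
      (hinj2.mono (coe_subset.mpr (filter_subset _ _)))
  have h3 : S3.card ≤ (D.Good π ε t0).card :=
    card_le_card_of_injOn _ (fun e he => (mem_filter.mp he).2)
      (hinj1.mono (coe_subset.mpr (filter_subset _ _)))
  have h4 := D.U1_card π (!ε) i x
  have h5 := card_le_card hsub
  have h7 := card_union_le (S0 ∪ S1 ∪ S2 ∪ D.NV π ε t0 i x) S3
  have h8 := card_union_le (S0 ∪ S1 ∪ S2) (D.NV π ε t0 i x)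
  have h9 := card_union_le (S0 ∪ S1) S2
  have h10 := card_union_le S0 S1
  omega

theorem U2_sum [NeZero σ] {d : ℕ} (hJ : J + 7 = 2 * d) (hN : m + ρ ≤ 3 * σ * d + σ)
    (π : Perm (Slot m σ ρ)) (ε : Bool) (i : Fin m) :
    ∑ x, (D.U2 π ε i x).card ≤ σ * (16 * σ + D.inv π none) := by
  have h1 : ∑ x, (D.U2 π ε i x).card = ∑ δ : Fin σ, ((Tm D.side ε 0 J ×ˢ univ).filter
      (fun e => D.U2P π ε e.1 e.2 i (e.2 + δ))).card := by
    simp only [U2, card_filter]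
    rw [sum_comm, sum_comm (s := univ)]
    refine sum_congr rfl fun e _ => ?_
    exact (Equiv.sum_comp (Equiv.addLeft e.2)
      (fun x => if D.U2P π ε e.1 e.2 i x then 1 else 0)).symm
  rw [h1]
  calc _ ≤ ∑ _δ : Fin σ, (16 * σ + D.inv π none) := sum_le_sum fun δ _ =>
        D.U2_card hJ hN π ε (fun _ => i) (fun y => y + δ) (add_left_injective δ)
    _ = _ := by simp

theorem NV_sum [NeZero σ] {d t0 : ℕ} (hJ : J + 7 = 2 * d) (hN : m + ρ ≤ 3 * σ * d + σ)
    (ht0 : t0 + 1200 = J) (ε : Bool) :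
    ∑ π, ∑ i, ∑ x, (D.NV π ε t0 i x).card ≤
      ∑ g, 1200 * σ * σ * (3632 * σ + 2 * D.inv g none) := by
  have h1 : ∑ π, ∑ i, ∑ x, (D.NV π ε t0 i x).card =
      ∑ i, ∑ x, ∑ e ∈ D.PR ε t0 ×ˢ (univ : Finset (Fin σ)), ∑ π,
        if D.Nice π ε e.1.1 e.1.2 e.2 i x ∧ ¬ D.Vict π ε e.1.1 e.2 i then 1 else 0 := by
    simp only [NV, card_filter]
    rw [sum_comm]
    refine sum_congr rfl fun i _ => ?_
    rw [sum_comm]
    refine sum_congr rfl fun x _ => ?_
    rw [sum_comm]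
  have h2 : ∀ i x (e : (ℕ × ℕ) × Fin σ), (∑ π,
        if D.Nice π ε e.1.1 e.1.2 e.2 i x ∧ ¬ D.Vict π ε e.1.1 e.2 i then 1 else 0) ≤
      ∑ g, if (∃ y x, D.Nice (g * swap (cl (!ε) i) (ww 0 y)) ε e.1.1 e.1.2 y i x ∧
        ¬ D.Vict (g * swap (cl (!ε) i) (ww 0 y)) ε e.1.1 y i) then 1 else 0 := by
    intro i x e
    rw [← Equiv.sum_comp (Equiv.mulRight (swap (cl (!ε) i) (ww 0 e.2)))]
    refine sum_le_sum fun g _ => ?_
    split_ifs with h3 h4
    · exact le_rfl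
    · exact absurd ⟨e.2, x, h3⟩ h4
    · exact Nat.zero_le _
    · exact le_rfl
  rw [h1]
  calc _ ≤ ∑ i, ∑ _x : Fin σ, ∑ e ∈ D.PR ε t0 ×ˢ (univ : Finset (Fin σ)),
        ∑ g, if (∃ y x, D.Nice (g * swap (cl (!ε) i) (ww 0 y)) ε e.1.1 e.1.2 y i x ∧
        ¬ D.Vict (g * swap (cl (!ε) i) (ww 0 y)) ε e.1.1 y i) then 1 else 0 :=
        sum_le_sum fun i _ => sum_le_sum fun x _ => sum_le_sum fun e _ => h2 i x e
    _ = ∑ g, ∑ _x : Fin σ, ∑ e ∈ D.PR ε t0 ×ˢ (univ : Finset (Fin σ)),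
        ∑ i, if (∃ y x, D.Nice (g * swap (cl (!ε) i) (ww 0 y)) ε e.1.1 e.1.2 y i x ∧
        ¬ D.Vict (g * swap (cl (!ε) i) (ww 0 y)) ε e.1.1 y i) then 1 else 0 := by
        rw [sum_comm, sum_comm (s := (univ : Finset (Perm (Slot m σ ρ))))]
        refine sum_congr rfl fun x _ => ?_
        rw [sum_comm, sum_comm (s := (univ : Finset (Perm (Slot m σ ρ))))]
        refine sum_congr rfl fun e _ => ?_
        rw [sum_comm]
    _ ≤ ∑ g, ∑ _x : Fin σ, ∑ _e ∈ D.PR ε t0 ×ˢ (univ : Finset (Fin σ)),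
        (3632 * σ + 2 * D.inv g none) := by
        refine sum_le_sum fun g _ => sum_le_sum fun x _ => sum_le_sum fun e he => ?_
        rw [← card_filter]
        have := D.mem_PR.mp (mem_product.mp he).1
        exact D.NV_card hJ hN ht0 g ε this.1 this.2.1 this.2.2.1 this.2.2.2.1 this.2.2.2.2
    _ ≤ _ := by
        refine sum_le_sum fun g _ => ?_
        simp only [sum_const, card_product, card_univ, Fintype.card_fin, smul_eq_mul]
        have := D.PR_card (ε := ε) ht0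
        calc σ * ((D.PR ε t0).card * σ * (3632 * σ + 2 * D.inv g none))
            ≤ σ * (1200 * σ * (3632 * σ + 2 * D.inv g none)) := by gcongr
          _ = _ := by ring

theorem Z_count (b : Bool) : ∑ i : Fin m, (if cl b i ∈ D.Z (J + 1) then 1 else 0) ≤ ρ := by
  rw [← card_filter]
  refine le_trans ?_ D.Zcard
  apply card_le_card_of_injOn (cl b)
  · intro i hi; exact (mem_filter.mp hi).2
  · intro i _ j _ h; simpa using h

theorem L4 [NeZero σ] {d t0 : ℕ} (hJ : J + 7 = 2 * d) (hN : m + ρ ≤ 3 * σ * d + σ)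
    (ht0 : t0 + 1200 = J) (ε : Bool) (hρ : ρ ≤ σ) (hJσ : J ≤ σ) (hm : 300000 * σ ≤ m) :
    ∑ π, (D.MM π ε t0).card ≤
      35 * (Fintype.card (Perm (Slot m σ ρ)) * σ) + ∑ π, (D.Good π ε t0).card := by
  set F := Fintype.card (Perm (Slot m σ ρ)) with hF
  have hI : ∑ π, D.inv π none ≤ F * σ := by
    refine le_trans (sum_le_sum fun π _ => ?_) D.INV
    unfold inv; omega
  have hσ : 0 < σ := Nat.pos_of_ne_zero (NeZero.ne σ)
  have hmσ : 0 < m * σ := Nat.mul_pos (by omega) hσ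
  have h1 : ∑ π, ∑ i : Fin m, ∑ x : Fin σ, (D.MM π ε t0).card ≤
      ∑ π, ∑ i : Fin m, ∑ x : Fin σ, ((if cl (!ε) i ∈ D.Z (J + 1) then 1200 * σ else 0) +
      D.inv (π * swap (cl (!ε) i) (ww 1 x)) none + J + (D.U2 π (!ε) i x).card +
      (D.NV π ε t0 i x).card + (D.Good π ε t0).card) :=
    sum_le_sum fun π _ => sum_le_sum fun i _ => sum_le_sum fun x _ => D.L3 ht0 π ε i x
  simp only [sum_add_distrib] at h1
  have e0 : ∀ f : Perm (Slot m σ ρ) → ℕ,
      ∑ π, ∑ _i : Fin m, ∑ _x : Fin σ, f π = m * σ * ∑ π, f π := by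
    intro f
    rw [mul_sum]
    refine sum_congr rfl fun π _ => ?_
    simp only [sum_const, card_univ, Fintype.card_fin, smul_eq_mul]; ring
  rw [e0, e0, e0] at h1
  have e1 : ∑ _π : Perm (Slot m σ ρ), ∑ i : Fin m, ∑ _x : Fin σ,
      (if cl (!ε) i ∈ D.Z (J + 1) then 1200 * σ else 0) ≤ m * σ * (F * σ) := by
    have : ∑ i : Fin m, ∑ _x : Fin σ, (if cl (!ε) i ∈ D.Z (J + 1) then 1200 * σ else 0) =
        (1200 * σ * σ) * ∑ i : Fin m, (if cl (!ε) i ∈ D.Z (J + 1) then 1 else 0) := by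
      rw [mul_sum]
      refine sum_congr rfl fun i _ => ?_
      split_ifs <;> simp; ring
    rw [this, sum_const, card_univ, smul_eq_mul, ← hF]
    have h2 := D.Z_count (!ε)
    calc _ ≤ F * (1200 * σ * σ * σ) := by gcongr; omega
      _ = (1200 * σ) * σ * (F * σ) := by ring
      _ ≤ _ := by gcongr; omega
  have e2 : ∑ π, ∑ i : Fin m, ∑ x : Fin σ, D.inv (π * swap (cl (!ε) i) (ww 1 x)) none ≤
      m * σ * (F * σ) := by
    rw [sum_comm]
    calc _ = ∑ _i : Fin m, ∑ _x : Fin σ, ∑ π, D.inv π none := by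
          refine sum_congr rfl fun i _ => ?_
          rw [sum_comm]
          refine sum_congr rfl fun x _ => ?_
          exact Equiv.sum_comp (Equiv.mulRight (swap (cl (!ε) i) (ww 1 x)))
            (fun π => D.inv π none)
      _ = m * σ * ∑ π, D.inv π none := by
          simp only [sum_const, card_univ, Fintype.card_fin, smul_eq_mul]; ring
      _ ≤ _ := by gcongr
  have e3 : ∑ _π : Perm (Slot m σ ρ), J ≤ F * σ := by
    rw [sum_const, card_univ, smul_eq_mul, ← hF]; gcongr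
  have e4 : ∑ π, ∑ i : Fin m, ∑ x : Fin σ, (D.U2 π (!ε) i x).card ≤ m * σ * (17 * (F * σ)) := by
    calc _ ≤ ∑ π, ∑ _i : Fin m, σ * (16 * σ + D.inv π none) :=
          sum_le_sum fun π _ => sum_le_sum fun i _ => D.U2_sum hJ hN π _ i
      _ = m * σ * (16 * (F * σ) + ∑ π, D.inv π none) := by
          simp only [sum_const, card_univ, Fintype.card_fin, smul_eq_mul]
          rw [← mul_sum, ← mul_sum, sum_add_distrib, sum_const, card_univ, smul_eq_mul, ← hF]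
          ring
      _ ≤ _ := by gcongr; omega
  have e5 : ∑ π, ∑ i : Fin m, ∑ x : Fin σ, (D.NV π ε t0 i x).card ≤ m * σ * (15 * (F * σ)) := by
    refine (D.NV_sum hJ hN ht0 ε).trans ?_
    rw [← mul_sum, sum_add_distrib, sum_const, card_univ, smul_eq_mul, ← hF, ← mul_sum]
    calc _ ≤ 1200 * σ * σ * (F * (3632 * σ) + 2 * (F * σ)) := by gcongr
      _ = (4360800 * σ) * σ * (F * σ) := by ring
      _ ≤ (15 * m) * σ * (F * σ) :=
          Nat.mul_le_mul_right _ (Nat.mul_le_mul_right _ (by omega))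
      _ = _ := by ring
  have e3' := Nat.mul_le_mul_left (m * σ) e3
  apply Nat.le_of_mul_le_mul_left _ hmσ
  have e6 : m * σ * (35 * (F * σ) + ∑ π, (D.Good π ε t0).card) =
      m * σ * (F * σ) + m * σ * (F * σ) + m * σ * (F * σ) + m * σ * (17 * (F * σ)) +
      m * σ * (15 * (F * σ)) + m * σ * ∑ π, (D.Good π ε t0).card := by ring
  rw [e6]
  exact h1.trans (by gcongr)

theorem contra {d : ℕ} (D : Data m σ ρ J μ) (hJ : J + 7 = 2 * d) (hN : m + ρ ≤ 3 * σ * d + σ)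
    (hd : 100000 ≤ d) (hμ : σ = 8 * μ) (hμ0 : 0 < μ) (hρ : ρ ≤ σ) (hJσ : J ≤ σ)
    (hm : 3 * σ * d ≤ m) : False := by
  have : NeZero σ := ⟨by omega⟩
  obtain ⟨t0, ht0⟩ : ∃ t0, t0 + 1200 = J := ⟨J - 1200, by omega⟩
  have hm' : 300000 * σ ≤ m := by nlinarith
  set F := Fintype.card (Perm (Slot m σ ρ)) with hF
  have hF0 : 0 < F := Fintype.card_pos
  have hI := D.INV
  rw [sum_add_distrib, sum_add_distrib, ← hF] at hI
  have a1 := sum_le_sum (s := univ) fun π _ => D.L1 π ht0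
  have a2 := sum_le_sum (s := univ) fun π _ => D.ISO_card hJ hN π t0
  have a3 := sum_le_sum (s := univ) fun π _ => D.L2 hJ hN ht0 hμ π false
  have a4 := sum_le_sum (s := univ) fun π _ => D.L2 hJ hN ht0 hμ π true
  have a5 := D.L4 hJ hN ht0 false hρ hJσ hm'
  have a6 := D.L4 hJ hN ht0 true hρ hJσ hm'
  simp only [sum_add_distrib, sum_const, card_univ, smul_eq_mul, ← hF, ← mul_sum] at a1 a2 a3 a4
  rw [← hF] at a5 a6
  unfold inv at *
  have hK : 0 < F * μ := Nat.mul_pos hF0 hμ0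
  have e1 : F * σ = 8 * (F * μ) := by rw [hμ]; ring
  have e2 : ∀ k, F * (k * σ) = 8 * k * (F * μ) := by intro k; rw [hμ]; ring
  have e3 : F * (601 * μ) = 601 * (F * μ) := by ring
  rw [e1] at hI a5 a6
  simp only [e2, e3] at a1 a2 a3 a4
  omega

end Data

end Pool.Agent.Work.MP_418764_co
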