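import Pool.Agent.Work.MP_418764_co.Final
import Pool.Agent.Work.MP_418764_co.Main4
import Pool.Agent.Work.MP_418764_co.Layer1

namespace Pool.Agent.Work.MP_418764_co
open Finset Equiv SimpleGraph

theorem no_oracle {d ρ k κ m σ D : ℕ} (hd : 100000 ≤ d) (hD : D + 1 = 12000 * d ^ 4)
    (hk : 168 * d ^ 2 * D ^ k ≤ (D + 1) ^ k) (hρ : ρ = 8 * k * d)
    (hκ : κ = 31 * (ρ * d ^ 2) + 3100 * d ^ 2) (hσ : σ = 192 * (d * κ))
    (hm : m = d * (3 * σ + ρ + 2 * d + 1) + 1) (O : Oracle m (2 * d + 1) (Slot m σ ρ)) :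
    False := by
  obtain ⟨J, hJ⟩ : ∃ J, J + 7 = 2 * d := ⟨2 * d - 7, by omega⟩
  have a0 : 100000 * d ≤ d ^ 2 := by nlinarith
  have a1 : ρ ≤ d * ρ := Nat.le_mul_of_pos_left _ (by omega)
  have a2 : d * ρ ≤ ρ * d ^ 2 := by rw [mul_comm]; gcongr; omega
  have a3 : 100000 * κ ≤ d * κ := by gcongr
  have a4 : m = 3 * σ * d + d * ρ + 2 * d ^ 2 + d + 1 := by rw [hm]; ring
  have b1 : m + ρ ≤ 3 * σ * d + σ := by omega
  have a5 : 100000 * σ ≤ σ * d := by rw [mul_comm]; gcongr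
  have a6 : 3 * σ * d = 3 * (σ * d) := by ring
  have b2 : 2 * m + (3 * σ + ρ) ≤ 7 * (σ * d) := by omega
  have b3 : m ≤ 4 * (σ * d) := by omega
  have a7 : σ * d = 192 * (d ^ 2 * κ) := by rw [hσ]; ring
  have b4 : (2 * m + (3 * σ + ρ)) ^ 2 ≤ 49 * (σ ^ 2 * d ^ 2) := by
    calc _ ≤ (7 * (σ * d)) ^ 2 := by gcongr
      _ = _ := by ring
  have hσ0 : 0 < σ := by omega
  have hκ0 : 0 < κ := by omega
  have hn : Num m σ ρ (24 * (d * κ)) (168 * d ^ 2) (100 * κ ^ 2) (15876 * d ^ 2) (8 * κ) := by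
    refine ⟨by omega, ?_, ?_, ?_, ?_, ?_, by omega, ?_, by omega⟩
    · have h1 : σ ^ 2 * (1372 * d ^ 2) < σ ^ 2 * σ := by gcongr; omega
      nlinarith
    · have h1 : σ * (84 * d) ≤ σ * σ := by gcongr; omega
      nlinarith
    · nlinarith
    · nlinarith
    · rw [hσ]; nlinarith [Nat.zero_le (d ^ 2 * κ ^ 2)]
    · have h1 : 47 * d ^ 2 * κ ≤ κ * κ := by gcongr; omega
      have h2 : 0 < d ^ 2 * κ := by positivity
      nlinarith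
  have hDD : m * m + (D + 1) * (2 * ρ * m) ≤ (D + 1) * (100 * κ ^ 2) := by
    have h1 : m * m ≤ (D + 1) * (50 * κ ^ 2) := by
      calc _ ≤ (768 * (d ^ 2 * κ)) * (768 * (d ^ 2 * κ)) := by gcongr <;> omega
        _ ≤ _ := by rw [hD]; nlinarith [Nat.zero_le (d ^ 4 * κ ^ 2)]
    have h2 : 2 * ρ * m ≤ 50 * κ ^ 2 := by
      have h3 : 31 * (ρ * d ^ 2) * κ ≤ κ * κ := by gcongr; omega
      calc _ ≤ 2 * ρ * (768 * (d ^ 2 * κ)) := by gcongr; omega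
        _ ≤ _ := by nlinarith [Nat.zero_le (ρ * d ^ 2 * κ)]
    have h4 := Nat.mul_le_mul_left (D + 1) h2
    nlinarith
  have hρ' : 4 * k * (J + 1) ≤ ρ := by
    rw [hρ]
    calc _ ≤ 4 * k * (2 * d) := by gcongr; omega
      _ = _ := by ring
  obtain ⟨R⟩ := exists_run (J := J) (e2 := 48 * κ) O hn (by omega) hDD hk (by nlinarith)
    (by omega) (by omega) hρ'
  refine (R.data (by omega) hρ' ?_).contra hJ b1 hd (by omega) (by omega) (by omega) (by omega)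
    (by omega)
  calc _ ≤ (2 * d) * (96 * κ) := by gcongr <;> omega
    _ = _ := by rw [hσ]; ring

theorem long_cycles (d : ℕ) (hd : 100000 ≤ d) : ∃ m n : ℕ, 0 < m ∧ 0 < n ∧
    ¬ (lexK (cycleGraph (2 * d + 1)) m).Colorable n ∧
    ¬ (expGraph (lexK (cycleGraph (2 * d + 1)) m) n).Colorable n := by
  obtain ⟨D, hD⟩ : ∃ D, D + 1 = 12000 * d ^ 4 :=
    ⟨12000 * d ^ 4 - 1, Nat.sub_add_cancel (Nat.succ_le_of_lt (by positivity))⟩
  obtain ⟨k, hk⟩ := exists_pow_ratio D (168 * d ^ 2)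
  obtain ⟨ρ, hρ⟩ : ∃ ρ, ρ = 8 * k * d := ⟨_, rfl⟩
  obtain ⟨κ, hκ⟩ : ∃ κ, κ = 31 * (ρ * d ^ 2) + 3100 * d ^ 2 := ⟨_, rfl⟩
  obtain ⟨σ, hσ⟩ : ∃ σ, σ = 192 * (d * κ) := ⟨_, rfl⟩
  obtain ⟨m, hm⟩ : ∃ m, m = d * (3 * σ + ρ + 2 * d + 1) + 1 := ⟨_, rfl⟩
  have hχ : ¬ (lexK (cycleGraph (2 * d + 1)) m).Colorable (2 * m + (3 * σ + ρ) + (2 * d + 1)) := by
    apply lexK_not_colorable d m _ (by omega)
    have : (2 * m + (3 * σ + ρ) + (2 * d + 1)) * d + 1 = (2 * d + 1) * m := by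
      rw [add_mul (2 * d) 1 m, one_mul]
      nth_rewrite 3 [hm]
      ring
    omega
  refine ⟨m, 2 * m + (3 * σ + ρ) + (2 * d + 1), by omega, by omega, hχ, fun hc => ?_⟩
  obtain ⟨O⟩ := exists_oracle d m _ (Slot m σ ρ) (by rw [card_Slot]) (by omega) hχ hc
  exact no_oracle hd hD hk hρ hκ hσ hm O

end Pool.Agent.Work.MP_418764_co
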