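import Pool.Agent.Work.MP_418764_co.Vert
import Pool.Agent.Work.MP_418764_co.Dom
import Pool.Agent.Work.MP_418764_co.Bud

namespace Pool.Agent.Work.MP_418764_co
open Finset Equiv
open scoped Classical

variable {m σ ρ N : ℕ}

abbrev Tmpl (m σ ρ : ℕ) := Perm (Slot m σ ρ) → Option Bool → ℤ → Fin m → Slot m σ ρ

def ix (Z : List (Slot m σ ρ)) (z : Slot m σ ρ) : ℕ := @List.idxOf _ instBEqOfDecidableEq z Z

theorem ix_inj {Z : List (Slot m σ ρ)} {z z' : Slot m σ ρ} (h : z ∈ Z) (e : ix Z z = ix Z z') :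
    z = z' := (@List.idxOf_inj _ instBEqOfDecidableEq _ _ _ _ h).mp e

theorem ix_lt {Z : List (Slot m σ ρ)} {z : Slot m σ ρ} (h : z ∈ Z) : ix Z z < Z.length :=
  @List.idxOf_lt_length_of_mem _ _ instBEqOfDecidableEq _ _ h

theorem ix_append {Z W : List (Slot m σ ρ)} {z : Slot m σ ρ} (h : z ∈ Z) :
    ix (Z ++ W) z = ix Z z := @List.idxOf_append_of_mem _ _ _ instBEqOfDecidableEq _ _ h

structure TI (μ : ℕ) (l r : ℤ) (Z : List (Slot m σ ρ)) (T : Tmpl m σ ρ) : Prop where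
  tf : ∀ π p i, -l ≤ p → p ≤ r → T π none p i = cl (par p) i ∨
    ∃ j : Fin ρ, cl (par p) i ∈ Z ∧ (j : ℕ) = ix Z (cl (par p) i) ∧ T π none p i = rs j
  th : ∀ π ε p i, -l ≤ p → p ≤ r → T π (some ε) p i = T π none p i ∨
    (par p = ε ∧ ∃ x, T π (some ε) p i = ww 2 x)
  thi : ∀ π ε p i i' x, -l ≤ p → p ≤ r → T π (some ε) p i = ww 2 x →
    T π (some ε) p i' = ww 2 x → i = i'
  thc : ∀ π ε p, -l ≤ p → p ≤ r →
    (univ.filter (fun i => T π (some ε) p i ≠ T π none p i)).card ≤ μ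
  t0 : ∀ π ι p i, -2 ≤ p → p ≤ 2 → T π ι p i = cl (par p) i

variable {μ : ℕ} {l r : ℤ} {Z : List (Slot m σ ρ)} {T : Tmpl m σ ρ}

theorem TI.kind (h : TI μ l r Z T) (π ι) {p : ℤ} (i) (h1 : -l ≤ p) (h2 : p ≤ r) :
    T π ι p i = cl (par p) i ∨ (∃ j, T π ι p i = rs j) ∨ ∃ x, T π ι p i = ww 2 x := by
  have h0 : T π none p i = cl (par p) i ∨ (∃ j, T π none p i = rs j) ∨
      ∃ x, T π none p i = ww 2 x := by
    rcases h.tf π p i h1 h2 with h | ⟨j, -, -, h⟩
    · exact Or.inl h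
    · exact Or.inr (Or.inl ⟨j, h⟩)
  cases ι with
  | none => exact h0
  | some ε =>
    rcases h.th π ε p i h1 h2 with h | ⟨-, h⟩
    · rw [h]; exact h0
    · exact Or.inr (Or.inr h)

theorem TI.usable (h : TI μ l r Z T) (π ι) {p : ℤ} (i) (h1 : -l ≤ p) (h2 : p ≤ r) :
    usable (T π ι p i) := by
  rcases h.kind π ι i h1 h2 with h | ⟨j, h⟩ | ⟨x, h⟩ <;> rw [h] <;> simp

theorem TI.ne_cl (h : TI μ l r Z T) (π ι) {p : ℤ} (i) (h1 : -l ≤ p) (h2 : p ≤ r) (k : Fin m) :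
    T π ι p i ≠ cl (!par p) k := by
  rcases h.kind π ι i h1 h2 with h | ⟨j, h⟩ | ⟨x, h⟩ <;> rw [h] <;> simp

theorem TI.compat0 (h : TI μ l r Z T) {π π'} {p p' : ℤ} {i i'} (h1 : -l ≤ p) (h2 : p ≤ r)
    (h1' : -l ≤ p') (h2' : p' ≤ r) (e : T π none p i = T π' none p' i') :
    par p = par p' ∧ i = i' := by
  rcases h.tf π p i h1 h2 with a | ⟨j, a1, a2, a⟩ <;>
    rcases h.tf π' p' i' h1' h2' with b | ⟨j', b1, b2, b⟩ <;> rw [a, b] at e
  · simpa using e
  · simp at e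
  · simp at e
  · rw [rs_inj] at e
    rw [e, b2] at a2
    have := ix_inj b1 a2
    simpa [eq_comm] using this

theorem TI.none_ne_ww (h : TI μ l r Z T) {π} {p : ℤ} {i} (h1 : -l ≤ p) (h2 : p ≤ r) (x) :
    T π none p i ≠ ww 2 x := by
  rcases h.tf π p i h1 h2 with a | ⟨j, -, -, a⟩ <;> rw [a] <;> simp

theorem TI.compat (h : TI μ l r Z T) {π π' ι ι'} (hc : ι = none ∨ ι' = none ∨ (π = π' ∧ ι = ι'))
    {p p' : ℤ} {i i'} (h1 : -l ≤ p) (h2 : p ≤ r)
    (h1' : -l ≤ p') (h2' : p' ≤ r) (e : T π ι p i = T π' ι' p' i') :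
    par p = par p' ∧ (p = p' → i = i') := by
  have k0 : ∀ {π π'}, T π none p i = T π' none p' i' → par p = par p' ∧ (p = p' → i = i') :=
    fun e => ⟨(h.compat0 h1 h2 h1' h2' e).1, fun _ => (h.compat0 h1 h2 h1' h2' e).2⟩
  cases ι with
  | none =>
    cases ι' with
    | none => exact k0 e
    | some ε' =>
      rcases h.th π' ε' p' i' h1' h2' with b | ⟨-, x, b⟩ <;> rw [b] at e
      · exact k0 e
      · exact absurd e (h.none_ne_ww h1 h2 x)
  | some ε =>
    cases ι' with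
    | none =>
      rcases h.th π ε p i h1 h2 with a | ⟨-, x, a⟩ <;> rw [a] at e
      · exact k0 e
      · exact absurd e.symm (h.none_ne_ww h1' h2' x)
    | some ε' =>
      obtain ⟨rfl, h3⟩ : π = π' ∧ some ε = some ε' := by simpa using hc
      obtain rfl : ε = ε' := by simpa using h3
      rcases h.th π ε p i h1 h2 with a | ⟨a0, x, a⟩ <;>
        rcases h.th π ε p' i' h1' h2' with b | ⟨b0, x', b⟩
      · rw [a, b] at e; exact k0 e
      · rw [a, b] at e; exact absurd e (h.none_ne_ww h1 h2 x')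
      · rw [a, b] at e; exact absurd e.symm (h.none_ne_ww h1' h2' x)
      · refine ⟨a0.trans b0.symm, ?_⟩
        rintro rfl
        exact h.thi π ε p i i' x h1 h2 a (e ▸ a)

theorem TI.hcc (h : TI μ l r Z T) {π π' ι ι'} (hc : Comp π ι π' ι')
    {p p' : ℤ} {i i'} (h1 : -l ≤ p) (h2 : p ≤ r) (h1' : -l ≤ p') (h2' : p' ≤ r)
    (hp : (p = p' ∧ i ≠ i') ∨ p - p' = 1 ∨ p' - p = 1) :
    π (T π ι p i) ≠ π' (T π' ι' p' i') := by
  intro e
  have := h.compat hc.2 h1 h2 h1' h2' (hc.1 _ _ (h.usable π ι i h1 h2) (h.usable π' ι' i' h1' h2') e)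
  rcases hp with hp | hp
  · exact hp.2 (this.2 hp.1)
  · exact par_ne_of_adj (abs_le.mpr (by omega)) (by omega) this.1

theorem TI.clcount (h : TI μ l r Z T) (π ι) {p : ℤ} (h1 : -l ≤ p) (h2 : p ≤ r) :
    m ≤ (univ.filter (fun i => T π ι p i = cl (par p) i)).card + μ + Z.length := by
  have e1 : (univ.filter (fun i => T π ι p i ≠ T π none p i)).card ≤ μ := by
    cases ι with
    | none => simp
    | some ε => exact h.thc π ε p h1 h2
  have e2 : (univ.filter (fun i : Fin m => (cl (par p) i : Slot m σ ρ) ∈ Z)).card ≤ Z.length := by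
    refine le_trans ?_ (List.toFinset_card_le Z)
    apply card_le_card_of_injOn (cl (par p))
    · intro i hi; simpa using hi
    · intro i _ j _ h; simpa using h
  have e3 : (univ : Finset (Fin m)) ⊆ univ.filter (fun i => T π ι p i = cl (par p) i) ∪
      univ.filter (fun i => T π ι p i ≠ T π none p i) ∪
      univ.filter (fun i : Fin m => (cl (par p) i : Slot m σ ρ) ∈ Z) := by
    intro i _
    simp only [mem_union, mem_filter, mem_univ, true_and]
    by_cases h3 : T π ι p i = T π none p i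
    · rcases h.tf π p i h1 h2 with a | ⟨j, a, -⟩
      · exact Or.inl (Or.inl (h3.trans a))
      · exact Or.inr a
    · exact Or.inl (Or.inr h3)
  have e4 := (card_le_card e3).trans ((card_union_le _ _).trans
    (Nat.add_le_add_right (card_union_le _ _) _))
  rw [card_univ, Fintype.card_fin] at e4
  omega

def bs (sd : Bool) (l r : ℤ) (i : Fin m) : Slot m σ ρ := cl (par (pin sd l r)) i
def es (sd : Bool) (l r : ℤ) (i : Fin m) : Slot m σ ρ := cl (!par (pout sd l r)) i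

theorem bs_inj (sd : Bool) (l r : ℤ) : Function.Injective (bs sd l r : Fin m → Slot m σ ρ) :=
  fun i j h => by simpa [bs] using h
theorem es_inj (sd : Bool) (l r : ℤ) : Function.Injective (es sd l r : Fin m → Slot m σ ρ) :=
  fun i j h => by simpa [es] using h

def vt (O : Oracle m N (Slot m σ ρ)) (sd : Bool) (l r : ℤ) (T : Tmpl m σ ρ)
    (π : Perm (Slot m σ ρ)) (ι : Option Bool) (c : Slot m σ ρ) (be : Fin m × Fin m) :
    Slot m σ ρ :=
  vert O sd l r (fun p i => π (T π ι p i)) c (π (bs sd l r be.1)) (π (es sd l r be.2))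

def RGp (O : Oracle m N (Slot m σ ρ)) (g e1 : ℕ) (sd : Bool) (l r : ℤ) (T : Tmpl m σ ρ)
    (π : Perm (Slot m σ ρ)) (ι : Option Bool) (pl : Slot m σ ρ → Slot m σ ρ)
    (exc : Finset (Slot m σ ρ)) : Prop :=
  exc.card ≤ e1 ∧ ∀ c, (∀ i, π (T π ι (pin sd l r) i) ≠ c) → c ∉ exc →
    g ≤ (univ.filter (fun be => vt O sd l r T π ι c be = pl c)).card

def RG (O : Oracle m N (Slot m σ ρ)) (g e1 : ℕ) (sd : Bool) (l r : ℤ) (T : Tmpl m σ ρ)
    (π : Perm (Slot m σ ρ)) (ι : Option Bool) : Prop := ∃ pl exc, RGp O g e1 sd l r T π ι pl exc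

structure Num (m σ ρ μ L g ea eb : ℕ) : Prop where
  h0 : μ ≤ σ
  h1 : 84 * (2 * m + (3 * σ + ρ)) ^ 2 < 3 * σ ^ 3
  h2 : 12 * (2 * m + (3 * σ + ρ)) ≤ σ ^ 2
  h3 : 324 * (2 * m + (3 * σ + ρ)) ^ 2 ≤ σ ^ 2 * ea
  h4 : 2 * m + (3 * σ + ρ) ≤ L * eb
  h5 : 2 * L * g ≤ σ ^ 2
  hL : 0 < L
  h6 : 6 * m < g
  h7 : ρ + 2 * (ea + eb) + 2 < σ

theorem dom_side (O : Oracle m N (Slot m σ ρ)) {L g ea eb : ℕ} (hn : Num m σ ρ μ L g ea eb)
    (h : TI μ l r Z T) (hl : 2 ≤ l) (hr : 2 ≤ r) (hN : l + r + 4 ≤ N) (hZ : Z.length ≤ ρ)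
    (π : Perm (Slot m σ ρ)) (ι : Option Bool) :
    RG O g (ea + eb) true l r T π ι ∨ RG O g (ea + eb) false l r T π ι := by
  set κ : ℤ → Fin m → Slot m σ ρ := fun p i => π (T π ι p i) with hκ
  set X : ℤ → Finset (Slot m σ ρ) := fun p => univ.filter (fun c => ∀ i, κ p i ≠ c) with hX
  set P2 : ℤ → Finset (Slot m σ ρ) := fun p =>
    (univ.filter (fun i => T π ι p i = cl (par p) i)).image (fun i => π (cl (par p) i)) with hP2
  set P3 : ℤ → Finset (Slot m σ ρ) := fun p => univ.image (fun i => π (cl (!par p) i)) with hP3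
  have hinj : ∀ b, Function.Injective (fun i => π (cl b i)) := fun b i j h => by simpa using h
  have hXc : ∀ p, m + (3 * σ + ρ) ≤ (X p).card := by
    intro p
    have e1 : (univ : Finset (Slot m σ ρ)) ⊆ X p ∪ univ.image (κ p) := by
      intro c _
      simp only [hX, mem_union, mem_filter, mem_univ, true_and, mem_image]
      by_cases h : ∀ i, κ p i ≠ c
      · exact Or.inl h
      · push Not at h; exact Or.inr h
    have e2 := (card_le_card e1).trans (card_union_le _ _)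
    have e3 : (univ.image (κ p)).card ≤ m := card_image_le.trans (by simp)
    rw [card_univ, card_Slot] at e2
    omega
  have hP2d : ∀ p, Disjoint (P2 p) (X p) := by
    intro p
    rw [disjoint_left]
    intro c hc hc'
    simp only [hP2, hX, mem_image, mem_filter, mem_univ, true_and] at hc hc'
    obtain ⟨i, hi, rfl⟩ := hc
    exact hc' i (by simp only [hκ, hi])
  have hP3s : ∀ p, -l ≤ p → p ≤ r → P3 p ⊆ X p := by
    intro p h1 h2 c hc
    simp only [hP3, hX, mem_image, mem_filter, mem_univ, true_and] at hc ⊢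
    obtain ⟨k, rfl⟩ := hc
    exact fun i e => h.ne_cl π ι i h1 h2 k (π.injective e)
  have hP2c : ∀ p, -l ≤ p → p ≤ r → m + 2 * σ ≤ (P2 p).card + (3 * σ + ρ) := by
    intro p h1 h2
    simp only [hP2]
    rw [card_image_of_injective _ (hinj _)]
    have := h.clcount π ι h1 h2
    have := hn.h0
    omega
  have hP3c : ∀ p, m + 2 * σ ≤ (P3 p).card + (3 * σ + ρ) := by
    intro p
    simp only [hP3]
    rw [card_image_of_injective _ (hinj _), card_univ, Fintype.card_fin]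
    omega
  have hcomp : Comp π ι π ι := ⟨Sim.refl π, Or.inr (Or.inr ⟨rfl, rfl⟩)⟩
  have hcount : ∀ (p q : ℤ) (f : Slot m σ ρ × Slot m σ ρ → Prop) [DecidablePred f]
      (f' : Fin m × Fin m → Prop) [DecidablePred f'],
      (∀ be, f (π (cl (par p) be.1), π (cl (!par q) be.2)) → f' be) →
      ((P2 p ×ˢ P3 q).filter f).card ≤ (univ.filter f').card := by
    intro p q f _ f' _ hff
    refine le_trans (card_le_card ?_) (card_image_le
      (f := fun be : Fin m × Fin m => (π (cl (par p) be.1), π (cl (!par q) be.2))))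
    rintro ⟨b, e⟩ hbe
    simp only [hP2, hP3, mem_filter, mem_product, mem_image, mem_univ, true_and] at hbe ⊢
    obtain ⟨⟨⟨i, -, rfl⟩, k, rfl⟩, hf⟩ := hbe
    exact ⟨(i, k), hff (i, k) hf, rfl⟩
  have key := dom (O.Φ l r κ) (X r) (X (-l))
    (univ.image (fun e : Bool × Fin m => π (cl e.1 e.2))) (P2 r) (P3 (-l)) (P2 (-l)) (P3 r)
    m (3 * σ + ρ) σ L g ea eb
    (by
      intro x1 x2 x3 y1 y2 y3 a1 a3 b1 b3 c1 c2 c3 c4 c5 c6 c7
      simp only [hX, mem_filter, mem_univ, true_and] at a1 a3 b1 b3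
      refine O.P1 l r l r κ κ x1 x2 x3 y1 y2 y3 (by omega) (by omega) le_rfl le_rfl hN
        (fun p p' i i' d1 d2 d3 d4 d5 => h.hcc hcomp d1 d2 d3 d4 d5) ?_ ?_ ?_ (fun _ => b1)
        (fun _ => b3) c3 c4 c5 (fun _ => c1) (fun _ => c2) (fun _ => c7) (fun _ => c6)
      · intro p' i' _ d2 d3 _
        obtain rfl : p' = r := by omega
        exact (a1 i').symm
      · intro p' i' d1 _ _ d4
        obtain rfl : p' = -l := by omega
        exact (a3 i').symm
      · intro p' i' d1 d2 d3; omega)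
    (by
      intro x1 x2 x3 _ _
      obtain ⟨p, i, h1, h2, h3⟩ := O.P2 l r κ x1 x2 x3 hl hr hN
      rw [h3]
      exact mem_image.mpr ⟨(par p, i), mem_univ _, by simp only [hκ, h.t0 π ι p i h1 h2]⟩)
    card_Slot (card_image_le.trans (by simp)) (by omega) (hXc _) (hXc _) (hP2d _)
    (hP3s _ le_rfl (by omega)) (hP2d _) (hP3s _ (by omega) le_rfl)
    (hP2c _ (by omega) le_rfl) (hP3c _) (hP2c _ le_rfl (by omega)) (hP3c _)
    hn.h1 hn.h2 hn.h3 hn.h4 hn.h5 hn.hL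
  rcases key with ⟨pl, exc, h1, h2⟩ | ⟨pl, exc, h1, h2⟩
  · refine Or.inl ⟨pl, exc, h1, fun c hc hc' => ?_⟩
    exact (h2 c (mem_filter.mpr ⟨mem_univ _, hc⟩) hc').trans (hcount _ _ _ _ (fun be h => h))
  · refine Or.inr ⟨pl, exc, h1, fun c hc hc' => ?_⟩
    exact (h2 c (mem_filter.mpr ⟨mem_univ _, hc⟩) hc').trans (hcount _ _ _ _ (fun be h => h))

end Pool.Agent.Work.MP_418764_co
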