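import Pool.Agent.Work.MP_418764_co.Side

namespace Pool.Agent.Work.MP_418764_co
open Finset Equiv
open scoped Classical

variable {m σ ρ N μ : ℕ} {l r : ℤ} {Z : List (Slot m σ ρ)} {T : Tmpl m σ ρ}

theorem pin_mem (sd : Bool) (hl : 2 ≤ l) (hr : 2 ≤ r) : -l ≤ pin sd l r ∧ pin sd l r ≤ r := by
  cases sd <;> simp [pin] <;> omega

theorem pout_mem (sd : Bool) (hl : 2 ≤ l) (hr : 2 ≤ r) : -l ≤ pout sd l r ∧ pout sd l r ≤ r := by
  cases sd <;> simp [pout] <;> omega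

theorem eq_pin (sd : Bool) {p : ℤ} (h1 : -l ≤ p) (h2 : p ≤ r)
    (h : |p - ppos sd l r| ≤ 1) : p = pin sd l r := by
  have := abs_le.mp h
  cases sd <;> simp [pin, ppos] at * <;> omega

theorem pick (π : Perm (Slot m σ ρ)) (sd : Bool) (l r : ℤ) (G : Finset (Fin m × Fin m))
    (hG : 6 * m < G.card) (x y z : Slot m σ ρ) : ∃ be ∈ G,
      (π (bs sd l r be.1) ≠ x ∧ π (bs sd l r be.1) ≠ y ∧ π (bs sd l r be.1) ≠ z) ∧
      (π (es sd l r be.2) ≠ x ∧ π (es sd l r be.2) ≠ y ∧ π (es sd l r be.2) ≠ z) := by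
  have h1 := filter_avoid (fun i => π (bs sd l r i)) (fun i => π (es sd l r i))
    (π.injective.comp (bs_inj sd l r)) (π.injective.comp (es_inj sd l r)) {x, y, z} G
  have h2 : ({x, y, z} : Finset (Slot m σ ρ)).card ≤ 3 := card_le_three
  have h3 : 2 * ({x, y, z} : Finset (Slot m σ ρ)).card * m ≤ 2 * 3 * m := by gcongr
  obtain ⟨be, hbe⟩ := card_pos.mp (show 0 < (G.filter (fun be =>
    π (bs sd l r be.1) ∉ ({x, y, z} : Finset _) ∧
    π (es sd l r be.2) ∉ ({x, y, z} : Finset _))).card by omega)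
  rw [mem_filter] at hbe
  exact ⟨be, hbe.1, by simpa [not_or] using hbe.2⟩

theorem pair_ne (O : Oracle m N (Slot m σ ρ)) {g e1 : ℕ} (hg : 6 * m < g) (h : TI μ l r Z T)
    (hl : 2 ≤ l) (hr : 2 ≤ r) (hN : l + r + 4 ≤ N) {π π' ι ι' sd sd' pl pl' exc exc'}
    (hc : Comp π ι π' ι') (H : RGp O g e1 sd l r T π ι pl exc)
    (H' : RGp O g e1 sd' l r T π' ι' pl' exc') {c c' : Slot m σ ρ}
    (a1 : ∀ i, π (T π ι (pin sd l r) i) ≠ c) (a2 : c ∉ exc)
    (a3 : ∀ i, π' (T π' ι' (pin sd l r) i) ≠ c)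
    (b1 : ∀ i, π' (T π' ι' (pin sd' l r) i) ≠ c') (b2 : c' ∉ exc')
    (b3 : ∀ i, π (T π ι (pin sd' l r) i) ≠ c') (hcc : sd = sd' → c ≠ c') :
    pl c ≠ pl' c' := by
  obtain ⟨be, hbe, ⟨d1, -, -⟩, ⟨d2, -, -⟩⟩ := pick π sd l r _ (hg.trans_le (H.2 c a1 a2)) c' c' c'
  obtain ⟨be', hbe', ⟨f1, f2, f3⟩, ⟨f4, f5, f6⟩⟩ := pick π' sd' l r _
    (hg.trans_le (H'.2 c' b1 b2)) c (π (bs sd l r be.1)) (π (es sd l r be.2))
  rw [mem_filter] at hbe hbe'
  rw [← hbe.2, ← hbe'.2]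
  have po := pout_mem sd hl hr
  have po' := pout_mem sd' hl hr
  refine vert_ne O sd sd' l r l r _ _ _ _ _ _ _ _ (by omega) (by omega) le_rfl le_rfl hN
    (Or.inl ⟨rfl, rfl⟩) (fun p p' i i' d1 d2 d3 d4 d5 => h.hcc hc d1 d2 d3 d4 d5) ?_ ?_ ?_ ?_ ?_
    d1 f2.symm f5.symm d2 f3.symm f6.symm ?_ (fun _ _ => ⟨f1.symm, f4.symm⟩)
    (fun _ => f4.symm)
  · intro p' i' h1 h2 h3
    rw [eq_pin sd h1 h2 h3]; exact (a3 i').symm
  · intro p' i' h1 h2 h3; omega
  · intro i' e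
    exact h.ne_cl π' ι' i' po.1 po.2 _
      (hc.1 _ _ (usable_cl _ _) (h.usable π' ι' i' po.1 po.2) e).symm
  · intro p i h1 h2 h3
    rw [eq_pin sd' h1 h2 h3]; exact b3 i
  · intro _ _ i e
    exact h.ne_cl π ι i po'.1 po'.2 _
      (hc.1 _ _ (h.usable π ι i po'.1 po'.2) (usable_cl _ _) e)
  · intro h1
    apply hcc
    have := abs_le.mp h1
    cases sd <;> cases sd' <;> simp [ppos] at * <;> omega

theorem key_card (h : TI μ l r Z T) {p : ℤ} (h1 : -l ≤ p) (h2 : p ≤ r) {π π' : Perm (Slot m σ ρ)}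
    (ι ι' : Option Bool) {a c0 : Slot m σ ρ} (hS : Sub π π' a c0) (exc : Finset (Slot m σ ρ)) :
    ∃ U : Finset (Slot m σ ρ), m + 2 * σ ≤ U.card + exc.card + 1 ∧ ∀ u ∈ U,
      (∀ i, π (T π ι p i) ≠ π u) ∧ π u ∉ exc ∧ (∀ i, π' (T π' ι' p i) ≠ π u) := by
  set B : Finset (Slot m σ ρ) := CL (!par p) ∪ (WK 0 ∪ WK 1) with hB
  have hBc : B.card = m + 2 * σ := by
    rw [hB, card_union_of_disjoint, card_union_of_disjoint, card_CL, card_WK, card_WK]
    · ring
    · simp only [disjoint_left, mem_WK]; rintro u ⟨x, rfl⟩; simp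
    · simp only [disjoint_left, mem_CL, mem_union, mem_WK]; rintro u ⟨x, rfl⟩; simp
  have hne : ∀ u ∈ B, ∀ π ι i, u ≠ T π ι p i := by
    intro u hu π ι i e
    simp only [hB, mem_union, mem_CL, mem_WK] at hu
    rcases hu with ⟨k, rfl⟩ | ⟨y, rfl⟩ | ⟨y, rfl⟩
    · exact h.ne_cl π ι i h1 h2 k e.symm
    · exact not_usable0 y (e ▸ h.usable π ι i h1 h2)
    · exact not_usable1 y (e ▸ h.usable π ι i h1 h2)
  refine ⟨B \ (insert c0 (exc.image π.symm)), ?_, ?_⟩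
  · have e1 := le_card_sdiff (insert c0 (exc.image π.symm)) B
    have e2 := card_insert_le c0 (exc.image π.symm)
    have e3 : (exc.image π.symm).card ≤ exc.card := card_image_le
    omega
  · intro u hu
    rw [mem_sdiff, mem_insert, not_or] at hu
    refine ⟨fun i e => hne u hu.1 π ι i (π.injective e).symm, fun e => hu.2.2 ?_, fun i => ?_⟩
    · exact mem_image.mpr ⟨π u, e, by simp⟩
    · exact hS.ne (h.usable π' ι' i h1 h2) hu.2.1 (fun _ => hne u hu.1 π' ι' i)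

theorem cons (O : Oracle m N (Slot m σ ρ)) {L g ea eb : ℕ} (hn : Num m σ ρ μ L g ea eb)
    (h : TI μ l r Z T) (hl : 2 ≤ l) (hr : 2 ≤ r) (hN : l + r + 4 ≤ N) {π π' ι ι'}
    {a c0 : Slot m σ ρ} (hS : Sub π π' a c0) (hS' : Sub π' π a c0)
    (hι : ι = none ∨ ι' = none ∨ (π = π' ∧ ι = ι'))
    (H : RG O g (ea + eb) true l r T π ι) (H' : RG O g (ea + eb) false l r T π' ι') : False := by
  obtain ⟨pl, exc, H⟩ := H
  obtain ⟨pl', exc', H'⟩ := H'
  obtain ⟨U, hU, hU'⟩ := key_card h (pin_mem true hl hr).1 (pin_mem true hl hr).2 ι ι' hS exc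
  obtain ⟨V, hV, hV'⟩ := key_card h (pin_mem false hl hr).1 (pin_mem false hl hr).2 ι' ι hS' exc'
  have hc : Comp π ι π' ι' := ⟨hS.sim, hι⟩
  have hb := Data.budget (m := m) (σ := σ) (ρ := ρ) U V
    (fun u => pl (π u)) (fun v => pl' (π' v))
    (by
      intro u hu u' hu' e
      by_contra hne
      exact pair_ne O hn.h6 h hl hr hN ⟨Sim.refl π, Or.inr (Or.inr ⟨rfl, rfl⟩)⟩ H H
        (hU' u hu).1 (hU' u hu).2.1 (hU' u hu).1 (hU' u' hu').1 (hU' u' hu').2.1 (hU' u' hu').1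
        (fun _ e => hne (π.injective e)) e)
    (by
      intro u hu u' hu' e
      by_contra hne
      exact pair_ne O hn.h6 h hl hr hN ⟨Sim.refl π', Or.inr (Or.inr ⟨rfl, rfl⟩)⟩ H' H'
        (hV' u hu).1 (hV' u hu).2.1 (hV' u hu).1 (hV' u' hu').1 (hV' u' hu').2.1 (hV' u' hu').1
        (fun _ e => hne (π'.injective e)) e)
    (by
      intro u hu v hv
      exact pair_ne O hn.h6 h hl hr hN hc H H' (hU' u hu).1 (hU' u hu).2.1 (hU' u hu).2.2
        (hV' v hv).1 (hV' v hv).2.1 (hV' v hv).2.2 (by simp))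
  have := H.1
  have := H'.1
  have := hn.h7
  omega

theorem exists_side (O : Oracle m N (Slot m σ ρ)) {L g ea eb : ℕ} (hn : Num m σ ρ μ L g ea eb)
    (h : TI μ l r Z T) (hl : 2 ≤ l) (hr : 2 ≤ r) (hN : l + r + 4 ≤ N) (hZ : Z.length ≤ ρ) :
    ∃ sd, ∀ π ι, RG O g (ea + eb) sd l r T π ι := by
  have hσ : 0 < σ := by have := hn.h7; omega
  set c0 : Slot m σ ρ := ww 0 ⟨0, hσ⟩ with hc0
  have hu : ¬ usable c0 := not_usable0 _
  have hrefl : ∀ π : Perm (Slot m σ ρ), Sub π π c0 c0 := fun π =>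
    ⟨hu, fun u _ => by split_ifs with h <;> simp [*]⟩
  have hsw : ∀ (π : Perm (Slot m σ ρ)) a, RG O g (ea + eb) true l r T π none →
      RG O g (ea + eb) true l r T (π * swap a c0) none := by
    intro π a H
    refine (dom_side O hn h hl hr hN hZ _ _).resolve_right fun H' => ?_
    refine cons O hn h hl hr hN (Sub_swap π a c0 hu) ?_ (Or.inl rfl) H H'
    have := Sub_swap (π * swap a c0) a c0 hu
    rwa [mul_assoc, swap_mul_self, mul_one] at this
  have hall : ∀ π τ : Perm (Slot m σ ρ), RG O g (ea + eb) true l r T π none →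
      RG O g (ea + eb) true l r T (π * τ) none := by
    intro π τ H
    induction τ using Equiv.Perm.swap_induction_on' with
    | one => simpa using H
    | mul_swap τ x y hxy ih =>
      by_cases hx : x = c0
      · rw [← mul_assoc, hx, swap_comm]; exact hsw _ _ ih
      by_cases hy : y = c0
      · rw [← mul_assoc, hy]; exact hsw _ _ ih
      have : swap x y = swap x c0 * swap y c0 * swap x c0 := by
        rw [swap_comm x c0, swap_comm y c0, ← swap_mul_swap_mul_swap (x := y) (y := c0) (z := x)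
          hy hxy.symm, swap_comm y c0]
      rw [this, ← mul_assoc, ← mul_assoc, ← mul_assoc]
      exact hsw _ _ (hsw _ _ (hsw _ _ ih))
  by_cases H : ∃ π, RG O g (ea + eb) true l r T π none
  · obtain ⟨π0, H⟩ := H
    refine ⟨true, fun π ι => ?_⟩
    have H1 : RG O g (ea + eb) true l r T π none := by simpa using hall π0 (π0⁻¹ * π) H
    exact (dom_side O hn h hl hr hN hZ π ι).resolve_right fun H' =>
      cons O hn h hl hr hN (hrefl π) (hrefl π) (Or.inl rfl) H1 H'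
  · refine ⟨false, fun π ι => ?_⟩
    have H1 : RG O g (ea + eb) false l r T π none :=
      (dom_side O hn h hl hr hN hZ π none).resolve_left fun H' => H ⟨π, H'⟩
    exact (dom_side O hn h hl hr hN hZ π ι).resolve_left fun H' =>
      cons O hn h hl hr hN (hrefl π) (hrefl π) (Or.inr (Or.inl rfl)) H' H1

end Pool.Agent.Work.MP_418764_co
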