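import Pool.Agent.Work.MP_418764_co.Side2

namespace Pool.Agent.Work.MP_418764_co
open Finset Equiv
open scoped Classical

variable {m σ ρ N μ : ℕ}

theorem pools {Ω : Type} [DecidableEq Ω] (W : Finset Ω) (P : Ω → Fin m × Fin m → Prop)
    [∀ ω, DecidablePred (P ω)] (f1 f2 : Fin m → Slot m σ ρ) (h1 : Function.Injective f1) (h2 : Function.Injective f2)
    {g D E k : ℕ} (hm : 0 < m) (hP : ∀ ω ∈ W, g ≤ (univ.filter (P ω)).card)
    (hD : m * m + (D + 1) * (2 * ρ * m) ≤ (D + 1) * g) (hk : E * D ^ k ≤ (D + 1) ^ k)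
    (B : List (Slot m σ ρ)) (hB : B.length ≤ ρ) :
    ∃ S : Finset (Fin m × Fin m), S.card ≤ k ∧ (∀ be ∈ S, f1 be.1 ∉ B ∧ f2 be.2 ∉ B) ∧
      E * (W.filter (fun ω => ¬ ∃ be ∈ S, P ω be)).card ≤ W.card := by
  have : Nonempty (Fin m × Fin m) := ⟨(⟨0, hm⟩, ⟨0, hm⟩)⟩
  obtain ⟨S, hS, h⟩ := greedy' W (fun ω => (univ.filter (P ω)).filter
    (fun be => f1 be.1 ∉ B.toFinset ∧ f2 be.2 ∉ B.toFinset)) D E k (by
      intro ω hω
      have e1 := filter_avoid f1 f2 h1 h2 B.toFinset (univ.filter (P ω))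
      have e2 := hP ω hω
      have e3 : 2 * B.toFinset.card * m ≤ 2 * ρ * m := by
        have := (List.toFinset_card_le B).trans hB
        gcongr
      have e4 := Nat.mul_le_mul_left (D + 1) (e2.trans (e1.trans (Nat.add_le_add_left e3 _)))
      rw [mul_add] at e4
      simp only [Fintype.card_prod, Fintype.card_fin]
      omega) hk
  refine ⟨S.filter (fun be => f1 be.1 ∉ B ∧ f2 be.2 ∉ B), (card_filter_le _ _).trans hS,
    fun be hbe => (mem_filter.mp hbe).2, le_trans (Nat.mul_le_mul_left _ (card_le_card ?_)) h⟩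
  intro ω hω
  rw [mem_filter] at hω ⊢
  refine ⟨hω.1, disjoint_left.mpr fun be h3 h4 => hω.2 ⟨be, ?_, ?_⟩⟩
  · simp only [mem_filter, List.mem_toFinset] at h3 ⊢
    exact ⟨h4, h3.2⟩
  · simp only [mem_filter] at h3
    exact h3.1.2

theorem exists_mods (hμ : μ ≤ σ) (hσ : 0 < σ) (hm : 0 < m) (R : Fin σ → Finset (Fin m) → Prop)
    (hR : ∀ y, R y univ → ∃ a, ∀ A, a ∈ A → R y A) :
    ∃ (Y : Finset (Fin σ)) (A : Finset (Fin m)) (ξ : Fin m → Fin σ), (∀ y ∈ Y, R y A) ∧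
      A.card ≤ Y.card ∧ Y.card ≤ μ ∧
      ((univ.filter (fun y => R y univ)).card ≤ μ ∨ μ ≤ Y.card) ∧ Set.InjOn ξ A := by
  have : Nonempty (Fin m) := ⟨⟨0, hm⟩⟩
  have : Nonempty (Fin σ) := ⟨⟨0, hσ⟩⟩
  by_cases h : (univ.filter (fun y => R y univ)).card ≤ μ
  · exact ⟨∅, ∅, fun _ => ⟨0, hσ⟩, by simp, by simp, by simp, Or.inl h, by simp⟩
  obtain ⟨Y, hY, hYc⟩ := exists_subset_card_eq (show μ ≤ _ from (not_le.mp h).le)
  choose! w hw using hR
  have hA : (Y.image w).card ≤ Y.card := card_image_le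
  have hA' : (Y.image w).card ≤ σ := by omega
  obtain ⟨ξ, hξ⟩ : ∃ ξ : Fin m → Fin σ, Set.InjOn ξ (Y.image w : Finset (Fin m)) := by
    refine ⟨fun a => if h : a ∈ Y.image w then Fin.castLE hA' ((Y.image w).equivFin ⟨a, h⟩)
      else ⟨0, hσ⟩, fun a ha b hb e => ?_⟩
    have ha' : a ∈ Y.image w := ha
    have hb' : b ∈ Y.image w := hb
    simp only [ha', hb', dif_pos] at e
    simpa using (Y.image w).equivFin.injective (Fin.castLE_injective _ e)
  exact ⟨Y, Y.image w, ξ, fun y hy => hw y (mem_filter.mp (hY hy)).2 _ (mem_image_of_mem _ hy),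
    hA, hYc.le, Or.inr hYc.ge, hξ⟩

structure St (m σ ρ : ℕ) where
  l : ℤ
  r : ℤ
  Z : List (Slot m σ ρ)
  T : Tmpl m σ ρ
  H : Perm (Slot m σ ρ) → Bool → Fin σ → Set (ℤ × Slot m σ ρ)
  sd : Bool
  val : Perm (Slot m σ ρ) → Option Bool → Slot m σ ρ → Prop
  lab : Perm (Slot m σ ρ) → Option Bool → Slot m σ ρ → Slot m σ ρ
  L1 : Finset (Fin m × Fin m)
  L2 : Finset (Fin m × Fin m)
  Y : Perm (Slot m σ ρ) → Finset (Fin σ)
  A : Perm (Slot m σ ρ) → Finset (Fin m)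
  ξ : Perm (Slot m σ ρ) → Fin m → Fin σ

structure Inv (μ k t : ℕ) (s : St m σ ρ) : Prop where
  hl : 2 ≤ s.l
  hr : 2 ≤ s.r
  hlr : s.l + s.r = 4 + t
  hZ : s.Z.length ≤ 4 * k * t
  hZc : ∀ z ∈ s.Z, ∃ b i, z = cl b i
  hT : TI μ s.l s.r s.Z s.T

def relp (b : Bool) (ι : Option Bool) (u : Slot m σ ρ) : Prop :=
  (∃ i, u = cl b i) ∨ (∃ y, u = ww 0 y) ∨ (∃ y, u = ww 1 y) ∨
    (∃ y, u = ww 2 y ∧ (ι = none ∨ ι = some b))

def RM (H : Set (ℤ × Slot m σ ρ)) (p : ℤ) (Z : List (Slot m σ ρ))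
    (val : Perm (Slot m σ ρ) → Option Bool → Slot m σ ρ → Prop)
    (lab : Perm (Slot m σ ρ) → Option Bool → Slot m σ ρ → Slot m σ ρ)
    (π : Perm (Slot m σ ρ)) (ε : Bool) (y : Fin σ) (A : Finset (Fin m)) : Prop :=
  val π (some ε) (ww 0 y) ∧
  (∀ pq ∈ H, |pq.1 - p| ≤ 1 → pq.2 ≠ lab π (some ε) (ww 0 y)) ∧
  ∃ i, ∃ a ∈ A, cl (!ε) i ∉ Z ∧ val (π * swap (cl (!ε) i) (ww 0 y)) none (cl ε a) ∧
    lab (π * swap (cl (!ε) i) (ww 0 y)) none (cl ε a) = lab π (some ε) (ww 0 y)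

structure Step (O : Oracle m N (Slot m σ ρ)) (μ e0 : ℕ) (s s' : St m σ ρ) : Prop where
  hl : s'.l = if s'.sd then s.l else s.l + 1
  hr : s'.r = if s'.sd then s.r + 1 else s.r
  hZ : ∀ z ∈ s.Z, z ∈ s'.Z
  hT : ∀ π ι p, p ≠ ppos s'.sd s.l s.r → s'.T π ι p = s.T π ι p
  hTn : ∀ π ι i, s'.T π ι (ppos s'.sd s.l s.r) i ∉ s'.Z
  hTX : ∀ π ε i x, s'.T π (some ε) (ppos s'.sd s.l s.r) i = ww 2 x →
    ε = par (ppos s'.sd s.l s.r) ∧ x ∈ (s'.A π).image (s'.ξ π)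
  hTA : ∀ π, ∀ a ∈ s'.A π, ∀ i, s'.T π (some (par (ppos s'.sd s.l s.r))) (ppos s'.sd s.l s.r) i ≠
    cl (par (ppos s'.sd s.l s.r)) a
  hval : ∀ π ι u, s'.val π ι u → u ∉ s'.Z ∧
    ((∃ i, u = cl (par (ppos s'.sd s.l s.r)) i) ∨ ∃ k y, u = ww k y) ∧
    (∃ be ∈ s'.L1, vt O s'.sd s.l s.r s.T π ι (π u) be = s'.lab π ι u) ∧
    (∃ be ∈ s'.L2, vt O s'.sd s.l s.r s.T π ι (π u) be = s'.lab π ι u)
  hL1 : ∀ be ∈ s'.L1, bs s'.sd s.l s.r be.1 ∈ s'.Z ∧ es s'.sd s.l s.r be.2 ∈ s'.Z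
  hL2 : ∀ be ∈ s'.L2, bs s'.sd s.l s.r be.1 ∈ s'.Z ∧ es s'.sd s.l s.r be.2 ∈ s'.Z ∧
    bs s'.sd s.l s.r be.1 ∉ s.Z ∧ es s'.sd s.l s.r be.2 ∉ s.Z ∧ ∀ be' ∈ s'.L1,
      (bs s'.sd s.l s.r be'.1 : Slot m σ ρ) ≠ bs s'.sd s.l s.r be.1 ∧
      (bs s'.sd s.l s.r be'.1 : Slot m σ ρ) ≠ es s'.sd s.l s.r be.2 ∧
      (es s'.sd s.l s.r be'.2 : Slot m σ ρ) ≠ bs s'.sd s.l s.r be.1 ∧
      (es s'.sd s.l s.r be'.2 : Slot m σ ρ) ≠ es s'.sd s.l s.r be.2
  hH : ∀ π ε y pq, pq ∈ s'.H π ε y ↔ pq ∈ s.H π ε y ∨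
    (s'.val π (some ε) (ww 0 y) ∧ pq = (ppos s'.sd s.l s.r, s'.lab π (some ε) (ww 0 y)))
  hY : ∀ π, ∀ y ∈ s'.Y π, RM (s.H π (par (ppos s'.sd s.l s.r)) y) (ppos s'.sd s.l s.r) s'.Z
    s'.val s'.lab π (par (ppos s'.sd s.l s.r)) y (s'.A π)
  hA : ∀ π, (s'.A π).card ≤ (s'.Y π).card
  hR : ∀ π, (univ.filter (fun y => RM (s.H π (par (ppos s'.sd s.l s.r)) y) (ppos s'.sd s.l s.r)
    s'.Z s'.val s'.lab π (par (ppos s'.sd s.l s.r)) y univ)).card ≤ μ ∨ μ ≤ (s'.Y π).card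
  hinv : (univ.filter (fun ω : Perm (Slot m σ ρ) × Option Bool × Slot m σ ρ =>
    relp (par (ppos s'.sd s.l s.r)) ω.2.1 ω.2.2 ∧ ¬ s'.val ω.1 ω.2.1 ω.2.2)).card ≤
      Fintype.card (Perm (Slot m σ ρ)) * e0

theorem par_ppos (sd : Bool) (l r : ℤ) : par (ppos sd l r) = !par (pin sd l r) := by
  have : par (ppos sd l r) ≠ par (pin sd l r) := by
    apply par_ne_of_adj
    · rw [abs_le]; cases sd <;> simp [ppos, pin]; omega
    · cases sd <;> simp [ppos, pin]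
  revert this; cases par (ppos sd l r) <;> cases par (pin sd l r) <;> simp

theorem TI.cand {l r : ℤ} {Z : List (Slot m σ ρ)} {T : Tmpl m σ ρ} (h : TI μ l r Z T)
    (π ι) {p : ℤ} (h1 : -l ≤ p) (h2 : p ≤ r) {u : Slot m σ ρ} (hu : relp (!par p) ι u) (i) :
    T π ι p i ≠ u := by
  rcases hu with ⟨k, rfl⟩ | ⟨y, rfl⟩ | ⟨y, rfl⟩ | ⟨y, rfl, rfl | rfl⟩
  · exact h.ne_cl π ι i h1 h2 k
  · exact fun e => not_usable0 y (e ▸ h.usable π ι i h1 h2)
  · exact fun e => not_usable1 y (e ▸ h.usable π ι i h1 h2)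
  · exact h.none_ne_ww h1 h2 y
  · rcases h.th π _ p i h1 h2 with a | ⟨a, -⟩
    · rw [a]; exact h.none_ne_ww h1 h2 y
    · simp at a

/-- the new fibre -/
theorem exists_fibre {l r : ℤ} {Z Z' : List (Slot m σ ρ)} {T : Tmpl m σ ρ} (h : TI μ l r Z T)
    (hl : 2 ≤ l) (hr : 2 ≤ r) (sd : Bool) (W : List (Slot m σ ρ)) (hZ : Z' = Z ++ W)
    (hlen : Z'.length ≤ ρ) (hc : ∀ z ∈ Z', ∃ b i, z = cl b i)
    (A : Perm (Slot m σ ρ) → Finset (Fin m)) (ξ : Perm (Slot m σ ρ) → Fin m → Fin σ)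
    (hA : ∀ π, (A π).card ≤ μ) (hξ : ∀ π, Set.InjOn (ξ π) (A π)) :
    ∃ T' : Tmpl m σ ρ, TI μ (if sd then l else l + 1) (if sd then r + 1 else r) Z' T' ∧
      (∀ π ι p, p ≠ ppos sd l r → T' π ι p = T π ι p) ∧
      (∀ π ι i, T' π ι (ppos sd l r) i ∉ Z') ∧
      (∀ π ε i x, T' π (some ε) (ppos sd l r) i = ww 2 x →
        ε = par (ppos sd l r) ∧ x ∈ (A π).image (ξ π)) ∧
      (∀ π, ∀ a ∈ A π, ∀ i, T' π (some (par (ppos sd l r))) (ppos sd l r) i ≠
        cl (par (ppos sd l r)) a) := by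
  set q := ppos sd l r with hq
  set f0 : Fin m → Slot m σ ρ := fun i => if hz : (cl (par q) i : Slot m σ ρ) ∈ Z' then
    rs ⟨ix Z' (cl (par q) i), (ix_lt hz).trans_le hlen⟩ else cl (par q) i with hf0
  have hf : ∀ i, (f0 i = cl (par q) i ∧ (cl (par q) i : Slot m σ ρ) ∉ Z') ∨
      ∃ j : Fin ρ, cl (par q) i ∈ Z' ∧ (j : ℕ) = ix Z' (cl (par q) i) ∧ f0 i = rs j := by
    intro i
    by_cases hz : (cl (par q) i : Slot m σ ρ) ∈ Z'
    · exact Or.inr ⟨⟨ix Z' (cl (par q) i), (ix_lt hz).trans_le hlen⟩, hz, rfl, by simp [hf0, hz]⟩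
    · exact Or.inl ⟨by simp [hf0, hz], hz⟩
  set f1 : Perm (Slot m σ ρ) → Option Bool → Fin m → Slot m σ ρ := fun π ι i =>
    if ι = some (par q) ∧ i ∈ A π then ww 2 (ξ π i) else f0 i with hf1
  have hnw : ∀ i x, f0 i ≠ ww 2 x := by
    intro i x
    rcases hf i with ⟨a, -⟩ | ⟨j, -, -, a⟩ <;> rw [a] <;> simp
  have hrange : ∀ p, -(if sd then l else l + 1) ≤ p → p ≤ (if sd then r + 1 else r) → p ≠ q →
      -l ≤ p ∧ p ≤ r := by
    intro p h1 h2 h3
    cases sd <;> simp [hq, ppos] at * <;> omega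
  refine ⟨fun π ι p => if p = q then f1 π ι else T π ι p, ⟨?_, ?_, ?_, ?_, ?_⟩, ?_, ?_, ?_, ?_⟩
  · intro π p i h1 h2
    by_cases hp : p = q
    · subst hp
      simp only [hf1, if_true, reduceCtorEq, false_and, if_false]
      rcases hf i with ⟨a, -⟩ | a
      · exact Or.inl a
      · exact Or.inr a
    · simp only [hp, if_false]
      rcases h.tf π p i (hrange p h1 h2 hp).1 (hrange p h1 h2 hp).2 with a | ⟨j, a1, a2, a3⟩
      · exact Or.inl a
      · exact Or.inr ⟨j, by rw [hZ]; exact List.mem_append_left _ a1,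
          by rw [hZ, ix_append a1]; exact a2, a3⟩
  · intro π ε p i h1 h2
    by_cases hp : p = q
    · subst hp
      simp only [hf1, if_true, reduceCtorEq, false_and, if_false]
      split_ifs with h3
      · exact Or.inr ⟨by simpa using h3.1.symm, _, rfl⟩
      · exact Or.inl rfl
    · simp only [hp, if_false]
      exact h.th π ε p i (hrange p h1 h2 hp).1 (hrange p h1 h2 hp).2
  · intro π ε p i i' x h1 h2
    by_cases hp : p = q
    · subst hp
      simp only [hf1, if_true]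
      intro e1 e2
      split_ifs at e1 e2 with h3 h4 h4
      · exact hξ π h3.2 h4.2 ((ww_inj.mp e1).2.trans (ww_inj.mp e2).2.symm)
      · exact absurd e2 (hnw _ _)
      · exact absurd e1 (hnw _ _)
      · exact absurd e1 (hnw _ _)
    · simp only [hp, if_false]
      exact h.thi π ε p i i' x (hrange p h1 h2 hp).1 (hrange p h1 h2 hp).2
  · intro π ε p h1 h2
    by_cases hp : p = q
    · subst hp
      refine le_trans (card_le_card ?_) (hA π)
      intro i hi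
      simp only [hf1, if_true, reduceCtorEq, false_and, if_false, mem_filter] at hi
      by_contra h3
      exact hi.2 (by simp [h3])
    · simp only [hp, if_false]
      exact h.thc π ε p (hrange p h1 h2 hp).1 (hrange p h1 h2 hp).2
  · intro π ι p i h1 h2
    have hp : p ≠ q := by cases sd <;> simp [hq, ppos] <;> omega
    simp only [hp, if_false]
    exact h.t0 π ι p i h1 h2
  · intro π ι p hp; simp only [hp, if_false]
  · intro π ι i
    simp only [hf1, if_true]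
    split_ifs
    · intro hz; obtain ⟨b, k, e⟩ := hc _ hz; simp at e
    · rcases hf i with ⟨a, a'⟩ | ⟨j, -, -, a⟩ <;> rw [a]
      · exact a'
      · intro hz; obtain ⟨b, k, e⟩ := hc _ hz; simp at e
  · intro π ε i x
    simp only [hf1, if_true]
    intro e
    split_ifs at e with h3
    · exact ⟨by simpa using h3.1, mem_image.mpr ⟨i, h3.2, (ww_inj.mp e).2⟩⟩
    · exact absurd e (hnw _ _)
  · intro π a ha i
    simp only [hf1, if_true, true_and]
    split_ifs with h3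
    · simp
    · rcases hf i with ⟨b, -⟩ | ⟨j, -, -, b⟩ <;> rw [b]
      · intro e; exact h3 ((cl_inj.mp e).2 ▸ ha)
      · simp

theorem exists_step (O : Oracle m N (Slot m σ ρ)) {L g ea eb D E k e2 t : ℕ}
    (hn : Num m σ ρ μ L g ea eb) (hm : 0 < m)
    (hD : m * m + (D + 1) * (2 * ρ * m) ≤ (D + 1) * g) (hk : E * D ^ k ≤ (D + 1) ^ k)
    (hE : 6 * (2 * m + (3 * σ + ρ)) ≤ E * e2) (hE0 : 0 < E) (ht : t + 8 ≤ N)
    (hρ : 4 * k * (t + 1) ≤ ρ) (s : St m σ ρ) (hs : Inv μ k t s) :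
    ∃ s', Inv μ k (t + 1) s' ∧ Step O μ (3 * ρ + 3 * (ea + eb) + e2) s s' := by
  have hσ : 0 < σ := by have := hn.h7; omega
  have hZ := hs.hZ
  have hρ0 := hρ
  rw [mul_add] at hρ
  obtain ⟨sd, hsd⟩ := exists_side O hn hs.hT hs.hl hs.hr (by have := hs.hlr; omega) (by omega)
  choose pl exc hpl using hsd
  set W : Finset (Perm (Slot m σ ρ) × Option Bool × Slot m σ ρ) := univ.filter (fun ω =>
    (∀ i, ω.1 (s.T ω.1 ω.2.1 (pin sd s.l s.r) i) ≠ ω.1 ω.2.2) ∧ ω.1 ω.2.2 ∉ exc ω.1 ω.2.1)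
    with hW
  set P : Perm (Slot m σ ρ) × Option Bool × Slot m σ ρ → Fin m × Fin m → Prop := fun ω be =>
    vt O sd s.l s.r s.T ω.1 ω.2.1 (ω.1 ω.2.2) be = pl ω.1 ω.2.1 (ω.1 ω.2.2) with hP
  have hWP : ∀ ω ∈ W, g ≤ (univ.filter (P ω)).card := by
    intro ω hω
    rw [hW, mem_filter] at hω
    convert (hpl ω.1 ω.2.1).2 _ hω.2.1 hω.2.2
  obtain ⟨L1, c1, -, e1⟩ := pools W P _ _ (bs_inj sd s.l s.r) (es_inj sd s.l s.r) hm hWP hD hk
    s.Z (by omega)
  set tl : Finset (Fin m × Fin m) → List (Slot m σ ρ) := fun S =>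
    S.toList.map (fun be => bs sd s.l s.r be.1) ++ S.toList.map (fun be => es sd s.l s.r be.2)
    with htl
  have htl1 : ∀ S, (tl S).length = 2 * S.card := by
    intro S; simp only [htl, List.length_append, List.length_map, length_toList]; ring
  have htl2 : ∀ S, ∀ be ∈ S, bs sd s.l s.r be.1 ∈ tl S ∧ es sd s.l s.r be.2 ∈ tl S := by
    intro S be h
    simp only [htl, List.mem_append, List.mem_map, mem_toList]
    exact ⟨Or.inl ⟨be, h, rfl⟩, Or.inr ⟨be, h, rfl⟩⟩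
  have htl3 : ∀ S, ∀ z ∈ tl S, ∃ b i, z = cl b i := by
    intro S z h
    simp only [htl, List.mem_append, List.mem_map, mem_toList] at h
    rcases h with ⟨be, -, rfl⟩ | ⟨be, -, rfl⟩ <;> exact ⟨_, _, rfl⟩
  obtain ⟨L2, c2, d2, e2'⟩ := pools W P _ _ (bs_inj sd s.l s.r) (es_inj sd s.l s.r) hm hWP hD hk
    (s.Z ++ tl L1) (by rw [List.length_append, htl1]; omega)
  set Z' := s.Z ++ (tl L1 ++ tl L2) with hZ'
  have hlen : Z'.length ≤ 4 * k * (t + 1) := by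
    rw [hZ', List.length_append, List.length_append, htl1, htl1, mul_add]; omega
  have hZc : ∀ z ∈ Z', ∃ b i, z = cl b i := by
    intro z hz
    simp only [hZ', List.mem_append] at hz
    rcases hz with h | h | h
    · exact hs.hZc z h
    · exact htl3 _ z h
    · exact htl3 _ z h
  set q := ppos sd s.l s.r with hq
  set val : Perm (Slot m σ ρ) → Option Bool → Slot m σ ρ → Prop := fun π ι u => u ∉ Z' ∧
    ((∃ i, u = cl (par q) i) ∨ ∃ k y, u = ww k y) ∧ (∃ be ∈ L1, P (π, ι, u) be) ∧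
    (∃ be ∈ L2, P (π, ι, u) be) with hval
  set lab : Perm (Slot m σ ρ) → Option Bool → Slot m σ ρ → Slot m σ ρ :=
    fun π ι u => pl π ι (π u) with hlab
  have hmods := fun π => exists_mods hn.h0 hσ hm
    (fun y A => RM (s.H π (par q) y) q Z' val lab π (par q) y A) (by
      rintro y ⟨h1, h2, i, a, -, h3⟩
      exact ⟨a, fun A hA => ⟨h1, h2, i, a, hA, h3⟩⟩)
  choose Y A ξ m1 m2 m3 m4 m5 using hmods
  obtain ⟨T', t1, t2, t3, t4, t5⟩ := exists_fibre hs.hT hs.hl hs.hr sd _ hZ' (by omega) hZc A ξ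
    (fun π => (m2 π).trans (m3 π)) m5
  refine ⟨⟨if sd then s.l else s.l + 1, if sd then s.r + 1 else s.r, Z', T',
    fun π ε y => s.H π ε y ∪ {pq | val π (some ε) (ww 0 y) ∧ pq = (q, lab π (some ε) (ww 0 y))},
    sd, val, lab, L1, L2, Y, A, ξ⟩, ⟨?_, ?_, ?_, hlen, hZc, t1⟩,
    ⟨rfl, rfl, fun z hz => List.mem_append_left _ hz, t2, t3, t4, t5, fun π ι u h => h, ?_, ?_,
      fun π ε y pq => Iff.rfl, m1, m2, ?_, ?_⟩⟩
  · have := hs.hl; simp only; split_ifs <;> omega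
  · have := hs.hr; simp only; split_ifs <;> omega
  · have := hs.hlr; simp only; split_ifs <;> push_cast <;> omega
  · intro be h
    have := htl2 _ be h
    simp only [hZ', List.mem_append]; tauto
  · intro be h
    have a1 := htl2 _ be h
    have a2 := d2 be h
    simp only [List.mem_append, not_or] at a2
    refine ⟨by simp only [hZ', List.mem_append]; tauto, by simp only [hZ', List.mem_append]; tauto,
      a2.1.1, a2.2.1, fun be' h' => ?_⟩
    have a3 := htl2 _ be' h'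
    exact ⟨fun e => a2.1.2 (e ▸ a3.1), fun e => a2.2.2 (e ▸ a3.1), fun e => a2.1.2 (e ▸ a3.2),
      fun e => a2.2.2 (e ▸ a3.2)⟩
  · intro π; convert m4 π
  · simp only
    set F := Fintype.card (Perm (Slot m σ ρ)) with hF
    set S0 : Finset (Perm (Slot m σ ρ) × Option Bool × Slot m σ ρ) :=
      univ ×ˢ (univ ×ˢ Z'.toFinset) with hS0
    set S1 : Finset (Perm (Slot m σ ρ) × Option Bool × Slot m σ ρ) :=
      univ.filter (fun ω => ω.1 ω.2.2 ∈ exc ω.1 ω.2.1) with hS1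
    have hsub : univ.filter (fun ω : Perm (Slot m σ ρ) × Option Bool × Slot m σ ρ =>
        relp (par q) ω.2.1 ω.2.2 ∧ ¬ val ω.1 ω.2.1 ω.2.2) ⊆
        S0 ∪ S1 ∪ W.filter (fun ω => ¬ ∃ be ∈ L1, P ω be) ∪
          W.filter (fun ω => ¬ ∃ be ∈ L2, P ω be) := by
      rintro ⟨π, ι, u⟩ hω
      rw [mem_filter] at hω
      obtain ⟨-, h1, h2⟩ := hω
      simp only [mem_union]
      by_cases a0 : u ∈ Z'
      · left; left; left; simpa [hS0] using a0
      by_cases a1 : π u ∈ exc π ι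
      · left; left; right; simpa [hS1] using a1
      have hw : (π, ι, u) ∈ W := by
        rw [hW, mem_filter]
        refine ⟨mem_univ _, fun i e => ?_, a1⟩
        have pm := pin_mem sd hs.hl hs.hr
        rw [hq, par_ppos] at h1
        exact hs.hT.cand π ι pm.1 pm.2 h1 i (π.injective e)
      by_cases a2 : ∃ be ∈ L1, P (π, ι, u) be
      · right
        refine mem_filter.mpr ⟨hw, fun a3 => h2 ⟨a0, ?_, a2, a3⟩⟩
        rcases h1 with h | ⟨y, h⟩ | ⟨y, h⟩ | ⟨y, h, -⟩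
        · exact Or.inl h
        · exact Or.inr ⟨_, _, h⟩
        · exact Or.inr ⟨_, _, h⟩
        · exact Or.inr ⟨_, _, h⟩
      · left; right; exact mem_filter.mpr ⟨hw, a2⟩
    have b0 : S0.card ≤ F * (3 * ρ) := by
      rw [hS0, card_product, card_product, card_univ, card_univ, ← hF]
      have := List.toFinset_card_le Z'
      simp only [Fintype.card_option, Fintype.card_bool]
      gcongr; omega
    have b1 : S1.card ≤ F * (3 * (ea + eb)) := by
      rw [hS1, card_filter, Fintype.sum_prod_type]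
      calc _ ≤ ∑ _π : Perm (Slot m σ ρ), 3 * (ea + eb) := by
            refine sum_le_sum fun π _ => ?_
            rw [Fintype.sum_prod_type]
            calc _ ≤ ∑ _ι : Option Bool, (ea + eb) := by
                  refine sum_le_sum fun ι _ => ?_
                  rw [← card_filter]
                  refine le_trans ?_ (hpl π ι).1
                  exact card_le_card_of_injOn π (fun u hu => (mem_filter.mp hu).2)
                    π.injective.injOn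
              _ = _ := by simp
        _ = _ := by simp [hF]
    have b2 : W.card ≤ F * (3 * (2 * m + (3 * σ + ρ))) := by
      refine (card_le_univ _).trans ?_
      rw [Fintype.card_prod, Fintype.card_prod, card_Slot]
      simp [hF]
    have b3 : (W.filter (fun ω => ¬ ∃ be ∈ L1, P ω be)).card +
        (W.filter (fun ω => ¬ ∃ be ∈ L2, P ω be)).card ≤ F * e2 := by
      apply Nat.le_of_mul_le_mul_left _ hE0
      have := Nat.mul_le_mul_left F hE
      rw [mul_add]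
      nlinarith
    have b4 := card_le_card hsub
    have b5 := card_union_le (S0 ∪ S1 ∪ W.filter (fun ω => ¬ ∃ be ∈ L1, P ω be))
      (W.filter (fun ω => ¬ ∃ be ∈ L2, P ω be))
    have b6 := card_union_le (S0 ∪ S1) (W.filter (fun ω => ¬ ∃ be ∈ L1, P ω be))
    have b7 := card_union_le S0 S1
    rw [mul_add, mul_add]
    have b8 : _ ≤ F * (3 * ρ) + F * (3 * (ea + eb)) + F * e2 := b4.trans (by omega)
    convert b8

end Pool.Agent.Work.MP_418764_co
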