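import Pool.Agent.Work.MP_418764_co.OracleDef

namespace Pool.Agent.Work.MP_418764_co
open Finset

def ppos (sd : Bool) (l r : ℤ) : ℤ := if sd then r + 1 else -l - 1
def pin (sd : Bool) (l r : ℤ) : ℤ := if sd then r else -l
def pout (sd : Bool) (l r : ℤ) : ℤ := if sd then -l else r

/-- colour of the vertex with key `c` at the active end, `b` in the middle, `e` at the other end -/
def vert {m N : ℕ} {S : Type} (O : Oracle m N S) (sd : Bool) (l r : ℤ) (κ : ℤ → Fin m → S)
    (c b e : S) : S := if sd then O.Φ l r κ c b e else O.Φ l r κ e b c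

theorem vert_ne {m N : ℕ} {S : Type} (O : Oracle m N S) (sd sd' : Bool) (l r l' r' : ℤ)
    (κ κ' : ℤ → Fin m → S) (c b e c' b' e' : S) (hl : 0 ≤ l) (hr : 0 ≤ r) (hll : l ≤ l')
    (hrr : r ≤ r') (hN : l' + r' + 4 ≤ N)
    (hs : (l = l' ∧ r = r') ∨ (-l' ≤ ppos sd l r ∧ ppos sd l r ≤ r'))
    (hcc : ∀ p p' i i', -l ≤ p → p ≤ r → -l' ≤ p' → p' ≤ r' →
      ((p = p' ∧ i ≠ i') ∨ p - p' = 1 ∨ p' - p = 1) → κ p i ≠ κ' p' i')
    (h1 : ∀ p' i', -l' ≤ p' → p' ≤ r' → |p' - ppos sd l r| ≤ 1 → c ≠ κ' p' i')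
    (h2 : ∀ p' i', -l' ≤ p' → p' ≤ r' → (r < p' ∨ p' < -l) → b ≠ κ' p' i' ∧ e ≠ κ' p' i')
    (h3 : ∀ i', e ≠ κ' (pout sd l r) i')
    (h4 : ∀ p i, -l ≤ p → p ≤ r → |p - ppos sd' l' r'| ≤ 1 → κ p i ≠ c')
    (h5 : -l ≤ pout sd' l' r' → pout sd' l' r' ≤ r → ∀ i, κ (pout sd' l' r') i ≠ e')
    (h61 : b ≠ c') (h62 : b ≠ b') (h63 : b ≠ e') (h64 : e ≠ c') (h65 : e ≠ b') (h66 : e ≠ e')
    (h7 : |ppos sd l r - ppos sd' l' r'| ≤ 1 → c ≠ c')
    (h8 : l = l' → r = r' → c ≠ b' ∧ c ≠ e')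
    (h9 : pout sd' l' r' = ppos sd l r → c ≠ e') :
    vert O sd l r κ c b e ≠ vert O sd' l' r' κ' c' b' e' := by
  simp only [abs_le] at h1 h4 h7
  have h2b : ∀ p' i', -l' ≤ p' → p' ≤ r' → (r < p' ∨ p' < -l) → b ≠ κ' p' i' :=
    fun p' i' a1 a2 a3 => (h2 p' i' a1 a2 a3).1
  cases sd <;> cases sd' <;>
    simp only [vert, ppos, pout, if_true, if_false, Bool.false_eq_true] at * <;>
    refine O.P1 l r l' r' κ κ' _ _ _ _ _ _ hl hr hll hrr hN hcc ?_ ?_ h2b ?_ ?_ ?_ h62 ?_ ?_ ?_ ?_ ?_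
  -- left, left
  · intro p' i' a1 a2 a3 a4
    rcases eq_or_lt_of_le a3 with h | h
    · rw [← h]; exact h3 i'
    · exact (h2 p' i' a1 a2 (Or.inl h)).2
  · intro p' i' a1 a2 a3 a4; exact h1 p' i' a1 a2 (by omega)
  · intro h i; subst h; exact h5 (by omega) le_rfl i
  · intro h i; exact h4 _ i le_rfl (by omega) (by omega)
  · exact h63
  · exact h61
  · exact fun _ => h66
  · exact fun _ => h65
  · intro h; exact h7 (by omega)
  · intro h; exact (h8 h (by omega)).1
  -- left, right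
  · intro p' i' a1 a2 a3 a4
    rcases eq_or_lt_of_le a3 with h | h
    · rw [← h]; exact h3 i'
    · exact (h2 p' i' a1 a2 (Or.inl h)).2
  · intro p' i' a1 a2 a3 a4; exact h1 p' i' a1 a2 (by omega)
  · intro h i; exact h4 _ i (by omega) le_rfl (by omega)
  · intro h i; subst h; exact h5 le_rfl (by omega) i
  · exact h61
  · exact h63
  · exact fun _ => h64
  · exact fun _ => h65
  · intro h
    rcases hs with hs | hs
    · exact (h8 hs.1 hs.2).2
    · exact h9 (by omega)
  · intro h; exact (h8 h (by omega)).1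
  -- right, left
  · intro p' i' a1 a2 a3 a4; exact h1 p' i' a1 a2 (by omega)
  · intro p' i' a1 a2 a3 a4
    rcases eq_or_lt_of_le a4 with h | h
    · rw [h]; exact h3 i'
    · exact (h2 p' i' a1 a2 (Or.inr h)).2
  · intro h i; subst h; exact h5 (by omega) le_rfl i
  · intro h i; exact h4 _ i le_rfl (by omega) (by omega)
  · exact h63
  · exact h61
  · intro h
    rcases hs with hs | hs
    · exact (h8 hs.1 hs.2).2
    · exact h9 (by omega)
  · intro h; exact (h8 (by omega) h).1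
  · exact fun _ => h64
  · exact fun _ => h65
  -- right, right
  · intro p' i' a1 a2 a3 a4; exact h1 p' i' a1 a2 (by omega)
  · intro p' i' a1 a2 a3 a4
    rcases eq_or_lt_of_le a4 with h | h
    · rw [h]; exact h3 i'
    · exact (h2 p' i' a1 a2 (Or.inr h)).2
  · intro h i; exact h4 _ i (by omega) le_rfl (by omega)
  · intro h i; subst h; exact h5 le_rfl (by omega) i
  · exact h61
  · exact h63
  · intro h; exact h7 (by omega)
  · intro h; exact (h8 (by omega) h).1
  · exact fun _ => h66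
  · exact fun _ => h65

/-- greedy choice of a small hitting set -/
theorem greedy {Ω τ : Type} [Fintype τ] [DecidableEq τ] [DecidableEq Ω] [Nonempty τ]
    (W : Finset Ω) (G : Ω → Finset τ) (D : ℕ)
    (hG : ∀ ω ∈ W, Fintype.card τ ≤ (D + 1) * (G ω).card) (k : ℕ) :
    ∃ S : Finset τ, S.card ≤ k ∧
      (W.filter (fun ω => Disjoint (G ω) S)).card * (D + 1) ^ k ≤ W.card * D ^ k := by
  induction k with
  | zero => exact ⟨∅, le_rfl, by simp⟩
  | succ k ih =>
    obtain ⟨S, hS, h⟩ := ih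
    set U := W.filter (fun ω => Disjoint (G ω) S) with hU
    have h1 : ∑ x : τ, (U.filter (fun ω => x ∈ G ω)).card = ∑ ω ∈ U, (G ω).card := by
      simp only [card_filter]
      rw [sum_comm]
      refine sum_congr rfl fun ω _ => ?_
      rw [← card_filter]; simp
    have h2 : ∑ _x : τ, U.card ≤ ∑ x : τ, (D + 1) * (U.filter (fun ω => x ∈ G ω)).card := by
      rw [← mul_sum, h1, mul_sum, sum_const, card_univ, smul_eq_mul, mul_comm, ← smul_eq_mul,
        ← sum_const]
      exact sum_le_sum fun ω hω => hG ω (mem_filter.mp hω).1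
    obtain ⟨x, -, hx⟩ := exists_le_of_sum_le univ_nonempty h2
    refine ⟨insert x S, (card_insert_le _ _).trans (by omega), ?_⟩
    have h3 : W.filter (fun ω => Disjoint (G ω) (insert x S)) = U.filter (fun ω => ¬ x ∈ G ω) := by
      ext ω
      simp only [hU, mem_filter, disjoint_insert_right]; tauto
    have h4 := card_filter_add_card_filter_not (s := U) (fun ω => x ∈ G ω)
    rw [h3]
    have h5 : (U.filter (fun ω => ¬ x ∈ G ω)).card * (D + 1) ≤ U.card * D := by nlinarith
    calc _ = (U.filter (fun ω => ¬ x ∈ G ω)).card * (D + 1) * (D + 1) ^ k := by ring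
      _ ≤ U.card * D * (D + 1) ^ k := by gcongr
      _ = U.card * (D + 1) ^ k * D := by ring
      _ ≤ W.card * D ^ k * D := by gcongr
      _ = _ := by ring

theorem greedy' {Ω τ : Type} [Fintype τ] [DecidableEq τ] [DecidableEq Ω] [Nonempty τ]
    (W : Finset Ω) (G : Ω → Finset τ) (D E k : ℕ)
    (hG : ∀ ω ∈ W, Fintype.card τ ≤ (D + 1) * (G ω).card) (hk : E * D ^ k ≤ (D + 1) ^ k) :
    ∃ S : Finset τ, S.card ≤ k ∧ E * (W.filter (fun ω => Disjoint (G ω) S)).card ≤ W.card := by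
  obtain ⟨S, hS, h⟩ := greedy W G D hG k
  refine ⟨S, hS, ?_⟩
  have h0 : 0 < (D + 1) ^ k := by positivity
  apply Nat.le_of_mul_le_mul_right _ h0
  calc _ = E * ((W.filter (fun ω => Disjoint (G ω) S)).card * (D + 1) ^ k) := by ring
    _ ≤ E * (W.card * D ^ k) := by gcongr
    _ = W.card * (E * D ^ k) := by ring
    _ ≤ _ := by gcongr

theorem exists_pow_ratio (D E : ℕ) : ∃ k, E * D ^ k ≤ (D + 1) ^ k := by
  rcases Nat.eq_zero_or_pos D with rfl | hD
  · exact ⟨1, by simp⟩
  have h1 : (1 : ℝ) < (D + 1) / D := by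
    rw [lt_div_iff₀ (by exact_mod_cast hD)]; linarith
  obtain ⟨k, hk⟩ := pow_unbounded_of_one_lt (E : ℝ) h1
  refine ⟨k, ?_⟩
  rw [div_pow, lt_div_iff₀ (by positivity)] at hk
  exact_mod_cast hk.le

/-- few pairs touch a small set -/
theorem touch_card {m : ℕ} {S : Type} [DecidableEq S] (f g : Fin m → S)
    (hf : Function.Injective f) (hg : Function.Injective g) (B : Finset S) :
    ((univ : Finset (Fin m × Fin m)).filter (fun be => f be.1 ∈ B ∨ g be.2 ∈ B)).card ≤
      2 * B.card * m := by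
  have h1 : ∀ f : Fin m → S, Function.Injective f → (univ.filter (fun i => f i ∈ B)).card ≤ B.card :=
    fun f hf => card_le_card_of_injOn f (fun i hi => (mem_filter.mp hi).2) hf.injOn
  have h2 : (univ : Finset (Fin m × Fin m)).filter (fun be => f be.1 ∈ B ∨ g be.2 ∈ B) ⊆
      (univ.filter (fun i => f i ∈ B)) ×ˢ univ ∪ univ ×ˢ (univ.filter (fun i => g i ∈ B)) := by
    intro be h
    simpa using h
  refine (card_le_card h2).trans ((card_union_le _ _).trans ?_)
  rw [card_product, card_product, card_univ, Fintype.card_fin]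
  have := h1 f hf
  have := h1 g hg
  nlinarith

theorem filter_avoid {m : ℕ} {S : Type} [DecidableEq S] (f g : Fin m → S)
    (hf : Function.Injective f) (hg : Function.Injective g) (B : Finset S)
    (G : Finset (Fin m × Fin m)) :
    G.card ≤ (G.filter (fun be => f be.1 ∉ B ∧ g be.2 ∉ B)).card + 2 * B.card * m := by
  have h1 := card_filter_add_card_filter_not (s := G) (fun be => f be.1 ∉ B ∧ g be.2 ∉ B)
  have h2 : (G.filter (fun be => ¬ (f be.1 ∉ B ∧ g be.2 ∉ B))).card ≤ 2 * B.card * m := by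
    refine le_trans (card_le_card ?_) (touch_card f g hf hg B)
    intro be h
    simp only [mem_filter, mem_univ, true_and] at h ⊢
    tauto
  omega

end Pool.Agent.Work.MP_418764_co
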